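import Pool.Agent.Lib.MP_72f242_pr.Anti

/-! A multiscale central limit theorem for functionals whose surface effects are of the order
of their fluctuations. -/

set_option autoImplicit false

namespace Pool.Agent.TSP72

open Finset

/-- The block of coordinates with label `c`. -/
def blk {ι κ : Type} [Fintype ι] [DecidableEq κ] (q : ι → κ) (c : κ) : Finset ι :=
  univ.filter fun i => q i = c

lemma blk_disj {ι κ : Type} [Fintype ι] [DecidableEq κ] (q : ι → κ) (s : Set κ) :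
    s.PairwiseDisjoint (blk q) := by
  intro a _ b _ hab
  simp only [Function.onFun, blk]
  rw [disjoint_filter]
  intro i _ h1 h2
  exact hab (h1.symm.trans h2)

lemma biUnion_blk {ι κ : Type} [Fintype ι] [DecidableEq ι] [DecidableEq κ] (q : ι → κ) :
    (univ.image q).biUnion (blk q) = univ := by
  ext i
  simp [blk]

/-- `F` splits along `Λ` up to an error `c`. -/
def Split {ι β : Type} [Fintype ι] [DecidableEq ι] (F : (ι → β) → ℝ) (Λ : Finset ι) (c : ℝ) :
    Prop :=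
  ∃ a b : (ι → β) → ℝ, Ind Λᶜ a ∧ Ind Λ b ∧ ∀ ω, |F ω - a ω - b ω| ≤ c

namespace PW

variable {ι β : Type} [Fintype ι] [DecidableEq ι] [Fintype β] (P : PW β)

lemma abs_sub_E_le {f : (ι → β) → ℝ} {c : ℝ} (h : ∀ ω, |f ω| ≤ c) (S : Finset ι) (ω : ι → β) :
    |(f - P.E S f) ω| ≤ 2 * c := by
  have := P.abs_E_le (S := S) h ω
  have h2 := abs_sub (f ω) (P.E S f ω)
  simp only [Pi.sub_apply]
  linarith [h ω]

lemma surf {F : (ι → β) → ℝ} {Λ Λ' : Finset ι} {c : ℝ} (h : Split F Λ' c) (hΛ : Λ' ⊆ Λ)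
    (ω : ι → β) : |((F - P.E Λᶜ F) - P.E Λ' (F - P.E Λᶜ F)) ω| ≤ 4 * c := by
  obtain ⟨a, b, ha, hb, he⟩ := h
  have e0 : F = a + b + (F - a - b) := by ring
  have e1 : F - P.E Λᶜ F = (b - P.E Λᶜ b) + ((F - a - b) - P.E Λᶜ (F - a - b)) := by
    have : P.E Λᶜ F = a + P.E Λᶜ b + P.E Λᶜ (F - a - b) := by
      conv_lhs => rw [e0]
      rw [E_add, E_add, P.E_of_ind (ha.mono (compl_subset_compl.2 hΛ))]
    rw [this]; ring
  have e2 : (F - P.E Λᶜ F) - P.E Λ' (F - P.E Λᶜ F) =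
      ((F - a - b) - P.E Λᶜ (F - a - b)) - P.E Λ' ((F - a - b) - P.E Λᶜ (F - a - b)) := by
    rw [e1, E_add, P.E_of_ind (hb.sub (P.ind_E hb _))]; ring
  rw [e2]
  have := P.abs_sub_E_le (P.abs_sub_E_le (f := F - a - b) he Λᶜ) Λ' ω
  linarith

lemma anti_cond {κ : Type*} [DecidableEq κ] {ε c : ℝ} (hε : 0 < ε) (hc : 0 < c) (s : Finset κ)
    (B : κ → Finset ι) (hB : (s : Set κ).PairwiseDisjoint B) (g : (ι → β) → ℝ)
    (hG : ∀ ω, |(g - P.E (s.biUnion B) g) ω| ≤ c)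
    (hs : ∀ k ∈ s, ∀ ω, |P.Y (s.biUnion B) (B k) g ω| ≤ c / (2 * th ε)) :
    ∑ k ∈ s, P.N (P.Y (s.biUnion B) (B k) g) ≤ ε * c ^ 2 + KK ε * P.N (P.H s B g) := by
  set U := s.biUnion B with hU
  have key : ∀ ω0, ∑ k ∈ s, P.E U (fun ω => P.Y U (B k) g ω ^ 2) ω0 ≤
      ε * c ^ 2 + KK ε * P.E U (fun ω => P.H s B g ω ^ 2) ω0 := by
    intro ω0
    have := P.anti hε hc s B hB (fun k η => P.Y U (B k) g (U.piecewise η ω0)) ?_ ?_
      (fun k hk η => hs k hk _) (fun η => (g - P.E U g) (U.piecewise η ω0)) (fun η => hG _)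
    · refine this.trans (le_of_eq ?_)
      congr 2
      simp only [N, E]
      congr 1
      funext η
      simp [H, hU]
    · intro k hk ξ η
      have h1 : Ind (U \ B k) (P.Y U (B k) g) :=
        (P.ind_E_self _ _).sub (P.ind_E_of_subset sdiff_subset _)
      have h2 : U.piecewise ((B k)ᶜ.piecewise ξ η) ω0 =
          (U \ B k).piecewise ξ (U.piecewise η ω0) := by
        funext i
        by_cases a : i ∈ U <;> by_cases b : i ∈ B k <;> simp [piecewise, a, b]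
      simp only [h2, h1 _ _]
    · intro k hk
      have : P.E U (P.Y U (B k) g) = 0 := by
        rw [Y, E_sub, E_E, E_E, union_self, union_eq_left.2 sdiff_subset, sub_self]
      exact congrFun this ω0
  have := P.Ex_mono key
  rw [Ex_sum, Ex_add, Ex_const, Ex_const_mul] at this
  simp only [Ex_E] at this
  exact this

lemma box_step {κ : Type*} [DecidableEq κ] {ε c : ℝ} (hε : 0 < ε) (hc : 0 < c) (s : Finset κ)
    (B : κ → Finset ι) (hB : (s : Set κ).PairwiseDisjoint B) (F : (ι → β) → ℝ)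
    (h1 : Split F (s.biUnion B) c) (h2 : ∀ k ∈ s, Split F (B k) (c / (2 * th ε))) :
    P.N (F - P.E (s.biUnion B) F) - P.N (P.Y univ (s.biUnion B) F) ≤
      ε * (4 * c) ^ 2 +
        (KK ε + 1) * (∑ k ∈ s, P.N (F - P.E (B k) F) - P.N (F - P.E (s.biUnion B) F)) := by
  set U := s.biUnion B with hU
  set g := F - P.E Uᶜ F with hg
  have hsp : ∀ S : Finset ι, P.N (F - P.E S F) =
      P.N (P.E Uᶜ F - P.E S (P.E Uᶜ F)) + P.N (g - P.E S g) := by
    intro S
    rw [P.N_pyth Uᶜ (F - P.E S F), E_sub, hg, E_sub, P.E_comm Uᶜ S]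
    congr 2
    ring
  have hY : P.Y univ U F = P.E Uᶜ F - P.E U (P.E Uᶜ F) := by
    rw [Y, E_E, union_compl, compl_eq_univ_sdiff]
  have a1 := P.anti_cond hε (c := 4 * c) (by positivity) s B hB g
    (fun ω => P.surf h1 subset_rfl ω) (fun k hk ω => by
      have hk' : B k ⊆ U := subset_biUnion_of_mem B hk
      have : P.Y U (B k) g = P.E (U \ B k) (g - P.E (B k) g) := by
        rw [Y, P.E_sub _ g, P.E_E _ (B k), sdiff_union_of_subset hk']
      rw [this, mul_div_assoc]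
      exact P.abs_E_le (P.surf (h2 k hk) hk') ω)
  have a2 := P.N_H_eq s B hB g
  have a3 := P.N_H_le s B hB g
  have a4 := P.N_ES s B (P.E Uᶜ F)
  have a5 : P.N (P.H s B g) ≤ ∑ k ∈ s, P.N (F - P.E (B k) F) - P.N (F - P.E U F) := by
    simp only [hsp, sum_add_distrib]
    rw [← hU] at a3 a4
    linarith
  have a6 := mul_le_mul_of_nonneg_left a5 (show 0 ≤ KK ε + 1 by linarith [KK_pos ε])
  rw [← hU] at a1 a2
  rw [hY, hsp U]
  rw [hsp U] at a6
  linarith

end PW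

lemma exists_small_step (a : ℕ → ℝ) {A : ℝ} {J : ℕ} (hJ : 1 ≤ J) (h0 : 0 ≤ a 1)
    (h1 : a (J + 1) ≤ A) : ∃ j, 1 ≤ j ∧ j ≤ J ∧ a (j + 1) - a j ≤ A / J := by
  have hs : ∑ j ∈ range J, (a (j + 1 + 1) - a (j + 1)) ≤ ∑ _j ∈ range J, A / J := by
    rw [sum_range_sub (fun j => a (j + 1)), sum_const, card_range, nsmul_eq_mul,
      mul_div_cancel₀ _ (by positivity)]
    linarith
  obtain ⟨j, hj, h⟩ := exists_le_of_sum_le (nonempty_range_iff.2 (by omega)) hs
  exact ⟨j + 1, by omega, by simpa using hj, h⟩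

theorem AW {C A η : ℝ} (hC : 0 < C) (hA : 0 < A) (hη : 0 < η) : ∃ M J : ℕ, 1 ≤ M ∧
    ∀ (ι β κ : Type) [Fintype ι] [DecidableEq ι] [Fintype β] [DecidableEq κ] (P : PW β)
      (q : ℕ → ι → κ) (r : κ → κ) (F : (ι → β) → ℝ),
      (∀ j i, q j i = r (q (j + 1) i)) →
      (∀ j ≤ J + 1, ((univ.image (q j)).card : ℝ) ≤ ((M : ℝ) ^ j) ^ 2) →
      (∀ j ≤ J + 1, ∀ c ∈ univ.image (q j), Split F (blk (q j) c) (C / (M : ℝ) ^ j)) →
      (∀ j ≤ J + 1, ∀ c ∈ univ.image (q j),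
        P.Q (F - P.E (blk (q j) c) F) ≤ (A / ((M : ℝ) ^ j) ^ 2) ^ 2) →
      ‖P.Ex (fun ω => ce (F ω - P.Ex F)) -
        (Real.exp (-P.N (fun ω => F ω - P.Ex F) / 2) : ℝ)‖ ≤ η := by
  set ρ := η / 5 with hρ
  have hρ0 : 0 < ρ := by positivity
  set γ := min (ρ ^ 2) ρ with hγ
  have hγ0 : 0 < γ := lt_min (by positivity) hρ0
  set ε := γ / (32 * C ^ 2) with hε
  have hε0 : 0 < ε := by positivity
  set δ := ρ / A with hδ
  have hδ0 : 0 < δ := by positivity
  have hK := KK_pos ε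
  have hθ := th_pos hε0
  obtain ⟨J, hJ⟩ := exists_nat_ge (max 1 (2 * (KK ε + 1) * A / γ))
  obtain ⟨M, hM⟩ := exists_nat_ge (max 1 (max (2 * th ε) ((1 / δ + 5) * A ^ 2 / ρ)))
  have hM1 : (1 : ℝ) ≤ M := (le_max_left _ _).trans hM
  have hM2 : 2 * th ε ≤ M := (le_max_left _ _).trans ((le_max_right _ _).trans hM)
  have hM3 : (1 / δ + 5) * A ^ 2 / ρ ≤ M := (le_max_right _ _).trans ((le_max_right _ _).trans hM)
  have hJ1 : (1 : ℝ) ≤ J := (le_max_left _ _).trans hJ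
  have hJ2 : 2 * (KK ε + 1) * A / γ ≤ J := (le_max_right _ _).trans hJ
  refine ⟨M, J, by exact_mod_cast hM1, ?_⟩
  intro ι β κ _ _ _ _ P q r F hr hcard hsp hQ
  let a : ℕ → ℝ := fun j => ∑ c ∈ univ.image (q j), P.N (F - P.E (blk (q j) c) F)
  have ha : ∀ j ≤ J + 1, a j ≤ A := by
    intro j hj
    have hp : (0 : ℝ) < ((M : ℝ) ^ j) ^ 2 := by positivity
    calc a j ≤ ∑ _c ∈ univ.image (q j), A / ((M : ℝ) ^ j) ^ 2 :=
          sum_le_sum fun c hc => P.N_le_of_Q (by positivity) (hQ j hj c hc)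
      _ ≤ ((M : ℝ) ^ j) ^ 2 * (A / ((M : ℝ) ^ j) ^ 2) := by
          rw [sum_const, nsmul_eq_mul]
          gcongr
          exact hcard j hj
      _ = A := by field_simp
  obtain ⟨j, hj1, hjJ, hstep⟩ := exists_small_step a (A := A) (J := J) (by exact_mod_cast hJ1)
    (sum_nonneg fun _ _ => P.N_nonneg _) (ha _ le_rfl)
  have hp : (0 : ℝ) < (M : ℝ) ^ j := by positivity
  set I := univ.image (q j) with hI
  set b := ∑ c ∈ I, P.N (P.Y univ (blk (q j) c) F) with hb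
  have hchild : ∀ c, ((univ.image (q (j + 1))).filter fun d => r d = c).biUnion
      (blk (q (j + 1))) = blk (q j) c := by
    intro c
    ext i
    simp [blk, hr j i]
  have hab : a j - b ≤ γ := by
    have h1 : ∀ c ∈ I, P.N (F - P.E (blk (q j) c) F) - P.N (P.Y univ (blk (q j) c) F) ≤
        ε * (4 * (C / (M : ℝ) ^ j)) ^ 2 + (KK ε + 1) *
          (∑ d ∈ (univ.image (q (j + 1))).filter fun d => r d = c,
            P.N (F - P.E (blk (q (j + 1)) d) F) - P.N (F - P.E (blk (q j) c) F)) := by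
      intro c hc
      have := P.box_step hε0 (c := C / (M : ℝ) ^ j) (by positivity)
        ((univ.image (q (j + 1))).filter fun d => r d = c) (blk (q (j + 1))) (blk_disj _ _) F
        (by rw [hchild]; exact hsp j (by omega) c hc) (fun d hd => by
          obtain ⟨x, y, hx, hy, h⟩ := hsp (j + 1) (by omega) d (mem_filter.1 hd).1
          refine ⟨x, y, hx, hy, fun ω => (h ω).trans ?_⟩
          rw [pow_succ, ← div_div]
          gcongr)
      rwa [hchild] at this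
    have h2 := sum_le_sum h1
    rw [sum_sub_distrib, sum_add_distrib, ← mul_sum, ← mul_sum, sum_sub_distrib,
      sum_fiberwise_of_maps_to (by
        intro d hd
        obtain ⟨i, -, rfl⟩ := mem_image.1 hd
        exact mem_image.2 ⟨i, mem_univ _, hr j i⟩), sum_const, nsmul_eq_mul] at h2
    have h3 : ε * ((I.card : ℝ) * (4 * (C / (M : ℝ) ^ j)) ^ 2) ≤ γ / 2 := by
      calc _ ≤ ε * (((M : ℝ) ^ j) ^ 2 * (4 * (C / (M : ℝ) ^ j)) ^ 2) := by
            gcongr
            exact hcard j (by omega)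
        _ = γ / 2 := by rw [hε]; field_simp; ring
    have h4 : (KK ε + 1) * (a (j + 1) - a j) ≤ γ / 2 := by
      calc _ ≤ (KK ε + 1) * (A / J) := by gcongr
        _ ≤ γ / 2 := by
          rw [div_le_iff₀ hγ0] at hJ2
          rw [← mul_div_assoc, div_le_iff₀ (by positivity)]
          linarith
    simp only [a] at h4 ⊢
    linarith
  have hU : I.biUnion (blk (q j)) = univ := biUnion_blk _
  have hEF : F - P.E univ F = fun ω => F ω - P.Ex F := by rw [P.E_univ]; rfl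
  set V := P.N (fun ω => F ω - P.Ex F) with hV
  have hVa : V ≤ a j := by
    have := P.N_ES I (blk (q j)) F
    rwa [hU, hEF] at this
  have hH := P.N_H_eq I (blk (q j)) (blk_disj _ _) F
  rw [hU, hEF] at hH
  have hH0 := P.N_nonneg (P.H I (blk (q j)) F)
  have hb0 : 0 ≤ b := sum_nonneg fun _ _ => P.N_nonneg _
  have hYE : ∀ c, P.Y univ (blk (q j) c) F = P.E (blk (q j) c)ᶜ (F - P.E (blk (q j) c) F) := by
    intro c
    rw [PW.Y, P.E_sub, P.E_E, ← compl_eq_univ_sdiff, union_comm, union_compl]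
  have hclt := P.clt_sum hδ0 I (blk (q j)) (blk_disj _ _) (fun c => P.Y univ (blk (q j) c) F)
    (fun c _ => by rw [hYE]; exact P.ind_E_self _ _)
    (fun c _ => by
      rw [hYE, P.Ex_E, ← P.Ex_E (blk (q j) c), P.E_sub_E]
      exact P.Ex_const 0)
  have t1 : δ * b ≤ ρ := by
    calc δ * b ≤ δ * A := by
          gcongr
          linarith [ha j (by omega)]
      _ = ρ := by rw [hδ]; field_simp
  have t2 : (1 / δ + 5) * ∑ c ∈ I, P.Q (P.Y univ (blk (q j) c) F) ≤ ρ := by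
    have u1 : ∑ c ∈ I, P.Q (P.Y univ (blk (q j) c) F) ≤ A ^ 2 / M := by
      calc _ ≤ ∑ _c ∈ I, (A / ((M : ℝ) ^ j) ^ 2) ^ 2 := sum_le_sum fun c hc => by
            rw [hYE]
            exact (P.Q_E_le _ _).trans (hQ j (by omega) c hc)
        _ ≤ ((M : ℝ) ^ j) ^ 2 * (A / ((M : ℝ) ^ j) ^ 2) ^ 2 := by
            rw [sum_const, nsmul_eq_mul]
            gcongr
            exact hcard j (by omega)
        _ = A ^ 2 / ((M : ℝ) ^ j) ^ 2 := by field_simp
        _ ≤ A ^ 2 / M := by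
            gcongr
            rw [← pow_mul]
            exact le_self_pow₀ hM1 (by omega)
    calc _ ≤ (1 / δ + 5) * (A ^ 2 / M) := by gcongr
      _ ≤ ρ := by
        rw [div_le_iff₀ hρ0] at hM3
        rw [← mul_div_assoc, div_le_iff₀ (by positivity)]
        linarith
  have t3 : ‖P.Ex (fun ω => ce (F ω - P.Ex F)) -
      P.Ex (fun ω => ce ((∑ c ∈ I, P.Y univ (blk (q j) c) F) ω))‖ ≤ 2 * ρ := by
    rw [← P.Ex_sub]
    refine (P.norm_Ex_le _).trans ?_
    have u1 : ∀ ω, ‖ce (F ω - P.Ex F) - ce ((∑ c ∈ I, P.Y univ (blk (q j) c) F) ω)‖ ≤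
        ρ + 1 / ρ * P.H I (blk (q j)) F ω ^ 2 := by
      intro ω
      refine (norm_ce_sub_le _ _).trans ?_
      have : F ω - P.Ex F - (∑ c ∈ I, P.Y univ (blk (q j) c) F) ω = P.H I (blk (q j)) F ω := by
        rw [PW.H, hU, hEF]; rfl
      rw [this, ← sq_abs]
      set y := |P.H I (blk (q j)) F ω|
      have hy : 0 ≤ y := abs_nonneg _
      have v1 : ρ + 1 / ρ * y ^ 2 - 2 * y = 1 / ρ * (ρ - y) ^ 2 := by field_simp; ring
      have v2 : 0 ≤ 1 / ρ * (ρ - y) ^ 2 := by positivity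
      linarith
    refine (P.Ex_mono u1).trans ?_
    rw [P.Ex_add, P.Ex_const, P.Ex_const_mul]
    have u2 : 1 / ρ * P.N (P.H I (blk (q j)) F) ≤ ρ := by
      calc _ ≤ 1 / ρ * ρ ^ 2 := by
            gcongr
            linarith [min_le_left (ρ ^ 2) ρ]
        _ = ρ := by field_simp
    unfold PW.N at u2
    linarith
  have t4 : ‖((Real.exp (-b / 2) : ℝ) : ℂ) - (Real.exp (-V / 2) : ℝ)‖ ≤ ρ := by
    rw [← Complex.ofReal_sub, Complex.norm_real, Real.norm_eq_abs]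
    have u1 : Real.exp (-V / 2) = Real.exp (-b / 2) * Real.exp (-((V - b) / 2)) := by
      rw [← Real.exp_add]; congr 1; ring
    have u2 : Real.exp (-b / 2) ≤ 1 := Real.exp_le_one_iff.2 (by linarith)
    have u3 := Real.add_one_le_exp (-((V - b) / 2))
    have u4 : Real.exp (-((V - b) / 2)) ≤ 1 := Real.exp_le_one_iff.2 (by linarith)
    have u5 := Real.exp_pos (-b / 2)
    have u6 := min_le_right (ρ ^ 2) ρ
    rw [u1, abs_of_nonneg (by nlinarith)]
    nlinarith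
  have t5 := norm_sub_le_norm_sub_add_norm_sub (P.Ex (fun ω => ce (F ω - P.Ex F)))
    (P.Ex (fun ω => ce ((∑ c ∈ I, P.Y univ (blk (q j) c) F) ω))) ((Real.exp (-V / 2) : ℝ) : ℂ)
  have t6 := norm_sub_le_norm_sub_add_norm_sub
    (P.Ex (fun ω => ce ((∑ c ∈ I, P.Y univ (blk (q j) c) F) ω))) ((Real.exp (-b / 2) : ℝ) : ℂ)
    ((Real.exp (-V / 2) : ℝ) : ℂ)
  linarith

end Pool.Agent.TSP72
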