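import Pool.Agent.Lib.MP_72f242_pr.Prod

/-! Sums of small independent variables are not bounded, and they are close to Gaussian. -/

set_option autoImplicit false

namespace Pool.Agent.TSP72

open Finset

/-- The character `exp (i x)`. -/
noncomputable def ce (x : ℝ) : ℂ := Complex.exp (Complex.I * x)

lemma norm_ce (x : ℝ) : ‖ce x‖ = 1 := Complex.norm_exp_I_mul_ofReal x

lemma ce_zero : ce 0 = 1 := by simp [ce]

lemma ce_add (x y : ℝ) : ce (x + y) = ce x * ce y := by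
  simp [ce, mul_add, Complex.exp_add]

lemma ce_sum {κ : Type*} (s : Finset κ) (y : κ → ℝ) : ce (∑ k ∈ s, y k) = ∏ k ∈ s, ce (y k) := by
  simp [ce, mul_sum, Complex.exp_sum]

lemma norm_ce_sub_le (x y : ℝ) : ‖ce x - ce y‖ ≤ |x - y| := by
  have : ce x - ce y = ce y * (ce (x - y) - 1) := by
    rw [mul_sub, ← ce_add]; simp
  rw [this, norm_mul, norm_ce, one_mul]
  exact Real.norm_exp_I_mul_ofReal_sub_one_le

lemma norm_ce_taylor (y : ℝ) {δ : ℝ} (hδ : 0 < δ) :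
    ‖ce y - (1 + Complex.I * y - ((y ^ 2 / 2 : ℝ) : ℂ))‖ ≤ δ * y ^ 2 + (1 / δ + 4) * y ^ 4 := by
  have h4 : y ^ 4 = |y| ^ 4 := by rw [← abs_pow, abs_of_nonneg (by positivity)]
  have h2 : y ^ 2 = |y| ^ 2 := (sq_abs y).symm
  have hy := abs_nonneg y
  rcases le_total |y| 1 with h | h
  · have hb := Complex.exp_bound (x := Complex.I * y) (by simpa using h) (n := 3) (by norm_num)
    have e : ∑ m ∈ range 3, (Complex.I * y) ^ m / (m.factorial : ℂ) =
        1 + Complex.I * y - ((y ^ 2 / 2 : ℝ) : ℂ) := by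
      simp [sum_range_succ, mul_pow, Nat.factorial]; ring
    rw [e] at hb
    refine hb.trans ?_
    have e2 : ‖Complex.I * y‖ = |y| := by simp
    rw [e2, h4, h2]
    have h5 : |y| ^ 3 ≤ δ * |y| ^ 2 + 1 / δ * |y| ^ 4 := by
      have : δ * |y| ^ 2 + 1 / δ * |y| ^ 4 - 2 * |y| ^ 3 = (1 / δ) * (δ * |y| - |y| ^ 2) ^ 2 := by
        field_simp; ring
      have h6 : 0 ≤ (1 / δ) * (δ * |y| - |y| ^ 2) ^ 2 := by positivity
      have h7 : 0 ≤ |y| ^ 3 := by positivity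
      linarith
    have h7 : 0 ≤ |y| ^ 3 := by positivity
    have h8 : 0 ≤ |y| ^ 4 := by positivity
    norm_num [Nat.factorial]
    norm_num at h5
    nlinarith
  · have e : ‖ce y - (1 + Complex.I * y - ((y ^ 2 / 2 : ℝ) : ℂ))‖ ≤ 1 + (1 + |y| + y ^ 2 / 2) := by
      refine (norm_sub_le _ _).trans ?_
      rw [norm_ce]
      gcongr
      refine (norm_sub_le _ _).trans ?_
      gcongr
      · refine (norm_add_le _ _).trans ?_
        simp
      · rw [Complex.norm_real, Real.norm_of_nonneg (by positivity)]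
    refine e.trans ?_
    rw [h4, h2]
    have a1 : 1 ≤ |y| ^ 4 := one_le_pow₀ h
    have a2 : |y| ≤ |y| ^ 4 := le_self_pow₀ h (by norm_num)
    have a3 : |y| ^ 2 ≤ |y| ^ 4 := pow_le_pow_right₀ h (by norm_num)
    have a4 : 0 ≤ δ * |y| ^ 2 := by positivity
    have a5 : 0 ≤ 1 / δ * |y| ^ 4 := by positivity
    nlinarith

lemma norm_prod_sub_prod {κ : Type*} (s : Finset κ) (a b : κ → ℂ) (ha : ∀ k ∈ s, ‖a k‖ ≤ 1)
    (hb : ∀ k ∈ s, ‖b k‖ ≤ 1) : ‖∏ k ∈ s, a k - ∏ k ∈ s, b k‖ ≤ ∑ k ∈ s, ‖a k - b k‖ := by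
  classical
  induction s using Finset.induction_on with
  | empty => simp
  | insert k s hk ih =>
    rw [prod_insert hk, prod_insert hk, sum_insert hk]
    have e : a k * ∏ j ∈ s, a j - b k * ∏ j ∈ s, b j =
        (a k - b k) * ∏ j ∈ s, a j + b k * (∏ j ∈ s, a j - ∏ j ∈ s, b j) := by ring
    rw [e]
    refine (norm_add_le _ _).trans ?_
    rw [norm_mul, norm_mul]
    have h1 : ‖∏ j ∈ s, a j‖ ≤ 1 := by
      rw [norm_prod]
      exact prod_le_one (fun _ _ => norm_nonneg _) fun j hj => ha j (mem_insert_of_mem hj)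
    have h2 := ih (fun j hj => ha j (mem_insert_of_mem hj)) fun j hj => hb j (mem_insert_of_mem hj)
    have h3 := hb k (mem_insert_self _ _)
    have h4 := norm_nonneg (a k - b k)
    have h5 := norm_nonneg (∏ j ∈ s, a j - ∏ j ∈ s, b j)
    nlinarith

lemma exp_lower {y : ℝ} (h : |y| ≤ 1) : 1 + y + y ^ 2 / 4 ≤ Real.exp y := by
  have hb := Real.exp_bound h (n := 3) (by norm_num)
  have e : ∑ m ∈ range 3, y ^ m / (m.factorial : ℝ) = 1 + y + y ^ 2 / 2 := by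
    simp [sum_range_succ, Nat.factorial]
  rw [e] at hb
  have h2 : |y| ^ 3 ≤ y ^ 2 := by
    rw [← sq_abs y]; exact pow_le_pow_of_le_one (abs_nonneg y) h (by norm_num)
  norm_num [Nat.factorial] at hb
  have := (abs_le.1 hb).1
  nlinarith [sq_nonneg y]

lemma exp_upper {y : ℝ} (h : |y| ≤ 1) : Real.exp y ≤ 1 + y + y ^ 2 := by
  have := (abs_le.1 (Real.abs_exp_sub_one_sub_id_le h)).2
  linarith

lemma exp_neg_sub_le {x : ℝ} (hx : 0 ≤ x) : |Real.exp (-x) - (1 - x)| ≤ x ^ 2 := by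
  have h1 := Real.add_one_le_exp (-x)
  rw [abs_of_nonneg (by linarith)]
  rcases le_total x 1 with h | h
  · have := exp_upper (y := -x) (by rwa [abs_neg, abs_of_nonneg hx])
    nlinarith
  · have : Real.exp (-x) ≤ 1 := Real.exp_le_one_iff.2 (by linarith)
    nlinarith

/-- The exponent used in the anti boundedness lemma. -/
noncomputable def th (ε : ℝ) : ℝ := 32 / ε + 1

/-- The constant of the anti boundedness lemma. -/
noncomputable def KK (ε : ℝ) : ℝ := 4 * Real.exp (16 * th ε ^ 2) + 4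

lemma th_pos {ε : ℝ} (hε : 0 < ε) : 0 < th ε := by unfold th; positivity

lemma KK_pos (ε : ℝ) : 0 < KK ε := by unfold KK; positivity

namespace PW

variable {ι β : Type} [Fintype ι] [DecidableEq ι] [Fintype β] (P : PW β)
variable {κ : Type*}

lemma N_sum_indep (s : Finset κ) (B : κ → Finset ι) (hB : (s : Set κ).PairwiseDisjoint B)
    (Y : κ → (ι → β) → ℝ) (hY : ∀ k ∈ s, Ind (B k)ᶜ (Y k)) (h0 : ∀ k ∈ s, P.Ex (Y k) = 0) :
    P.N (∑ k ∈ s, Y k) = ∑ k ∈ s, P.N (Y k) := by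
  classical
  induction s using Finset.induction_on with
  | empty => simp [N, Ex_const]
  | insert k s hk ih =>
    rw [sum_insert hk, sum_insert hk, add_comm, P.N_add_orth (S := B k),
      ih (hB.subset (by simp)) (fun j hj => hY j (mem_insert_of_mem hj))
      (fun j hj => h0 j (mem_insert_of_mem hj)), add_comm]
    · refine Ind.sum fun j hj => (hY j (mem_insert_of_mem hj)).mono ?_
      exact subset_compl_iff_disjoint_right.2 (hB (mem_coe.2 (mem_insert_self k s))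
        (mem_coe.2 (mem_insert_of_mem hj)) (fun e => hk (e ▸ hj)))
    · rw [P.E_of_dep (hY k (mem_insert_self _ _)), h0 k (mem_insert_self _ _)]
      rfl

lemma anti_one {ε : ℝ} (hε : 0 < ε) (s : Finset κ) (B : κ → Finset ι)
    (hB : (s : Set κ).PairwiseDisjoint B) (Y : κ → (ι → β) → ℝ)
    (hY : ∀ k ∈ s, Ind (B k)ᶜ (Y k)) (h0 : ∀ k ∈ s, P.Ex (Y k) = 0)
    (hs : ∀ k ∈ s, ∀ ω, |Y k ω| ≤ 1 / (2 * th ε)) (G : (ι → β) → ℝ) (hG : ∀ ω, |G ω| ≤ 1) :
    ∑ k ∈ s, P.N (Y k) ≤ ε + KK ε * P.N (G - ∑ k ∈ s, Y k) := by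
  set v := ∑ k ∈ s, P.N (Y k) with hv
  set h := P.N (G - ∑ k ∈ s, Y k) with hh
  set θ := th ε with hθ
  have hθ0 : 0 < θ := th_pos hε
  have hθ1 : 1 ≤ θ := by
    have : 0 < 32 / ε := by positivity
    rw [hθ, th]; linarith
  have hh0 : 0 ≤ h := P.N_nonneg _
  set Λ := Real.exp (16 * θ ^ 2) with hΛ
  have hΛ0 : 0 < Λ := Real.exp_pos _
  have hK : KK ε = 4 * Λ + 4 := rfl
  rw [hK]
  by_contra hcon
  push Not at hcon
  have hv2 : v ≤ 2 + 2 * h := by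
    rw [hv, ← P.N_sum_indep s B hB Y hY h0, hh, N, N, ← Ex_const_mul, ← P.Ex_const (ι := ι) (2 : ℝ),
      ← Ex_add]
    refine P.Ex_mono fun ω => ?_
    have h1 : G ω ^ 2 ≤ 1 := by
      rw [← sq_abs]; exact pow_le_one₀ (abs_nonneg _) (hG ω)
    simp only [Ex_const, Pi.sub_apply]
    nlinarith [sq_nonneg (2 * G ω - (∑ k ∈ s, Y k) ω)]
  have hΛh : 0 ≤ Λ * h := by positivity
  have hv4 : v ≤ 4 := by nlinarith
  have hvε : ε ≤ v := by nlinarith
  have hsm : ∀ k ∈ s, ∀ ω, |2 * θ * Y k ω| ≤ 1 := by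
    intro k hk ω
    rw [abs_mul, abs_of_pos (by positivity)]
    have := hs k hk ω
    rwa [le_div_iff₀' (by positivity)] at this
  have hprod : ∀ t : ℝ, P.Ex (fun ω => Real.exp (t * (∑ k ∈ s, Y k) ω)) =
      ∏ k ∈ s, P.Ex fun ω => Real.exp (t * Y k ω) := by
    intro t
    rw [← P.Ex_prod_indep s B hB (fun k ω => Real.exp (t * Y k ω))
      fun k hk => (hY k hk).comp fun y => Real.exp (t * y)]
    simp only [Finset.sum_apply, mul_sum, Real.exp_sum]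
  have hlow : Real.exp (θ ^ 2 * v / 8) ≤ P.Ex (fun ω => Real.exp (θ * (∑ k ∈ s, Y k) ω)) := by
    rw [hprod, hv, mul_sum, sum_div, Real.exp_sum]
    refine prod_le_prod (fun _ _ => (Real.exp_pos _).le) fun k hk => ?_
    have a1 : P.Ex (fun ω => 1 + θ * Y k ω + θ ^ 2 / 4 * Y k ω ^ 2) ≤
        P.Ex fun ω => Real.exp (θ * Y k ω) := by
      refine P.Ex_mono fun ω => ?_
      have b1 := hsm k hk ω
      rw [mul_assoc, abs_mul, abs_two] at b1
      have := exp_lower (y := θ * Y k ω) (by linarith [abs_nonneg (θ * Y k ω)])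
      nlinarith
    rw [Ex_add, Ex_add, Ex_const, Ex_const_mul, Ex_const_mul, h0 k hk] at a1
    have a2 : θ ^ 2 * P.N (Y k) ≤ 1 := by
      rw [N, ← Ex_const_mul]
      refine P.Ex_le_const fun ω => ?_
      have b1 : (2 * θ * Y k ω) ^ 2 ≤ 1 := by
        rw [← sq_abs]; exact pow_le_one₀ (abs_nonneg _) (hsm k hk ω)
      nlinarith [sq_nonneg (θ * Y k ω)]
    have a3 : 0 ≤ θ ^ 2 * P.N (Y k) := mul_nonneg (sq_nonneg _) (P.N_nonneg _)
    have a4 := exp_upper (y := θ ^ 2 * P.N (Y k) / 8) (by rw [abs_of_nonneg] <;> linarith)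
    unfold N at a2 a3 a4 ⊢
    nlinarith
  have hup : P.Ex (fun ω => Real.exp (2 * θ * (∑ k ∈ s, Y k) ω)) ≤ Λ := by
    rw [hprod]
    calc _ ≤ ∏ k ∈ s, Real.exp (4 * θ ^ 2 * P.N (Y k)) := by
          refine prod_le_prod (fun _ _ => P.Ex_nonneg fun _ => (Real.exp_pos _).le) fun k hk => ?_
          have a1 : (P.Ex fun ω => Real.exp (2 * θ * Y k ω)) ≤
              P.Ex (fun ω => 1 + 2 * θ * Y k ω + 4 * θ ^ 2 * Y k ω ^ 2) := by
            refine P.Ex_mono fun ω => ?_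
            have := exp_upper (hsm k hk ω)
            nlinarith
          rw [Ex_add, Ex_add, Ex_const, Ex_const_mul, Ex_const_mul, h0 k hk] at a1
          have := Real.add_one_le_exp (4 * θ ^ 2 * P.N (Y k))
          unfold N at this ⊢
          linarith
      _ = Real.exp (4 * θ ^ 2 * v) := by rw [hv, mul_sum, Real.exp_sum]
      _ ≤ Λ := Real.exp_le_exp.2 (by nlinarith [sq_nonneg θ])
  have hpt : P.Ex (fun ω => Real.exp (θ * (∑ k ∈ s, Y k) ω)) ≤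
      P.Ex fun ω => Real.exp (2 * θ) + (1 / (2 * Λ)) * Real.exp (2 * θ * (∑ k ∈ s, Y k) ω) +
        Λ / 2 * (G - ∑ k ∈ s, Y k) ω ^ 2 := by
    refine P.Ex_mono fun ω => ?_
    set S := (∑ k ∈ s, Y k) ω
    have e : (G - ∑ k ∈ s, Y k) ω = G ω - S := rfl
    rw [e]
    have b1 : 0 ≤ (1 / (2 * Λ)) * Real.exp (2 * θ * S) := by positivity
    have b2 : 0 ≤ Λ / 2 * (G ω - S) ^ 2 := by positivity
    rcases le_total S 2 with hS | hS
    · have : Real.exp (θ * S) ≤ Real.exp (2 * θ) := Real.exp_le_exp.2 (by nlinarith)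
      linarith
    · have b3 : 1 ≤ (G ω - S) ^ 2 := by
        have := (abs_le.1 (hG ω)).2
        nlinarith
      have b4 : Real.exp (2 * θ * S) = Real.exp (θ * S) ^ 2 := by
        rw [← Real.exp_nat_mul]; congr 1; push_cast; ring
      have b5 : (1 / (2 * Λ)) * Real.exp (θ * S) ^ 2 + Λ / 2 - Real.exp (θ * S) =
          (1 / (2 * Λ)) * (Real.exp (θ * S) - Λ) ^ 2 := by
        field_simp; ring
      have b6 : 0 ≤ (1 / (2 * Λ)) * (Real.exp (θ * S) - Λ) ^ 2 := by positivity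
      have b7 := Real.exp_pos (2 * θ)
      rw [b4]
      nlinarith
  rw [Ex_add, Ex_add, Ex_const, Ex_const_mul, Ex_const_mul] at hpt
  have c1 : (1 / (2 * Λ)) * P.Ex (fun ω => Real.exp (2 * θ * (∑ k ∈ s, Y k) ω)) ≤ 1 / 2 := by
    calc _ ≤ (1 / (2 * Λ)) * Λ := by gcongr
      _ = 1 / 2 := by field_simp
  have c2 : Real.exp (2 * θ) ^ 2 ≤ Real.exp (θ ^ 2 * v / 8) := by
    rw [← Real.exp_nat_mul]
    refine Real.exp_le_exp.2 ?_
    have d1 : 32 ≤ θ * ε := by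
      rw [hθ, th, add_mul, div_mul_cancel₀ _ hε.ne']; linarith
    have d2 : θ * ε ≤ θ * v := by gcongr
    push_cast
    nlinarith
  have c3 : 3 ≤ Real.exp (2 * θ) := by linarith [Real.add_one_le_exp (2 * θ)]
  have c4 : (P.Ex fun ω => (G - ∑ k ∈ s, Y k) ω ^ 2) = h := rfl
  rw [c4] at hpt
  nlinarith

lemma anti {ε c : ℝ} (hε : 0 < ε) (hc : 0 < c) (s : Finset κ) (B : κ → Finset ι)
    (hB : (s : Set κ).PairwiseDisjoint B) (Y : κ → (ι → β) → ℝ)
    (hY : ∀ k ∈ s, Ind (B k)ᶜ (Y k)) (h0 : ∀ k ∈ s, P.Ex (Y k) = 0)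
    (hs : ∀ k ∈ s, ∀ ω, |Y k ω| ≤ c / (2 * th ε)) (G : (ι → β) → ℝ) (hG : ∀ ω, |G ω| ≤ c) :
    ∑ k ∈ s, P.N (Y k) ≤ ε * c ^ 2 + KK ε * P.N (G - ∑ k ∈ s, Y k) := by
  have hθ := th_pos hε
  have h := P.anti_one hε s B hB (fun k ω => c⁻¹ * Y k ω)
    (fun k hk => (hY k hk).comp fun y => c⁻¹ * y)
    (fun k hk => by rw [Ex_const_mul, h0 k hk, mul_zero])
    (fun k hk ω => by
      rw [abs_mul, abs_of_pos (inv_pos.2 hc), inv_mul_le_iff₀ hc, mul_one_div]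
      exact hs k hk ω)
    (fun ω => c⁻¹ * G ω)
    (fun ω => by
      rw [abs_mul, abs_of_pos (inv_pos.2 hc), inv_mul_le_iff₀ hc, mul_one]
      exact hG ω)
  have e1 : ∀ f : (ι → β) → ℝ, P.N (fun ω => c⁻¹ * f ω) = (c ^ 2)⁻¹ * P.N f := by
    intro f
    simp only [N, mul_pow, Ex_const_mul, inv_pow]
  have e2 : ((fun ω => c⁻¹ * G ω) - ∑ k ∈ s, fun ω => c⁻¹ * Y k ω) =
      fun ω => c⁻¹ * (G - ∑ k ∈ s, Y k) ω := by
    funext ω
    simp [mul_sub, mul_sum]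
  rw [e2, e1] at h
  simp only [e1, ← mul_sum] at h
  rw [inv_mul_le_iff₀ (by positivity)] at h
  refine h.trans (le_of_eq ?_)
  field_simp

lemma clt_sum {δ : ℝ} (hδ : 0 < δ) (s : Finset κ) (B : κ → Finset ι)
    (hB : (s : Set κ).PairwiseDisjoint B) (Y : κ → (ι → β) → ℝ)
    (hY : ∀ k ∈ s, Ind (B k)ᶜ (Y k)) (h0 : ∀ k ∈ s, P.Ex (Y k) = 0) :
    ‖P.Ex (fun ω => ce ((∑ k ∈ s, Y k) ω)) - (Real.exp (-(∑ k ∈ s, P.N (Y k)) / 2) : ℝ)‖ ≤
      δ * ∑ k ∈ s, P.N (Y k) + (1 / δ + 5) * ∑ k ∈ s, P.Q (Y k) := by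
  have e1 : P.Ex (fun ω => ce ((∑ k ∈ s, Y k) ω)) = ∏ k ∈ s, P.Ex fun ω => ce (Y k ω) := by
    rw [← P.Ex_prod_indep s B hB (fun k ω => ce (Y k ω)) fun k hk => (hY k hk).comp ce]
    simp only [Finset.sum_apply, ce_sum]
  have e2 : ((Real.exp (-(∑ k ∈ s, P.N (Y k)) / 2) : ℝ) : ℂ) =
      ∏ k ∈ s, ((Real.exp (-(P.N (Y k) / 2)) : ℝ) : ℂ) := by
    rw [← Complex.ofReal_prod, ← Real.exp_sum, sum_neg_distrib, ← sum_div, neg_div]
  rw [e1, e2, mul_sum, mul_sum, ← sum_add_distrib]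
  refine (norm_prod_sub_prod s _ _ (fun k _ => P.norm_Ex_le_const fun ω => (norm_ce _).le)
    (fun k _ => ?_)).trans (sum_le_sum fun k hk => ?_)
  · rw [Complex.norm_real, Real.norm_of_nonneg (Real.exp_pos _).le]
    exact Real.exp_le_one_iff.2 (by linarith [P.N_nonneg (Y k)])
  · have a1 : P.Ex (fun ω => ce (Y k ω) - (1 + Complex.I * Y k ω - ((Y k ω ^ 2 / 2 : ℝ) : ℂ))) =
        P.Ex (fun ω => ce (Y k ω)) - ((1 - P.N (Y k) / 2 : ℝ) : ℂ) := by
      rw [Ex_sub, Ex_sub, Ex_add, Ex_const, Ex_const_mul, Ex_ofReal, Ex_ofReal, h0 k hk]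
      simp only [div_eq_mul_inv, Ex_mul_const, N]
      push_cast; ring
    have a2 := (P.norm_Ex_le _).trans (P.Ex_mono fun ω => norm_ce_taylor (Y k ω) hδ)
    rw [a1, Ex_add, Ex_const_mul, Ex_const_mul] at a2
    have a3 := exp_neg_sub_le (x := P.N (Y k) / 2) (by linarith [P.N_nonneg (Y k)])
    have a4 := P.N_sq_le_Q (Y k)
    have a5 : ‖((1 - P.N (Y k) / 2 : ℝ) : ℂ) - ((Real.exp (-(P.N (Y k) / 2)) : ℝ) : ℂ)‖ ≤
        P.Q (Y k) := by
      rw [← Complex.ofReal_sub, Complex.norm_real, Real.norm_eq_abs, abs_sub_comm]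
      nlinarith [sq_nonneg (P.N (Y k))]
    have a6 := norm_sub_le_norm_sub_add_norm_sub (P.Ex (fun ω => ce (Y k ω)))
      ((1 - P.N (Y k) / 2 : ℝ) : ℂ) ((Real.exp (-(P.N (Y k) / 2)) : ℝ) : ℂ)
    unfold N Q at *
    linarith

end PW

end Pool.Agent.TSP72
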