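import Pool.Agent.Lib.MP_72f242_pr.CS_Anti

/-! Comparison of the variance of a functional on a union of blocks with the variance of its
model on one block. -/

set_option autoImplicit false

namespace Pool.Agent.TSP72

open Finset

section Blocks

variable {Λ ι' ι β : Type} [Fintype ι] [DecidableEq ι] [Fintype ι'] [DecidableEq ι']
  [DecidableEq Λ] (e : Λ × ι' ≃ ι)

/-- The copy of a set of inner indices in the block `l`. -/
def up (l : Λ) (S : Finset ι') : Finset ι :=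
  univ.filter fun i => (e.symm i).1 = l ∧ (e.symm i).2 ∈ S

/-- The restriction of a configuration to the block `l`. -/
def res (l : Λ) (ω : ι → β) : ι' → β := fun c => ω (e (l, c))

omit [DecidableEq ι] [Fintype ι'] in
lemma mem_up {l l' : Λ} {S : Finset ι'} {c : ι'} : e (l', c) ∈ up e l S ↔ l' = l ∧ c ∈ S := by
  simp [up]

omit [Fintype ι] [Fintype ι'] [DecidableEq Λ] in
lemma res_piecewise {l : Λ} {S : Finset ι} {S' : Finset ι'} (h : ∀ c, e (l, c) ∈ S ↔ c ∈ S')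
    (η ω : ι → β) : res e l (S.piecewise η ω) = S'.piecewise (res e l η) (res e l ω) := by
  funext c
  by_cases a : c ∈ S'
  · simp [res, piecewise, a, (h c).2 a]
  · simp [res, piecewise, a, mt (h c).1 a]

omit [Fintype ι] [Fintype ι'] [DecidableEq Λ] in
lemma Ind.res {A : Type*} {l : Λ} {S : Finset ι} {S' : Finset ι'}
    (h : ∀ c, e (l, c) ∈ S ↔ c ∈ S') {f : (ι' → β) → A} (hf : Ind S' f) :
    Ind S fun ω => f (res e l ω) := fun η ω => by
  simp only [res_piecewise e h, hf _ _]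

omit [Fintype ι'] in
lemma biUnion_up {κ : Type*} (l : Λ) (s : Finset κ) (B : κ → Finset ι') :
    s.biUnion (fun k => up e l (B k)) = up e l (s.biUnion B) := by
  ext i
  simp only [up, mem_biUnion, mem_filter, mem_univ, true_and]
  exact ⟨fun ⟨k, h1, h2, h3⟩ => ⟨h2, k, h1, h3⟩, fun ⟨h2, k, h1, h3⟩ => ⟨k, h1, h2, h3⟩⟩

omit [Fintype ι'] [DecidableEq ι] in
lemma up_disj {κ : Type*} (l : Λ) {s : Set κ} {B : κ → Finset ι'} (h : s.PairwiseDisjoint B) :
    s.PairwiseDisjoint fun k => up e l (B k) := by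
  intro a ha b hb hab
  simp only [Function.onFun, up]
  rw [disjoint_filter]
  exact fun i _ h1 h2 => disjoint_left.1 (h ha hb hab) h1.2 h2.2

variable [Fintype β] (P : PW β) [Fintype Λ]

lemma PW.Ex_res (l : Λ) (φ : (ι' → β) → ℝ) : P.Ex (fun ω => φ (res e l ω)) = P.Ex φ := by
  classical
  have h1 : ∀ ξ : ι' → β, P.Ex (fun ω : ι → β => if res e l ω = ξ then (1 : ℝ) else 0) =
      P.W ξ := by
    intro ξ
    have e1 : (fun ω : ι → β => if res e l ω = ξ then (1 : ℝ) else 0) = fun ω => ∏ i,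
        (if (e.symm i).1 = l then (if ω i = ξ (e.symm i).2 then (1 : ℝ) else 0) else 1) := by
      funext ω
      rw [← e.prod_comp, Fintype.prod_prod_type]
      simp only [Equiv.symm_apply_apply]
      rw [prod_eq_single l (fun l' _ h => by simp [h]) (by simp)]
      simp only [if_true, prod_boole, mem_univ, forall_const]
      exact if_congr funext_iff rfl rfl
    rw [e1, P.Ex_prod_coord (fun i b =>
      if (e.symm i).1 = l then (if b = ξ (e.symm i).2 then (1 : ℝ) else 0) else 1),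
      ← e.prod_comp, Fintype.prod_prod_type]
    simp only [Equiv.symm_apply_apply]
    rw [prod_eq_single l (fun l' _ h => by simp [h, P.sum_one]) (by simp)]
    simp [PW.W]
  have e2 : (fun ω : ι → β => φ (res e l ω)) =
      fun ω => ∑ ξ, φ ξ * if res e l ω = ξ then (1 : ℝ) else 0 := by
    funext ω
    simp
  rw [e2, P.Ex_sum]
  refine sum_congr rfl fun ξ _ => ?_
  rw [P.Ex_const_mul, h1, smul_eq_mul, mul_comm]

lemma PW.N_res (l : Λ) (φ : (ι' → β) → ℝ) : P.N (fun ω => φ (res e l ω)) = P.N φ :=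
  P.Ex_res e l fun ξ => φ ξ ^ 2

lemma PW.E_res {l : Λ} {S : Finset ι} {S' : Finset ι'} (h : ∀ c, e (l, c) ∈ S ↔ c ∈ S')
    (φ : (ι' → β) → ℝ) :
    P.E S (fun ω => φ (res e l ω)) = fun ω => P.E S' φ (res e l ω) := by
  funext ω
  simp only [PW.E, res_piecewise e h]
  exact P.Ex_res e l fun ξ => φ (S'.piecewise ξ (res e l ω))

lemma PW.N_Y_res (l : Λ) (S : Finset ι') (φ : (ι' → β) → ℝ) :
    P.N (P.Y univ (up e l S) fun ω => φ (res e l ω)) = P.N (P.Y univ S φ) := by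
  rw [← P.N_res e l, PW.Y, P.E_res e (S' := univ \ S) (fun c => by simp [mem_up]),
    P.E_res e (S' := univ) (fun c => by simp)]
  rfl

end Blocks

namespace PW

variable {ι β : Type} [Fintype ι] [DecidableEq ι] [Fintype β] (P : PW β)

lemma RSplit.mono {F : (ι → β) → ℝ} {Λ : Finset ι} {c d ζ : ℝ} (h : P.RSplit F Λ c ζ)
    (hc : c ≤ d) : P.RSplit F Λ d ζ := by
  obtain ⟨r, ⟨a, b, h1, h2, h3⟩, h4⟩ := h
  exact ⟨r, ⟨a, b, h1, h2, fun ω => (h3 ω).trans hc⟩, h4⟩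

lemma ROut.mono {F : (ι → β) → ℝ} {Λ : Finset ι} {c d ζ : ℝ} (h : P.ROut F Λ c ζ)
    (hc : c ≤ d) : P.ROut F Λ d ζ := by
  obtain ⟨b, r, h1, h2, h3⟩ := h
  exact ⟨b, r, h1, fun ω => (h2 ω).trans hc, h3⟩

lemma level_step {κ : Type*} [DecidableEq κ] {ε c ζ n : ℝ} (hε : 0 < ε) (hc : 0 < c)
    (I0 I1 : Finset κ) (r : κ → κ) (hn1 : 1 ≤ n) (hn : (I1.card : ℝ) ≤ n)
    (B0 B1 : κ → Finset ι) (hB : (I1 : Set κ).PairwiseDisjoint B1) (hr : ∀ d ∈ I1, r d ∈ I0)
    (hch : ∀ k ∈ I0, (I1.filter fun d => r d = k).biUnion B1 = B0 k) (F : (ι → β) → ℝ)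
    (h1 : ∀ k ∈ I0, P.RSplit F (B0 k) c ζ) (h2 : ∀ d ∈ I1, P.RSplit F (B1 d) (c / (2 * th ε)) ζ) :
    ∑ k ∈ I0, P.N (F - P.E (B0 k) F) - ∑ k ∈ I0, P.N (P.Y univ (B0 k) F) ≤
      I0.card * (32 * ε * c ^ 2 + (16 * KK ε + 2) * (n ^ 2 * ζ)) +
        (4 * KK ε + 1) * (∑ d ∈ I1, P.N (F - P.E (B1 d) F) - ∑ k ∈ I0, P.N (F - P.E (B0 k) F)) := by
  have h3 : ∀ k ∈ I0, P.N (F - P.E (B0 k) F) - P.N (P.Y univ (B0 k) F) ≤
      32 * ε * c ^ 2 + (16 * KK ε + 2) * (n ^ 2 * ζ) + (4 * KK ε + 1) *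
        (∑ d ∈ I1.filter fun d => r d = k, P.N (F - P.E (B1 d) F) - P.N (F - P.E (B0 k) F)) := by
    intro k hk
    have := P.box_step_rob hε hc (I1.filter fun d => r d = k) hn1
      (le_trans (by exact_mod_cast card_filter_le _ _) hn) B1
      (hB.subset (coe_subset.2 (filter_subset _ _))) F (by rw [hch k hk]; exact h1 k hk)
      (fun d hd => h2 d (mem_filter.1 hd).1)
    rwa [hch k hk] at this
  have h4 := sum_le_sum h3
  rwa [sum_sub_distrib, sum_add_distrib, ← mul_sum, sum_sub_distrib,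
    sum_fiberwise_of_maps_to hr, sum_const, nsmul_eq_mul] at h4

lemma N_Y_univ (f : (ι → β) → ℝ) : P.N (P.Y univ univ f) = P.Vr f := by
  rw [Y, sdiff_self, bot_eq_empty, E_empty, Vr_eq]

end PW

theorem AW2 {C A η : ℝ} (hC : 0 < C) (hA : 0 < A) (hη : 0 < η) : ∃ M J : ℕ, ∃ ζ : ℝ, 1 ≤ M ∧
    0 < ζ ∧ ∀ (Λ ι' ι β κ : Type) [Fintype Λ] [DecidableEq Λ] [Fintype ι'] [DecidableEq ι']
      [Fintype ι] [DecidableEq ι] [Fintype β] [DecidableEq κ] (P : PW β) (e : Λ × ι' ≃ ι)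
      (q : ℕ → ι' → κ) (r : κ → κ) (F : (ι → β) → ℝ) (G : (ι' → β) → ℝ),
      (∀ j i, q j i = r (q (j + 1) i)) →
      (∀ j ≤ J + 1, ((univ.image (q j)).card : ℝ) ≤ ((M : ℝ) ^ j) ^ 2) →
      (∀ j ≤ J + 1, ∀ d ∈ univ.image (q j), P.RSplit G (blk (q j) d) (C / (M : ℝ) ^ j) ζ) →
      (∀ j ≤ J + 1, ∀ l, ∀ d ∈ univ.image (q j),
        P.RSplit F (up e l (blk (q j) d)) (C / (M : ℝ) ^ j) ζ) →
      (∀ l, P.ROut (F - fun ω => G (res e l ω)) (up e l univ) C ζ) →
      (∀ j ≤ J + 1, ∀ l, ∀ d ∈ univ.image (q j),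
        P.ROut (F - fun ω => G (res e l ω)) (up e l (blk (q j) d)) (C / (M : ℝ) ^ j) ζ) →
      (∀ j ≤ J + 1, ∀ d ∈ univ.image (q j),
        P.N (G - P.E (blk (q j) d) G) ≤ A / ((M : ℝ) ^ j) ^ 2) →
      (∀ j ≤ J + 1, ∀ l, ∀ d ∈ univ.image (q j),
        P.N (F - P.E (up e l (blk (q j) d)) F) ≤ A / ((M : ℝ) ^ j) ^ 2) →
      |P.Vr F - Fintype.card Λ * P.Vr G| ≤ η * Fintype.card Λ := by
  set δ := η / (4 * A) with hδ
  have hδ0 : 0 < δ := by positivity
  set ρ := η / (6 * (1 + 1 / δ)) with hρ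
  have hρ0 : 0 < ρ := by positivity
  set ε1 := ρ / (8 * C ^ 2) with hε1
  have hε10 : 0 < ε1 := by positivity
  have hK1 := KK_pos ε1
  set γ := min (η / 4) (ρ / (4 * (4 * KK ε1 + 1))) with hγ
  have hγ0 : 0 < γ := lt_min (by positivity) (by positivity)
  set ε2 := γ / (192 * C ^ 2) with hε2
  have hε20 : 0 < ε2 := by positivity
  have hK2 := KK_pos ε2
  have hθ1 := th_pos hε10
  have hθ2 := th_pos hε20
  obtain ⟨J, hJ⟩ := exists_nat_ge (max 1 (6 * (4 * KK ε2 + 1) * A / γ))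
  obtain ⟨M, hM⟩ := exists_nat_ge (max 1 (max (2 * th ε1) (2 * th ε2)))
  have hM1 : (1 : ℝ) ≤ M := (le_max_left _ _).trans hM
  have hM2 : 2 * th ε1 ≤ M := (le_max_left _ _).trans ((le_max_right _ _).trans hM)
  have hM3 : 2 * th ε2 ≤ M := (le_max_right _ _).trans ((le_max_right _ _).trans hM)
  have hJ1 : (1 : ℝ) ≤ J := (le_max_left _ _).trans hJ
  have hJ2 : 6 * (4 * KK ε2 + 1) * A / γ ≤ J := (le_max_right _ _).trans hJ
  set n : ℝ := ((M : ℝ) ^ (J + 1)) ^ 2 with hn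
  have hn1 : 1 ≤ n := one_le_pow₀ (one_le_pow₀ hM1)
  set ζ := min (ρ / ((16 * KK ε1 + 2) * n ^ 2)) (γ / (6 * (16 * KK ε2 + 2) * n ^ 3)) with hζ
  have hζ0 : 0 < ζ := lt_min (by positivity) (by positivity)
  refine ⟨M, J, ζ, by exact_mod_cast hM1, hζ0, ?_⟩
  intro Λ ι' ι β κ _ _ _ _ _ _ _ _ P e q r F G hr hcard hG hF hO0 hO hNG hNF
  set L : ℝ := (Fintype.card Λ : ℝ) with hL
  have hL0 : 0 ≤ L := Nat.cast_nonneg _
  have hsum : ∀ x : ℝ, ∑ _l : Λ, x = L * x := fun x => by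
    rw [sum_const, card_univ, nsmul_eq_mul]
  have hMn : ∀ j ≤ J + 1, ((M : ℝ) ^ j) ^ 2 ≤ n := fun j hj => by
    rw [hn]
    gcongr
  let aG : ℕ → ℝ := fun j => ∑ d ∈ univ.image (q j), P.N (G - P.E (blk (q j) d) G)
  let aF : ℕ → Λ → ℝ := fun j l =>
    ∑ d ∈ univ.image (q j), P.N (F - P.E (up e l (blk (q j) d)) F)
  have hb : ∀ j ≤ J + 1, ∀ f : κ → ℝ, (∀ d ∈ univ.image (q j), f d ≤ A / ((M : ℝ) ^ j) ^ 2) →
      ∑ d ∈ univ.image (q j), f d ≤ A := by
    intro j hj f hf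
    have hp : (0 : ℝ) < ((M : ℝ) ^ j) ^ 2 := by positivity
    calc _ ≤ ∑ _c ∈ univ.image (q j), A / ((M : ℝ) ^ j) ^ 2 := sum_le_sum hf
      _ ≤ ((M : ℝ) ^ j) ^ 2 * (A / ((M : ℝ) ^ j) ^ 2) := by
          rw [sum_const, nsmul_eq_mul]
          gcongr
          exact hcard j hj
      _ = A := by field_simp
  have haG : ∀ j ≤ J + 1, aG j ≤ A := fun j hj => hb j hj _ (hNG j hj)
  have haF : ∀ j ≤ J + 1, ∑ l, aF j l ≤ L * A := fun j hj => by
    rw [← hsum]
    exact sum_le_sum fun l _ => hb j hj _ (hNF j hj l)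
  obtain ⟨j, hj1, hjJ, hstep⟩ := exists_small_step (fun j => ∑ l, aF j l + L * aG j)
    (A := 2 * (L * A)) (J := J) (by exact_mod_cast hJ1)
    (add_nonneg (sum_nonneg fun _ _ => sum_nonneg fun _ _ => P.N_nonneg _)
      (mul_nonneg hL0 (sum_nonneg fun _ _ => P.N_nonneg _)))
    (by linarith [haF _ le_rfl, mul_le_mul_of_nonneg_left (haG _ le_rfl) hL0])
  have hp : (0 : ℝ) < (M : ℝ) ^ j := by positivity
  set I := univ.image (q j) with hI
  set bG := ∑ d ∈ I, P.N (P.Y univ (blk (q j) d) G) with hbG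
  let bF : Λ → ℝ := fun l => ∑ d ∈ I, P.N (P.Y univ (up e l (blk (q j) d)) F)
  have hchild : ∀ c, ((univ.image (q (j + 1))).filter fun d => r d = c).biUnion
      (blk (q (j + 1))) = blk (q j) c := by
    intro c
    ext i
    simp [blk, hr j i]
  have hpar : ∀ d ∈ univ.image (q (j + 1)), r d ∈ I := by
    intro d hd
    obtain ⟨i, -, rfl⟩ := mem_image.1 hd
    exact mem_image.2 ⟨i, mem_univ _, hr j i⟩
  have hcc : C / (M : ℝ) ^ (j + 1) ≤ C / (M : ℝ) ^ j / (2 * th ε2) := by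
    rw [pow_succ, ← div_div]
    gcongr
  have hc1 := (hcard (j + 1) (by omega)).trans (hMn _ (by omega))
  have hc0 := hcard j (by omega)
  have herr : (I.card : ℝ) * (32 * ε2 * (C / (M : ℝ) ^ j) ^ 2 + (16 * KK ε2 + 2) * (n ^ 2 * ζ)) ≤
      γ / 3 := by
    have a1 : (I.card : ℝ) * (32 * ε2 * (C / (M : ℝ) ^ j) ^ 2) ≤ γ / 6 := by
      calc _ ≤ ((M : ℝ) ^ j) ^ 2 * (32 * ε2 * (C / (M : ℝ) ^ j) ^ 2) := by gcongr
        _ = γ / 6 := by rw [hε2]; field_simp; ring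
    have a2 : (I.card : ℝ) * ((16 * KK ε2 + 2) * (n ^ 2 * ζ)) ≤ γ / 6 := by
      calc _ ≤ n * ((16 * KK ε2 + 2) * (n ^ 2 * (γ / (6 * (16 * KK ε2 + 2) * n ^ 3)))) := by
            gcongr
            · exact hc0.trans (hMn _ (by omega))
            · exact min_le_right _ _
        _ = γ / 6 := by field_simp
    linarith
  have lG := P.level_step hε20 (c := C / (M : ℝ) ^ j) (ζ := ζ) (by positivity) I
    (univ.image (q (j + 1))) r hn1 hc1 (blk (q j)) (blk (q (j + 1))) (blk_disj _ _) hpar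
    (fun k _ => hchild k) G (hG j (by omega))
    (fun d hd => (hG (j + 1) (by omega) d hd).mono P hcc)
  have lF := fun l => P.level_step hε20 (c := C / (M : ℝ) ^ j) (ζ := ζ) (by positivity) I
    (univ.image (q (j + 1))) r hn1 hc1 (fun d => up e l (blk (q j) d))
    (fun d => up e l (blk (q (j + 1)) d)) (up_disj e l (blk_disj _ _)) hpar
    (fun k _ => by rw [biUnion_up, hchild]) F (hF j (by omega) l)
    (fun d hd => (hF (j + 1) (by omega) l d hd).mono P hcc)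
  have lG' : L * (aG j - bG) ≤ L * (γ / 3 + (4 * KK ε2 + 1) * (aG (j + 1) - aG j)) :=
    mul_le_mul_of_nonneg_left (lG.trans (by simp only [aG]; linarith)) hL0
  have lF' : ∑ l, (aF j l - bF l) ≤
      ∑ l, (γ / 3 + (4 * KK ε2 + 1) * (aF (j + 1) l - aF j l)) :=
    sum_le_sum fun l _ => (lF l).trans (by simp only [aF]; linarith)
  rw [sum_sub_distrib, sum_add_distrib, hsum, ← mul_sum, sum_sub_distrib] at lF'
  have hst : (4 * KK ε2 + 1) * (2 * (L * A) / J) ≤ L * (γ / 3) := by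
    rw [div_le_iff₀ hγ0] at hJ2
    rw [← mul_div_assoc, div_le_iff₀ (by positivity)]
    linarith [mul_le_mul_of_nonneg_left hJ2 hL0]
  have hst2 := mul_le_mul_of_nonneg_left hstep (show 0 ≤ 4 * KK ε2 + 1 by linarith)
  have hab : (∑ l, aF j l - ∑ l, bF l) + L * (aG j - bG) ≤ L * γ := by linarith
  have n1 : ∑ l, bF l ≤ ∑ l, aF j l :=
    sum_le_sum fun l _ => sum_le_sum fun d _ => P.N_Y_le (subset_univ _) _
  have n2 : L * bG ≤ L * aG j :=
    mul_le_mul_of_nonneg_left (sum_le_sum fun d _ => P.N_Y_le (subset_univ _) _) hL0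
  have hU : I.biUnion (blk (q j)) = univ := biUnion_blk _
  have hT : ∀ l, I.biUnion (fun d => up e l (blk (q j) d)) = up e l univ := fun l => by
    rw [biUnion_up, hU]
  have hT2 : (univ : Finset Λ).biUnion (fun l => up e l univ) = univ := by
    ext i
    simp [up]
  have hT3 : ((univ : Finset Λ) : Set Λ).PairwiseDisjoint fun l => up e l univ := by
    intro a _ b _ hab
    simp only [Function.onFun, up]
    rw [disjoint_filter]
    exact fun i _ h1 h2 => hab (h1.1.symm.trans h2.1)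
  have vG : P.Vr G ≤ aG j := by
    have := P.N_ES I (blk (q j)) G
    rwa [hU, ← P.Vr_eq] at this
  have vF : P.Vr F ≤ ∑ l, aF j l := by
    have := P.N_ES univ (fun l => up e l univ) F
    rw [hT2, ← P.Vr_eq] at this
    refine this.trans (sum_le_sum fun l _ => ?_)
    have := P.N_ES I (fun d => up e l (blk (q j) d)) F
    rwa [hT] at this
  let V : Λ → ℝ := fun l => P.N (P.Y univ (up e l univ) F)
  have vV : ∑ l, V l ≤ P.Vr F := by
    have := P.N_H_eq univ (fun l => up e l univ) hT3 F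
    rw [hT2, ← P.Vr_eq] at this
    linarith [P.N_nonneg (P.H univ (fun l => up e l univ) F)]
  have hH : ∀ (l : Λ) (f : (ι → β) → ℝ),
      P.N (P.Y univ (up e l univ) f - ∑ d ∈ I, P.Y univ (up e l (blk (q j) d)) f) =
      P.N (P.Y univ (up e l univ) f) - ∑ d ∈ I, P.N (P.Y univ (up e l (blk (q j) d)) f) := by
    intro l f
    have := P.N_top_sub I (fun d => up e l (blk (q j) d)) (up_disj e l (blk_disj _ _)) f
    rwa [hT] at this
  have vb : ∑ l, bF l ≤ ∑ l, V l := sum_le_sum fun l _ => by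
    have := hH l F
    simp only [bF, V]
    linarith [P.N_nonneg (P.Y univ (up e l univ) F -
      ∑ d ∈ I, P.Y univ (up e l (blk (q j) d)) F)]
  have hYG : ∀ l, P.N (P.Y univ (up e l univ) fun ω => G (res e l ω)) = P.Vr G := fun l => by
    rw [P.N_Y_res, P.N_Y_univ]
  let τ : Λ → ℝ := fun l => P.N (P.Y univ (up e l univ) (F - fun ω => G (res e l ω)))
  have hτ : ∀ l, τ l ≤ 2 * ρ + (4 * KK ε1 + 1) * (2 * (V l - bF l) + 2 * (P.Vr G - bG)) := by
    intro l
    have a1 := P.out_step hε10 hC (ζ := ζ) I hn1 (hc0.trans (hMn _ (by omega)))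
      (fun d => up e l (blk (q j) d)) (up_disj e l (blk_disj _ _)) (F - fun ω => G (res e l ω))
      (by rw [hT]; exact hO0 l) (fun d hd => (hO j (by omega) l d hd).mono P (by
        gcongr
        exact hM2.trans (le_self_pow₀ hM1 (by omega))))
    rw [hT, ← hH] at a1
    have a2 : P.Y univ (up e l univ) (F - fun ω => G (res e l ω)) -
        ∑ d ∈ I, P.Y univ (up e l (blk (q j) d)) (F - fun ω => G (res e l ω)) =
        (P.Y univ (up e l univ) F - ∑ d ∈ I, P.Y univ (up e l (blk (q j) d)) F) -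
        (P.Y univ (up e l univ) (fun ω => G (res e l ω)) -
          ∑ d ∈ I, P.Y univ (up e l (blk (q j) d)) fun ω => G (res e l ω)) := by
      simp only [P.Y_sub, sum_sub_distrib]
      ring
    have a3 := P.N_sub_le_two
      (P.Y univ (up e l univ) F - ∑ d ∈ I, P.Y univ (up e l (blk (q j) d)) F)
      (P.Y univ (up e l univ) (fun ω => G (res e l ω)) -
          ∑ d ∈ I, P.Y univ (up e l (blk (q j) d)) fun ω => G (res e l ω))
    rw [← a2, hH l F, hH l fun ω => G (res e l ω), hYG] at a3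
    simp only [P.N_Y_res] at a3
    have a4 : 8 * ε1 * C ^ 2 = ρ := by rw [hε1]; field_simp
    have a5 : (16 * KK ε1 + 2) * (n ^ 2 * ζ) ≤ ρ := by
      calc _ ≤ (16 * KK ε1 + 2) * (n ^ 2 * (ρ / ((16 * KK ε1 + 2) * n ^ 2))) := by
            gcongr
            exact min_le_left _ _
        _ = ρ := by field_simp
    have a6 := mul_le_mul_of_nonneg_left a3 (show 0 ≤ 4 * KK ε1 + 1 by linarith)
    simp only [τ, V, bF]
    linarith
  have hτ2 : ∑ l, τ l ≤ L * (3 * ρ) := by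
    have a1 := sum_le_sum fun l (_ : l ∈ univ) => hτ l
    rw [sum_add_distrib, hsum, ← mul_sum, sum_add_distrib, hsum, ← mul_sum,
      sum_sub_distrib] at a1
    have a2 := mul_le_mul_of_nonneg_left vG hL0
    have a3 : 2 * (∑ l, V l - ∑ l, bF l) + L * (2 * (P.Vr G - bG)) ≤ 4 * (L * γ) := by
      linarith [mul_nonneg hL0 hγ0.le]
    have a4 := mul_le_mul_of_nonneg_left a3 (show 0 ≤ 4 * KK ε1 + 1 by linarith)
    have a5 : γ * (4 * (4 * KK ε1 + 1)) ≤ ρ := (le_div_iff₀ (by positivity)).1 (min_le_right _ _)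
    linarith [mul_le_mul_of_nonneg_left a5 hL0]
  have hτ3 : (1 + 1 / δ) * ∑ l, τ l ≤ L * (η / 2) := by
    calc _ ≤ (1 + 1 / δ) * (L * (3 * ρ)) := by gcongr
      _ = _ := by rw [hρ]; field_simp; ring
  have u1 : ∑ l, V l ≤ ∑ l, ((1 + δ) * P.Vr G + (1 + 1 / δ) * τ l) := sum_le_sum fun l _ => by
    have := P.N_le_weighted hδ0 (P.Y univ (up e l univ) F)
      (P.Y univ (up e l univ) fun ω => G (res e l ω))
    rwa [hYG, ← P.Y_sub] at this
  have u2 : ∑ _l : Λ, P.Vr G ≤ ∑ l, ((1 + δ) * V l + (1 + 1 / δ) * τ l) := sum_le_sum fun l _ => by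
    have := P.N_le_weighted hδ0 (P.Y univ (up e l univ) fun ω => G (res e l ω))
      (P.Y univ (up e l univ) F)
    rwa [hYG, P.N_neg_sub, ← P.Y_sub] at this
  rw [sum_add_distrib, hsum, ← mul_sum] at u1
  rw [sum_add_distrib, hsum, ← mul_sum, ← mul_sum] at u2
  have w1 : δ * A = η / 4 := by rw [hδ]; field_simp
  have w2 : L * γ ≤ L * (η / 4) := mul_le_mul_of_nonneg_left (min_le_left _ _) hL0
  have w3 : L * (δ * P.Vr G) ≤ L * (η / 4) := by
    rw [← w1]
    gcongr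
    exact vG.trans (haG j (by omega))
  have w4 : δ * ∑ l, V l ≤ L * (η / 4) := by
    rw [← w1, mul_left_comm]
    gcongr
    exact vV.trans (vF.trans (haF j (by omega)))
  have w5 := mul_nonneg hL0 hη.le
  refine abs_le.2 ⟨by linarith, by linarith⟩

end Pool.Agent.TSP72
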