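import Pool.Agent.Lib.MP_72f242_pr.AW

/-! Robust versions of the anti boundedness lemma and of the box step: the splitting errors are
bounded only up to a remainder that is small in square mean. -/

set_option autoImplicit false

namespace Pool.Agent.TSP72

open Finset

namespace PW

variable {ι β : Type} [Fintype ι] [DecidableEq ι] [Fintype β] (P : PW β)

/-- The variance. -/
def Vr (f : (ι → β) → ℝ) : ℝ := P.N fun ω => f ω - P.Ex f

/-- `F` splits along `Λ` up to an error `c` and a remainder of square mean at most `ζ`. -/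
def RSplit (F : (ι → β) → ℝ) (Λ : Finset ι) (c ζ : ℝ) : Prop :=
  ∃ r : (ι → β) → ℝ, Split (F - r) Λ c ∧ P.N r ≤ ζ

/-- `F` does not depend on `Λ` up to an error `c` and a remainder of square mean at most `ζ`. -/
def ROut (F : (ι → β) → ℝ) (Λ : Finset ι) (c ζ : ℝ) : Prop :=
  ∃ b r : (ι → β) → ℝ, Ind Λ b ∧ (∀ ω, |F ω - b ω - r ω| ≤ c) ∧ P.N r ≤ ζ

lemma Vr_eq (f : (ι → β) → ℝ) : P.Vr f = P.N (f - P.E univ f) := by
  rw [P.E_univ]; rfl

lemma N_sub_E_le (S : Finset ι) (f : (ι → β) → ℝ) : P.N (f - P.E S f) ≤ P.N f := by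
  have := P.N_pyth S f
  linarith [P.N_nonneg (P.E S f)]

lemma N_le_weighted {δ : ℝ} (hδ : 0 < δ) (f g : (ι → β) → ℝ) :
    P.N f ≤ (1 + δ) * P.N g + (1 + 1 / δ) * P.N (f - g) := by
  rw [N, N, N, ← P.Ex_const_mul, ← P.Ex_const_mul, ← P.Ex_add]
  refine P.Ex_mono fun ω => ?_
  simp only [Pi.sub_apply]
  have h : (1 + δ) * g ω ^ 2 + (1 + 1 / δ) * (f ω - g ω) ^ 2 - f ω ^ 2 =
      1 / δ * (δ * g ω - (f ω - g ω)) ^ 2 := by field_simp; ring
  have : 0 ≤ 1 / δ * (δ * g ω - (f ω - g ω)) ^ 2 := by positivity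
  linarith

lemma N_neg_sub (f g : (ι → β) → ℝ) : P.N (f - g) = P.N (g - f) := by
  unfold N
  congr 1
  funext ω
  simp only [Pi.sub_apply]
  ring

lemma N_sub_le_two (f g : (ι → β) → ℝ) : P.N (f - g) ≤ 2 * P.N f + 2 * P.N g := by
  rw [N, N, N, ← P.Ex_const_mul, ← P.Ex_const_mul, ← P.Ex_add]
  refine P.Ex_mono fun ω => ?_
  simp only [Pi.sub_apply]
  nlinarith [sq_nonneg (f ω + g ω)]

lemma N_sum_le_card {κ : Type*} (s : Finset κ) (f : κ → (ι → β) → ℝ) :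
    P.N (∑ k ∈ s, f k) ≤ s.card * ∑ k ∈ s, P.N (f k) := by
  simp only [N]
  rw [← P.Ex_sum, ← P.Ex_const_mul]
  refine P.Ex_mono fun ω => ?_
  rw [Finset.sum_apply]
  exact sq_sum_le_card_mul_sum_sq

lemma exists_rob {φ D : (ι → β) → ℝ} {c w : ℝ} (hc : 0 < c) (h : ∀ ω, |φ ω| ≤ c + D ω)
    (hw : P.Q D ≤ w) : ∃ r : (ι → β) → ℝ, (∀ ω, |φ ω - r ω| ≤ 2 * c) ∧ P.N r ≤ 4 * w / c ^ 2 := by
  refine ⟨fun ω => if D ω ≤ c then 0 else φ ω, fun ω => ?_, ?_⟩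
  · beta_reduce
    split_ifs with h1
    · rw [sub_zero]; linarith [h ω]
    · rw [sub_self, abs_zero]; positivity
  · calc _ ≤ P.Ex fun ω => 4 / c ^ 2 * D ω ^ 4 := by
          refine P.Ex_mono fun ω => ?_
          beta_reduce
          split_ifs with h1
          · have : 0 ≤ D ω ^ 4 := by positivity
            simp only [ne_eq, OfNat.ofNat_ne_zero, not_false_eq_true, zero_pow]
            positivity
          · push Not at h1
            have a1 : φ ω ^ 2 ≤ (2 * D ω) ^ 2 := by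
              rw [← sq_abs]
              exact pow_le_pow_left₀ (abs_nonneg _) (by linarith [h ω]) 2
            have a2 : c ^ 2 ≤ D ω ^ 2 := pow_le_pow_left₀ hc.le h1.le 2
            rw [div_mul_eq_mul_div, le_div_iff₀ (by positivity)]
            nlinarith [sq_nonneg (φ ω), sq_nonneg (D ω)]
      _ ≤ _ := by
          rw [P.Ex_const_mul, div_mul_eq_mul_div]
          gcongr
          exact hw

lemma anti_gen {κ : Type*} {ε c : ℝ} (hε : 0 < ε) (hc : 0 < c) (s : Finset κ)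
    (B : κ → Finset ι) (hB : (s : Set κ).PairwiseDisjoint B) (U : Finset ι)
    (Y : κ → (ι → β) → ℝ) (hY : ∀ k ∈ s, Ind (U \ B k) (Y k)) (h0 : ∀ k ∈ s, P.E U (Y k) = 0)
    (hs : ∀ k ∈ s, ∀ ω, |Y k ω| ≤ c / (2 * th ε)) (G : (ι → β) → ℝ) (hG : ∀ ω, |G ω| ≤ c) :
    ∑ k ∈ s, P.N (Y k) ≤ ε * c ^ 2 + KK ε * P.N (G - ∑ k ∈ s, Y k) := by
  have key : ∀ ω0, ∑ k ∈ s, P.E U (fun ω => Y k ω ^ 2) ω0 ≤
      ε * c ^ 2 + KK ε * P.E U (fun ω => (G - ∑ k ∈ s, Y k) ω ^ 2) ω0 := by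
    intro ω0
    have := P.anti hε hc s B hB (fun k η => Y k (U.piecewise η ω0)) ?_ ?_
      (fun k hk η => hs k hk _) (fun η => G (U.piecewise η ω0)) (fun η => hG _)
    · refine this.trans (le_of_eq ?_)
      congr 2
      simp only [N, E]
      congr 1
      funext η
      simp
    · intro k hk ξ η
      have h2 : U.piecewise ((B k)ᶜ.piecewise ξ η) ω0 =
          (U \ B k).piecewise ξ (U.piecewise η ω0) := by
        funext i
        by_cases a : i ∈ U <;> by_cases b : i ∈ B k <;> simp [piecewise, a, b]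
      simp only [h2, hY k hk _ _]
    · intro k hk
      exact congrFun (h0 k hk) ω0
  have := P.Ex_mono key
  rw [Ex_sum, Ex_add, Ex_const, Ex_const_mul] at this
  simp only [Ex_E] at this
  exact this

lemma anti_rob {κ : Type*} {ε c ζ n : ℝ} (hε : 0 < ε) (hc : 0 < c) (s : Finset κ)
    (hn1 : 1 ≤ n) (hn : (s.card : ℝ) ≤ n)
    (B : κ → Finset ι) (hB : (s : Set κ).PairwiseDisjoint B) (U : Finset ι)
    (Y Yr : κ → (ι → β) → ℝ) (hY : ∀ k ∈ s, Ind (U \ B k) (Y k - Yr k))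
    (h0 : ∀ k ∈ s, P.E U (Y k - Yr k) = 0)
    (hs : ∀ k ∈ s, ∀ ω, |(Y k - Yr k) ω| ≤ c / (2 * th ε)) (hr : ∀ k ∈ s, P.N (Yr k) ≤ ζ)
    (G Gr : (ι → β) → ℝ) (hG : ∀ ω, |(G - Gr) ω| ≤ c) (hGr : P.N Gr ≤ ζ) :
    ∑ k ∈ s, P.N (Y k) ≤ 2 * ε * c ^ 2 + 4 * KK ε * P.N (G - ∑ k ∈ s, Y k) +
      (16 * KK ε + 2) * (n ^ 2 * ζ) := by
  have hζ : 0 ≤ ζ := (P.N_nonneg _).trans hGr
  have hK := KK_pos ε
  have h1 := P.anti_gen hε hc s B hB U (fun k => Y k - Yr k) hY h0 hs (G - Gr) hG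
  have h2 : ∑ k ∈ s, P.N (Yr k) ≤ n * ζ := by
    refine (sum_le_sum hr).trans ?_
    rw [sum_const, nsmul_eq_mul]
    gcongr
  have h3 : P.N (∑ k ∈ s, Yr k) ≤ n ^ 2 * ζ := by
    refine (P.N_sum_le_card s Yr).trans ?_
    calc _ ≤ n * (n * ζ) := mul_le_mul hn h2 (sum_nonneg fun _ _ => P.N_nonneg _) (by linarith)
      _ = _ := by ring
  have h4 : ζ ≤ n * ζ := le_mul_of_one_le_left hζ hn1
  have h5 : n * ζ ≤ n ^ 2 * ζ := by nlinarith
  have e : G - Gr - ∑ k ∈ s, (Y k - Yr k) = (G - ∑ k ∈ s, Y k) - (Gr - ∑ k ∈ s, Yr k) := by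
    rw [sum_sub_distrib]; ring
  rw [e] at h1
  have h6 := P.N_sub_le_two (G - ∑ k ∈ s, Y k) (Gr - ∑ k ∈ s, Yr k)
  have h7 := P.N_sub_le_two Gr (∑ k ∈ s, Yr k)
  have h8 : ∑ k ∈ s, P.N (Y k) ≤ 2 * ∑ k ∈ s, P.N (Yr k) + 2 * ∑ k ∈ s, P.N (Y k - Yr k) := by
    rw [mul_sum, mul_sum, ← sum_add_distrib]
    refine sum_le_sum fun k _ => ?_
    have := P.N_le_weighted one_pos (Y k) (Yr k)
    norm_num at this
    linarith
  have h9 : P.N ((G - ∑ k ∈ s, Y k) - (Gr - ∑ k ∈ s, Yr k)) ≤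
      2 * P.N (G - ∑ k ∈ s, Y k) + 8 * (n ^ 2 * ζ) := by linarith
  have h10 := mul_le_mul_of_nonneg_left h9 hK.le
  linarith

lemma Y_sub (U B : Finset ι) (f g : (ι → β) → ℝ) : P.Y U B (f - g) = P.Y U B f - P.Y U B g := by
  simp only [Y, E_sub]; ring

lemma Y_eq {U B : Finset ι} (h : B ⊆ U) (g : (ι → β) → ℝ) :
    P.Y U B g = P.E (U \ B) (g - P.E B g) := by
  rw [Y, P.E_sub _ g, P.E_E _ B, sdiff_union_of_subset h]

lemma ind_Y (U B : Finset ι) (g : (ι → β) → ℝ) : Ind (U \ B) (P.Y U B g) :=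
  (P.ind_E_self _ _).sub (P.ind_E_of_subset sdiff_subset _)

lemma E_Y (U B : Finset ι) (g : (ι → β) → ℝ) : P.E U (P.Y U B g) = 0 := by
  rw [Y, E_sub, E_E, E_E, union_self, union_eq_left.2 sdiff_subset, sub_self]

lemma N_Y_le {U B : Finset ι} (h : B ⊆ U) (g : (ι → β) → ℝ) :
    P.N (P.Y U B g) ≤ P.N (g - P.E B g) := by
  rw [P.Y_eq h]; exact P.N_E_le _ _

lemma box_step_rob {κ : Type*} [DecidableEq κ] {ε c ζ n : ℝ} (hε : 0 < ε) (hc : 0 < c)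
    (s : Finset κ) (hn1 : 1 ≤ n) (hn : (s.card : ℝ) ≤ n)
    (B : κ → Finset ι) (hB : (s : Set κ).PairwiseDisjoint B) (F : (ι → β) → ℝ)
    (h1 : P.RSplit F (s.biUnion B) c ζ) (h2 : ∀ k ∈ s, P.RSplit F (B k) (c / (2 * th ε)) ζ) :
    P.N (F - P.E (s.biUnion B) F) - P.N (P.Y univ (s.biUnion B) F) ≤
      32 * ε * c ^ 2 + (16 * KK ε + 2) * (n ^ 2 * ζ) +
        (4 * KK ε + 1) * (∑ k ∈ s, P.N (F - P.E (B k) F) - P.N (F - P.E (s.biUnion B) F)) := by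
  set U := s.biUnion B with hU
  set g := F - P.E Uᶜ F with hg
  have hsp : ∀ S : Finset ι, P.N (F - P.E S F) =
      P.N (P.E Uᶜ F - P.E S (P.E Uᶜ F)) + P.N (g - P.E S g) := by
    intro S
    rw [P.N_pyth Uᶜ (F - P.E S F), E_sub, hg, E_sub, P.E_comm Uᶜ S]
    congr 2
    ring
  have hY : P.Y univ U F = P.E Uᶜ F - P.E U (P.E Uᶜ F) := by
    rw [Y, E_E, union_compl, compl_eq_univ_sdiff]
  obtain ⟨r, r1, r2⟩ := h1
  choose! ρ ρ1 ρ2 using h2
  have hsub : ∀ k ∈ s, B k ⊆ U := fun k hk => subset_biUnion_of_mem B hk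
  have eg : ∀ t : (ι → β) → ℝ, g - (t - P.E Uᶜ t) = (F - t) - P.E Uᶜ (F - t) := by
    intro t
    rw [hg, E_sub]; ring
  have a1 := P.anti_rob hε (c := 4 * c) (ζ := ζ) (by positivity) s hn1 hn B hB U
    (fun k => P.Y U (B k) g) (fun k => P.Y U (B k) (ρ k - P.E Uᶜ (ρ k)))
    (fun k _ => (P.ind_Y _ _ _).sub (P.ind_Y _ _ _))
    (fun k _ => by rw [E_sub, E_Y, E_Y, sub_self])
    (fun k hk ω => by
      rw [← Y_sub, eg, P.Y_eq (hsub k hk), mul_div_assoc]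
      exact P.abs_E_le (P.surf (ρ1 k hk) (hsub k hk)) ω)
    (fun k hk => (P.N_Y_le (hsub k hk) _).trans ((P.N_sub_E_le _ _).trans
      ((P.N_sub_E_le _ _).trans (ρ2 k hk))))
    (g - P.E U g) ((r - P.E Uᶜ r) - P.E U (r - P.E Uᶜ r))
    (fun ω => by
      have e : g - P.E U g - ((r - P.E Uᶜ r) - P.E U (r - P.E Uᶜ r)) =
          (g - (r - P.E Uᶜ r)) - P.E U (g - (r - P.E Uᶜ r)) := by
        rw [P.E_sub U g]; ring
      rw [e, eg]
      exact P.surf r1 subset_rfl ω)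
    ((P.N_sub_E_le _ _).trans ((P.N_sub_E_le _ _).trans r2))
  have a2 := P.N_H_eq s B hB g
  have a3 := P.N_H_le s B hB g
  have a4 := P.N_ES s B (P.E Uᶜ F)
  have a5 : P.N (P.H s B g) ≤ ∑ k ∈ s, P.N (F - P.E (B k) F) - P.N (F - P.E U F) := by
    simp only [hsp, sum_add_distrib]
    rw [← hU] at a3 a4
    linarith
  have a6 := mul_le_mul_of_nonneg_left a5 (show 0 ≤ 4 * KK ε + 1 by linarith [KK_pos ε])
  have a7 : g - P.E U g - ∑ k ∈ s, P.Y U (B k) g = P.H s B g := rfl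
  rw [a7] at a1
  rw [← hU] at a2
  rw [hY, hsp U]
  rw [hsp U] at a6
  linarith

lemma N_top_sub {κ : Type*} [DecidableEq κ] (s : Finset κ) (B : κ → Finset ι)
    (hB : (s : Set κ).PairwiseDisjoint B) (F : (ι → β) → ℝ) :
    P.N (P.Y univ (s.biUnion B) F - ∑ k ∈ s, P.Y univ (B k) F) =
      P.N (P.Y univ (s.biUnion B) F) - ∑ k ∈ s, P.N (P.Y univ (B k) F) := by
  set U := s.biUnion B with hU
  have e1 : P.E Uᶜ F - P.E U (P.E Uᶜ F) = P.Y univ U F := by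
    rw [Y, E_E, union_compl, compl_eq_univ_sdiff]
  have e2 : ∀ k ∈ s, P.Y U (B k) (P.E Uᶜ F) = P.Y univ (B k) F := by
    intro k hk
    have : B k ⊆ U := subset_biUnion_of_mem B hk
    have e : U \ B k ∪ Uᶜ = univ \ B k := by
      ext i
      have := @this i
      simp only [mem_union, mem_sdiff, mem_compl, mem_univ]
      tauto
    rw [Y, Y, E_E, E_E, union_compl, e]
  have a2 := P.N_H_eq s B hB (P.E Uᶜ F)
  rwa [H, ← hU, e1, sum_congr rfl e2, sum_congr rfl fun k hk => congrArg P.N (e2 k hk)] at a2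

lemma out_step {κ : Type*} [DecidableEq κ] {ε c ζ n : ℝ} (hε : 0 < ε) (hc : 0 < c)
    (s : Finset κ) (hn1 : 1 ≤ n) (hn : (s.card : ℝ) ≤ n)
    (B : κ → Finset ι) (hB : (s : Set κ).PairwiseDisjoint B) (F : (ι → β) → ℝ)
    (h1 : P.ROut F (s.biUnion B) c ζ) (h2 : ∀ k ∈ s, P.ROut F (B k) (c / (2 * th ε)) ζ) :
    P.N (P.Y univ (s.biUnion B) F) ≤ 8 * ε * c ^ 2 + (16 * KK ε + 2) * (n ^ 2 * ζ) +
      (4 * KK ε + 1) * (P.N (P.Y univ (s.biUnion B) F) - ∑ k ∈ s, P.N (P.Y univ (B k) F)) := by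
  set U := s.biUnion B with hU
  have key : ∀ {Λ : Finset ι} {d : ℝ} {b r : (ι → β) → ℝ}, Ind Λ b →
      (∀ ω, |F ω - b ω - r ω| ≤ d) → ∀ ω, |(P.Y univ Λ F - P.Y univ Λ r) ω| ≤ 2 * d := by
    intro Λ d b r hb h ω
    have e : F - r = (F - b - r) + b := by ring
    have e2 : P.Y univ Λ (F - r) = P.E (univ \ Λ) ((F - b - r) - P.E Λ (F - b - r)) := by
      rw [P.Y_eq (subset_univ _), e, E_add, P.E_of_ind hb]
      congr 1
      ring
    rw [← Y_sub, e2]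
    exact P.abs_E_le (P.abs_sub_E_le (f := F - b - r) h Λ) ω
  obtain ⟨b, r, r0, r1, r2⟩ := h1
  choose! bb ρ ρ0 ρ1 ρ2 using h2
  have a1 := P.anti_rob hε (c := 2 * c) (ζ := ζ) (by positivity) s hn1 hn B hB univ
    (fun k => P.Y univ (B k) F) (fun k => P.Y univ (B k) (ρ k))
    (fun k _ => (P.ind_Y _ _ _).sub (P.ind_Y _ _ _))
    (fun k _ => by rw [E_sub, E_Y, E_Y, sub_self])
    (fun k hk ω => by
      rw [mul_div_assoc]
      exact key (ρ0 k hk) (ρ1 k hk) ω)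
    (fun k hk => (P.N_Y_le (subset_univ _) _).trans ((P.N_sub_E_le _ _).trans (ρ2 k hk)))
    (P.Y univ U F) (P.Y univ U r) (key r0 r1)
    ((P.N_Y_le (subset_univ _) _).trans ((P.N_sub_E_le _ _).trans r2))
  have a2 := P.N_top_sub s B hB F
  rw [← hU] at a2
  rw [a2] at a1
  linarith

end PW

end Pool.Agent.TSP72
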