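import Pool.Agent.Lib.MP_72f242_pr.Anti

/-! Localisation of a joint limit theorem with a kernel of Fejer type. -/

set_option autoImplicit false

namespace Pool.Agent.TSP72

open Finset

/-- The kernel. -/
noncomputable def fk (q : ℕ) (θ : ℝ) : ℝ := ‖∑ j ∈ range q, ce (j * θ)‖ ^ 2

lemma conj_ce (x : ℝ) : (starRingEnd ℂ) (ce x) = ce (-x) := by
  simp [ce, ← Complex.exp_conj]

lemma fk_eq (q : ℕ) (θ : ℝ) :
    (fk q θ : ℂ) = ∑ j ∈ range q, ∑ k ∈ range q, ce (((j : ℝ) - k) * θ) := by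
  rw [fk, Complex.ofReal_pow, ← Complex.mul_conj', map_sum, sum_mul_sum]
  refine sum_congr rfl fun j _ => sum_congr rfl fun k _ => ?_
  rw [conj_ce, ← ce_add]
  congr 1
  ring

lemma fk_nonneg (q : ℕ) (θ : ℝ) : 0 ≤ fk q θ := sq_nonneg _

lemma fk_le (q : ℕ) (θ : ℝ) : fk q θ ≤ q ^ 2 := by
  unfold fk
  gcongr
  refine (norm_sum_le _ _).trans ?_
  simp [norm_ce]

lemma fk_le_inv (q : ℕ) {θ : ℝ} (h : |θ| ≤ 1 / 2) : fk q θ * θ ^ 2 ≤ 16 := by
  have e : ∀ j : ℕ, ce (j * θ) = ce θ ^ j := by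
    intro j
    simp only [ce, ← Complex.exp_nat_mul]
    congr 1
    push_cast; ring
  have h1 : ‖∑ j ∈ range q, ce (j * θ)‖ * ‖ce θ - 1‖ ≤ 2 := by
    rw [← norm_mul]
    simp only [e, geom_sum_mul]
    refine (norm_sub_le _ _).trans ?_
    rw [norm_pow, norm_ce]
    norm_num
  have h2 := Complex.norm_exp_sub_one_sub_id_le (x := Complex.I * θ) (by simp; linarith)
  have h3 : ‖Complex.I * θ‖ = |θ| := by simp
  have h4 : |θ| ≤ ‖ce θ - 1‖ + |θ| ^ 2 := by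
    have := norm_sub_le (ce θ - 1) (ce θ - 1 - Complex.I * θ)
    rw [sub_sub_cancel, h3] at this
    rw [h3] at h2
    unfold ce at *
    linarith
  have h5 := abs_nonneg θ
  have h6 : |θ| ≤ 2 * ‖ce θ - 1‖ := by nlinarith
  have h7 : ‖∑ j ∈ range q, ce (j * θ)‖ * |θ| ≤ 4 := by
    nlinarith [norm_nonneg (∑ j ∈ range q, ce (j * θ))]
  rw [fk, ← sq_abs θ, ← mul_pow]
  nlinarith [mul_nonneg (norm_nonneg (∑ j ∈ range q, ce (j * θ))) h5]

theorem fejer {ε δ : ℝ} (hε : 0 < ε) (hε1 : ε ≤ 1) (hδ : 0 < δ) (B : ℝ) :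
    ∃ Y η : ℝ, 0 < Y ∧ 0 < η ∧ ∀ (ι β : Type) [Fintype ι] [DecidableEq ι] [Fintype β] (P : PW β)
      (t : (ι → β) → ℝ) (T : (ι → β) → ℂ) (h0 g0 : ℂ),
      (∀ y, |y| ≤ Y →
        ‖P.Ex (fun ω => T ω * ce (y * t ω)) - g0 * P.Ex (fun ω => ce (y * t ω))‖ ≤ η) →
      (∀ y, |y| ≤ Y → -η ≤ (P.Ex fun ω => ce (y * t ω)).re) →
      (∀ k : ℝ → ℝ, (∀ s, 0 ≤ k s) →
        ‖P.Ex (fun ω => k (t ω) * T ω) - (P.Ex fun ω => k (t ω) : ℝ) * h0‖ ≤
          P.Ex fun ω => k (t ω) * if |t ω| ≤ δ then ε else 2) →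
      P.Q t ≤ B → ‖h0 - g0‖ ≤ 3 * ε := by
  obtain ⟨l, hl⟩ := exists_nat_ge (max 1 ((64 / δ ^ 2 + 64 * B) / ε))
  have hl1 : (1 : ℝ) ≤ l := (le_max_left _ _).trans hl
  have hl2 : (64 / δ ^ 2 + 64 * B) / ε ≤ l := (le_max_right _ _).trans hl
  refine ⟨l ^ 2, ε / (2 * l ^ 3), by positivity, by positivity, ?_⟩
  intro ι β _ _ _ P t T h0 g0 H1 H2 H3 H4
  set η := ε / (2 * (l : ℝ) ^ 3) with hη
  have hη0 : 0 < η := by positivity
  set q := l ^ 3 with hq
  have hqr : (q : ℝ) = l ^ 3 := by rw [hq]; push_cast; rfl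
  set κ := P.Ex fun ω => fk q (1 / l * t ω) with hκ
  have hY : ∀ j ∈ range q, ∀ k ∈ range q, |((j : ℝ) - k) * (1 / l)| ≤ l ^ 2 := by
    intro j hj k hk
    have a1 : (j : ℝ) ≤ q := by exact_mod_cast (mem_range.1 hj).le
    have a2 : (k : ℝ) ≤ q := by exact_mod_cast (mem_range.1 hk).le
    have a3 : |(j : ℝ) - k| ≤ l ^ 3 := by
      rw [← hqr]
      exact abs_le.2 ⟨by linarith [Nat.cast_nonneg (α := ℝ) j], by
        linarith [Nat.cast_nonneg (α := ℝ) k]⟩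
    rw [abs_mul, abs_of_pos (by positivity : (0 : ℝ) < 1 / l)]
    calc _ ≤ (l : ℝ) ^ 3 * (1 / l) := by gcongr
      _ = _ := by field_simp
  have eκ : (κ : ℂ) = ∑ j ∈ range q, ∑ k ∈ range q,
      P.Ex fun ω => ce (((j : ℝ) - k) * (1 / l) * t ω) := by
    rw [hκ, ← P.Ex_ofReal]
    simp only [fk_eq, P.Ex_sum, mul_assoc]
  have eT : P.Ex (fun ω => fk q (1 / l * t ω) * T ω) = ∑ j ∈ range q, ∑ k ∈ range q,
      P.Ex fun ω => T ω * ce (((j : ℝ) - k) * (1 / l) * t ω) := by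
    simp only [fk_eq, sum_mul, P.Ex_sum, mul_assoc, mul_comm (T _)]
  have b1 : ‖P.Ex (fun ω => fk q (1 / l * t ω) * T ω) - κ * g0‖ ≤ q ^ 2 * η := by
    rw [eT, eκ, mul_comm _ g0, mul_sum, ← sum_sub_distrib]
    calc _ ≤ ∑ _j ∈ range q, ∑ _k ∈ range q, η := by
          refine norm_sum_le_of_le _ fun j hj => ?_
          rw [mul_sum, ← sum_sub_distrib]
          exact norm_sum_le_of_le _ fun k hk => H1 _ (hY j hj k hk)
      _ = _ := by simp; ring
  have b2 : (q : ℝ) - q ^ 2 * η ≤ κ := by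
    have := congrArg Complex.re eκ
    rw [Complex.ofReal_re] at this
    rw [this, Complex.re_sum]
    calc _ = ∑ j ∈ range q, ∑ k ∈ range q, ((if j = k then (1 : ℝ) else 0) - η) := by
          rw [sum_congr rfl (g := fun _ => 1 - q * η) fun j hj => by
            rw [sum_sub_distrib, sum_ite_eq, if_pos hj]; simp]
          simp; ring
      _ ≤ _ := by
          refine sum_le_sum fun j hj => ?_
          rw [Complex.re_sum]
          refine sum_le_sum fun k hk => ?_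
          split_ifs with h
          · subst h
            simp [ce_zero, P.Ex_const, hη0.le]
          · simpa using H2 _ (hY j hj k hk)
  have b3 := H3 (fun s => fk q (1 / l * s)) fun s => fk_nonneg _ _
  have b4 : (P.Ex fun ω => fk q (1 / l * t ω) * if |t ω| ≤ δ then ε else 2) ≤
      ε * κ + 32 * l ^ 2 / δ ^ 2 + 32 * l ^ 2 * P.Q t := by
    rw [hκ, PW.Q, ← P.Ex_const_mul, ← P.Ex_const_mul, ← P.Ex_const (ι := ι) (32 * l ^ 2 / δ ^ 2),
      ← P.Ex_add, ← P.Ex_add]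
    refine P.Ex_mono fun ω => ?_
    have a0 := fk_nonneg q (1 / l * t ω)
    have a1 : (0 : ℝ) ≤ 32 * l ^ 2 / δ ^ 2 := by positivity
    have a2 : (0 : ℝ) ≤ 32 * l ^ 2 * t ω ^ 4 := by positivity
    have a3 : 0 ≤ ε * fk q (1 / l * t ω) := by positivity
    split_ifs with h
    · linarith
    · push Not at h
      rcases le_total |1 / l * t ω| (1 / 2) with h' | h'
      · have a4 := fk_le_inv q h'
        have a5 : δ ^ 2 ≤ t ω ^ 2 := by
          rw [← sq_abs (t ω)]; gcongr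
        have a6 : fk q (1 / l * t ω) * 2 ≤ 32 * l ^ 2 / δ ^ 2 := by
          rw [le_div_iff₀ (by positivity)]
          rw [mul_pow, one_div_pow, ← mul_assoc, mul_one_div, div_mul_eq_mul_div,
            div_le_iff₀ (by positivity)] at a4
          nlinarith
        linarith
      · have a4 := fk_le q (1 / l * t ω)
        have a5 : (1 / 2 : ℝ) ^ 4 ≤ (1 / l * t ω) ^ 4 := by
          rw [← Even.pow_abs (by decide) (1 / l * t ω)]; gcongr
        rw [mul_pow, one_div_pow, one_div_pow, one_div_mul_eq_div,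
          div_le_div_iff₀ (by norm_num) (by positivity)] at a5
        rw [hqr] at a4
        have a6 : ((l : ℝ) ^ 3) ^ 2 ≤ 16 * l ^ 2 * t ω ^ 4 := by
          nlinarith [mul_le_mul_of_nonneg_left a5 (sq_nonneg (l : ℝ))]
        linarith
  have b5 : ‖h0 - g0‖ * κ ≤ q ^ 2 * η + (ε * κ + 32 * l ^ 2 / δ ^ 2 + 32 * l ^ 2 * B) := by
    have hκ0 : 0 ≤ κ := P.Ex_nonneg fun _ => fk_nonneg _ _
    have : ‖h0 - g0‖ * κ = ‖(P.Ex (fun ω => fk q (1 / l * t ω) * T ω) - κ * g0) -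
        (P.Ex (fun ω => fk q (1 / l * t ω) * T ω) - κ * h0)‖ := by
      rw [sub_sub_sub_cancel_left, ← mul_sub, norm_mul, Complex.norm_real, Real.norm_of_nonneg hκ0,
        mul_comm]
    rw [this]
    refine (norm_sub_le _ _).trans (add_le_add b1 (b3.trans (b4.trans ?_)))
    gcongr
  have c1 : (q : ℝ) ^ 2 * η = ε * l ^ 3 / 2 := by rw [hqr, hη]; field_simp
  have c2 : 32 * l ^ 2 / δ ^ 2 + 32 * l ^ 2 * B ≤ ε * l ^ 3 / 2 := by
    rw [div_le_iff₀ hε] at hl2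
    have : 32 * l ^ 2 / δ ^ 2 + 32 * l ^ 2 * B = (l : ℝ) ^ 2 / 2 * (64 / δ ^ 2 + 64 * B) := by ring
    rw [this]
    nlinarith [sq_nonneg (l : ℝ)]
  have c3 : (0 : ℝ) < l ^ 3 := by positivity
  have c4 : (l : ℝ) ^ 3 / 2 ≤ κ := by rw [c1, hqr] at b2; nlinarith
  by_contra hc
  push Not at hc
  rw [c1] at b5
  nlinarith

end Pool.Agent.TSP72
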