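import Pool.Agent.Lib.MP_72f242_pr.Grid

/-! Independent uniform cells, and the Bernoulli model conditioned on the number of points. -/

set_option autoImplicit false

namespace Pool.Agent.TSP72

open Finset

section General

variable {ι : Type} [Fintype ι] [DecidableEq ι]

/-- Expectation of a set function of `m` independent samples. -/
noncomputable def iid (U : PW ι) (m : ℕ) (Φ : Finset ι → ℂ) : ℂ :=
  U.Ex fun c : Fin m → ι => Φ (univ.image c)

lemma Ex_on {A : Type*} [AddCommGroup A] [Module ℝ A] (P : PW Bool) (ψ : Finset ι → A) :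
    P.Ex (fun ω : ι → Bool => ψ (on ω)) = ∑ m ∈ range (Fintype.card ι + 1),
      (P.μ true ^ m * P.μ false ^ (Fintype.card ι - m)) • ∑ S ∈ powersetCard m univ, ψ S := by
  have hb : Function.Bijective (on (ι := ι)) := by
    constructor
    · intro ω ω' e
      funext i
      have : i ∈ on ω ↔ i ∈ on ω' := by rw [e]
      simpa [on] using this
    · intro S
      exact ⟨fun i => decide (i ∈ S), by ext i; simp [on]⟩
  have e1 : P.Ex (fun ω : ι → Bool => ψ (on ω)) = ∑ S : Finset ι,
      (P.μ true ^ S.card * P.μ false ^ (Fintype.card ι - S.card)) • ψ S := by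
    refine Fintype.sum_bijective _ hb _ _ fun ω => ?_
    congr 1
    rw [PW.W, ← prod_mul_prod_compl (on ω), ← card_compl, ← prod_const, ← prod_const]
    congr 1
    · exact prod_congr rfl fun i hi => by rw [(mem_filter.1 hi).2]
    · refine prod_congr rfl fun i hi => ?_
      have : ω i = false := by simpa [on] using hi
      rw [this]
  rw [e1, ← powerset_univ, sum_powerset, card_univ]
  refine sum_congr rfl fun m _ => ?_
  rw [smul_sum]
  exact sum_congr rfl fun S hS => by rw [(mem_powersetCard.1 hS).2]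

lemma cond_bound (P : PW Bool) (Φ : Finset ι → ℂ) (k e : ℕ → ℝ) (hk : ∀ m, 0 ≤ k m) (h0 : ℂ)
    (h : ∀ m, ‖∑ S ∈ powersetCard m univ, Φ S - ((Fintype.card ι).choose m : ℝ) * h0‖ ≤
      (Fintype.card ι).choose m * e m) :
    ‖P.Ex (fun ω : ι → Bool => k (on ω).card * Φ (on ω)) -
      (P.Ex fun ω : ι → Bool => k (on ω).card : ℝ) * h0‖ ≤
      P.Ex fun ω : ι → Bool => k (on ω).card * e (on ω).card := by
  rw [Ex_on P fun S => k S.card * Φ S, Ex_on P fun S => k S.card,
    Ex_on P fun S => k S.card * e S.card, Complex.ofReal_sum, sum_mul, ← sum_sub_distrib]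
  refine norm_sum_le_of_le _ fun m _ => ?_
  rw [sum_powersetCard m univ k, sum_powersetCard m univ fun m => k m * e m, card_univ,
    sum_congr rfl (g := fun S => k m * Φ S) fun S hS => by rw [(mem_powersetCard.1 hS).2],
    ← mul_sum]
  set w := P.μ true ^ m * P.μ false ^ (Fintype.card ι - m)
  have hw : 0 ≤ w := mul_nonneg (pow_nonneg (P.nonneg _) _) (pow_nonneg (P.nonneg _) _)
  have e1 : w • ((k m : ℂ) * ∑ S ∈ powersetCard m univ, Φ S) -
      ((w • (Fintype.card ι).choose m • k m : ℝ) : ℂ) * h0 = ((w * k m : ℝ) : ℂ) *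
        (∑ S ∈ powersetCard m univ, Φ S - ((Fintype.card ι).choose m : ℝ) * h0) := by
    simp only [Complex.real_smul, smul_eq_mul, nsmul_eq_mul]
    push_cast; ring
  rw [e1, norm_mul, Complex.norm_real, Real.norm_of_nonneg (mul_nonneg hw (hk m))]
  refine (mul_le_mul_of_nonneg_left (h m) (mul_nonneg hw (hk m))).trans (le_of_eq ?_)
  simp only [smul_eq_mul, nsmul_eq_mul]
  ring

lemma factorial_le_card_fiber {m : ℕ} {S : Finset ι} (hS : S.card = m) :
    m.factorial ≤ (univ.filter fun c : Fin m → ι => univ.image c = S).card := by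
  let e : Fin m ≃ S := (S.equivFinOfCardEq hS).symm
  have : (univ : Finset (Equiv.Perm (Fin m))).card = m.factorial := by
    simp [Fintype.card_perm]
  rw [← this]
  refine card_le_card_of_injOn (fun σ i => (e (σ i) : ι)) (fun σ _ => ?_) fun σ _ τ _ h => ?_
  · simp only [coe_filter, mem_univ, true_and, Set.mem_ofPred_eq]
    ext x
    simp only [mem_image, mem_univ, true_and]
    exact ⟨fun ⟨i, hi⟩ => hi ▸ (e (σ i)).2, fun hx => ⟨σ.symm (e.symm ⟨x, hx⟩), by simp⟩⟩
  · ext i
    have := congrFun h i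
    exact congrArg Fin.val (e.injective (Subtype.ext this))

lemma avg_iid (U : PW ι) (hU : ∀ b, U.μ b = 1 / Fintype.card ι) (hT : 0 < Fintype.card ι)
    (m : ℕ) (Φ : Finset ι → ℂ) (hΦ : ∀ S, ‖Φ S‖ ≤ 1) :
    ‖∑ S ∈ powersetCard m univ, Φ S - ((Fintype.card ι).choose m : ℝ) * iid U m Φ‖ ≤
      (Fintype.card ι).choose m * (2 * m ^ 2 / Fintype.card ι) := by
  set T := Fintype.card ι with hTdef
  have hT0 : (0 : ℝ) < T := by exact_mod_cast hT
  set A := ∑ S ∈ powersetCard m univ, Φ S with hA
  set C : ℝ := (T.choose m : ℝ) with hC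
  have hC0 : 0 ≤ C := Nat.cast_nonneg _
  set ρ : ℝ := m.factorial * C / T ^ m with hρ
  let n : Finset ι → ℝ := fun S => (univ.filter fun c : Fin m → ι => univ.image c = S).card
  let n' : Finset ι → ℝ := fun S => if S.card = m then m.factorial else 0
  have hn : ∀ S, n' S ≤ n S := by
    intro S
    simp only [n, n']
    split_ifs with h
    · exact_mod_cast factorial_le_card_fiber h
    · positivity
  have hsn : ∑ S, n S = T ^ m := by
    have := card_eq_sum_card_fiberwise (s := (univ : Finset (Fin m → ι))) (t := univ)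
      (f := fun c => univ.image c) (fun _ _ => mem_coe.2 (mem_univ _))
    simp only [card_univ, Fintype.card_pi, prod_const, Fintype.card_fin] at this
    simp only [n]
    exact_mod_cast this.symm
  have hpc : powersetCard m (univ : Finset ι) = univ.filter fun S => S.card = m := by
    ext S; simp
  have hsn' : ∑ S, n' S = m.factorial * C := by
    simp only [n']
    rw [← sum_filter, ← hpc, sum_const, card_powersetCard, card_univ, nsmul_eq_mul, mul_comm]
  have e1 : iid U m Φ = ((1 / T ^ m : ℝ) : ℂ) * ∑ S, (n S : ℂ) * Φ S := by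
    simp only [iid, PW.Ex, PW.W, hU, prod_const, card_univ, Fintype.card_fin, ← smul_sum]
    rw [← sum_fiberwise' univ (fun c : Fin m → ι => univ.image c) Φ, Complex.real_smul]
    simp [n]
  have e2 : (m.factorial : ℂ) * A = ∑ S, (n' S : ℂ) * Φ S := by
    rw [hA, hpc, sum_filter, mul_sum]
    refine sum_congr rfl fun S _ => ?_
    simp only [n']
    split_ifs <;> simp
  have b1 : ‖iid U m Φ - ((1 / T ^ m : ℝ) : ℂ) * (m.factorial * A)‖ ≤ 1 - ρ := by
    rw [e1, e2, ← mul_sub, ← sum_sub_distrib, norm_mul, Complex.norm_real,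
      Real.norm_of_nonneg (by positivity)]
    calc _ ≤ 1 / (T : ℝ) ^ m * ∑ S, (n S - n' S) := by
          gcongr
          refine norm_sum_le_of_le _ fun S _ => ?_
          rw [← sub_mul, ← Complex.ofReal_sub, norm_mul, Complex.norm_real,
            Real.norm_of_nonneg (sub_nonneg.2 (hn S))]
          exact mul_le_of_le_one_right (sub_nonneg.2 (hn S)) (hΦ S)
      _ = _ := by rw [sum_sub_distrib, hsn, hsn', hρ]; field_simp
  have b0 : 0 ≤ 1 - ρ := (norm_nonneg _).trans b1
  have b2 : ‖A‖ ≤ C := by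
    refine (norm_sum_le_of_le _ fun S _ => hΦ S).trans (le_of_eq ?_)
    simp [hC, hTdef]
  have b3 : 1 - ρ ≤ m ^ 2 / T := by
    rcases le_total m T with h | h
    · have a1 : (T - m) ^ m ≤ m.factorial * T.choose m := by
        rw [← Nat.descFactorial_eq_factorial_mul_choose]
        exact (Nat.pow_le_pow_left (by omega) m).trans (Nat.pow_sub_le_descFactorial T m)
      have a2 : ((T : ℝ) - m) ^ m ≤ m.factorial * C := by
        rw [← Nat.cast_sub h, hC]
        exact_mod_cast a1
      have a3 : (m : ℝ) / T ≤ 1 := by rw [div_le_one hT0]; exact_mod_cast h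
      have a4 := one_add_mul_le_pow (a := -(m / T : ℝ)) (by linarith) m
      have a5 : (1 + -(m / T : ℝ)) ^ m ≤ ρ := by
        rw [hρ, le_div_iff₀ (by positivity), ← mul_pow]
        refine le_trans (le_of_eq ?_) a2
        congr 1
        field_simp; ring
      have a6 : (m : ℝ) ^ 2 / T = m * (m / T) := by ring
      linarith
    · have a1 : (1 : ℝ) ≤ m ^ 2 / T := by
        rw [le_div_iff₀ hT0, one_mul]
        exact_mod_cast h.trans (Nat.le_self_pow (by norm_num) _)
      have : 0 ≤ ρ := by positivity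
      linarith
  have e3 : A - C * iid U m Φ = ((1 - ρ : ℝ) : ℂ) * A -
      C * (iid U m Φ - ((1 / T ^ m : ℝ) : ℂ) * (m.factorial * A)) := by
    rw [hρ]; push_cast; ring
  rw [e3]
  refine (norm_sub_le _ _).trans ?_
  rw [norm_mul, norm_mul, Complex.norm_real, Complex.norm_real, Real.norm_of_nonneg b0,
    Real.norm_of_nonneg hC0]
  calc _ ≤ (1 - ρ) * C + C * (1 - ρ) := by gcongr
    _ = C * (2 * (1 - ρ)) := by ring
    _ ≤ _ := by
      rw [mul_div_assoc]
      gcongr

omit [DecidableEq ι] in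
lemma Ex_succ {A : Type*} [AddCommGroup A] [Module ℝ A] (U : PW ι) (m : ℕ)
    (φ : (Fin (m + 1) → ι) → A) :
    U.Ex φ = ∑ t, U.μ t • U.Ex fun c : Fin m → ι => φ (Fin.cons t c) := by
  simp only [PW.Ex, smul_sum, smul_smul]
  rw [← Fintype.sum_prod_type', ← (Fin.consEquiv fun _ : Fin (m + 1) => ι).sum_comp]
  refine sum_congr rfl fun q _ => ?_
  simp [PW.W, Fin.prod_univ_succ, Fin.consEquiv]

lemma iid_succ (U : PW ι) (m : ℕ) (Φ : Finset ι → ℂ) :
    iid U (m + 1) Φ = ∑ t, U.μ t • iid U m fun S => Φ (insert t S) := by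
  rw [iid, Ex_succ]
  refine sum_congr rfl fun t _ => ?_
  simp only [iid]
  congr 2
  funext c
  congr 1
  ext x
  simp [Fin.exists_fin_succ, eq_comm]

lemma Ex_avoid_iid (U : PW ι) (hU : ∀ b, U.μ b = 1 / Fintype.card ι) (m : ℕ) (V : Finset ι) :
    U.Ex (fun c : Fin m → ι => if Disjoint (univ.image c) V then (1 : ℝ) else 0) =
      (1 - V.card / Fintype.card ι) ^ m := by
  have e : (fun c : Fin m → ι => if Disjoint (univ.image c) V then (1 : ℝ) else 0) =
      fun c => ∏ i, (1 - if c i ∈ V then (1 : ℝ) else 0) := by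
    funext c
    split_ifs with h
    · refine (prod_eq_one fun i _ => ?_).symm
      rw [if_neg (disjoint_left.1 h (mem_image_of_mem _ (mem_univ i))), sub_zero]
    · obtain ⟨x, h1, h2⟩ := not_disjoint_iff.1 h
      obtain ⟨i, -, rfl⟩ := mem_image.1 h1
      symm
      refine prod_eq_zero (mem_univ i) ?_
      rw [if_pos h2, sub_self]
  rw [e, U.Ex_prod_coord (fun _ b => 1 - if b ∈ V then (1 : ℝ) else 0), prod_const, card_univ,
    Fintype.card_fin]
  congr 1
  simp only [smul_eq_mul, mul_sub, mul_one, sum_sub_distrib, U.sum_one]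
  simp [hU, div_eq_mul_inv]

end General

section Cells

variable {K R g : ℕ} (hK : K = R * g) (hR : 1 ≤ R) (hg : 1 ≤ g) (U : PW (Cell K))
  (hU : ∀ b, U.μ b = 1 / Fintype.card (Cell K))

include hK hR hg hU

lemma mean_DD_iid {m : ℕ} (hm : R ^ 2 ≤ 2 * m) (t : Cell K) :
    U.Ex (fun c : Fin m → Cell K => (DD R g t (univ.image c) : ℝ)) ≤ C0 := by
  refine mean_DD U R g t (fun c : Fin m → Cell K => univ.image c) fun i hi => ?_
  rw [Ex_avoid_iid U hU]
  have hR0 : (0 : ℝ) < R := by exact_mod_cast hR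
  have hg0 : (0 : ℝ) < g := by exact_mod_cast hg
  have hT : (Fintype.card (Cell K) : ℝ) = (R * g) ^ 2 := by simp [hK]
  have h1 := card_nb t (d := i * g) (by rw [hK]; gcongr)
  have h2 : (i : ℝ) * g ^ 2 ≤ (nb t (i * g)).card := by
    have : i * g ^ 2 ≤ (i * g) ^ 2 := by
      rw [mul_pow]
      gcongr
      exact Nat.le_self_pow (by norm_num) _
    exact_mod_cast this.trans h1
  have h3 : ((nb t (i * g)).card : ℝ) ≤ Fintype.card (Cell K) := by
    exact_mod_cast card_le_univ _
  have h4 : (R : ℝ) ^ 2 ≤ 2 * m := by exact_mod_cast hm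
  calc _ ≤ Real.exp (-((nb t (i * g)).card / Fintype.card (Cell K))) ^ m :=
        pow_le_pow_left₀ (by rw [sub_nonneg, div_le_one (by rw [hT]; positivity)]; exact h3)
          (Real.one_sub_le_exp_neg _) _
    _ ≤ _ := by
        rw [← Real.exp_nat_mul, Real.exp_le_exp, hT]
        have : (i : ℝ) / 2 ≤ m * ((nb t (i * g)).card / (R * g) ^ 2) := by
          rw [← mul_div_assoc, div_le_div_iff₀ (by norm_num) (by positivity)]
          have a1 : (0 : ℝ) ≤ i * g ^ 2 := by positivity
          nlinarith [mul_le_mul h4 h2 a1 (by positivity)]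
        linarith

lemma iid_step {Z : Finset (Cell K)} (hZ : Z.Nonempty) (x k : ℝ) {m : ℕ} (hm : R ^ 2 ≤ 2 * m) :
    ‖iid U (m + 1) (fun S => ce (x * Lc (S ∪ Z) + k)) - iid U m (fun S => ce (x * Lc (S ∪ Z) + k))‖
      ≤ |x| * (4 * C0 / R) := by
  have e : iid U m (fun S => ce (x * Lc (S ∪ Z) + k)) =
      ∑ t, U.μ t • iid U m (fun S => ce (x * Lc (S ∪ Z) + k)) := by
    rw [← sum_smul, U.sum_one, one_smul]
  have e2 : |x| * (4 * C0 / R) = ∑ t, U.μ t * (|x| * (4 * C0 / R)) := by
    rw [← sum_mul, U.sum_one, one_mul]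
  rw [iid_succ, e, ← sum_sub_distrib, e2]
  refine norm_sum_le_of_le _ fun t _ => ?_
  rw [← smul_sub, norm_smul, Real.norm_of_nonneg (U.nonneg t)]
  refine mul_le_mul_of_nonneg_left ?_ (U.nonneg t)
  rw [iid, iid, ← U.Ex_sub]
  refine (U.norm_Ex_le _).trans ?_
  calc _ ≤ U.Ex fun c : Fin m → Cell K => |x| * 4 / R * (DD R g t (univ.image c) : ℝ) := by
        refine U.Ex_mono fun c => (norm_ce_sub_le _ _).trans ?_
        rw [add_sub_add_right_eq_sub, ← mul_sub, abs_mul, insert_union]
        have a1 := Lc_insert_le hK hR hg t (S := univ.image c) (S' := univ.image c ∪ Z)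
          subset_union_left (hZ.mono subset_union_right)
        have a2 := Lc_mono (subset_insert t (univ.image c ∪ Z))
        rw [abs_of_nonneg (sub_nonneg.2 a2)]
        calc _ ≤ |x| * (4 * (DD R g t (univ.image c) : ℝ) / R) := by gcongr; linarith
          _ = _ := by ring
    _ ≤ _ := by
        rw [U.Ex_const_mul]
        calc _ ≤ |x| * 4 / R * C0 := by
              gcongr
              exact mean_DD_iid hK hR hg U hU hm t
          _ = _ := by ring

lemma iid_steps {Z : Finset (Cell K)} (hZ : Z.Nonempty) (x k : ℝ) {m m' : ℕ}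
    (hm : R ^ 2 ≤ 2 * m) (hm' : R ^ 2 ≤ 2 * m') :
    ‖iid U m' (fun S => ce (x * Lc (S ∪ Z) + k)) - iid U m (fun S => ce (x * Lc (S ∪ Z) + k))‖
      ≤ |(m' : ℝ) - m| * (|x| * (4 * C0 / R)) := by
  wlog h : m ≤ m' generalizing m m'
  · rw [norm_sub_rev, abs_sub_comm]
    exact this hm' hm (by omega)
  clear hm'
  induction m', h using Nat.le_induction with
  | base => simp
  | succ n hn ih =>
    have h1 := iid_step hK hR hg U hU hZ x k (m := n) (by omega)
    have h2 : (m : ℝ) ≤ n := by exact_mod_cast hn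
    rw [abs_of_nonneg (by linarith)] at ih
    rw [abs_of_nonneg (by push_cast; linarith)]
    refine (norm_sub_le_norm_sub_add_norm_sub _ _ _).trans ((add_le_add h1 ih).trans (le_of_eq ?_))
    push_cast; ring

lemma iid_anchor (Z : Finset (Cell K)) (x k : ℝ) {m : ℕ} (hm : R ^ 2 ≤ 2 * m) :
    ‖iid U m (fun S => ce (x * Lc (S ∪ Z) + k)) - iid U m (fun S => ce (x * Lc S + k))‖
      ≤ |x| * (Z.card * (4 * C0 / R)) := by
  have hm0 : 0 < m := by
    have : 0 < R ^ 2 := by positivity
    omega
  rw [iid, iid, ← U.Ex_sub]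
  refine (U.norm_Ex_le _).trans ?_
  calc _ ≤ U.Ex fun c : Fin m → Cell K =>
        ∑ t ∈ Z, |x| * 4 / R * (DD R g t (univ.image c) : ℝ) := by
        refine U.Ex_mono fun c => (norm_ce_sub_le _ _).trans ?_
        rw [add_sub_add_right_eq_sub, ← mul_sub, abs_mul]
        have a1 := Lc_union_le hK hR hg (S := univ.image c)
          ⟨_, mem_image_of_mem _ (mem_univ ⟨0, hm0⟩)⟩ Z
        have a2 := Lc_mono (subset_union_left (s₁ := univ.image c) (s₂ := Z))
        rw [abs_of_nonneg (sub_nonneg.2 a2)]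
        calc _ ≤ |x| * ∑ t ∈ Z, 4 * (DD R g t (univ.image c) : ℝ) / R := by gcongr; linarith
          _ = _ := by rw [mul_sum]; exact sum_congr rfl fun t _ => by ring
    _ ≤ ∑ _t ∈ Z, |x| * 4 / R * C0 := by
        rw [U.Ex_sum]
        refine sum_le_sum fun t _ => ?_
        rw [U.Ex_const_mul]
        gcongr
        exact mean_DD_iid hK hR hg U hU hm t
    _ = _ := by rw [sum_const, nsmul_eq_mul]; ring

end Cells

end Pool.Agent.TSP72
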