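import Pool.Agent.Lib.MP_72f242_pr.Var
import Pool.Agent.Lib.MP_72f242_pr.Fejer
import Pool.Agent.Lib.MP_72f242_pr.Iid

/-! From the Bernoulli model to independent uniform cells. -/

set_option autoImplicit false

namespace Pool.Agent.TSP72

open Finset

lemma Ex_coord {ι β : Type} [Fintype ι] [DecidableEq ι] [Fintype β] (P : PW β) (i : ι)
    (φ : β → ℝ) : P.Ex (fun ω : ι → β => φ (ω i)) = ∑ b, P.μ b * φ b := by
  have := P.Ex_prod_coord (fun j b => if j = i then φ b else 1)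
  simp only [prod_ite_eq', mem_univ, if_true, smul_eq_mul] at this
  rw [this, prod_eq_single i]
  · simp
  · intro j _ hj
    simp [hj, P.sum_one]
  · simp

lemma card_on_eq {ι : Type} [Fintype ι] (ω : ι → Bool) :
    ((on ω).card : ℝ) = ∑ i, if ω i = true then (1 : ℝ) else 0 := by
  simp [on]

lemma Ex_card {ι : Type} [Fintype ι] [DecidableEq ι] (P : PW Bool) :
    P.Ex (fun ω : ι → Bool => ((on ω).card : ℝ)) = Fintype.card ι * P.μ true := by
  simp only [card_on_eq]
  rw [P.Ex_sum]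
  simp only [fun i : ι => Ex_coord P i fun b => if b = true then (1 : ℝ) else 0]
  simp

lemma N_card {ι : Type} [Fintype ι] [DecidableEq ι] (P : PW Bool) :
    P.N (fun ω : ι → Bool => ((on ω).card : ℝ) - Fintype.card ι * P.μ true) =
      Fintype.card ι * (P.μ true * (1 - P.μ true)) := by
  have h := P.N_sum_indep (univ : Finset ι) (fun i => {i})
    (fun i _ j _ h => by simpa [Function.onFun] using h)
    (fun i ω => (if ω i = true then (1 : ℝ) else 0) - P.μ true)
    (fun i _ η ω => by simp [piecewise])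
    (fun i _ => by
      rw [Ex_coord P i fun b => (if b = true then (1 : ℝ) else 0) - P.μ true]
      simp [P.mu_false]; ring)
  have e : (∑ i : ι, fun ω : ι → Bool => (if ω i = true then (1 : ℝ) else 0) - P.μ true) =
      fun ω => ((on ω).card : ℝ) - Fintype.card ι * P.μ true := by
    funext ω
    simp [card_on_eq]
  rw [e] at h
  rw [h]
  simp only [PW.N, fun i : ι =>
    Ex_coord P i fun b => ((if b = true then (1 : ℝ) else 0) - P.μ true) ^ 2]
  simp [P.mu_false]
  ring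

/-- The normalised number of points. -/
noncomputable def tt (n m : ℕ) : ℝ := ((m : ℝ) - n) / √n

/-- The centering. -/
noncomputable def aa (P : PW Bool) {K : ℕ} (Z : Finset (Cell K)) : ℝ := P.Ex (FF Z 1 0)

/-- The regression coefficient. -/
noncomputable def al (P : PW Bool) {K : ℕ} (Z : Finset (Cell K)) (n : ℕ) : ℝ :=
  P.Ex (fun ω => (FF Z 1 0 ω - aa P Z) * tt n (on ω).card) /
    P.N fun ω : Cell K → Bool => tt n (on ω).card

/-- The residual of the tour length. -/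
noncomputable def GG (P : PW Bool) {K : ℕ} (Z : Finset (Cell K)) (n : ℕ) (ω : Cell K → Bool) : ℝ :=
  FF Z 1 0 ω - aa P Z - al P Z n * tt n (on ω).card

/-- The scaling. -/
noncomputable def sg (P : PW Bool) {K : ℕ} (Z : Finset (Cell K)) (n : ℕ) : ℝ :=
  √(P.N (GG P Z n))

section Model

variable {P : PW Bool} {K R g n : ℕ} (hG : Good P K R g) (hn : P.μ true * K ^ 2 = n)
  (hp : P.μ true ≤ 1 / 2) {Z : Finset (Cell K)}

include hG hn

lemma Good.sq_le : (R : ℝ) ^ 2 ≤ n ∧ (n : ℝ) ≤ 4 * R ^ 2 := by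
  have e : (n : ℝ) = R ^ 2 * (P.μ true * g ^ 2) := by rw [← hn, hG.hK]; push_cast; ring
  have := sq_nonneg (R : ℝ)
  exact ⟨by nlinarith [hG.p1], by nlinarith [hG.p4]⟩

lemma Good.sqrt_le : (R : ℝ) ≤ √n ∧ √n ≤ 2 * R := by
  obtain ⟨h1, h2⟩ := hG.sq_le hn
  exact ⟨Real.le_sqrt_of_sq_le h1, Real.sqrt_le_iff.2 ⟨by positivity, by linarith⟩⟩

omit hG in
lemma FF_center (x y : ℝ) (ω : Cell K → Bool) :
    FF Z x ((y - x * al P Z n) / √n) ω - P.Ex (FF Z x ((y - x * al P Z n) / √n)) =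
      x * GG P Z n ω + y * tt n (on ω).card := by
  have e : ∀ x y, P.Ex (FF Z x y) = x * P.Ex (fun ω => Lc (on ω ∪ Z)) + y * n := by
    intro x y
    unfold FF
    rw [P.Ex_add, P.Ex_const_mul, P.Ex_const_mul, Ex_card, ← hn]
    simp [mul_comm]
  simp only [GG, aa, e, FF, tt]
  ring

lemma N_tt : P.N (fun ω : Cell K → Bool => tt n (on ω).card) = 1 - P.μ true := by
  have hR0 : (0 : ℝ) < R := by exact_mod_cast hG.hR
  have hn0 : (0 : ℝ) < n := lt_of_lt_of_le (by positivity) (hG.sq_le hn).1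
  have h := N_card (ι := Cell K) P
  have e : (Fintype.card (Cell K) : ℝ) * P.μ true = n := by simp [← hn, mul_comm]
  rw [← mul_assoc, e] at h
  simp only [PW.N, tt, div_eq_mul_inv, mul_pow, inv_pow, Real.sq_sqrt hn0.le, P.Ex_mul_const] at h ⊢
  rw [h]
  field_simp

include hp

lemma N_comb (x y : ℝ) : P.N (fun ω => x * GG P Z n ω + y * tt n (on ω).card) =
    x ^ 2 * P.N (GG P Z n) + y ^ 2 * (1 - P.μ true) := by
  have h0 : P.Ex (fun ω => GG P Z n ω * tt n (on ω).card) = 0 := by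
    have e : (fun ω => GG P Z n ω * tt n (on ω).card) = fun ω =>
        (FF Z 1 0 ω - aa P Z) * tt n (on ω).card - al P Z n * tt n (on ω).card ^ 2 := by
      funext ω; unfold GG; ring
    rw [e, P.Ex_sub, P.Ex_const_mul, al, PW.N, div_mul_cancel₀, sub_self]
    have := N_tt hG hn
    unfold PW.N at this
    rw [this]
    linarith
  have e : (fun ω => (x * GG P Z n ω + y * tt n (on ω).card) ^ 2) = fun ω =>
      x ^ 2 * GG P Z n ω ^ 2 + y ^ 2 * tt n (on ω).card ^ 2 +
        2 * x * y * (GG P Z n ω * tt n (on ω).card) := by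
    funext ω; ring
  rw [PW.N, e, P.Ex_add, P.Ex_add, P.Ex_const_mul, P.Ex_const_mul, P.Ex_const_mul, h0,
    ← N_tt hG hn]
  simp [PW.N]

lemma abs_al_le (hZ : Z.Nonempty) : |al P Z n| ≤ 8 * C1 := by
  have hC := one_le_C1
  have h1 := P.Ex_cs (fun ω => FF Z 1 0 ω - aa P Z) fun ω => tt n (on ω).card
  have h2 := P.N_le_of_Q (by positivity)
    (Q_total hG hZ (X := 1) (x := 1) (y := 0) (by simp) (by simp))
  have h3 := N_tt hG hn
  rw [al, h3, abs_div, abs_of_pos (by linarith : 0 < 1 - P.μ true), div_le_iff₀ (by linarith)]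
  unfold PW.N at h2 h3
  rw [h3] at h1
  refine abs_le_of_sq_le_sq (h1.trans ?_) (by nlinarith)
  unfold aa
  have h4 : 0 ≤ 1 - P.μ true := by linarith
  calc _ ≤ (4 * C1 * 1 ^ 2) * (1 - P.μ true) := by gcongr
    _ ≤ _ := by nlinarith [mul_nonneg h4 h4, mul_nonneg h4 (sub_nonneg.2 hC)]

omit hp in
lemma Q_tt (hZ : Z.Nonempty) : P.Q (fun ω : Cell K → Bool => tt n (on ω).card) ≤ (4 * C1) ^ 2 := by
  have hR0 : (0 : ℝ) < R := by exact_mod_cast hG.hR
  have h := Q_total hG hZ (X := 1) (x := 0) (y := (1 - 0 * al P Z n) / √n) (by simp) (by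
    rw [zero_mul, sub_zero, abs_of_nonneg (by positivity)]
    exact one_div_le_one_div_of_le hR0 (hG.sqrt_le hn).1)
  simp only [FF_center hn] at h
  simpa using h

end Model

theorem depois : ∃ D : ℕ, 1 ≤ D ∧ ∃ c : ℝ, 0 < c ∧ ∀ s ε : ℝ, 0 < ε → ∃ W0 : ℕ, ∃ θ : ℝ, 0 < θ ∧
    ∀ (P : PW Bool) (K R g h W n : ℕ) (U : PW (Cell K)) (Z : Finset (Cell K)),
      Good P K R g → g = D * h → P.μ true * K ^ 2 = n → P.μ true ≤ 1 / 2 →
      (∀ b, U.μ b = 1 / Fintype.card (Cell K)) → Anch W Z → W0 ≤ W → W ≤ R →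
      (Z.card : ℝ) ≤ θ * R → (n : ℝ) ^ 2 ≤ θ * K ^ 2 →
      c ≤ sg P Z n ∧ ‖iid U n (fun S => ce (s / sg P Z n * Lc S + -(s / sg P Z n * aa P Z))) -
        (Real.exp (-s ^ 2 / 2) : ℝ)‖ ≤ ε := by
  obtain ⟨c, hc, D, hD, hvar⟩ := var_lower
  refine ⟨D, hD, √c, Real.sqrt_pos.2 hc, fun s ε hε => ?_⟩
  have hC1 := one_le_C1
  have hC0 := C0_nonneg
  have hc' := Real.sqrt_pos.2 hc
  set ε' := min ε 1 / 4 with hε'
  have hε0 : 0 < ε' := by positivity
  have hε1 : ε' ≤ 1 / 4 := by have := min_le_right ε 1; linarith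
  have hε2 : 4 * ε' ≤ ε := by have := min_le_left ε 1; linarith
  set X0 := |s| / √c with hX0
  have hX00 : 0 ≤ X0 := by positivity
  set A := 16 * (C1 + C0) * X0 + 16 with hA
  have hA0 : 16 ≤ A := by have : 0 ≤ 16 * (C1 + C0) * X0 := by positivity
                          linarith
  set δ := ε' / A with hδ
  have hδ0 : 0 < δ := by positivity
  have hδA : δ * A = ε' := by rw [hδ]; field_simp
  have hδ1 : δ ≤ 1 / 2 := by nlinarith
  obtain ⟨Y, η, hY, hη, hfej⟩ := fejer hε0 (by linarith) hδ0 ((4 * C1) ^ 2)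
  obtain ⟨W0, hclt⟩ := grid_clt (X := X0 * (1 + 8 * C1) + Y) (η := η / 2) (by positivity)
    (by positivity)
  refine ⟨W0, δ, hδ0, fun P K R g h W n U Z hG hg hn hp hU hZ hW hWR hZc hnK => ?_⟩
  have hR1 : (1 : ℝ) ≤ R := by exact_mod_cast hG.hR
  have hR0 : (0 : ℝ) < R := by linarith
  obtain ⟨s1, s2⟩ := hG.sq_le hn
  obtain ⟨s3, s4⟩ := hG.sqrt_le hn
  have hn0 : (0 : ℝ) < n := lt_of_lt_of_le (by positivity) s1
  have hσ : √c ≤ sg P Z n := by
    refine Real.sqrt_le_sqrt ?_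
    have := hvar P K R g h Z hG hg hp (by
      have : 2 * (Z.card : ℝ) ≤ R ^ 2 := by nlinarith
      exact_mod_cast this) ((0 - 1 * al P Z n) / √n)
    simp only [FF_center hn] at this
    simpa using this
  refine ⟨hσ, ?_⟩
  have hσ0 : 0 < sg P Z n := hc'.trans_le hσ
  set x := s / sg P Z n with hx
  have hxX : |x| ≤ X0 := by
    rw [hx, abs_div, abs_of_pos hσ0, hX0]
    gcongr
  have hal := abs_al_le hG hn hp hZ.1
  have hxs : x ^ 2 * P.N (GG P Z n) = s ^ 2 := by
    rw [hx, div_pow, sg, Real.sq_sqrt (P.N_nonneg _), div_mul_cancel₀]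
    exact (Real.sqrt_pos.1 hσ0).ne'
  have hjoint : ∀ x' y : ℝ, |x'| ≤ X0 → |y| ≤ Y →
      ‖P.Ex (fun ω => ce (x' * GG P Z n ω + y * tt n (on ω).card)) -
        (Real.exp (-(x' ^ 2 * P.N (GG P Z n) + y ^ 2 * (1 - P.μ true)) / 2) : ℝ)‖ ≤ η / 2 := by
    intro x' y h1 h2
    have := hclt P K R g W Z hG hZ hW hWR x' ((y - x' * al P Z n) / √n)
      (h1.trans (by nlinarith)) (by
        rw [abs_div, abs_of_nonneg (Real.sqrt_nonneg _)]
        have a1 : |y - x' * al P Z n| ≤ X0 * (1 + 8 * C1) + Y := by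
          refine (abs_sub _ _).trans ?_
          rw [abs_mul]
          have := mul_le_mul h1 hal (abs_nonneg _) hX00
          linarith
        gcongr)
    simp only [FF_center hn] at this
    rwa [N_comb hG hn hp] at this
  have hT : 0 < Fintype.card (Cell K) := Fintype.card_pos_iff.2 ⟨hZ.1.choose⟩
  have hnR : R ^ 2 ≤ 2 * n := by
    have : (R : ℝ) ^ 2 ≤ 2 * n := by linarith
    exact_mod_cast this
  have main := hfej (Cell K) Bool P (fun ω => tt n (on ω).card) (fun ω => ce (x * GG P Z n ω))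
    (iid U n fun S => ce (x * Lc (S ∪ Z) + -(x * aa P Z))) (Real.exp (-s ^ 2 / 2) : ℝ) ?_ ?_ ?_
    (Q_tt hG hn hZ.1)
  · have h1 := iid_anchor hG.hK hG.hR hG.hg U hU Z x (-(x * aa P Z)) hnR
    have h2 : |x| * (Z.card * (4 * C0 / R)) ≤ ε' := by
      calc _ ≤ X0 * (δ * R * (4 * C0 / R)) := by gcongr
        _ = δ * (4 * C0 * X0) := by field_simp
        _ ≤ δ * A := by
          gcongr
          nlinarith [mul_nonneg hC0 hX00]
        _ = _ := hδA
    rw [norm_sub_rev] at h1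
    refine (norm_sub_le_norm_sub_add_norm_sub _ _ _).trans ((add_le_add h1 main).trans ?_)
    linarith
  · intro y hy
    have h1 := hjoint x y hxX hy
    have h2 := hjoint 0 y (by simpa using hX00) hy
    simp only [zero_mul, zero_add, ne_eq, OfNat.ofNat_ne_zero, not_false_eq_true, zero_pow] at h2
    rw [hxs] at h1
    simp only [← ce_add]
    have e : ((Real.exp (-(s ^ 2 + y ^ 2 * (1 - P.μ true)) / 2) : ℝ) : ℂ) =
        (Real.exp (-s ^ 2 / 2) : ℝ) * (Real.exp (-(y ^ 2 * (1 - P.μ true)) / 2) : ℝ) := by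
      rw [← Complex.ofReal_mul, ← Real.exp_add]; congr 2; ring
    rw [e] at h1
    refine (norm_sub_le_norm_sub_add_norm_sub _ _ _).trans ((add_le_add h1 ?_).trans
      (le_of_eq (add_halves η)))
    rw [← mul_sub, norm_mul, norm_sub_rev, Complex.norm_real,
      Real.norm_of_nonneg (Real.exp_pos _).le]
    exact (mul_le_of_le_one_left (norm_nonneg _)
      (Real.exp_le_one_iff.2 (by nlinarith [sq_nonneg s]))).trans h2
  · intro y hy
    have h2 := hjoint 0 y (by simpa using hX00) hy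
    simp only [zero_mul, zero_add, ne_eq, OfNat.ofNat_ne_zero, not_false_eq_true, zero_pow] at h2
    have h3 := (abs_le.1 ((Complex.abs_re_le_norm _).trans h2)).1
    rw [Complex.sub_re, Complex.ofReal_re] at h3
    linarith [Real.exp_pos (-(y ^ 2 * (1 - P.μ true)) / 2)]
  · intro k hk
    have eG : ∀ ω, GG P Z n ω = Lc (on ω ∪ Z) - aa P Z - al P Z n * tt n (on ω).card := by
      intro ω
      simp [GG, FF]
    simp only [eG]
    refine cond_bound P (fun S => ce (x * (Lc (S ∪ Z) - aa P Z - al P Z n * tt n S.card)))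
      (fun m => k (tt n m)) (fun m => if |tt n m| ≤ δ then ε' else 2) (fun m => hk _) _ ?_
    intro m
    have hb : ∀ m', ‖iid U m' fun S => ce (x * Lc (S ∪ Z) + -(x * aa P Z))‖ ≤ 1 := fun m' =>
      U.norm_Ex_le_const fun _ => (norm_ce _).le
    set C : ℝ := ((Fintype.card (Cell K)).choose m : ℝ) with hC
    have hC0' : 0 ≤ C := Nat.cast_nonneg _
    have hsum : ∀ Φ : Finset (Cell K) → ℂ, (∀ S, ‖Φ S‖ ≤ 1) →
        ‖∑ S ∈ powersetCard m univ, Φ S‖ ≤ C := fun Φ hΦ =>
      (norm_sum_le_of_le _ fun S _ => hΦ S).trans (le_of_eq (by simp [hC]))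
    split_ifs with hm
    swap
    · refine (norm_sub_le _ _).trans ?_
      rw [norm_mul, Complex.norm_real, Real.norm_of_nonneg hC0']
      have := hsum (fun S => ce (x * (Lc (S ∪ Z) - aa P Z - al P Z n * tt n S.card)))
        fun _ => (norm_ce _).le
      nlinarith [hb n]
    have hsq : 0 < √(n : ℝ) := Real.sqrt_pos.2 hn0
    have hmn : |(m : ℝ) - n| ≤ δ * √n := by
      rwa [tt, abs_div, abs_of_pos hsq, div_le_iff₀ hsq] at hm
    have hsn : √(n : ℝ) ≤ n := by
      rw [Real.sqrt_le_iff]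
      exact ⟨hn0.le, le_self_pow₀ ((one_le_pow₀ hR1).trans s1) two_ne_zero⟩
    have hmn2 : |(m : ℝ) - n| ≤ 1 / 2 * n :=
      hmn.trans (mul_le_mul hδ1 hsn hsq.le (by norm_num))
    obtain ⟨m1, m2⟩ := abs_le.1 hmn2
    have hmR : R ^ 2 ≤ 2 * m := by
      have : (R : ℝ) ^ 2 ≤ 2 * m := by linarith
      exact_mod_cast this
    have t1 : ‖∑ S ∈ powersetCard m univ,
        ce (x * (Lc (S ∪ Z) - aa P Z - al P Z n * tt n S.card)) -
        ∑ S ∈ powersetCard m univ, ce (x * Lc (S ∪ Z) + -(x * aa P Z))‖ ≤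
        C * (X0 * (8 * C1) * δ) := by
      rw [← sum_sub_distrib]
      refine (norm_sum_le_of_le _ (n := fun _ => X0 * (8 * C1) * δ) fun S hS => ?_).trans
        (le_of_eq (by simp [hC]))
      refine (norm_ce_sub_le _ _).trans ?_
      rw [(mem_powersetCard.1 hS).2]
      have : x * (Lc (S ∪ Z) - aa P Z - al P Z n * tt n m) - (x * Lc (S ∪ Z) + -(x * aa P Z)) =
          -(x * al P Z n * tt n m) := by ring
      rw [this, abs_neg, abs_mul, abs_mul]
      gcongr
    have t2 := avg_iid U hU hT m (fun S => ce (x * Lc (S ∪ Z) + -(x * aa P Z)))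
      fun _ => (norm_ce _).le
    have t3 := iid_steps hG.hK hG.hR hG.hg U hU hZ.1 x (-(x * aa P Z)) hnR hmR
    have t4 : |(m : ℝ) - n| * (|x| * (4 * C0 / R)) ≤ 8 * C0 * X0 * δ := by
      calc _ ≤ δ * (2 * R) * (X0 * (4 * C0 / R)) := by
            gcongr
            exact hmn.trans (by gcongr)
        _ = _ := by field_simp; ring
    have t5 : 2 * (m : ℝ) ^ 2 / Fintype.card (Cell K) ≤ 8 * δ := by
      have hT' : (Fintype.card (Cell K) : ℝ) = K ^ 2 := by simp
      have hT0 : (0 : ℝ) < Fintype.card (Cell K) := by exact_mod_cast hT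
      rw [div_le_iff₀ hT0, hT']
      have : (m : ℝ) ^ 2 ≤ (2 * n) ^ 2 := by gcongr; linarith
      nlinarith
    have t6 : ‖(C : ℂ) * iid U m (fun S => ce (x * Lc (S ∪ Z) + -(x * aa P Z))) -
        C * iid U n (fun S => ce (x * Lc (S ∪ Z) + -(x * aa P Z)))‖ ≤ C * (8 * C0 * X0 * δ) := by
      rw [← mul_sub, norm_mul, Complex.norm_real, Real.norm_of_nonneg hC0']
      gcongr
      exact t3.trans t4
    rw [← hC] at t2
    refine (norm_sub_le_norm_sub_add_norm_sub _ _ _).trans ((add_le_add t1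
      ((norm_sub_le_norm_sub_add_norm_sub _ _ _).trans (add_le_add t2 t6))).trans ?_)
    rw [← mul_add, ← mul_add]
    gcongr
    nlinarith [mul_nonneg (mul_nonneg (by linarith : 0 ≤ C1 + C0) hX00) hδ0.le]

end Pool.Agent.TSP72
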