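import Pool.Agent.Lib.MP_72f242_pr.CS_Grid
import Pool.Agent.Lib.MP_72f242_pr.DePois

/-! From the Bernoulli model to independent uniform cells, uniformly in the frequency, and the
comparison of the residual variances of a model and of its blocks. -/

set_option autoImplicit false

namespace Pool.Agent.TSP72

open Finset

theorem depois_unif {X0 ε : ℝ} (hX00 : 0 ≤ X0) (hε : 0 < ε) : ∃ W0 : ℕ, ∃ θ : ℝ, 0 < θ ∧
    ∀ (P : PW Bool) (K R g W n : ℕ) (U : PW (Cell K)) (Z : Finset (Cell K)),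
      Good P K R g → P.μ true * K ^ 2 = n → P.μ true ≤ 1 / 2 →
      (∀ b, U.μ b = 1 / Fintype.card (Cell K)) → Anch W Z → W0 ≤ W → W ≤ R →
      (Z.card : ℝ) ≤ θ * R → (n : ℝ) ^ 2 ≤ θ * K ^ 2 → ∀ x : ℝ, |x| ≤ X0 →
      ‖iid U n (fun S => ce (x * Lc S + -(x * aa P Z))) -
        (Real.exp (-(x ^ 2 * P.N (GG P Z n)) / 2) : ℝ)‖ ≤ ε := by
  have hC1 := one_le_C1
  have hC0 := C0_nonneg
  set ε' := min ε 1 / 4 with hε'
  have hε0 : 0 < ε' := by positivity
  have hε1 : ε' ≤ 1 / 4 := by have := min_le_right ε 1; linarith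
  have hε2 : 4 * ε' ≤ ε := by have := min_le_left ε 1; linarith
  set A := 16 * (C1 + C0) * X0 + 16 with hA
  have hA0 : 16 ≤ A := by have : 0 ≤ 16 * (C1 + C0) * X0 := by positivity
                          linarith
  set δ := ε' / A with hδ
  have hδ0 : 0 < δ := by positivity
  have hδA : δ * A = ε' := by rw [hδ]; field_simp
  have hδ1 : δ ≤ 1 / 2 := by nlinarith
  obtain ⟨Y, η, hY, hη, hfej⟩ := fejer hε0 (by linarith) hδ0 ((4 * C1) ^ 2)
  obtain ⟨W0, hclt⟩ := grid_clt (X := X0 * (1 + 8 * C1) + Y) (η := η / 2) (by positivity)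
    (by positivity)
  refine ⟨W0, δ, hδ0, fun P K R g W n U Z hG hn hp hU hZ hW hWR hZc hnK x hxX => ?_⟩
  have hR1 : (1 : ℝ) ≤ R := by exact_mod_cast hG.hR
  have hR0 : (0 : ℝ) < R := by linarith
  obtain ⟨s1, s2⟩ := hG.sq_le hn
  obtain ⟨s3, s4⟩ := hG.sqrt_le hn
  have hn0 : (0 : ℝ) < n := lt_of_lt_of_le (by positivity) s1
  have hal := abs_al_le hG hn hp hZ.1
  obtain ⟨v, hxs⟩ : ∃ v, x ^ 2 * P.N (GG P Z n) = v := ⟨_, rfl⟩
  have hv : 0 ≤ v := hxs ▸ mul_nonneg (sq_nonneg _) (P.N_nonneg _)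
  rw [hxs]
  have hjoint : ∀ x' y : ℝ, |x'| ≤ X0 → |y| ≤ Y →
      ‖P.Ex (fun ω => ce (x' * GG P Z n ω + y * tt n (on ω).card)) -
        (Real.exp (-(x' ^ 2 * P.N (GG P Z n) + y ^ 2 * (1 - P.μ true)) / 2) : ℝ)‖ ≤ η / 2 := by
    intro x' y h1 h2
    have := hclt P K R g W Z hG hZ hW hWR x' ((y - x' * al P Z n) / √n)
      (h1.trans (by nlinarith)) (by
        rw [abs_div, abs_of_nonneg (Real.sqrt_nonneg _)]
        have a1 : |y - x' * al P Z n| ≤ X0 * (1 + 8 * C1) + Y := by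
          refine (abs_sub _ _).trans ?_
          rw [abs_mul]
          have := mul_le_mul h1 hal (abs_nonneg _) hX00
          linarith
        gcongr)
    simp only [FF_center hn] at this
    rwa [N_comb hG hn hp] at this
  have hT : 0 < Fintype.card (Cell K) := Fintype.card_pos_iff.2 ⟨hZ.1.choose⟩
  have hnR : R ^ 2 ≤ 2 * n := by
    have : (R : ℝ) ^ 2 ≤ 2 * n := by linarith
    exact_mod_cast this
  have main := hfej (Cell K) Bool P (fun ω => tt n (on ω).card) (fun ω => ce (x * GG P Z n ω))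
    (iid U n fun S => ce (x * Lc (S ∪ Z) + -(x * aa P Z))) (Real.exp (-v / 2) : ℝ) ?_ ?_ ?_
    (Q_tt hG hn hZ.1)
  · have h1 := iid_anchor hG.hK hG.hR hG.hg U hU Z x (-(x * aa P Z)) hnR
    have h2 : |x| * (Z.card * (4 * C0 / R)) ≤ ε' := by
      calc _ ≤ X0 * (δ * R * (4 * C0 / R)) := by gcongr
        _ = δ * (4 * C0 * X0) := by field_simp
        _ ≤ δ * A := by
          gcongr
          nlinarith [mul_nonneg hC0 hX00]
        _ = _ := hδA
    rw [norm_sub_rev] at h1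
    refine (norm_sub_le_norm_sub_add_norm_sub _ _ _).trans ((add_le_add h1 main).trans ?_)
    linarith
  · intro y hy
    have h1 := hjoint x y hxX hy
    have h2 := hjoint 0 y (by simpa using hX00) hy
    simp only [zero_mul, zero_add, ne_eq, OfNat.ofNat_ne_zero, not_false_eq_true, zero_pow] at h2
    rw [hxs] at h1
    simp only [← ce_add]
    have e : ((Real.exp (-(v + y ^ 2 * (1 - P.μ true)) / 2) : ℝ) : ℂ) =
        (Real.exp (-v / 2) : ℝ) * (Real.exp (-(y ^ 2 * (1 - P.μ true)) / 2) : ℝ) := by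
      rw [← Complex.ofReal_mul, ← Real.exp_add]; congr 2; ring
    rw [e] at h1
    refine (norm_sub_le_norm_sub_add_norm_sub _ _ _).trans ((add_le_add h1 ?_).trans
      (le_of_eq (add_halves η)))
    rw [← mul_sub, norm_mul, norm_sub_rev, Complex.norm_real,
      Real.norm_of_nonneg (Real.exp_pos _).le]
    exact (mul_le_of_le_one_left (norm_nonneg _)
      (Real.exp_le_one_iff.2 (by linarith))).trans h2
  · intro y hy
    have h2 := hjoint 0 y (by simpa using hX00) hy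
    simp only [zero_mul, zero_add, ne_eq, OfNat.ofNat_ne_zero, not_false_eq_true, zero_pow] at h2
    have h3 := (abs_le.1 ((Complex.abs_re_le_norm _).trans h2)).1
    rw [Complex.sub_re, Complex.ofReal_re] at h3
    linarith [Real.exp_pos (-(y ^ 2 * (1 - P.μ true)) / 2)]
  · intro k hk
    have eG : ∀ ω, GG P Z n ω = Lc (on ω ∪ Z) - aa P Z - al P Z n * tt n (on ω).card := by
      intro ω
      simp [GG, FF]
    simp only [eG]
    refine cond_bound P (fun S => ce (x * (Lc (S ∪ Z) - aa P Z - al P Z n * tt n S.card)))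
      (fun m => k (tt n m)) (fun m => if |tt n m| ≤ δ then ε' else 2) (fun m => hk _) _ ?_
    intro m
    have hb : ∀ m', ‖iid U m' fun S => ce (x * Lc (S ∪ Z) + -(x * aa P Z))‖ ≤ 1 := fun m' =>
      U.norm_Ex_le_const fun _ => (norm_ce _).le
    set C : ℝ := ((Fintype.card (Cell K)).choose m : ℝ) with hC
    have hC0' : 0 ≤ C := Nat.cast_nonneg _
    have hsum : ∀ Φ : Finset (Cell K) → ℂ, (∀ S, ‖Φ S‖ ≤ 1) →
        ‖∑ S ∈ powersetCard m univ, Φ S‖ ≤ C := fun Φ hΦ =>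
      (norm_sum_le_of_le _ fun S _ => hΦ S).trans (le_of_eq (by simp [hC]))
    split_ifs with hm
    swap
    · refine (norm_sub_le _ _).trans ?_
      rw [norm_mul, Complex.norm_real, Real.norm_of_nonneg hC0']
      have := hsum (fun S => ce (x * (Lc (S ∪ Z) - aa P Z - al P Z n * tt n S.card)))
        fun _ => (norm_ce _).le
      nlinarith [hb n]
    have hsq : 0 < √(n : ℝ) := Real.sqrt_pos.2 hn0
    have hmn : |(m : ℝ) - n| ≤ δ * √n := by
      rwa [tt, abs_div, abs_of_pos hsq, div_le_iff₀ hsq] at hm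
    have hsn : √(n : ℝ) ≤ n := by
      rw [Real.sqrt_le_iff]
      exact ⟨hn0.le, le_self_pow₀ ((one_le_pow₀ hR1).trans s1) two_ne_zero⟩
    have hmn2 : |(m : ℝ) - n| ≤ 1 / 2 * n :=
      hmn.trans (mul_le_mul hδ1 hsn hsq.le (by norm_num))
    obtain ⟨m1, m2⟩ := abs_le.1 hmn2
    have hmR : R ^ 2 ≤ 2 * m := by
      have : (R : ℝ) ^ 2 ≤ 2 * m := by linarith
      exact_mod_cast this
    have t1 : ‖∑ S ∈ powersetCard m univ,
        ce (x * (Lc (S ∪ Z) - aa P Z - al P Z n * tt n S.card)) -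
        ∑ S ∈ powersetCard m univ, ce (x * Lc (S ∪ Z) + -(x * aa P Z))‖ ≤
        C * (X0 * (8 * C1) * δ) := by
      rw [← sum_sub_distrib]
      refine (norm_sum_le_of_le _ (n := fun _ => X0 * (8 * C1) * δ) fun S hS => ?_).trans
        (le_of_eq (by simp [hC]))
      refine (norm_ce_sub_le _ _).trans ?_
      rw [(mem_powersetCard.1 hS).2]
      have : x * (Lc (S ∪ Z) - aa P Z - al P Z n * tt n m) - (x * Lc (S ∪ Z) + -(x * aa P Z)) =
          -(x * al P Z n * tt n m) := by ring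
      rw [this, abs_neg, abs_mul, abs_mul]
      gcongr
    have t2 := avg_iid U hU hT m (fun S => ce (x * Lc (S ∪ Z) + -(x * aa P Z)))
      fun _ => (norm_ce _).le
    have t3 := iid_steps hG.hK hG.hR hG.hg U hU hZ.1 x (-(x * aa P Z)) hnR hmR
    have t4 : |(m : ℝ) - n| * (|x| * (4 * C0 / R)) ≤ 8 * C0 * X0 * δ := by
      calc _ ≤ δ * (2 * R) * (X0 * (4 * C0 / R)) := by
            gcongr
            exact hmn.trans (by gcongr)
        _ = _ := by field_simp; ring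
    have t5 : 2 * (m : ℝ) ^ 2 / Fintype.card (Cell K) ≤ 8 * δ := by
      have hT' : (Fintype.card (Cell K) : ℝ) = K ^ 2 := by simp
      have hT0 : (0 : ℝ) < Fintype.card (Cell K) := by exact_mod_cast hT
      rw [div_le_iff₀ hT0, hT']
      have : (m : ℝ) ^ 2 ≤ (2 * n) ^ 2 := by gcongr; linarith
      nlinarith
    have t6 : ‖(C : ℂ) * iid U m (fun S => ce (x * Lc (S ∪ Z) + -(x * aa P Z))) -
        C * iid U n (fun S => ce (x * Lc (S ∪ Z) + -(x * aa P Z)))‖ ≤ C * (8 * C0 * X0 * δ) := by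
      rw [← mul_sub, norm_mul, Complex.norm_real, Real.norm_of_nonneg hC0']
      gcongr
      exact t3.trans t4
    rw [← hC] at t2
    refine (norm_sub_le_norm_sub_add_norm_sub _ _ _).trans ((add_le_add t1
      ((norm_sub_le_norm_sub_add_norm_sub _ _ _).trans (add_le_add t2 t6))).trans ?_)
    rw [← mul_add, ← mul_add]
    gcongr
    nlinarith [mul_nonneg (mul_nonneg (by linarith : 0 ≤ C1 + C0) hX00) hδ0.le]

lemma PW.Vr_close {ι β : Type} [Fintype ι] [DecidableEq ι] [Fintype β] (P : PW β) {δ A : ℝ}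
    (hδ : 0 < δ) {f g : (ι → β) → ℝ} (hf : P.Vr f ≤ A) (hg : P.Vr g ≤ A) :
    |P.Vr f - P.Vr g| ≤ δ * A + (1 + 1 / δ) * P.N (f - g) := by
  have h1 := P.N_le_weighted hδ (f - P.E univ f) (g - P.E univ g)
  have h2 := P.N_le_weighted hδ (g - P.E univ g) (f - P.E univ f)
  have e : f - P.E univ f - (g - P.E univ g) = (f - g) - P.E univ (f - g) := by
    rw [P.E_sub]; ring
  rw [P.N_neg_sub (g - P.E univ g)] at h2
  rw [e, ← P.Vr_eq, ← P.Vr_eq] at h1 h2
  have h3 : P.Vr (f - g) ≤ P.N (f - g) := by rw [P.Vr_eq]; exact P.N_sub_E_le _ _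
  have h4 := mul_le_mul_of_nonneg_left h3 (show 0 ≤ 1 + 1 / δ by positivity)
  have h5 := mul_le_mul_of_nonneg_left hf hδ.le
  have h6 := mul_le_mul_of_nonneg_left hg hδ.le
  rw [← P.Vr_eq] at h1 h2
  exact abs_le.2 ⟨by linarith, by linarith⟩

lemma N_anchor {P : PW Bool} {K R g : ℕ} (hG : Good P K R g) {Z : Finset (Cell K)} {z : Cell K}
    (hz : z ∈ Z) (y : ℝ) {θ : ℝ} (hZ : (Z.card : ℝ) ≤ θ * R) :
    P.N (FF Z 1 y - FF {z} 1 y) ≤ 16 * (C0 + 1) * θ ^ 2 := by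
  have hC0 := C0_nonneg
  have hR0 : (0 : ℝ) < R := by exact_mod_cast hG.hR
  have h1 : P.N (FF Z 1 y - FF {z} 1 y) ≤
      P.N (∑ t ∈ Z, fun ω : Cell K → Bool => 4 * (DD R g t (on ω) : ℝ) / R) := by
    refine P.Ex_mono fun ω => ?_
    have a1 : Lc (on ω ∪ {z}) ≤ Lc (on ω ∪ Z) :=
      Lc_mono (union_subset_union_right (singleton_subset_iff.2 hz))
    have a2 := L_union_image_le ((on ω ∪ {z}).image pt) Z pt
      (fun t => 2 * (DD R g t (on ω) : ℝ) / R) fun t _ => by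
        obtain ⟨s, hs, hd⟩ := exists_near hG.hK hG.hR hG.hg t (S := on ω) (S' := on ω ∪ {z})
          subset_union_left ⟨z, by simp⟩
        exact ⟨pt s, mem_image_of_mem pt hs, hd⟩
    rw [← image_union, union_assoc, union_eq_right.2 (singleton_subset_iff.2 hz), mul_sum] at a2
    have e : (FF Z 1 y - FF {z} 1 y) ω = Lc (on ω ∪ Z) - Lc (on ω ∪ {z}) := by
      simp only [Pi.sub_apply, FF]; ring
    have e2 : ∑ t ∈ Z, 2 * (2 * (DD R g t (on ω) : ℝ) / R) =
        ∑ t ∈ Z, 4 * (DD R g t (on ω) : ℝ) / R := sum_congr rfl fun t _ => by ring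
    rw [e, Finset.sum_apply]
    unfold Lc at a1 ⊢
    exact pow_le_pow_left₀ (by linarith) (by linarith) 2
  refine h1.trans ((P.N_sum_le_card _ _).trans ?_)
  have h2 : ∀ t ∈ Z, P.N (fun ω : Cell K → Bool => 4 * (DD R g t (on ω) : ℝ) / R) ≤
      16 * (C0 + 1) / R ^ 2 := fun t _ => by
    refine P.N_le_of_Q (by positivity) ((Q_DD hG t R).trans ?_)
    rw [div_pow, ← pow_mul]
    gcongr
    nlinarith
  calc _ ≤ (Z.card : ℝ) * (Z.card * (16 * (C0 + 1) / R ^ 2)) := by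
        gcongr
        exact (sum_le_sum h2).trans (le_of_eq (by rw [sum_const, nsmul_eq_mul]))
    _ ≤ (θ * R) * ((θ * R) * (16 * (C0 + 1) / R ^ 2)) := by
        have : 0 ≤ θ * R := (Nat.cast_nonneg _).trans hZ
        gcongr
    _ = _ := by field_simp

lemma Vr_FF {P : PW Bool} {K R g n : ℕ} (hG : Good P K R g) (hn : P.μ true * K ^ 2 = n)
    (hp : P.μ true ≤ 1 / 2) (Z : Finset (Cell K)) (Y : ℝ) :
    P.Vr (FF Z 1 (Y / √n)) = P.N (GG P Z n) + (Y + al P Z n) ^ 2 * (1 - P.μ true) := by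
  have h := N_comb hG hn hp (Z := Z) 1 (Y + al P Z n)
  simp only [← FF_center hn] at h
  rw [one_mul, add_sub_cancel_right, one_pow, one_mul] at h
  exact h

theorem res_close {η : ℝ} (hη : 0 < η) : ∃ R0 : ℕ, ∃ θ : ℝ, 0 < θ ∧
    ∀ (P : PW Bool) (K R g a m : ℕ) (Z : Finset (Cell K)) (Z' : Finset (Cell (a * K))),
      Good P K R g → R0 ≤ R → 1 ≤ a → P.μ true * K ^ 2 = m → P.μ true ≤ 1 / 2 →
      Z.Nonempty → Z'.Nonempty → (Z.card : ℝ) ≤ θ * R → (Z'.card : ℝ) ≤ θ * (a * R : ℕ) →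
      |P.N (GG P Z' (a ^ 2 * m)) - P.N (GG P Z m)| ≤ η := by
  have hC := one_le_C1
  have hC0 := C0_nonneg
  obtain ⟨R0, h⟩ := var_block (X := 8 * C1) (η := η / 3) (by linarith) (by positivity)
  set A := 4 * C1 * (8 * C1) ^ 2 with hA
  have hA0 : 0 < A := by positivity
  set δ := η / (6 * A) with hδ
  have hδ0 : 0 < δ := by positivity
  set θ := √(η / (6 * (1 + 1 / δ) * (16 * (C0 + 1)))) with hθ
  refine ⟨R0, θ, Real.sqrt_pos.2 (by positivity),
    fun P K R g a m Z Z' hG hR ha hm hp ⟨z, hz⟩ ⟨z', hz'⟩ hZ hZ' => ?_⟩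
  have hG' := hG.blow ha
  have ha0 : (0 : ℝ) < a := by exact_mod_cast ha
  have hR0 : (0 : ℝ) < R := by exact_mod_cast hG.hR
  have hn : P.μ true * (a * K : ℕ) ^ 2 = (a ^ 2 * m : ℕ) := by push_cast; rw [← hm]; ring
  have hb : ∀ {K R : ℕ}, Good P K R g → ∀ {Z : Finset (Cell K)} {z : Cell K}, z ∈ Z →
      (Z.card : ℝ) ≤ θ * R → ∀ y : ℝ, |y| ≤ 8 * C1 / R →
      |P.Vr (FF Z 1 y) - P.Vr (FF {z} 1 y)| ≤ η / 3 := by
    intro K R hG Z z hz hZ y hy
    have a1 : ∀ Z : Finset (Cell K), Z.Nonempty → P.Vr (FF Z 1 y) ≤ A := fun Z hZ =>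
      P.N_le_of_Q hA0.le (Q_total hG hZ (by rw [abs_one]; linarith) hy)
    refine (P.Vr_close hδ0 (a1 Z ⟨z, hz⟩) (a1 _ (singleton_nonempty z))).trans ?_
    have a2 := N_anchor hG hz y hZ
    rw [hθ, Real.sq_sqrt (by positivity)] at a2
    have a3 : δ * A = η / 6 := by rw [hδ]; field_simp
    have a4 : (1 + 1 / δ) * P.N (FF Z 1 y - FF {z} 1 y) ≤ η / 6 := by
      refine (mul_le_mul_of_nonneg_left a2 (by positivity)).trans (le_of_eq ?_)
      field_simp
    linarith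
  have key : ∀ Y : ℝ, |Y| ≤ 8 * C1 →
      |(P.N (GG P Z' (a ^ 2 * m)) + (Y + al P Z' (a ^ 2 * m)) ^ 2 * (1 - P.μ true)) -
        (P.N (GG P Z m) + (Y + al P Z m) ^ 2 * (1 - P.μ true))| ≤ η := by
    intro Y hY
    have a1 : |Y / √m| ≤ 8 * C1 / R := by
      rw [abs_div, abs_of_nonneg (Real.sqrt_nonneg _)]
      gcongr
      exact (hG.sqrt_le hm).1
    have a2 : Y / √(a ^ 2 * m : ℕ) = Y / √m / a := by
      push_cast
      rw [Real.sqrt_mul (by positivity), Real.sqrt_sq ha0.le, div_div, mul_comm]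
    have a3 : |Y / √m / a| ≤ 8 * C1 / (a * R : ℕ) := by
      push_cast
      rw [abs_div, abs_of_pos ha0, mul_comm (a : ℝ), ← div_div]
      gcongr
    rw [← Vr_FF hG' hn hp, ← Vr_FF hG hm hp, a2]
    have b1 := abs_le.1 (h P K R g a z z' hG hR ha _ a1)
    have b2 := abs_le.1 (hb hG hz hZ _ a1)
    have b3 := abs_le.1 (hb hG' hz' hZ' _ a3)
    exact abs_le.2 ⟨by linarith, by linarith⟩
  have k1 := (abs_le.1 (key (-al P Z m) (by
    rw [abs_neg]; exact abs_al_le hG hm hp ⟨z, hz⟩))).2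
  have k2 := (abs_le.1 (key (-al P Z' (a ^ 2 * m)) (by
    rw [abs_neg]; exact abs_al_le hG' hn hp ⟨z', hz'⟩))).1
  have hp' : 0 ≤ 1 - P.μ true := by linarith
  have k3 := mul_nonneg (sq_nonneg (-al P Z m + al P Z' (a ^ 2 * m))) hp'
  have k4 := mul_nonneg (sq_nonneg (-al P Z' (a ^ 2 * m) + al P Z m)) hp'
  rw [neg_add_cancel] at k1 k2
  exact abs_le.2 ⟨by linarith, by linarith⟩

end Pool.Agent.TSP72
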