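import Pool.Agent.Lib.MP_72f242_pr.Grid

/-! The joint central limit theorem for the tour length and the number of points in the
Bernoulli grid model. -/

set_option autoImplicit false

namespace Pool.Agent.TSP72

open Finset

/-- Admissible parameters of the grid model. -/
structure Good (P : PW Bool) (K R g : ℕ) : Prop where
  hK : K = R * g
  hR : 1 ≤ R
  hg : 1 ≤ g
  p1 : 1 ≤ P.μ true * g ^ 2
  p4 : P.μ true * g ^ 2 ≤ 4

/-- The unit box of a cell. -/
def ulab {K : ℕ} (g : ℕ) (c : Cell K) : Fin 2 → ℕ := fun a => (c a : ℕ) / g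

/-- The box of side `1 / m` that contains a cell. -/
def lab {K : ℕ} (m : ℕ) (c : Cell K) : Fin 2 → ℕ := fun a => (c a : ℕ) * m / K

/-- A linear combination of the tour length and the number of points. -/
noncomputable def FF {K : ℕ} (Z : Finset (Cell K)) (x y : ℝ) (ω : Cell K → Bool) : ℝ :=
  x * Lc (on ω ∪ Z) + y * (on ω).card

lemma card_unit {K g : ℕ} (hg : 1 ≤ g) (u : Fin 2 → ℕ) :
    (blk (ulab (K := K) g) u).card ≤ g ^ 2 := by
  have : (Fintype.piFinset fun _ : Fin 2 => range g).card = g ^ 2 := by simp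
  rw [← this]
  refine card_le_card_of_injOn (fun c a => (c a : ℕ) % g) (fun c _ => ?_) fun c hc c' hc' h => ?_
  · simp only [Fintype.coe_piFinset, Set.mem_pi, Set.mem_univ, coe_range, Set.mem_Iio]
    exact fun a _ => Nat.mod_lt _ hg
  · funext a
    have h1 : ulab g c = ulab g c' := by
      simp only [blk, coe_filter, mem_univ, true_and, Set.mem_ofPred_eq] at hc hc'
      rw [hc, hc']
    have h2 : (c a : ℕ) / g = (c' a : ℕ) / g := congrFun h1 a
    have h3 : (c a : ℕ) % g = (c' a : ℕ) % g := congrFun h a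
    apply Fin.ext
    rw [← Nat.div_add_mod (c a) g, ← Nat.div_add_mod (c' a) g, h2, h3]

lemma dist_unit {K R g : ℕ} (hK : K = R * g) (hg : 1 ≤ g) {c c' : Cell K}
    (h : ulab g c = ulab g c') : dist (pt c) (pt c') ≤ 2 / R := by
  refine (dist_pt_le c c' (d := g) fun a => ?_).trans (le_of_eq ?_)
  · have h2 : (c a : ℕ) / g = (c' a : ℕ) / g := congrFun h a
    have a1 := Nat.div_add_mod (c a) g
    have a2 := Nat.div_add_mod (c' a) g
    have a3 := Nat.mod_lt (c a) hg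
    have a4 := Nat.mod_lt (c' a) hg
    rw [h2] at a1
    have b1 : ((c a : ℕ) : ℝ) ≤ (c' a : ℕ) + g := by exact_mod_cast (by omega : (c a : ℕ) ≤ c' a + g)
    have b2 : ((c' a : ℕ) : ℝ) ≤ (c a : ℕ) + g := by exact_mod_cast (by omega : (c' a : ℕ) ≤ c a + g)
    exact abs_le.2 ⟨by linarith, by linarith⟩
  · have : (g : ℝ) ≠ 0 := by positivity
    rw [hK]; push_cast; field_simp

lemma on_piecewise {ι : Type} [Fintype ι] [DecidableEq ι] (B : Finset ι) (η ω : ι → Bool) :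
    on (B.piecewise η ω) = (on η ∩ B) ∪ (on ω \ B) := by
  ext i
  by_cases h : i ∈ B <;> simp [on, piecewise, h]

lemma ind_on_sdiff {ι : Type} [Fintype ι] [DecidableEq ι] (B : Finset ι) :
    Ind B fun ω : ι → Bool => on ω \ B := by
  intro η ω
  ext i
  by_cases h : i ∈ B <;> simp [on, piecewise, h]

lemma ind_on_inter {ι : Type} [Fintype ι] [DecidableEq ι] (B : Finset ι) :
    Ind Bᶜ fun ω : ι → Bool => on ω ∩ B := by
  intro η ω
  ext i
  by_cases h : i ∈ B <;> simp [on, piecewise, h]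

lemma osc {K R g : ℕ} (hK : K = R * g) (hR : 1 ≤ R) (hg : 1 ≤ g) {Z : Finset (Cell K)}
    (hZ : Z.Nonempty) {B : Finset (Cell K)} {t : Cell K} (hB : ∀ c ∈ B, ulab g c = ulab g t)
    (S : Finset (Cell K)) :
    |Lc (S ∪ Z) - Lc (S \ B ∪ Z)| ≤ (4 * (DD R g t (S \ B) : ℝ) + 4 * (S ∩ B).card) / R := by
  have h1 : Lc (S \ B ∪ Z) ≤ Lc (S ∪ Z) := Lc_mono (union_subset_union_left sdiff_subset)
  have h2 := Lc_insert_le hK hR hg t (S := S \ B) (S' := S \ B ∪ Z) subset_union_left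
    (hZ.mono subset_union_right)
  have h3 := L_union_image_le ((insert t (S \ B ∪ Z)).image pt) (S ∩ B) pt (fun _ => 2 / R)
    fun c hc => ⟨pt t, mem_image_of_mem _ (mem_insert_self _ _),
      dist_unit hK hg (hB c (mem_inter.1 hc).2)⟩
  have h4 : Lc (S ∪ Z) ≤ L ((insert t (S \ B ∪ Z)).image pt ∪ (S ∩ B).image pt) := by
    rw [← image_union]
    refine Lc_mono fun c hc => ?_
    by_cases h : c ∈ B <;> simp only [mem_union, mem_insert, mem_sdiff, mem_inter] at hc ⊢ <;> tauto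
  rw [sum_const, nsmul_eq_mul] at h3
  rw [abs_of_nonneg (by linarith)]
  have e : (4 * (DD R g t (S \ B) : ℝ) + 4 * (S ∩ B).card) / R =
      4 * (DD R g t (S \ B) : ℝ) / R + 2 * ((S ∩ B).card * (2 / R)) := by ring
  unfold Lc at h2 h4 ⊢
  linarith

/-- A constant in the fourth moment bound. -/
noncomputable def C1 : ℝ := 128 * (256 * C0 + 625 * (24 * Real.exp 8)) + 1

lemma one_le_C1 : 1 ≤ C1 := by
  have := C0_nonneg
  have := Real.exp_pos 8
  unfold C1; nlinarith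

lemma Q_sub_E_le {ι β : Type} [Fintype ι] [DecidableEq ι] [Fintype β] (P : PW β) (S : Finset ι)
    (f : (ι → β) → ℝ) : P.Q (f - P.E S f) ≤ 16 * P.Q f := by
  have h1 : P.Q (f - P.E S f) ≤ P.Ex fun ω => 8 * f ω ^ 4 + 8 * P.E S f ω ^ 4 := by
    refine P.Ex_mono fun ω => ?_
    simp only [Pi.sub_apply]
    nlinarith [sq_nonneg (f ω + P.E S f ω), sq_nonneg (f ω ^ 2 - P.E S f ω ^ 2),
      sq_nonneg ((f ω + P.E S f ω) ^ 2), mul_nonneg (sq_nonneg (f ω + P.E S f ω))
        (sq_nonneg (f ω - P.E S f ω))]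
  rw [P.Ex_add, P.Ex_const_mul, P.Ex_const_mul] at h1
  have h2 := P.Q_E_le S f
  unfold PW.Q at *
  linarith

lemma Q_unit {P : PW Bool} {K R g : ℕ} (hG : Good P K R g) {Z : Finset (Cell K)}
    (hZ : Z.Nonempty) {X x y : ℝ} (hx : |x| ≤ X) (hy : |y| ≤ X / R) (u : Fin 2 → ℕ)
    {B : Finset (Cell K)} (hB : B ⊆ blk (ulab g) u) :
    P.Q (FF Z x y - P.E B (FF Z x y)) ≤ (C1 * X ^ 2 / R ^ 2) ^ 2 := by
  rcases B.eq_empty_or_nonempty with rfl | ⟨t, ht⟩
  · rw [P.E_empty, sub_self]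
    simp only [PW.Q, Pi.zero_apply, P.Ex_const]
    norm_num
    positivity
  have hR0 : (0 : ℝ) < R := by exact_mod_cast hG.hR
  have hX : 0 ≤ X := (abs_nonneg _).trans hx
  have hBu : ∀ c ∈ B, ulab g c = ulab g t := fun c hc => by
    rw [(mem_filter.1 (hB hc)).2, (mem_filter.1 (hB ht)).2]
  have hcard : B.card ≤ g ^ 2 := (card_le_card hB).trans (card_unit hG.hg u)
  let F0 : (Cell K → Bool) → ℝ := fun ω => x * Lc (on ω \ B ∪ Z) + y * (on ω \ B).card
  have h0 : Ind B F0 := (ind_on_sdiff B).comp fun S => x * Lc (S ∪ Z) + y * S.card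
  have e : FF Z x y - P.E B (FF Z x y) = (FF Z x y - F0) - P.E B (FF Z x y - F0) := by
    rw [P.E_sub, P.E_of_ind h0]; ring
  rw [e]
  refine (Q_sub_E_le P B _).trans ?_
  have h1 : P.Q (FF Z x y - F0) ≤ P.Ex fun ω => (X / R) ^ 4 * (8 * (256 *
      (DD R g t (on ω \ B) : ℝ) ^ 4 + 625 * ((on ω ∩ B).card : ℝ) ^ 4)) := by
    refine P.Ex_mono fun ω => ?_
    have a1 := osc hG.hK hG.hR hG.hg hZ hBu (on ω)
    have a2 : ((on ω).card : ℝ) - (on ω \ B).card = (on ω ∩ B).card := by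
      rw [← card_sdiff_add_card_inter (on ω) B]; push_cast; ring
    set D := (DD R g t (on ω \ B) : ℝ)
    set n := ((on ω ∩ B).card : ℝ)
    have hD : 0 ≤ D := Nat.cast_nonneg _
    have hn : 0 ≤ n := Nat.cast_nonneg _
    have a3 : |(FF Z x y - F0) ω| ≤ X / R * (4 * D + 5 * n) := by
      have : (FF Z x y - F0) ω = x * (Lc (on ω ∪ Z) - Lc (on ω \ B ∪ Z)) + y * n := by
        simp only [Pi.sub_apply, FF, F0, ← a2]; ring
      rw [this]
      refine (abs_add_le _ _).trans ?_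
      rw [abs_mul, abs_mul, abs_of_nonneg hn]
      calc _ ≤ X * ((4 * D + 4 * n) / R) + X / R * n := by gcongr
        _ = _ := by ring
    have a4 : (4 * D + 5 * n) ^ 4 ≤ 8 * (256 * D ^ 4 + 625 * n ^ 4) := by
      nlinarith [sq_nonneg (4 * D - 5 * n), sq_nonneg ((4 * D) ^ 2 - (5 * n) ^ 2),
        sq_nonneg ((4 * D - 5 * n) ^ 2), mul_nonneg (sq_nonneg (4 * D + 5 * n))
          (sq_nonneg (4 * D - 5 * n))]
    calc (FF Z x y - F0) ω ^ 4 = |(FF Z x y - F0) ω| ^ 4 := by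
          rw [← abs_pow, abs_of_nonneg (by positivity)]
      _ ≤ (X / R * (4 * D + 5 * n)) ^ 4 := by gcongr
      _ ≤ _ := by rw [mul_pow]; gcongr
  rw [P.Ex_const_mul, P.Ex_const_mul, P.Ex_add, P.Ex_const_mul, P.Ex_const_mul] at h1
  have h2 := moment_DD_bern P hG.hK hG.p1 t B hcard
  have h3 := Ex_card_four P B (le_trans (mul_le_mul_of_nonneg_left
    (by exact_mod_cast hcard) (P.nonneg true)) hG.p4)
  have h4 := one_le_C1
  calc _ ≤ 16 * ((X / R) ^ 4 * (8 * (256 * C0 + 625 * (24 * Real.exp 8)))) := by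
        refine mul_le_mul_of_nonneg_left (h1.trans ?_) (by norm_num)
        gcongr
    _ = (X / R) ^ 4 * (C1 - 1) := by unfold C1; ring
    _ ≤ (X / R) ^ 4 * C1 ^ 2 := by
        gcongr
        nlinarith
    _ = _ := by ring

lemma Q_cover {P : PW Bool} {K R g : ℕ} (hG : Good P K R g) {Z : Finset (Cell K)}
    (hZ : Z.Nonempty) {X x y : ℝ} (hx : |x| ≤ X) (hy : |y| ≤ X / R) (Λ : Finset (Cell K))
    (s : Finset (Fin 2 → ℕ)) (hs : ∀ c ∈ Λ, ulab g c ∈ s) :
    P.Q (FF Z x y - P.E Λ (FF Z x y)) ≤ (4 * s.card * (C1 * X ^ 2 / R ^ 2)) ^ 2 := by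
  have e : s.biUnion (fun u => blk (ulab g) u ∩ Λ) = Λ := by
    ext c
    simp only [mem_biUnion, mem_inter, blk, mem_filter, mem_univ, true_and]
    exact ⟨fun ⟨_, _, _, h⟩ => h, fun h => ⟨_, hs c h, rfl, h⟩⟩
  have := P.Q_ES s (fun u => blk (ulab g) u ∩ Λ) (FF Z x y) (b := C1 * X ^ 2 / R ^ 2)
    (by have := one_le_C1; positivity) fun u _ => Q_unit hG hZ hx hy u inter_subset_left
  rwa [e] at this

lemma Q_total {P : PW Bool} {K R g : ℕ} (hG : Good P K R g) {Z : Finset (Cell K)}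
    (hZ : Z.Nonempty) {X x y : ℝ} (hx : |x| ≤ X) (hy : |y| ≤ X / R) :
    P.Q (fun ω => FF Z x y ω - P.Ex (FF Z x y)) ≤ (4 * C1 * X ^ 2) ^ 2 := by
  have hR0 : (0 : ℝ) < R := by exact_mod_cast hG.hR
  have := Q_cover hG hZ hx hy univ (Fintype.piFinset fun _ => range R) fun c _ => by
    rw [Fintype.mem_piFinset]
    intro a
    rw [mem_range, ulab, Nat.div_lt_iff_lt_mul hG.hg, ← hG.hK]
    exact (c a).2
  rw [P.E_univ] at this
  refine this.trans (le_of_eq ?_)
  simp only [Fintype.card_piFinset, card_range, prod_const, card_univ, Fintype.card_fin]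
  push_cast
  field_simp

lemma Q_level {P : PW Bool} {K R g : ℕ} (hG : Good P K R g) {Z : Finset (Cell K)}
    (hZ : Z.Nonempty) {X x y : ℝ} (hx : |x| ≤ X) (hy : |y| ≤ X / R) {m : ℕ} (hm : 1 ≤ m)
    (hmR : m ≤ R) (l : Fin 2 → ℕ) :
    P.Q (FF Z x y - P.E (blk (lab m) l) (FF Z x y)) ≤ (36 * C1 * X ^ 2 / (m : ℝ) ^ 2) ^ 2 := by
  have hR0 : (0 : ℝ) < R := by exact_mod_cast hG.hR
  have hm0 : (0 : ℝ) < m := by exact_mod_cast hm
  have := Q_cover hG hZ hx hy (blk (lab m) l)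
    (Fintype.piFinset fun a => Ico (l a * R / m) (l a * R / m + (R / m + 2))) fun c hc => by
    rw [Fintype.mem_piFinset]
    intro a
    have h1 : (c a : ℕ) * m / K = l a := congrFun (mem_filter.1 hc).2 a
    have hK0 : 0 < K := (c a).pos
    have h2 : l a * K ≤ c a * m := by rw [← h1]; exact Nat.div_mul_le_self _ _
    have h3 : c a * m < (l a + 1) * K := by
      rw [← h1, ← Nat.div_lt_iff_lt_mul hK0]; omega
    have h4 : (c a : ℕ) / g * g ≤ c a := Nat.div_mul_le_self _ _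
    have h5 : (c a : ℕ) < ((c a : ℕ) / g + 1) * g := by
      rw [← Nat.div_lt_iff_lt_mul hG.hg]; omega
    have h6 : l a * R < (l a * R / m + 1) * m := by
      rw [← Nat.div_lt_iff_lt_mul hm]; omega
    have h7 : R < (R / m + 1) * m := by
      rw [← Nat.div_lt_iff_lt_mul hm]; omega
    rw [mem_Ico, ulab]
    generalize (c a : ℕ) = w at h2 h3 h4 h5 ⊢
    rw [hG.hK] at h2 h3
    constructor
    · refine Nat.le_of_lt_succ ((Nat.div_lt_iff_lt_mul hm).2 ?_)
      refine lt_of_mul_lt_mul_right (a := g) ?_ (Nat.zero_le _)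
      calc l a * R * g = l a * (R * g) := by ring
        _ ≤ w * m := h2
        _ < (w / g + 1) * g * m := by gcongr
        _ = _ := by rw [Nat.succ_eq_add_one]; ring
    · refine lt_of_mul_lt_mul_right (a := m) ?_ (Nat.zero_le _)
      have : w / g * m < (l a + 1) * R := by
        refine lt_of_mul_lt_mul_right (a := g) ?_ (Nat.zero_le _)
        calc w / g * m * g = w / g * g * m := by ring
          _ ≤ w * m := by gcongr
          _ < (l a + 1) * (R * g) := h3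
          _ = _ := by ring
      nlinarith
  refine this.trans ?_
  have hC := one_le_C1
  simp only [Fintype.card_piFinset, Nat.card_Ico, add_tsub_cancel_left, prod_const, card_univ,
    Fintype.card_fin]
  have h1 : ((R / m + 2 : ℕ) : ℝ) ≤ 3 * R / m := by
    have a1 : ((R / m : ℕ) : ℝ) ≤ R / m := Nat.cast_div_le
    have a2 : (1 : ℝ) ≤ R / m := by rw [le_div_iff₀ hm0, one_mul]; exact_mod_cast hmR
    push_cast
    rw [mul_div_assoc]
    linarith
  calc _ ≤ (4 * (3 * R / m) ^ 2 * (C1 * X ^ 2 / R ^ 2)) ^ 2 := by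
        rw [Nat.cast_pow]
        gcongr
    _ = _ := by field_simp; ring

lemma inBox_iff {K m : ℕ} (hm : 1 ≤ m) (l : Fin 2 → ℕ) (c : Cell K) :
    InBox (l 0 / m) (l 1 / m) (1 / m) (pt c) ↔ lab m c = l := by
  have hm0 : (0 : ℝ) < m := by exact_mod_cast hm
  have hK0 : 0 < K := (c 0).pos
  have hK1 : (0 : ℝ) < K := by exact_mod_cast hK0
  have key : ∀ a, (((l a : ℝ) / m ≤ ((c a : ℕ) : ℝ) / K) ∧
      ((c a : ℕ) : ℝ) / K < l a / m + 1 / m) ↔ (c a : ℕ) * m / K = l a := by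
    intro a
    rw [← add_div, div_le_div_iff₀ hm0 hK1, div_lt_div_iff₀ hK1 hm0, Nat.div_eq_iff hK0]
    norm_cast
    constructor
    · rintro ⟨h1, h2⟩
      exact ⟨h1, by rw [add_mul] at h2; omega⟩
    · rintro ⟨h1, h2⟩
      exact ⟨h1, by rw [add_mul]; omega⟩
  rw [funext_iff, Fin.forall_fin_two, lab, lab, ← key, ← key, InBox]
  simp only [pt]
  tauto

lemma split_level {K : ℕ} {Z : Finset (Cell K)} {X x : ℝ} (hx : |x| ≤ X) (y : ℝ) {m : ℕ}
    (hm : 1 ≤ m) {l : Fin 2 → ℕ} {z : Cell K} (hz : z ∈ Z) (hzl : lab m z = l) :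
    Split (FF Z x y) (blk (lab m) l) (24 * X / m) := by
  set Λ := blk (lab (K := K) m) l with hΛ
  have hmem : ∀ c, c ∈ Λ ↔ lab m c = l := fun c => by simp [hΛ, blk]
  refine ⟨fun ω => x * Lc (on ω ∩ Λ ∪ Z ∩ Λ) + y * (on ω ∩ Λ).card,
    fun ω => x * L (insert (pt z) ((on ω \ Λ ∪ Z \ Λ).image pt)) + y * (on ω \ Λ).card,
    (ind_on_inter Λ).comp fun S => x * Lc (S ∪ Z ∩ Λ) + y * S.card,
    (ind_on_sdiff Λ).comp fun S => x * L (insert (pt z) ((S ∪ Z \ Λ).image pt)) + y * S.card,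
    fun ω => ?_⟩
  have h1 := karp (x0 := l 0 / m) (y0 := l 1 / m) (s := 1 / m) ((on ω ∩ Λ ∪ Z ∩ Λ).image pt)
    ((on ω \ Λ ∪ Z \ Λ).image pt) (z := pt z) ?_ ?_ ?_
  · have e1 : (on ω ∩ Λ ∪ Z ∩ Λ) ∪ (on ω \ Λ ∪ Z \ Λ) = on ω ∪ Z := by
      ext c
      simp only [mem_union, mem_inter, mem_sdiff]
      tauto
    rw [← image_union, e1] at h1
    have a2 : ((on ω).card : ℝ) = (on ω \ Λ).card + (on ω ∩ Λ).card := by
      rw [← card_sdiff_add_card_inter (on ω) Λ]; push_cast; ring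
    have e2 : FF Z x y ω - (x * Lc (on ω ∩ Λ ∪ Z ∩ Λ) + y * (on ω ∩ Λ).card) -
        (x * L (insert (pt z) ((on ω \ Λ ∪ Z \ Λ).image pt)) + y * (on ω \ Λ).card) =
        x * (L ((on ω ∪ Z).image pt) - L ((on ω ∩ Λ ∪ Z ∩ Λ).image pt) -
          L (insert (pt z) ((on ω \ Λ ∪ Z \ Λ).image pt))) := by
      simp only [FF, Lc, a2]; ring
    rw [e2, abs_mul]
    calc _ ≤ X * (24 * (1 / m)) := mul_le_mul hx h1 (abs_nonneg _) ((abs_nonneg _).trans hx)
      _ = _ := by ring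
  · intro w hw
    obtain ⟨c, hc, rfl⟩ := mem_image.1 hw
    rw [inBox_iff hm, ← hmem]
    simp only [mem_union, mem_inter] at hc
    tauto
  · intro w hw
    obtain ⟨c, hc, rfl⟩ := mem_image.1 hw
    rw [inBox_iff hm, ← hmem]
    simp only [mem_union, mem_sdiff] at hc
    tauto
  · exact mem_image_of_mem _ (mem_union_right _ (mem_inter.2 ⟨hz, (hmem z).2 hzl⟩))

/-- The set `Z` meets every box of side at least `1 / W`. -/
def Anch {K : ℕ} (W : ℕ) (Z : Finset (Cell K)) : Prop :=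
  Z.Nonempty ∧ ∀ m, 1 ≤ m → m ≤ W → ∀ c : Cell K, ∃ z ∈ Z, lab m z = lab m c

theorem grid_clt {X η : ℝ} (hX : 0 < X) (hη : 0 < η) : ∃ W0 : ℕ, ∀ (P : PW Bool) (K R g W : ℕ)
    (Z : Finset (Cell K)), Good P K R g → Anch W Z → W0 ≤ W → W ≤ R → ∀ x y : ℝ, |x| ≤ X →
    |y| ≤ X / R → ‖P.Ex (fun ω => ce (FF Z x y ω - P.Ex (FF Z x y))) -
      (Real.exp (-P.N (fun ω => FF Z x y ω - P.Ex (FF Z x y)) / 2) : ℝ)‖ ≤ η := by
  have hC := one_le_C1
  obtain ⟨M, J, hM, h⟩ := AW (C := 24 * X) (A := 36 * C1 * X ^ 2) (by positivity) (by positivity) hη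
  refine ⟨M ^ (J + 1), fun P K R g W Z hG hZ hW hWR x y hx hy => ?_⟩
  have hle : ∀ j ≤ J + 1, M ^ j ≤ W := fun j hj => (Nat.pow_le_pow_right hM hj).trans hW
  have h1 : ∀ j, 1 ≤ M ^ j := fun j => Nat.one_le_pow _ _ hM
  refine h (Cell K) Bool (Fin 2 → ℕ) P (fun j => lab (M ^ j)) (fun l a => l a / M) (FF Z x y)
    (fun j c => ?_) (fun j _ => ?_) (fun j hj l hl => ?_) (fun j hj l _ => ?_)
  · funext a
    simp only [lab]
    rw [Nat.div_div_eq_div_mul, pow_succ, ← mul_assoc, Nat.mul_div_mul_right _ _ hM]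
  · have : univ.image (lab (K := K) (M ^ j)) ⊆ Fintype.piFinset fun _ => range (M ^ j) := by
      intro l hl
      obtain ⟨c, -, rfl⟩ := mem_image.1 hl
      rw [Fintype.mem_piFinset]
      intro a
      rw [mem_range, lab, Nat.div_lt_iff_lt_mul (c a).pos, mul_comm]
      exact Nat.mul_lt_mul_of_pos_left (c a).2 (h1 j)
    have := card_le_card this
    simp only [Fintype.card_piFinset, card_range, prod_const, card_univ, Fintype.card_fin] at this
    exact_mod_cast this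
  · obtain ⟨c, -, rfl⟩ := mem_image.1 hl
    obtain ⟨z, hz, hzl⟩ := hZ.2 _ (h1 j) (hle j hj) c
    have := split_level hx y (h1 j) hz hzl
    rwa [Nat.cast_pow] at this
  · have := Q_level hG hZ.1 hx hy (h1 j) ((hle j hj).trans hWR) l
    rwa [Nat.cast_pow] at this

lemma exists_anch {K W h : ℕ} (hK : K = W * h) (hW : 1 ≤ W) (hh : 1 ≤ h) :
    ∃ Z : Finset (Cell K), Z.card ≤ W ^ 2 ∧ Anch W Z := by
  have hlt : ∀ v : Fin W, (v : ℕ) * h < K := fun v => by
    rw [hK]; exact Nat.mul_lt_mul_of_pos_right v.2 hh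
  refine ⟨univ.image fun (v : Fin 2 → Fin W) a => ⟨v a * h, hlt _⟩, ?_, ?_, ?_⟩
  · exact card_image_le.trans (by simp)
  · exact ⟨_, mem_image_of_mem _ (mem_univ fun _ => ⟨0, hW⟩)⟩
  · intro m hm hmW c
    have key : ∀ a, ∃ v : Fin W, (v : ℕ) * h * m / K = (c a : ℕ) * m / K := by
      intro a
      set l := (c a : ℕ) * m / K
      have hl : l < m := by
        rw [Nat.div_lt_iff_lt_mul (c a).pos, mul_comm]
        exact Nat.mul_lt_mul_of_pos_left (c a).2 hm
      have a1 : (l * W + m - 1) / m * m ≤ l * W + m - 1 := Nat.div_mul_le_self _ _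
      have a2 : l * W + m - 1 < ((l * W + m - 1) / m + 1) * m := by
        rw [← Nat.div_lt_iff_lt_mul hm]; omega
      set v := (l * W + m - 1) / m
      have a3 : l * W ≤ v * m := by rw [add_mul] at a2; omega
      have a4 : v * m < (l + 1) * W := by rw [add_mul]; omega
      have a5 : v < W := by
        refine lt_of_mul_lt_mul_right (a := m) (a4.trans_le ?_) (Nat.zero_le _)
        rw [mul_comm W m]
        exact Nat.mul_le_mul_right _ hl
      refine ⟨⟨v, a5⟩, ?_⟩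
      simp only
      rw [hK, mul_right_comm, Nat.mul_div_mul_right _ _ hh]
      exact Nat.div_eq_of_lt_le a3 a4
    choose v hv using key
    exact ⟨_, mem_image_of_mem _ (mem_univ v), funext hv⟩

end Pool.Agent.TSP72
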