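import Pool.Agent.Lib.MP_72f242_pr.CS_AW
import Pool.Agent.Lib.MP_72f242_pr.GridCLT

/-! The variance in a large grid model is close to the variance in one of its blocks. -/

set_option autoImplicit false

namespace Pool.Agent.TSP72

open Finset

lemma L_image_le {κ X Y : Type*} [PseudoMetricSpace X] [PseudoMetricSpace Y] [DecidableEq X]
    [DecidableEq Y] (S : Finset κ) (φ : κ → X) (ψ : κ → Y) {r : ℝ} (hr : 0 < r)
    (h : ∀ i j, dist (φ i) (φ j) ≤ r * dist (ψ i) (ψ j)) :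
    L (S.image φ) ≤ r * L (S.image ψ) := by
  rw [← div_le_iff₀' hr]
  refine le_L fun c hc => ?_
  rw [div_le_iff₀' hr]
  obtain ⟨h0, τ, h1⟩ := hc
  have h2 : ∀ x : X, ∃ t : ℝ, x ∈ S.image φ → ∃ i ∈ S, φ i = x ∧ t = τ (ψ i) := by
    intro x
    by_cases hx : x ∈ S.image φ
    · obtain ⟨i, hi, e⟩ := mem_image.1 hx
      exact ⟨τ (ψ i), fun _ => ⟨i, hi, e, rfl⟩⟩
    · exact ⟨0, fun h => absurd h hx⟩
  choose σ hσ using h2
  refine L_le ⟨by positivity, fun x => r * σ x, fun x hx y hy => ?_⟩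
  obtain ⟨i, hi, e1, e2⟩ := hσ x (mem_coe.1 hx)
  obtain ⟨j, hj, e3, e4⟩ := hσ y (mem_coe.1 hy)
  obtain ⟨a1, a2⟩ := h1 (ψ i) (mem_coe.2 (mem_image_of_mem _ hi)) (ψ j)
    (mem_coe.2 (mem_image_of_mem _ hj))
  have a3 := h i j
  rw [e1, e3] at a3
  beta_reduce
  rw [e2, e4, ← mul_sub, abs_mul, abs_of_pos hr, ← mul_sub]
  exact ⟨a3.trans (by gcongr), a3.trans (by gcongr)⟩

/-- A large grid as a union of blocks. -/
def cellEq (a K : ℕ) : (Fin 2 → Fin a) × Cell K ≃ Cell (a * K) where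
  toFun p := fun i => finProdFinEquiv (p.1 i, p.2 i)
  invFun c := (fun i => (finProdFinEquiv.symm (c i)).1, fun i => (finProdFinEquiv.symm (c i)).2)
  left_inv p := by simp
  right_inv c := funext fun i => finProdFinEquiv.apply_symm_apply (c i)

lemma cellEq_val {a K : ℕ} (l : Fin 2 → Fin a) (c : Cell K) (i : Fin 2) :
    ((cellEq a K (l, c) i : Fin (a * K)) : ℕ) = c i + K * l i := rfl

lemma dist_cellEq {a K : ℕ} (l : Fin 2 → Fin a) (c c' : Cell K) :
    (a : ℝ) * dist (pt (cellEq a K (l, c))) (pt (cellEq a K (l, c'))) = dist (pt c) (pt c') := by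
  have ha : (0 : ℝ) < a := by exact_mod_cast (l 0).pos
  have hK : (0 : ℝ) < K := by exact_mod_cast (c 0).pos
  have e : pt c - pt c' = (a : ℝ) * (pt (cellEq a K (l, c)) - pt (cellEq a K (l, c'))) := by
    apply Complex.ext
    · simp only [pt, cellEq_val, Complex.sub_re, Complex.re_ofReal_mul]
      push_cast
      field_simp
      ring
    · simp only [pt, cellEq_val, Complex.sub_im, Complex.im_ofReal_mul]
      push_cast
      field_simp
      ring
  rw [dist_eq_norm, dist_eq_norm, e, norm_mul, Complex.norm_real, Real.norm_of_nonneg ha.le]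

lemma Lc_cellEq {a K : ℕ} (l : Fin 2 → Fin a) (S : Finset (Cell K)) :
    (a : ℝ) * Lc (S.image fun c => cellEq a K (l, c)) = Lc S := by
  have ha : (0 : ℝ) < a := by exact_mod_cast (l 0).pos
  rw [Lc, Lc, image_image]
  apply le_antisymm
  · rw [← le_div_iff₀' ha, div_eq_inv_mul]
    refine L_image_le S _ _ (by positivity) fun i j => le_of_eq ?_
    rw [← dist_cellEq l, ← mul_assoc, inv_mul_cancel₀ ha.ne', one_mul]
    rfl
  · exact L_image_le S _ _ ha fun i j => (dist_cellEq l i j).ge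

lemma lab_lt {K m : ℕ} (hm : 1 ≤ m) (c : Cell K) (i : Fin 2) : lab m c i < m := by
  rw [lab, Nat.div_lt_iff_lt_mul (c i).pos, mul_comm]
  exact Nat.mul_lt_mul_of_pos_left (c i).2 hm

lemma lab_cellEq {a K : ℕ} (m : ℕ) (l : Fin 2 → Fin a) (c : Cell K) (i : Fin 2) :
    lab (a * m) (cellEq a K (l, c)) i = lab m c i + l i * m := by
  rw [lab, lab, cellEq_val, mul_left_comm, Nat.mul_div_mul_left _ _ (l i).pos, add_mul, mul_assoc,
    Nat.add_mul_div_left _ _ (c i).pos]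

lemma up_blk {a K m : ℕ} (hm : 1 ≤ m) (l : Fin 2 → Fin a) (t : Cell K) :
    up (cellEq a K) l (blk (lab m) (lab m t)) =
      blk (lab (a * m)) (lab (a * m) (cellEq a K (l, t))) := by
  ext i
  obtain ⟨⟨l', c⟩, rfl⟩ := (cellEq a K).surjective i
  rw [mem_up]
  simp only [blk, mem_filter, mem_univ, true_and, funext_iff, lab_cellEq]
  refine ⟨fun h k => by rw [h.1 k, h.2 k], fun h => ?_⟩
  have h1 : ∀ k, l' k = l k := by
    intro k
    have := congrArg (· / m) (h k)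
    simp only [Nat.add_mul_div_right _ _ hm, Nat.div_eq_of_lt (lab_lt hm _ k), zero_add] at this
    exact Fin.ext this
  refine ⟨h1, fun k => ?_⟩
  have := h k
  rw [h1 k] at this
  omega

/-- The part of the functional that lives in a box. -/
noncomputable def inn {K : ℕ} (Λ : Finset (Cell K)) (t : Cell K) (x y : ℝ) (ω : Cell K → Bool) :
    ℝ := x * Lc (insert t (on ω ∩ Λ)) + y * (on ω ∩ Λ).card

lemma ind_inn {K : ℕ} (Λ : Finset (Cell K)) (t : Cell K) (x y : ℝ) : Ind Λᶜ (inn Λ t x y) :=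
  (ind_on_inter Λ).comp fun S => x * Lc (insert t S) + y * S.card

lemma inn_res {a K : ℕ} (l : Fin 2 → Fin a) (Λ : Finset (Cell K)) (t : Cell K) (y : ℝ)
    (ω : Cell (a * K) → Bool) : inn (up (cellEq a K) l Λ) (cellEq a K (l, t)) a y ω =
      inn Λ t 1 y (res (cellEq a K) l ω) := by
  have e : on ω ∩ up (cellEq a K) l Λ =
      (on (res (cellEq a K) l ω) ∩ Λ).image fun c => cellEq a K (l, c) := by
    ext i
    obtain ⟨⟨l', c⟩, rfl⟩ := (cellEq a K).surjective i
    simp only [mem_inter, mem_up, mem_image, EmbeddingLike.apply_eq_iff_eq, Prod.mk.injEq, on,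
      mem_filter, mem_univ, true_and, res]
    constructor
    · rintro ⟨h1, rfl, h2⟩
      exact ⟨c, ⟨h1, h2⟩, rfl, rfl⟩
    · rintro ⟨c', ⟨h1, h2⟩, rfl, rfl⟩
      exact ⟨h1, rfl, h2⟩
  rw [inn, inn, e, card_image_of_injective _ (fun c c' h => by simpa using h), one_mul,
    ← Lc_cellEq l (insert t _), image_insert]

lemma rs_level {K R g : ℕ} (hK : K = R * g) (hR : 1 ≤ R) (hg : 1 ≤ g) (z : Cell K) (x y : ℝ)
    {m : ℕ} (hm : 1 ≤ m) (t : Cell K) : ∃ b : (Cell K → Bool) → ℝ,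
      Ind (blk (lab m) (lab m t)) b ∧ ∀ ω, |FF {z} x y ω - inn (blk (lab m) (lab m t)) t x y ω -
        b ω| ≤ |x| * (28 / m + 4 * (DD R g t (on ω) : ℝ) / R) := by
  set Λ := blk (lab (K := K) m) (lab m t) with hΛ
  have hmem : ∀ c, c ∈ Λ ↔ lab m c = lab m t := fun c => by simp [hΛ, blk]
  have hbox : ∀ c, InBox (lab m t 0 / m) (lab m t 1 / m) (1 / m) (pt c) ↔ c ∈ Λ := fun c => by
    rw [inBox_iff hm, hmem]
  have ht : t ∈ Λ := (hmem t).2 rfl
  refine ⟨fun ω => x * Lc (insert t (on ω \ Λ ∪ {z} \ Λ)) + y * (on ω \ Λ).card,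
    (ind_on_sdiff Λ).comp fun S => x * Lc (insert t (S ∪ {z} \ Λ)) + y * S.card, fun ω => ?_⟩
  have h1 := karp (x0 := lab m t 0 / m) (y0 := lab m t 1 / m) (s := 1 / m)
    ((insert t ((on ω ∪ {z}) ∩ Λ)).image pt) ((on ω \ Λ ∪ {z} \ Λ).image pt) (z := pt t)
    (fun w hw => by
      obtain ⟨c, hc, rfl⟩ := mem_image.1 hw
      rw [hbox]
      rcases mem_insert.1 hc with rfl | hc
      · exact ht
      · exact (mem_inter.1 hc).2)
    (fun w hw => by
      obtain ⟨c, hc, rfl⟩ := mem_image.1 hw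
      rw [hbox]
      simp only [mem_union, mem_sdiff] at hc
      tauto)
    (mem_image_of_mem _ (mem_insert_self _ _))
  have e1 : insert t ((on ω ∪ {z}) ∩ Λ) ∪ (on ω \ Λ ∪ {z} \ Λ) = insert t (on ω ∪ {z}) := by
    ext c
    simp only [mem_union, mem_inter, mem_sdiff, mem_insert]
    tauto
  rw [← image_union, e1, ← image_insert] at h1
  have h2 := Lc_insert_le hK hR hg t (S := on ω) (S' := on ω ∪ {z}) subset_union_left
    ⟨z, by simp⟩
  have h3 : Lc (on ω ∪ {z}) ≤ Lc (insert t (on ω ∪ {z})) := Lc_mono (subset_insert _ _)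
  have h4 : Lc (insert t (on ω ∩ Λ)) ≤ Lc (insert t ((on ω ∪ {z}) ∩ Λ)) :=
    Lc_mono (insert_subset_insert _ (inter_subset_inter_right subset_union_left))
  have hm0 : (0 : ℝ) < m := by exact_mod_cast hm
  have h5 : Lc (insert t ((on ω ∪ {z}) ∩ Λ)) ≤ Lc (insert t (on ω ∩ Λ)) + 4 * (1 / m) := by
    by_cases hz : z ∈ Λ
    · have a1 := L_insert_le (S := (insert t (on ω ∩ Λ)).image pt)
        (mem_image_of_mem pt (mem_insert_self _ _)) (pt z)
      have a2 := ((hbox z).2 hz).dist_le ((hbox t).2 ht)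
      have a3 : Lc (insert t ((on ω ∪ {z}) ∩ Λ)) ≤ Lc (insert z (insert t (on ω ∩ Λ))) := by
        refine Lc_mono fun c hc => ?_
        simp only [mem_union, mem_inter, mem_insert, mem_singleton] at hc ⊢
        tauto
      rw [← image_insert] at a1
      unfold Lc at a3 ⊢
      linarith
    · have : (on ω ∪ {z}) ∩ Λ = on ω ∩ Λ := by
        rw [union_inter_distrib_right, singleton_inter_of_notMem hz, union_empty]
      rw [this]
      have : (0 : ℝ) ≤ 4 * (1 / m) := by positivity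
      linarith
  have a2 : ((on ω).card : ℝ) = (on ω \ Λ).card + (on ω ∩ Λ).card := by
    rw [← card_sdiff_add_card_inter (on ω) Λ]; push_cast; ring
  have e2 : FF {z} x y ω - inn Λ t x y ω -
      (x * Lc (insert t (on ω \ Λ ∪ {z} \ Λ)) + y * (on ω \ Λ).card) =
      x * (Lc (on ω ∪ {z}) - Lc (insert t (on ω ∩ Λ)) - Lc (insert t (on ω \ Λ ∪ {z} \ Λ))) := by
    simp only [FF, inn, a2]; ring
  rw [e2, abs_mul]
  refine mul_le_mul_of_nonneg_left ?_ (abs_nonneg _)
  obtain ⟨b1, b2⟩ := abs_le.1 h1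
  have e3 : (28 : ℝ) / m = 28 * (1 / m) := by ring
  have b3 : (0 : ℝ) ≤ 4 * (DD R g t (on ω) : ℝ) / R := by positivity
  have b4 : (0 : ℝ) ≤ 1 / m := by positivity
  unfold Lc at h2 h3 h4 h5 ⊢
  exact abs_le.2 ⟨by linarith, by linarith⟩

lemma Q_DD {P : PW Bool} {K R g : ℕ} (hG : Good P K R g) (t : Cell K) (r : ℝ) :
    P.Q (fun ω : Cell K → Bool => 4 * (DD R g t (on ω) : ℝ) / r) ≤ 256 * C0 / r ^ 4 := by
  have h := moment_DD_bern P hG.hK hG.p1 t ∅ (by simp)
  simp only [sdiff_empty] at h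
  have e : (fun ω : Cell K → Bool => (4 * (DD R g t (on ω) : ℝ) / r) ^ 4) =
      fun ω => 256 / r ^ 4 * (DD R g t (on ω) : ℝ) ^ 4 := by
    funext ω; ring
  rw [PW.Q, e, P.Ex_const_mul, mul_div_right_comm]
  gcongr

lemma Good.blow {P : PW Bool} {K R g a : ℕ} (hG : Good P K R g) (ha : 1 ≤ a) :
    Good P (a * K) (a * R) g :=
  ⟨by rw [hG.hK, mul_assoc], Nat.mul_pos ha hG.hR, hG.hg, hG.p1, hG.p4⟩

lemma PW.Vr_const_mul {ι β : Type} [Fintype ι] [DecidableEq ι] [Fintype β] (P : PW β) (c : ℝ)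
    (f : (ι → β) → ℝ) : P.Vr (fun ω => c * f ω) = c ^ 2 * P.Vr f := by
  have e : P.Ex (fun ω => c * f ω) = c * P.Ex f := P.Ex_const_mul _ _
  simp only [PW.Vr, PW.N, e, ← mul_sub, mul_pow]
  exact P.Ex_const_mul _ _

theorem var_block {X η : ℝ} (hX : 1 ≤ X) (hη : 0 < η) : ∃ R0 : ℕ, ∀ (P : PW Bool) (K R g a : ℕ)
    (z : Cell K) (z' : Cell (a * K)), Good P K R g → R0 ≤ R → 1 ≤ a → ∀ y : ℝ, |y| ≤ X / R →
    |P.Vr (FF {z'} 1 (y / a)) - P.Vr (FF {z} 1 y)| ≤ η := by
  have hC := one_le_C1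
  have hC0 := C0_nonneg
  obtain ⟨M, J, ζ, hM, hζ, h⟩ := AW2 (C := 112) (A := 36 * C1 * X ^ 2) (by norm_num)
    (by positivity) hη
  obtain ⟨R1, hR1⟩ := exists_nat_ge (4 * (4096 * C0) * ((M : ℝ) ^ (J + 1)) ^ 2 / ζ)
  refine ⟨max (M ^ (J + 1)) R1, fun P K R g a z z' hG hR ha y hy => ?_⟩
  have hG' := hG.blow ha
  have hM1 : (1 : ℝ) ≤ M := by exact_mod_cast hM
  have hR0 : (1 : ℝ) ≤ R := by exact_mod_cast hG.hR
  have ha0 : (0 : ℝ) < a := by exact_mod_cast ha
  have h1 : ∀ j, 1 ≤ M ^ j := fun j => Nat.one_le_pow _ _ hM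
  have hle : ∀ j ≤ J + 1, M ^ j ≤ R := fun j hj =>
    (Nat.pow_le_pow_right hM hj).trans ((le_max_left _ _).trans hR)
  have hw : ∀ j ≤ J + 1, 4 * (4096 * C0 / (R : ℝ) ^ 4) / (56 / (M : ℝ) ^ j) ^ 2 ≤ ζ := by
    intro j hj
    have a1 : 4 * (4096 * C0) * ((M : ℝ) ^ (J + 1)) ^ 2 ≤ R * ζ := by
      rw [← div_le_iff₀ hζ]
      exact hR1.trans (by exact_mod_cast (le_max_right _ _).trans hR)
    calc _ = 4 * (4096 * C0) * ((M : ℝ) ^ j) ^ 2 / (56 ^ 2 * R ^ 4) := by field_simp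
      _ ≤ 4 * (4096 * C0) * ((M : ℝ) ^ (J + 1)) ^ 2 / R := by
        gcongr
        nlinarith [le_self_pow₀ hR0 (show 4 ≠ 0 by norm_num)]
      _ ≤ ζ := by rwa [div_le_iff₀' (by linarith)]
  have hrob : ∀ {ι : Type} [Fintype ι] [DecidableEq ι] {φ D : (ι → Bool) → ℝ}, ∀ j ≤ J + 1,
      (∀ ω, |φ ω| ≤ 56 / (M : ℝ) ^ j + D ω) → P.Q D ≤ 4096 * C0 / (R : ℝ) ^ 4 →
      ∃ r : (ι → Bool) → ℝ, (∀ ω, |φ ω - r ω| ≤ 112 / (M : ℝ) ^ j) ∧ P.N r ≤ ζ := by
    intro ι _ _ φ D j hj a1 a2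
    obtain ⟨r, r1, r2⟩ := P.exists_rob (by positivity) a1 a2
    exact ⟨r, fun ω => (r1 ω).trans (le_of_eq (by ring)), r2.trans (hw j hj)⟩
  have hq : 256 * C0 / (R : ℝ) ^ 4 ≤ 4096 * C0 / (R : ℝ) ^ 4 := by gcongr; norm_num
  have h28 : ∀ j : ℕ, 28 / (M : ℝ) ^ j ≤ 56 / (M : ℝ) ^ j := fun j => by gcongr; norm_num
  have sG : ∀ (j : ℕ) (t : Cell K), ∃ b : (Cell K → Bool) → ℝ,
      Ind (blk (lab (M ^ j)) (lab (M ^ j) t)) b ∧ ∀ ω, |FF {z} 1 y ω -
        inn (blk (lab (M ^ j)) (lab (M ^ j) t)) t 1 y ω - b ω| ≤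
        28 / (M : ℝ) ^ j + 4 * (DD R g t (on ω) : ℝ) / R := by
    intro j t
    obtain ⟨b, b1, b2⟩ := rs_level hG.hK hG.hR hG.hg z 1 y (h1 j) t
    exact ⟨b, b1, fun ω => by simpa using b2 ω⟩
  have sF : ∀ (j : ℕ) (l : Fin 2 → Fin a) (t : Cell K), ∃ b : (Cell (a * K) → Bool) → ℝ,
      Ind (up (cellEq a K) l (blk (lab (M ^ j)) (lab (M ^ j) t))) b ∧ ∀ ω, |FF {z'} a y ω -
        inn (up (cellEq a K) l (blk (lab (M ^ j)) (lab (M ^ j) t))) (cellEq a K (l, t)) a y ω -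
        b ω| ≤ 28 / (M : ℝ) ^ j + 4 * (DD (a * R) g (cellEq a K (l, t)) (on ω) : ℝ) / R := by
    intro j l t
    obtain ⟨b, b1, b2⟩ := rs_level hG'.hK hG'.hR hG'.hg z' a y (Nat.mul_pos ha (h1 j))
      (cellEq a K (l, t))
    rw [up_blk (h1 j)]
    refine ⟨b, b1, fun ω => (b2 ω).trans (le_of_eq ?_)⟩
    rw [abs_of_pos ha0]
    push_cast
    field_simp
  have hO : ∀ j ≤ J + 1, ∀ (l : Fin 2 → Fin a) (t : Cell K),
      P.ROut (FF {z'} a y - fun ω => FF {z} 1 y (res (cellEq a K) l ω))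
        (up (cellEq a K) l (blk (lab (M ^ j)) (lab (M ^ j) t))) (112 / (M : ℝ) ^ j) ζ := by
    intro j hj l t
    obtain ⟨b, b1, b2⟩ := sF j l t
    obtain ⟨b', b3, b4⟩ := sG j t
    obtain ⟨r, r1, r2⟩ := hrob (φ := fun ω => (FF {z'} a y ω - FF {z} 1 y (res (cellEq a K) l ω)) -
        (b ω - b' (res (cellEq a K) l ω)))
      (D := fun ω => 4 * (DD (a * R) g (cellEq a K (l, t)) (on ω) : ℝ) / R +
        4 * (DD R g t (on (res (cellEq a K) l ω)) : ℝ) / R) j hj (fun ω => by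
          have c1 := abs_le.1 (b2 ω)
          have c2 := abs_le.1 (b4 (res (cellEq a K) l ω))
          rw [inn_res] at c1
          have e : (56 : ℝ) / (M : ℝ) ^ j = 28 / (M : ℝ) ^ j + 28 / (M : ℝ) ^ j := by ring
          exact abs_le.2 ⟨by linarith, by linarith⟩) (by
          have c1 := Q_DD hG' (cellEq a K (l, t)) R
          have c2 := Q_DD hG t R
          unfold PW.Q at c1 c2
          rw [← P.Ex_res (cellEq a K) l] at c2
          calc _ ≤ P.Ex fun ω => 8 * (4 * (DD (a * R) g (cellEq a K (l, t)) (on ω) : ℝ) / R) ^ 4 +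
                8 * (4 * (DD R g t (on (res (cellEq a K) l ω)) : ℝ) / R) ^ 4 := by
                refine P.Ex_mono fun ω => ?_
                beta_reduce
                generalize 4 * (DD (a * R) g (cellEq a K (l, t)) (on ω) : ℝ) / R = u
                generalize 4 * (DD R g t (on (res (cellEq a K) l ω)) : ℝ) / R = v
                nlinarith [sq_nonneg (u - v), sq_nonneg (u ^ 2 - v ^ 2), sq_nonneg ((u - v) ^ 2),
                  mul_nonneg (sq_nonneg (u + v)) (sq_nonneg (u - v))]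
            _ ≤ _ := by
                rw [P.Ex_add, P.Ex_const_mul, P.Ex_const_mul]
                have e : 4096 * C0 / (R : ℝ) ^ 4 =
                  8 * (256 * C0 / (R : ℝ) ^ 4) + 8 * (256 * C0 / (R : ℝ) ^ 4) := by ring
                linarith)
    exact ⟨fun ω => b ω - b' (res (cellEq a K) l ω), r,
      b1.sub (Ind.res _ (fun c => by simp [mem_up]) b3), r1, r2⟩
  have main := h (Fin 2 → Fin a) (Cell K) (Cell (a * K)) Bool (Fin 2 → ℕ) P (cellEq a K)
    (fun j => lab (M ^ j)) (fun l i => l i / M) (FF {z'} a y) (FF {z} 1 y)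
    (fun j c => by
      funext i
      simp only [lab]
      rw [Nat.div_div_eq_div_mul, pow_succ, ← mul_assoc, Nat.mul_div_mul_right _ _ hM])
    (fun j _ => by
      have : univ.image (lab (K := K) (M ^ j)) ⊆ Fintype.piFinset fun _ => range (M ^ j) := by
        intro l hl
        obtain ⟨c, -, rfl⟩ := mem_image.1 hl
        exact Fintype.mem_piFinset.2 fun i => mem_range.2 (lab_lt (h1 j) c i)
      have := card_le_card this
      simp only [Fintype.card_piFinset, card_range, prod_const, card_univ, Fintype.card_fin] at this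
      exact_mod_cast this)
    (fun j hj d hd => by
      obtain ⟨t, -, rfl⟩ := mem_image.1 hd
      obtain ⟨b, b1, b2⟩ := sG j t
      obtain ⟨r, r1, r2⟩ := hrob j hj (fun ω => (b2 ω).trans (add_le_add_left (h28 j) _))
        ((Q_DD hG t R).trans hq)
      refine ⟨r, ⟨_, b, ind_inn _ t 1 y, b1, fun ω => le_of_eq_of_le ?_ (r1 ω)⟩, r2⟩
      congr 1
      simp only [Pi.sub_apply]
      ring)
    (fun j hj l d hd => by
      obtain ⟨t, -, rfl⟩ := mem_image.1 hd
      obtain ⟨b, b1, b2⟩ := sF j l t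
      obtain ⟨r, r1, r2⟩ := hrob j hj (fun ω => (b2 ω).trans (add_le_add_left (h28 j) _))
        ((Q_DD hG' (cellEq a K (l, t)) R).trans hq)
      refine ⟨r, ⟨_, b, ind_inn _ (cellEq a K (l, t)) a y, b1,
        fun ω => le_of_eq_of_le ?_ (r1 ω)⟩, r2⟩
      congr 1
      simp only [Pi.sub_apply]
      ring)
    (fun l => by
      have := hO 0 (by omega) l z
      have e : blk (lab (K := K) (M ^ 0)) (lab (M ^ 0) z) = univ := by
        refine eq_univ_of_forall fun c => mem_filter.2 ⟨mem_univ _, funext fun i => ?_⟩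
        have a1 := lab_lt (h1 0) c i
        have a2 := lab_lt (h1 0) z i
        rw [pow_zero] at a1 a2 ⊢
        omega
      rwa [e, pow_zero, div_one] at this)
    (fun j hj l d hd => by
      obtain ⟨t, -, rfl⟩ := mem_image.1 hd
      exact hO j hj l t)
    (fun j hj d _ => by
      have := Q_level hG (singleton_nonempty z) (X := X) (x := 1) (by simpa using hX) hy (h1 j)
        (hle j hj) d
      rw [Nat.cast_pow] at this
      exact P.N_le_of_Q (by positivity) this)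
    (fun j hj l d hd => by
      obtain ⟨t, -, rfl⟩ := mem_image.1 hd
      have := Q_level hG' (singleton_nonempty z') (X := a * X) (x := a) (y := y)
        (by rw [abs_of_pos ha0]; nlinarith) (by
          push_cast
          rwa [mul_div_mul_left _ _ ha0.ne']) (Nat.mul_pos ha (h1 j))
        (Nat.mul_le_mul_left a (hle j hj)) (lab (a * M ^ j) (cellEq a K (l, t)))
      rw [up_blk (h1 j)]
      refine P.N_le_of_Q (by positivity) (this.trans (le_of_eq ?_))
      push_cast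
      field_simp)
  have e1 : P.Vr (FF {z'} a y) = a ^ 2 * P.Vr (FF {z'} 1 (y / a)) := by
    have e : FF {z'} a y = fun ω => a * FF {z'} 1 (y / a) ω := by
      funext ω
      simp only [FF]
      field_simp
    rw [e, P.Vr_const_mul]
  have e2 : (Fintype.card (Fin 2 → Fin a) : ℝ) = a ^ 2 := by simp
  rw [e1, e2, ← mul_sub, abs_mul, abs_of_pos (by positivity), mul_comm] at main
  exact le_of_mul_le_mul_right main (by positivity)

end Pool.Agent.TSP72
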