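import Pool.Agent.Lib.MP_72f242_pr.Link

/-! The central limit theorem for the shortest tour through uniform points of the unit square. -/

set_option autoImplicit false

namespace Pool.Agent.TSP72

open Finset MeasureTheory Filter Topology

lemma exists_unif (β : Type) [Fintype β] [Nonempty β] :
    ∃ U : PW β, ∀ b, U.μ b = 1 / Fintype.card β :=
  ⟨⟨fun _ => 1 / Fintype.card β, fun _ => by positivity, by simp⟩, fun _ => rfl⟩

/-- The number of anchors per side. -/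
def Wn (n : ℕ) : ℕ := n.sqrt.sqrt.sqrt

/-- The number of cells per side of a unit box. -/
def gn (D n : ℕ) : ℕ := D * (Wn n * n ^ 2)

/-- The number of cells per side. -/
def Kn (D n : ℕ) : ℕ := n.sqrt * gn D n

lemma sq_le_Kn {D n : ℕ} (hD : 1 ≤ D) (hn : 1 ≤ n) : n ^ 2 ≤ Kn D n := by
  have h1 : 1 ≤ n.sqrt := Nat.sqrt_pos.2 hn
  have h2 : 1 ≤ Wn n := Nat.sqrt_pos.2 (Nat.sqrt_pos.2 h1)
  unfold Kn gn
  calc n ^ 2 = 1 * (1 * (1 * n ^ 2)) := by ring
    _ ≤ _ := by gcongr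

lemma exists_model {D : ℕ} (hD : 1 ≤ D) (n : ℕ) :
    ∃ (P : PW Bool) (Z : Finset (Cell (Kn D n))), 2 ≤ n →
      Good P (Kn D n) n.sqrt (gn D n) ∧ P.μ true * (Kn D n) ^ 2 = n ∧ P.μ true ≤ 1 / 2 ∧
        Anch (Wn n) Z ∧ Z.card ≤ Wn n ^ 2 := by
  by_cases hn : 2 ≤ n
  swap
  · obtain ⟨P, -⟩ := exists_unif Bool
    exact ⟨P, ∅, fun h => absurd h hn⟩
  have h1 : 1 ≤ n.sqrt := Nat.sqrt_pos.2 (by omega)
  have h2 : 1 ≤ Wn n := Nat.sqrt_pos.2 (Nat.sqrt_pos.2 h1)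
  have h3 : 1 ≤ gn D n := Nat.mul_pos hD (Nat.mul_pos h2 (by positivity))
  have hn2 : (2 : ℝ) ≤ n := by exact_mod_cast hn
  have hK : (n : ℝ) ^ 2 ≤ Kn D n := by exact_mod_cast sq_le_Kn hD (by omega)
  have hK0 : (0 : ℝ) < Kn D n := lt_of_lt_of_le (by positivity) hK
  have hp : (n : ℝ) / (Kn D n) ^ 2 ≤ 1 / 2 := by
    rw [div_le_div_iff₀ (by positivity) (by norm_num)]
    have a1 : (n : ℝ) * 2 ≤ n ^ 2 := by nlinarith
    nlinarith
  obtain ⟨Z, hZ1, hZ2⟩ := exists_anch (K := Kn D n) (W := Wn n) (h := n.sqrt * (D * n ^ 2))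
    (by unfold Kn gn; ring) h2 (Nat.mul_pos h1 (Nat.mul_pos hD (by positivity)))
  refine ⟨⟨fun b => if b = true then n / (Kn D n) ^ 2 else 1 - n / (Kn D n) ^ 2, ?_, by simp⟩,
    Z, fun _ => ?_⟩
  · intro b
    split_ifs
    · positivity
    · linarith
  have hR0 : (0 : ℝ) < n.sqrt := by exact_mod_cast h1
  have hg0 : (0 : ℝ) < gn D n := by exact_mod_cast h3
  have e : (n : ℝ) / (Kn D n) ^ 2 * (gn D n) ^ 2 = n / (n.sqrt : ℝ) ^ 2 := by
    unfold Kn; push_cast; field_simp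
  refine ⟨⟨rfl, h1, h3, ?_, ?_⟩, ?_, ?_, hZ2, hZ1⟩
  · simp only [if_true]
    rw [e, le_div_iff₀ (by positivity), one_mul]
    exact_mod_cast Nat.sqrt_le' n
  · simp only [if_true]
    rw [e, div_le_iff₀ (by positivity)]
    have : n ≤ 4 * n.sqrt ^ 2 := by
      have := Nat.lt_succ_sqrt' n
      simp only [Nat.succ_eq_add_one] at this
      nlinarith
    exact_mod_cast this
  · simp only [if_true]
    field_simp
  · simpa using hp

lemma tendsto_Wn : Tendsto Wn atTop atTop := by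
  have h : Tendsto Nat.sqrt atTop atTop :=
    tendsto_atTop_atTop.2 fun b => ⟨b * b, fun _ ha => Nat.le_sqrt.2 ha⟩
  exact h.comp (h.comp h)

lemma sg_le {P : PW Bool} {K R g n : ℕ} (hG : Good P K R g) (hn : P.μ true * K ^ 2 = n)
    (hp : P.μ true ≤ 1 / 2) {Z : Finset (Cell K)} (hZ : Z.Nonempty) : sg P Z n ≤ √(4 * C1) := by
  refine Real.sqrt_le_sqrt ?_
  have hC := one_le_C1
  have h1 := N_comb hG hn hp (Z := Z) 1 (al P Z n)
  have h2 := P.N_le_of_Q (by positivity)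
    (Q_total hG hZ (X := 1) (x := 1) (y := 0) (by simp) (by simp))
  have e : (fun ω => 1 * GG P Z n ω + al P Z n * tt n (on ω).card) =
      fun ω => FF Z 1 0 ω - P.Ex (FF Z 1 0) := by
    funext ω
    simp [GG, aa]
  rw [e] at h1
  have h3 : 0 ≤ al P Z n ^ 2 * (1 - P.μ true) := mul_nonneg (sq_nonneg _) (by linarith)
  linarith

theorem char_limit : ∃ a b : ℕ → ℝ, (∃ c C : ℝ, 0 < c ∧ ∀ n, c ≤ b n ∧ b n ≤ C) ∧ ∀ s : ℝ,
    Tendsto (fun n : ℕ => ∫ y, ce (s * ((Ln y - a n) / b n)) ∂(Measure.pi fun _ : Fin n => mu1))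
      atTop (𝓝 (Real.exp (-s ^ 2 / 2) : ℝ)) := by
  obtain ⟨D, hD, c, hc, h⟩ := depois
  choose P Z hPZ using exists_model hD
  refine ⟨fun n => aa (P n) (Z n), fun n => max (min (sg (P n) (Z n) n) √(4 * C1)) c,
    ⟨c, max √(4 * C1) c, hc, fun n => ⟨le_max_right _ _, max_le_max_right _ (min_le_right _ _)⟩⟩,
    fun s => Metric.tendsto_nhds.2 fun ε hε => ?_⟩
  obtain ⟨W0, θ, hθ, h⟩ := h s (ε / 4) (by positivity)
  obtain ⟨N, hN⟩ := exists_nat_ge (max (1 / θ) (16 * |s| / (c * ε)))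
  filter_upwards [tendsto_Wn.eventually_ge_atTop (max W0 (max 2 N))] with n hn
  have w1 : Wn n ≤ n.sqrt.sqrt := Nat.sqrt_le_self _
  have w2 : n.sqrt.sqrt ≤ n.sqrt := Nat.sqrt_le_self _
  have w3 : n.sqrt ≤ n := Nat.sqrt_le_self _
  have w4 : Wn n ^ 2 ≤ n.sqrt.sqrt := Nat.sqrt_le' _
  have w5 : n.sqrt.sqrt ^ 2 ≤ n.sqrt := Nat.sqrt_le' _
  have hn2 : 2 ≤ n := by omega
  have hn0 : (0 : ℝ) < n := by exact_mod_cast (by omega : 0 < n)
  obtain ⟨g1, g2, g3, g4, g5⟩ := hPZ n hn2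
  have hK : (n : ℝ) ^ 2 ≤ Kn D n := by exact_mod_cast sq_le_Kn hD (by omega)
  have hK0 : 0 < Kn D n := lt_of_lt_of_le (by positivity) (sq_le_Kn hD (by omega))
  have : Nonempty (Cell (Kn D n)) := ⟨fun _ => ⟨0, hK0⟩⟩
  obtain ⟨U, hU⟩ := exists_unif (Cell (Kn D n))
  have hθ1 : ∀ m : ℕ, N ≤ m → 1 ≤ θ * m := by
    intro m hm
    have : 1 / θ ≤ m := ((le_max_left _ _).trans hN).trans (by exact_mod_cast hm)
    rwa [div_le_iff₀' hθ] at this
  obtain ⟨k1, k2⟩ := h (P n) (Kn D n) n.sqrt (gn D n) (Wn n * n ^ 2) (Wn n) n U (Z n) g1 rfl g2 g3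
    hU g4 (by omega) (by omega)
    (by
      have a1 : ((Z n).card : ℝ) ≤ n.sqrt.sqrt := by exact_mod_cast g5.trans w4
      have a2 : (n.sqrt.sqrt : ℝ) ^ 2 ≤ n.sqrt := by exact_mod_cast w5
      have a3 := hθ1 n.sqrt.sqrt (by omega)
      have a4 : (0 : ℝ) ≤ n.sqrt.sqrt := Nat.cast_nonneg _
      nlinarith)
    (by
      have a1 := hθ1 n (by omega)
      have a2 : (1 : ℝ) ≤ n := by exact_mod_cast (by omega : 1 ≤ n)
      have a3 : ((n : ℝ) ^ 2) ^ 2 ≤ (Kn D n : ℝ) ^ 2 := by gcongr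
      have a4 : (n : ℝ) ^ 3 * 1 ≤ n ^ 3 * (θ * n) := by gcongr
      have a5 : (n : ℝ) ^ 2 ≤ n ^ 3 := pow_le_pow_right₀ a2 (by norm_num)
      nlinarith)
  have k3 := link hK0 U hU (n := n) (by omega) (s / sg (P n) (Z n) n)
    (-(s / sg (P n) (Z n) n * aa (P n) (Z n)))
  have k4 : |s / sg (P n) (Z n) n| * (4 * n / Kn D n) ≤ ε / 4 := by
    have a1 : 16 * |s| / (c * ε) ≤ n :=
      ((le_max_right _ _).trans hN).trans (by exact_mod_cast (by omega : N ≤ n))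
    rw [div_le_iff₀ (by positivity)] at a1
    rw [abs_div, abs_of_pos (hc.trans_le k1)]
    calc _ ≤ |s| / c * (4 * n / n ^ 2) := by gcongr
      _ = 4 * |s| / (c * n) := by field_simp
      _ ≤ ε / 4 := by
        rw [div_le_div_iff₀ (by positivity) (by norm_num)]
        linarith
  have e : ∀ y : Fin n → Fin 2 → ℝ, s * ((Ln y - aa (P n) (Z n)) /
      max (min (sg (P n) (Z n) n) √(4 * C1)) c) =
      s / sg (P n) (Z n) n * Ln y + -(s / sg (P n) (Z n) n * aa (P n) (Z n)) := by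
    intro y
    rw [min_eq_left (sg_le g1 g2 g3 g4.1), max_eq_left k1]
    ring
  simp only [e]
  rw [dist_eq_norm]
  refine (norm_sub_le_norm_sub_add_norm_sub _ _ _).trans_lt
    ((add_le_add (k3.trans k4) k2).trans_lt ?_)
  linarith

theorem tsp_clt_strong : ∃ a b : ℕ → ℝ, (∃ c C : ℝ, 0 < c ∧ ∀ n, c ≤ b n ∧ b n ≤ C) ∧ ∀ t : ℝ,
    Tendsto (fun n : ℕ =>
      (Measure.pi (fun _ : Fin n => mu1) {x | (Ln x - a n) / b n ≤ t}).toReal) atTop
      (𝓝 ((ProbabilityTheory.gaussianReal 0 1 (Set.Iic t)).toReal)) := by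
  obtain ⟨a, b, hb, h⟩ := char_limit
  refine ⟨a, b, hb, fun t => ?_⟩
  have hm : ∀ n, Measurable fun x : Fin n → Fin 2 → ℝ => (Ln x - a n) / b n := fun n =>
    ((measurable_Ln n).sub_const _).div_const _
  let ν : ℕ → ProbabilityMeasure ℝ := fun n =>
    ⟨(Measure.pi fun _ : Fin n => mu1).map fun x => (Ln x - a n) / b n,
      Measure.isProbabilityMeasure_map (hm n).aemeasurable⟩
  let γ : ProbabilityMeasure ℝ := ⟨ProbabilityTheory.gaussianReal 0 1, inferInstance⟩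
  have hlim : Tendsto ν atTop (𝓝 γ) := by
    refine ProbabilityMeasure.tendsto_of_tendsto_charFun fun s => ?_
    have e1 : charFun (γ : Measure ℝ) s = (Real.exp (-s ^ 2 / 2) : ℝ) := by
      simp only [γ, ProbabilityMeasure.coe_mk, ProbabilityTheory.charFun_gaussianReal]
      push_cast
      congr 1
      ring
    have e2 : ∀ n, charFun (ν n : Measure ℝ) s =
        ∫ y, ce (s * ((Ln y - a n) / b n)) ∂(Measure.pi fun _ : Fin n => mu1) := by
      intro n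
      simp only [ν, ProbabilityMeasure.coe_mk, charFun_apply_real]
      rw [integral_map (hm n).aemeasurable (by fun_prop)]
      simp only [ce, Complex.ofReal_mul, mul_comm Complex.I]
    simp only [e1, e2]
    exact h s
  have h1 := ProbabilityMeasure.tendsto_measure_of_null_frontier_of_tendsto' hlim
    (E := Set.Iic t) (by
      have := ProbabilityTheory.nullSingletonClass_gaussianReal (μ := 0) (v := 1) one_ne_zero
      simp [γ])
  have h2 := (ENNReal.tendsto_toReal (measure_ne_top _ _)).comp h1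
  refine h2.congr fun n => ?_
  simp only [Function.comp, ν, ProbabilityMeasure.coe_mk]
  rw [Measure.map_apply (hm n) measurableSet_Iic]
  rfl

theorem tsp_clt : ∃ a b : ℕ → ℝ, (∀ n, 0 < b n) ∧ ∀ t : ℝ,
    Tendsto (fun n : ℕ =>
      (Measure.pi (fun _ : Fin n => mu1) {x | (Ln x - a n) / b n ≤ t}).toReal) atTop
      (𝓝 ((ProbabilityTheory.gaussianReal 0 1 (Set.Iic t)).toReal)) := by
  obtain ⟨a, b, ⟨c, C, hc, hb⟩, h⟩ := tsp_clt_strong
  exact ⟨a, b, fun n => hc.trans_le (hb n).1, h⟩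

end Pool.Agent.TSP72
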