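import Pool.Agent.Lib.MP_72f242_pr.CS_Dep
import Pool.Agent.Lib.MP_72f242_pr.Main

/-! The characteristic function of the tour length is close to a Gaussian one with a variance
that does not depend on the number of points. -/

set_option autoImplicit false

namespace Pool.Agent.TSP72

open Finset MeasureTheory Filter Topology

/-- The characteristic function of the tour length, with a phase. -/
noncomputable def ph (n : ℕ) (x k : ℝ) : ℂ :=
  ∫ y, ce (x * Ln y + k) ∂(Measure.pi fun _ : Fin n => mu1)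

/-- Gaussian approximation of the characteristic function. -/
def Ap (X ε : ℝ) (n : ℕ) (v α : ℝ) : Prop :=
  ∀ x : ℝ, |x| ≤ X → ‖ph n x (-(x * α)) - (Real.exp (-(x ^ 2 * v) / 2) : ℝ)‖ ≤ ε

lemma ph_phase (n : ℕ) (x k k' : ℝ) : ph n x (k + k') = ph n x k * ce k' := by
  simp only [ph, ← add_assoc, ce_add _ k']
  exact integral_mul_const _ _

lemma norm_ph (n : ℕ) (x k : ℝ) : ‖ph n x k‖ = ‖ph n x 0‖ := by
  rw [← zero_add k, ph_phase, norm_mul, norm_ce, mul_one]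

lemma Ap.norm {X ε v α : ℝ} {n : ℕ} (h : Ap X ε n v α) (hX : 1 ≤ X) :
    |‖ph n 1 0‖ - Real.exp (-v / 2)| ≤ ε := by
  have h1 := (abs_norm_sub_norm_le _ _).trans (h 1 (by rwa [abs_one]))
  rwa [norm_ph, Complex.norm_real, Real.norm_of_nonneg (Real.exp_pos _).le, one_pow, one_mul] at h1

lemma Ap_model {X ε : ℝ} (hX : 0 ≤ X) (hε : 0 < ε) : ∃ W : ℕ, 1 ≤ W ∧ ∃ θ : ℝ, 0 < θ ∧
    ∀ (P : PW Bool) (K R g n : ℕ) (Z : Finset (Cell K)), Good P K R g → P.μ true * K ^ 2 = n →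
      P.μ true ≤ 1 / 2 → Anch W Z → W ≤ R → (Z.card : ℝ) ≤ θ * R → (n : ℝ) ≤ θ * K →
      Ap X ε n (P.N (GG P Z n)) (aa P Z) := by
  obtain ⟨W0, θ, hθ, h⟩ := depois_unif hX (half_pos hε)
  set θ' := min (min θ 1) (ε / (8 * X + 1)) with hθ'
  have t0 : 0 < θ' := by positivity
  have t1 : θ' ≤ θ := (min_le_left _ _).trans (min_le_left _ _)
  have t2 : θ' ≤ 1 := (min_le_left _ _).trans (min_le_right _ _)
  have t3 : θ' * (8 * X + 1) ≤ ε := (le_div_iff₀ (by positivity)).1 (min_le_right _ _)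
  refine ⟨max W0 1, le_max_right _ _, θ', t0, fun P K R g n Z hG hn hp hZ hW hZc hnK x hx => ?_⟩
  have hK0 : 0 < K := hG.hK ▸ Nat.mul_pos hG.hR hG.hg
  have hK1 : (0 : ℝ) < K := by exact_mod_cast hK0
  have hR1 : (1 : ℝ) ≤ R := by exact_mod_cast hG.hR
  have hn1 : 1 ≤ n := by exact_mod_cast (one_le_pow₀ hR1).trans (hG.sq_le hn).1
  have : Nonempty (Cell K) := ⟨hZ.1.choose⟩
  obtain ⟨U, hU⟩ := exists_unif (Cell K)
  have k2 := h P K R g _ n U Z hG hn hp hU hZ (le_max_left _ _) hW (hZc.trans (by gcongr))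
    (by
      calc (n : ℝ) ^ 2 ≤ (θ' * K) ^ 2 := by gcongr
        _ = θ' * θ' * K ^ 2 := by ring
        _ ≤ 1 * θ * K ^ 2 := by gcongr
        _ = _ := by ring) x hx
  have k3 := link hK0 U hU hn1 x (-(x * aa P Z))
  have k4 : |x| * (4 * n / K) ≤ ε / 2 := by
    calc _ ≤ X * (4 * (θ' * K) / K) := by gcongr
      _ = 4 * X * θ' := by field_simp
      _ ≤ _ := by linarith
  refine (norm_sub_le_norm_sub_add_norm_sub _ _ _).trans
    ((add_le_add (k3.trans k4) k2).trans (by linarith))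

lemma exists_good {m g : ℕ} (hm : 1 ≤ m) (hg : 3 ≤ g) : ∃ P : PW Bool,
    Good P (m.sqrt * g) m.sqrt g ∧ P.μ true * (m.sqrt * g : ℕ) ^ 2 = m ∧ P.μ true ≤ 1 / 2 := by
  have h1 : 1 ≤ m.sqrt := Nat.sqrt_pos.2 hm
  have hR0 : (0 : ℝ) < m.sqrt := by exact_mod_cast h1
  have hg3 : (3 : ℝ) ≤ g := by exact_mod_cast hg
  obtain ⟨p, hp⟩ : ∃ p : ℝ, p = m / (m.sqrt * g : ℕ) ^ 2 := ⟨_, rfl⟩
  have e : p * g ^ 2 = m / (m.sqrt : ℝ) ^ 2 := by rw [hp]; push_cast; field_simp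
  have p1 : 1 ≤ p * g ^ 2 := by
    rw [e, le_div_iff₀ (by positivity), one_mul]
    exact_mod_cast Nat.sqrt_le' m
  have p4 : p * g ^ 2 ≤ 4 := by
    rw [e, div_le_iff₀ (by positivity)]
    have : m ≤ 4 * m.sqrt ^ 2 := by
      have := Nat.lt_succ_sqrt' m
      simp only [Nat.succ_eq_add_one] at this
      nlinarith
    exact_mod_cast this
  have p0 : 0 ≤ p := by rw [hp]; positivity
  have p2 : p ≤ 1 / 2 := by
    have : p * 3 ^ 2 ≤ p * g ^ 2 := by gcongr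
    linarith
  refine ⟨⟨fun b => if b = true then p else 1 - p, fun b => ?_, by simp⟩,
    ⟨rfl, h1, by omega, p1, p4⟩, ?_, p2⟩
  · split_ifs <;> linarith
  · simp only [if_true]
    rw [hp]; push_cast; field_simp

theorem models : ∃ c : ℝ, 0 < c ∧ ∀ X ε : ℝ, 0 ≤ X → 0 < ε → ∃ n0 : ℕ, ∀ m, n0 ≤ m → ∀ a, 1 ≤ a →
    ∃ v α v' α' : ℝ, c ≤ v ∧ v ≤ 4 * C1 ∧ 0 ≤ v' ∧ |v' - v| ≤ ε ∧
      Ap X ε m v α ∧ Ap X ε (a ^ 2 * m) v' α' := by
  obtain ⟨c, hc, D, hD, hvar⟩ := var_lower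
  refine ⟨c, hc, fun X ε hX hε => ?_⟩
  obtain ⟨W, hW, θ1, t1, hA⟩ := Ap_model hX hε
  obtain ⟨R0, θ2, t2, hB⟩ := res_close hε
  obtain ⟨N, hN⟩ := exists_nat_ge (1 / min θ1 θ2)
  have hN1 : 1 ≤ min θ1 θ2 * N := (div_le_iff₀' (lt_min t1 t2)).1 hN
  refine ⟨(R0 + (N + 2) * W ^ 2) ^ 2, fun m hm a ha => ?_⟩
  have r1 : R0 + (N + 2) * W ^ 2 ≤ m.sqrt := Nat.le_sqrt'.2 hm
  have w1 : W ≤ W ^ 2 := Nat.le_self_pow two_ne_zero _
  have r2 : N * W ^ 2 + 2 * W ^ 2 ≤ m.sqrt := by rw [← add_mul]; omega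
  have r3 : 1 ≤ m.sqrt := by omega
  have hm1 : 1 ≤ m := Nat.sqrt_pos.1 r3
  obtain ⟨h, hh⟩ : ∃ h, h = N * (a * m) + 3 := ⟨_, rfl⟩
  have g1 : h ≤ D * (W * h) :=
    (Nat.le_mul_of_pos_left _ hW).trans (Nat.le_mul_of_pos_left _ hD)
  obtain ⟨P, hG, hn, hp⟩ := exists_good hm1 (g := D * (W * h)) (by omega)
  have g2 : 1 ≤ m.sqrt * (D * h) := Nat.mul_pos r3 (Nat.mul_pos hD (by omega))
  obtain ⟨Z, z1, z2⟩ := exists_anch (K := m.sqrt * (D * (W * h))) (h := m.sqrt * (D * h))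
    (by ring) hW g2
  obtain ⟨Z', z1', z2'⟩ := exists_anch (K := a * (m.sqrt * (D * (W * h))))
    (h := a * (m.sqrt * (D * h))) (by ring) hW (Nat.mul_pos ha g2)
  have g3 : h ≤ m.sqrt * (D * (W * h)) := g1.trans (Nat.le_mul_of_pos_left _ r3)
  generalize hK : m.sqrt * (D * (W * h)) = K at *
  generalize m.sqrt = R at *
  have r4 : R ≤ a * R := Nat.le_mul_of_pos_left _ ha
  have key : ∀ {θ : ℝ} {u w : ℕ}, min θ1 θ2 ≤ θ → N * u ≤ w → (u : ℝ) ≤ θ * w := by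
    intro θ u w h1 h2
    have h3 : (N : ℝ) * u ≤ w := by exact_mod_cast h2
    have h4 := lt_min t1 t2
    calc (u : ℝ) = 1 * u := (one_mul _).symm
      _ ≤ min θ1 θ2 * N * u := by gcongr
      _ = min θ1 θ2 * (N * u) := by ring
      _ ≤ _ := mul_le_mul h1 h3 (by positivity) (h4.le.trans h1)
  have c1 : N * Z.card ≤ R := (Nat.mul_le_mul_left _ z1).trans (by omega)
  have c2 : N * Z'.card ≤ a * R := (Nat.mul_le_mul_left _ z1').trans (by omega)
  have c3 : N * m ≤ K :=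
    (Nat.mul_le_mul_left _ (Nat.le_mul_of_pos_left _ ha)).trans (by omega)
  have c4 : N * (a ^ 2 * m) ≤ a * K := by
    calc _ = a * (N * (a * m)) := by ring
      _ ≤ _ := Nat.mul_le_mul_left _ (by omega)
  have hn' : P.μ true * (a * K : ℕ) ^ 2 = (a ^ 2 * m : ℕ) := by push_cast; rw [← hn]; ring
  refine ⟨_, _, _, _, ?_, ?_, P.N_nonneg _,
    hB P K R _ a m Z Z' hG (by omega) ha hn hp z2.1 z2'.1 (key (min_le_right _ _) c1)
      (key (min_le_right _ _) c2),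
    hA P K R _ m Z hG hn hp z2 (by omega) (key (min_le_left _ _) c1) (key (min_le_left _ _) c3),
    hA P _ _ _ _ Z' (hG.blow ha) hn' hp z2' (by omega) (key (min_le_left _ _) c2)
      (key (min_le_left _ _) c4)⟩
  · have := hvar P K R _ _ Z hG rfl hp
      (le_trans (by omega) (Nat.le_self_pow two_ne_zero _)) ((0 - 1 * al P Z m) / √m)
    simp only [FF_center hn] at this
    simpa using this
  · have hC := one_le_C1
    exact (Real.sqrt_le_sqrt_iff (by linarith)).1 (sg_le hG hn hp z2.1)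

lemma ph_near {R n n' : ℕ} (hR : 1 ≤ R) (h : R ^ 2 ≤ 2 * n) (h' : R ^ 2 ≤ 2 * n') :
    ‖ph n' 1 0 - ph n 1 0‖ ≤ (4 + 4 * C0 * (2 + |(n' : ℝ) - n|)) / R := by
  have h0 : 0 < R ^ 2 := by positivity
  have hg : 1 ≤ n + n' := by omega
  have hK0 : 0 < R * (n + n') := Nat.mul_pos hR hg
  have hR0 : (0 : ℝ) < R := by exact_mod_cast hR
  have hg0 : (0 : ℝ) < n + n' := by exact_mod_cast hg
  let z : Cell (R * (n + n')) := fun _ => ⟨0, hK0⟩
  have : Nonempty (Cell (R * (n + n'))) := ⟨z⟩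
  obtain ⟨U, hU⟩ := exists_unif (Cell (R * (n + n')))
  have a1 := link hK0 U hU (n := n') (by omega) 1 0
  have a2 := iid_anchor rfl hR hg U hU {z} 1 0 h'
  have a3 := iid_steps rfl hR hg U hU (singleton_nonempty z) 1 0 h h'
  have a4 := iid_anchor rfl hR hg U hU {z} 1 0 h
  have a5 := link hK0 U hU (n := n) (by omega) 1 0
  rw [norm_sub_rev] at a2 a5
  refine (norm_sub_le_norm_sub_add_norm_sub _ _ _).trans ((add_le_add a1
    ((norm_sub_le_norm_sub_add_norm_sub _ _ _).trans (add_le_add a2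
    ((norm_sub_le_norm_sub_add_norm_sub _ _ _).trans (add_le_add a3
    ((norm_sub_le_norm_sub_add_norm_sub _ _ _).trans (add_le_add a4 a5))))))).trans
    (le_of_eq ?_))
  rw [abs_one, card_singleton]
  push_cast
  field_simp
  ring

lemma abs_exp_neg_sub_le {u w : ℝ} (hu : 0 ≤ u) (hw : 0 ≤ w) :
    |Real.exp (-u) - Real.exp (-w)| ≤ |u - w| := by
  wlog h : u ≤ w generalizing u w
  · rw [abs_sub_comm, abs_sub_comm u]; exact this hw hu (le_of_not_ge h)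
  have e : Real.exp (-w) = Real.exp (-u) * Real.exp (u - w) := by rw [← Real.exp_add]; ring_nf
  have h1 := Real.add_one_le_exp (u - w)
  have h2 : Real.exp (u - w) ≤ 1 := Real.exp_le_one_iff.2 (by linarith)
  have h3 : Real.exp (-u) ≤ 1 := Real.exp_le_one_iff.2 (by linarith)
  have h4 := Real.exp_pos (-u)
  rw [e, abs_of_nonneg (by nlinarith), abs_of_nonpos (by linarith)]
  nlinarith

lemma abs_sub_le_exp {u w C : ℝ} (hu : u ≤ C) (hw : w ≤ C) :
    |u - w| ≤ Real.exp C * |Real.exp (-u) - Real.exp (-w)| := by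
  wlog h : u ≤ w generalizing u w
  · rw [abs_sub_comm, abs_sub_comm (Real.exp _)]; exact this hw hu (le_of_not_ge h)
  have e : Real.exp (-u) = Real.exp (-w) * Real.exp (w - u) := by rw [← Real.exp_add]; ring_nf
  have h1 := Real.add_one_le_exp (w - u)
  have h2 : 1 ≤ Real.exp C * Real.exp (-w) := by
    rw [← Real.exp_add]; exact Real.one_le_exp (by linarith)
  have h4 := Real.exp_pos (-w)
  rw [e, abs_of_nonpos (by linarith), abs_of_nonneg (by nlinarith)]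
  nlinarith

lemma ph_cauchy : CauchySeq fun n => ‖ph n 1 0‖ := by
  obtain ⟨c, hc, h⟩ := models
  have hC0 := C0_nonneg
  refine Metric.cauchySeq_iff.2 fun ε hε => ?_
  obtain ⟨n0, h⟩ := h 1 (ε / 10) zero_le_one (by positivity)
  have hb : ∀ m, n0 ≤ m → ∀ a, 1 ≤ a → |‖ph (a ^ 2 * m) 1 0‖ - ‖ph m 1 0‖| ≤ ε / 4 := by
    intro m hm a ha
    obtain ⟨v, α, v', α', h1, -, h2, h3, h4, h5⟩ := h m hm a ha
    have a1 := abs_le.1 (h4.norm le_rfl)
    have a2 := abs_le.1 (h5.norm le_rfl)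
    have a3 := abs_exp_neg_sub_le (u := v' / 2) (w := v / 2) (by linarith) (by linarith)
    rw [← sub_div, abs_div, abs_two, ← neg_div, ← neg_div] at a3
    have a4 := abs_le.1 a3
    exact abs_le.2 ⟨by linarith, by linarith⟩
  set δ := min 1 (ε / (8 * (4 + 40 * C0))) with hδ
  have d0 : 0 < δ := by positivity
  have d1 : δ ≤ 1 := min_le_left _ _
  have d2 : δ * (8 * (4 + 40 * C0)) ≤ ε := (le_div_iff₀ (by positivity)).1 (min_le_right _ _)
  obtain ⟨N, hN⟩ := exists_nat_ge (1 / δ)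
  have hN1 : 1 ≤ δ * N := (div_le_iff₀' d0).1 hN
  refine ⟨n0 + (N + 3) ^ 2, fun m hm n hn => ?_⟩
  have hs : ∀ k : ℕ, n0 + (N + 3) ^ 2 ≤ k → (N : ℝ) + 3 ≤ √k := fun k hk =>
    Real.le_sqrt_of_sq_le (by exact_mod_cast (by omega : (N + 3) ^ 2 ≤ k))
  have s1 := hs m hm
  have s2 := hs n hn
  have N0 : (0 : ℝ) ≤ N := Nat.cast_nonneg _
  have s3 : 0 < √(n : ℝ) := by linarith
  obtain ⟨M, hM⟩ := exists_nat_ge (√n / δ)
  obtain ⟨j, k, k0, -, hjk⟩ := Real.exists_int_int_abs_mul_sub_le (√m / √n) M.succ_pos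
  have k1 : (1 : ℝ) ≤ k := by exact_mod_cast k0
  have hAB : |k * √m - j * √n| ≤ δ := by
    have e : k * √m - j * √n = (k * (√m / √n) - j) * √n := by field_simp
    rw [e, abs_mul, abs_of_pos s3]
    rw [div_le_iff₀ d0] at hM
    refine (mul_le_mul_of_nonneg_right hjk s3.le).trans ?_
    rw [div_mul_eq_mul_div, div_le_iff₀ (by positivity)]
    push_cast
    nlinarith
  obtain ⟨b1, b2⟩ := abs_le.1 hAB
  have b3 : √(m : ℝ) ≤ k * √m := le_mul_of_one_le_left (by positivity) k1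
  have j0 : 0 < j := by
    have : (0 : ℝ) < j := (pos_iff_pos_of_mul_pos (by linarith : 0 < j * √(n : ℝ))).2 s3
    exact_mod_cast this
  lift j to ℕ using j0.le
  lift k to ℕ using k0.le
  simp only [Int.cast_natCast] at *
  obtain ⟨A, hA⟩ : ∃ A, A = k * √(m : ℝ) := ⟨_, rfl⟩
  obtain ⟨B, hB⟩ : ∃ B, B = j * √(n : ℝ) := ⟨_, rfl⟩
  have eA : ((k ^ 2 * m : ℕ) : ℝ) = A ^ 2 := by
    rw [hA, mul_pow, Real.sq_sqrt (Nat.cast_nonneg _)]; push_cast; rfl
  have eB : ((j ^ 2 * n : ℕ) : ℝ) = B ^ 2 := by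
    rw [hB, mul_pow, Real.sq_sqrt (Nat.cast_nonneg _)]; push_cast; rfl
  rw [← hA] at b1 b2 b3 hAB
  rw [← hB] at b1 b2 hAB
  have f1 : (⌊A - 1⌋₊ : ℝ) ≤ A - 1 := Nat.floor_le (by linarith)
  have f2 := Nat.lt_floor_add_one (A - 1)
  generalize ⌊A - 1⌋₊ = R at f1 f2
  have R1 : (1 : ℝ) ≤ R := by linarith
  have a1 := ph_near (R := R) (n := j ^ 2 * n) (n' := k ^ 2 * m) (by exact_mod_cast R1)
    (by have : (R : ℝ) ^ 2 ≤ 2 * (j ^ 2 * n : ℕ) := by rw [eB]; nlinarith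
        exact_mod_cast this)
    (by have : (R : ℝ) ^ 2 ≤ 2 * (k ^ 2 * m : ℕ) := by rw [eA]; nlinarith
        exact_mod_cast this)
  have a2 : |A ^ 2 - B ^ 2| ≤ δ * (7 * R) := by
    rw [sq_sub_sq, abs_mul, mul_comm, abs_of_nonneg (by linarith : 0 ≤ A + B)]
    exact mul_le_mul hAB (by linarith) (by linarith) d0.le
  have a3 : 1 ≤ δ * R := hN1.trans (mul_le_mul_of_nonneg_left (by linarith) d0.le)
  have a4 : (4 + 4 * C0 * (2 + |A ^ 2 - B ^ 2|)) / R ≤ ε / 8 := by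
    rw [div_le_iff₀ (by linarith)]
    calc _ ≤ 4 * (δ * R) + 4 * C0 * (2 * (δ * R) + δ * (7 * R)) := by gcongr <;> linarith
      _ ≤ δ * (8 * (4 + 40 * C0)) / 8 * R := by
        nlinarith [mul_nonneg hC0 (by linarith : 0 ≤ δ * R)]
      _ ≤ _ := by gcongr
  rw [eA, eB] at a1
  have a5 := abs_le.1 ((abs_norm_sub_norm_le _ _).trans (a1.trans a4))
  have a6 := abs_le.1 (hb m (by omega) k (by omega))
  have a7 := abs_le.1 (hb n (by omega) j (by omega))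
  rw [Real.dist_eq]
  exact abs_lt.2 ⟨by linarith, by linarith⟩

theorem sigma_limit : ∃ v : ℝ, 0 < v ∧ ∀ X ε : ℝ, 0 < ε → ∀ᶠ m in atTop, ∃ α, Ap X ε m v α := by
  obtain ⟨r, hr⟩ := cauchySeq_tendsto_of_complete ph_cauchy
  obtain ⟨c, hc, h⟩ := models
  have key : ∀ X ε : ℝ, 0 < ε → ∀ᶠ m in atTop, ∃ v α, c ≤ v ∧ v ≤ 4 * C1 ∧ Ap X ε m v α ∧
      |Real.exp (-(v / 2)) - r| ≤ ε := by
    intro X ε hε
    obtain ⟨n0, h⟩ := h (max X 1) (ε / 2) (by positivity) (by positivity)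
    filter_upwards [eventually_ge_atTop n0, Metric.tendsto_nhds.1 hr _ (half_pos hε)] with m h1 h2
    obtain ⟨v, α, -, -, a1, a2, -, -, a3, -⟩ := h m h1 1 le_rfl
    have a4 := abs_le.1 (a3.norm (le_max_right _ _))
    have a5 := abs_lt.1 (Real.dist_eq _ _ ▸ h2)
    rw [neg_div] at a4
    exact ⟨v, α, a1, a2, fun x hx => (a3 x (hx.trans (le_max_left _ _))).trans (by linarith),
      abs_le.2 ⟨by linarith, by linarith⟩⟩
  have r1 : Real.exp (-(2 * C1)) ≤ r := le_of_forall_pos_le_add fun ε hε => by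
    obtain ⟨m, v, α, -, a2, -, a3⟩ := (key 0 ε hε).exists
    have : Real.exp (-(2 * C1)) ≤ Real.exp (-(v / 2)) := Real.exp_le_exp.2 (by linarith)
    linarith [(abs_le.1 a3).2]
  have r2 : r ≤ Real.exp (-(c / 2)) := le_of_forall_pos_le_add fun ε hε => by
    obtain ⟨m, v, α, a1, -, -, a3⟩ := (key 0 ε hε).exists
    have : Real.exp (-(v / 2)) ≤ Real.exp (-(c / 2)) := Real.exp_le_exp.2 (by linarith)
    linarith [(abs_le.1 a3).1]
  obtain ⟨w, rfl⟩ : ∃ w, r = Real.exp (-w) :=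
    ⟨-Real.log r, by rw [neg_neg, Real.exp_log ((Real.exp_pos _).trans_le r1)]⟩
  rw [Real.exp_le_exp] at r1 r2
  refine ⟨2 * w, by linarith, fun X ε hε => ?_⟩
  set A := X ^ 2 * Real.exp (2 * C1) + 1 with hA
  have hA0 : 0 < A := by positivity
  filter_upwards [key X (ε / A) (by positivity)] with m ⟨v, α, a1, a2, a3, a4⟩
  refine ⟨α, fun x hx => (norm_sub_le_norm_sub_add_norm_sub _ _ _).trans
    ((add_le_add (a3 x hx) (?_ : _ ≤ X ^ 2 * Real.exp (2 * C1) * (ε / A))).trans (le_of_eq ?_))⟩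
  · rw [← Complex.ofReal_sub, Complex.norm_real, Real.norm_eq_abs, neg_div, neg_div]
    have a5 := abs_sub_le_exp (u := v / 2) (w := w) (C := 2 * C1) (by linarith) (by linarith)
    refine (abs_exp_neg_sub_le (by have := hc.le.trans a1; positivity)
      (by have : 0 ≤ w := by linarith
          positivity)).trans ?_
    have e : x ^ 2 * v / 2 - x ^ 2 * (2 * w) / 2 = x ^ 2 * (v / 2 - w) := by ring
    have a6 : x ^ 2 ≤ X ^ 2 := by rw [← sq_abs x]; gcongr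
    rw [e, abs_mul, abs_of_nonneg (sq_nonneg x), mul_assoc]
    gcongr
    exact a5.trans (by gcongr)
  · field_simp
    ring

end Pool.Agent.TSP72
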