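import Pool.Agent.Lib.MP_72f242_pr.Main

/-! A uniform bound for the centred fourth moment of the tour length. -/

set_option autoImplicit false

namespace Pool.Agent.TSP72

open Finset MeasureTheory

lemma PW.Ex_comm {ι β : Type} [Fintype ι] [DecidableEq ι] [Fintype β] (P : PW β)
    (F : (ι → β) → (ι → β) → ℝ) :
    P.Ex (fun ω => P.Ex fun η => F ω η) = P.Ex fun η => P.Ex fun ω => F ω η := by
  simp only [PW.Ex, smul_eq_mul, mul_sum]
  rw [sum_comm]
  exact sum_congr rfl fun _ _ => sum_congr rfl fun _ _ => by ring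

lemma Ex_avoid_sub {ι : Type} [Fintype ι] [DecidableEq ι] (U : PW ι)
    (hU : ∀ b, U.μ b = 1 / Fintype.card ι) {n : ℕ} (s : Finset (Fin n)) (V : Finset ι) :
    U.Ex (fun c : Fin n → ι => if Disjoint (s.image c) V then (1 : ℝ) else 0) =
      (1 - V.card / Fintype.card ι) ^ s.card := by
  have e : (fun c : Fin n → ι => if Disjoint (s.image c) V then (1 : ℝ) else 0) =
      fun c => ∏ i, (if i ∈ s then 1 - if c i ∈ V then (1 : ℝ) else 0 else 1) := by
    funext c
    rw [Fintype.prod_ite_mem]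
    split_ifs with h
    · refine (prod_eq_one fun i hi => ?_).symm
      rw [if_neg (disjoint_left.1 h (mem_image_of_mem _ hi)), sub_zero]
    · obtain ⟨x, h1, h2⟩ := not_disjoint_iff.1 h
      obtain ⟨i, hi, rfl⟩ := mem_image.1 h1
      symm
      refine prod_eq_zero hi ?_
      rw [if_pos h2, sub_self]
  rw [e, U.Ex_prod_coord (fun i b => if i ∈ s then 1 - if b ∈ V then (1 : ℝ) else 0 else 1),
    ← prod_const]
  refine Eq.trans (prod_congr rfl fun i _ => ?_) (Fintype.prod_ite_mem s _)
  split_ifs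
  · simp only [smul_eq_mul, mul_sub, mul_one, sum_sub_distrib, U.sum_one]
    simp [hU, div_eq_mul_inv]
  · simp [U.sum_one]

section Cells

variable {K R g : ℕ} (hK : K = R * g) (hR : 1 ≤ R) (hg : 1 ≤ g) (U : PW (Cell K))
  (hU : ∀ b, U.μ b = 1 / Fintype.card (Cell K))

include hK hR hg hU

lemma moment_DD_sub {n : ℕ} {s : Finset (Fin n)} (hm : R ^ 2 ≤ 2 * s.card) (t : Cell K) :
    U.Ex (fun c : Fin n → Cell K => (DD R g t (s.image c) : ℝ) ^ 4) ≤ C0 := by
  refine moment_DD U R g t (fun c : Fin n → Cell K => s.image c) fun i hi => ?_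
  rw [Ex_avoid_sub U hU]
  have hR0 : (0 : ℝ) < R := by exact_mod_cast hR
  have hg0 : (0 : ℝ) < g := by exact_mod_cast hg
  have hT : (Fintype.card (Cell K) : ℝ) = (R * g) ^ 2 := by simp [hK]
  have h1 := card_nb t (d := i * g) (by rw [hK]; gcongr)
  have h2 : (i : ℝ) * g ^ 2 ≤ (nb t (i * g)).card := by
    have : i * g ^ 2 ≤ (i * g) ^ 2 := by
      rw [mul_pow]
      gcongr
      exact Nat.le_self_pow (by norm_num) _
    exact_mod_cast this.trans h1
  have h3 : ((nb t (i * g)).card : ℝ) ≤ Fintype.card (Cell K) := by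
    exact_mod_cast card_le_univ _
  have h4 : (R : ℝ) ^ 2 ≤ 2 * s.card := by exact_mod_cast hm
  calc _ ≤ Real.exp (-((nb t (i * g)).card / Fintype.card (Cell K))) ^ s.card :=
        pow_le_pow_left₀ (by rw [sub_nonneg, div_le_one (by rw [hT]; positivity)]; exact h3)
          (Real.one_sub_le_exp_neg _) _
    _ ≤ _ := by
        rw [← Real.exp_nat_mul, Real.exp_le_exp, hT]
        have : (i : ℝ) / 2 ≤ s.card * ((nb t (i * g)).card / (R * g) ^ 2) := by
          rw [← mul_div_assoc, div_le_div_iff₀ (by norm_num) (by positivity)]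
          have a1 : (0 : ℝ) ≤ i * g ^ 2 := by positivity
          nlinarith [mul_le_mul h4 h2 a1 (by positivity)]
        linarith

lemma Q_iid {n : ℕ} (h1 : R ^ 2 ≤ 2 * (n - 1)) (h2 : n ≤ 4 * R ^ 2) :
    U.Q (fun c : Fin n → Cell K => Lc (univ.image c) - U.Ex fun c : Fin n → Cell K =>
      Lc (univ.image c)) ≤ (1024 * (C0 + 1)) ^ 2 := by
  have hC0 := C0_nonneg
  have hR0 : (0 : ℝ) < R := by exact_mod_cast hR
  have h0 : 0 < R ^ 2 := by positivity
  have := U.Q_ES (univ : Finset (Fin n)) (fun i => {i}) (fun c => Lc (univ.image c))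
    (b := 64 * (C0 + 1) / R ^ 2) (by positivity) fun i _ => ?_
  · rw [biUnion_singleton_eq_self, U.E_univ, card_univ, Fintype.card_fin] at this
    refine this.trans ?_
    have h3 : (n : ℝ) ≤ 4 * R ^ 2 := by exact_mod_cast h2
    refine pow_le_pow_left₀ (by positivity) ?_ 2
    calc _ ≤ 4 * (4 * (R : ℝ) ^ 2) * (64 * (C0 + 1) / R ^ 2) := by gcongr
      _ = _ := by field_simp; ring
  have hc : (univ.erase i).card = n - 1 := by simp
  have hind : ∀ η ω : Fin n → Cell K, (univ.erase i).image (({i} : Finset (Fin n)).piecewise η ω) =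
      (univ.erase i).image ω := fun η ω => image_congr fun j hj =>
    piecewise_eq_of_notMem _ _ _ (by simpa using hj)
  set F : (Fin n → Cell K) → ℝ := fun c => Lc (univ.image c) with hF
  set F0 : (Fin n → Cell K) → ℝ := fun c => Lc ((univ.erase i).image c) with hF0
  have hI : Ind {i} F0 := fun η ω => by simp only [hF0, hind]
  have e : F - U.E {i} F = (F - F0) - U.E {i} (F - F0) := by
    rw [U.E_sub, U.E_of_ind hI]; ring
  rw [e]
  refine (Q_sub_E_le U _ _).trans ?_
  have a1 : U.Q (F - F0) ≤ U.Ex fun c : Fin n → Cell K =>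
      256 / R ^ 4 * (DD R g (c i) ((univ.erase i).image c) : ℝ) ^ 4 := by
    refine U.Ex_mono fun c => ?_
    have b1 := Lc_insert_le hK hR hg (c i) (S := (univ.erase i).image c) subset_rfl
      ((card_pos.1 (by omega)).image c)
    rw [← image_insert, insert_erase (mem_univ i)] at b1
    have b2 : F0 c ≤ F c := Lc_mono (image_subset_image (subset_univ _))
    calc (F - F0) c ^ 4 ≤ (4 * (DD R g (c i) ((univ.erase i).image c) : ℝ) / R) ^ 4 :=
          pow_le_pow_left₀ (sub_nonneg.2 b2) (sub_le_iff_le_add'.2 b1) 4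
      _ = _ := by ring
  have a2 : U.Ex (fun c : Fin n → Cell K =>
      (DD R g (c i) ((univ.erase i).image c) : ℝ) ^ 4) ≤ C0 := by
    rw [← U.Ex_E {i}]
    unfold PW.E
    simp only [hind, piecewise_eq_of_mem _ _ _ (mem_singleton_self i)]
    rw [U.Ex_comm]
    exact U.Ex_le_const fun η => moment_DD_sub hK hR hg U hU (hc ▸ h1) _
  rw [U.Ex_const_mul] at a1
  calc _ ≤ 16 * (256 / (R : ℝ) ^ 4 * C0) := by
        gcongr
        exact a1.trans (by gcongr)
    _ = 4096 * C0 / R ^ 4 := by ring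
    _ ≤ _ := by
        rw [div_pow, ← pow_mul]
        gcongr
        nlinarith

end Cells

lemma ae_square (n : ℕ) :
    ∀ᵐ y ∂(Measure.pi fun _ : Fin n => mu1), ∀ j, y j ∈ Set.Icc (0 : Fin 2 → ℝ) 1 :=
  ae_all_iff.2 fun j => (measurePreserving_eval (fun _ : Fin n => mu1) j).quasiMeasurePreserving.ae
    (ae_restrict_mem measurableSet_Icc)

lemma int_Ln (n : ℕ) {A : Type*} [NormedAddCommGroup A] {φ : ℝ → A} (hφ : Continuous φ) :
    Integrable (fun y => φ (Ln y)) (Measure.pi fun _ : Fin n => mu1) := by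
  obtain ⟨b, hb⟩ := (isCompact_Icc (a := (0 : ℝ)) (b := n * 2)).exists_bound_of_continuousOn
    hφ.continuousOn
  refine Integrable.of_bound (hφ.comp_aestronglyMeasurable (measurable_Ln n).aestronglyMeasurable)
    b ?_
  filter_upwards [ae_square n] with y hy
  refine hb _ ⟨Real.iInf_nonneg fun σ => sum_nonneg fun _ _ => Real.sqrt_nonneg _,
    (ciInf_le (Set.finite_range _).bddBelow 1).trans ?_⟩
  refine (sum_le_card_nsmul _ _ 2 fun i _ => Real.sqrt_le_iff.2 ⟨zero_le_two, ?_⟩).trans (by simp)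
  have key : ∀ j k a, (y j a - y k a) ^ 2 ≤ 1 := fun j k a => by
    have a1 : 0 ≤ y j a := (hy j).1 a
    have a2 : y j a ≤ 1 := (hy j).2 a
    have a3 : 0 ≤ y k a := (hy k).1 a
    have a4 : y k a ≤ 1 := (hy k).2 a
    nlinarith
  exact (add_le_add (key _ _ _) (key _ _ _)).trans (by norm_num)

lemma pow_four_add_le (a b : ℝ) : (a + b) ^ 4 ≤ 8 * a ^ 4 + 8 * b ^ 4 := by
  nlinarith [sq_nonneg (a - b), sq_nonneg (a + b), sq_nonneg (a ^ 2 - b ^ 2),
    mul_nonneg (sq_nonneg (a - b)) (sq_nonneg (a + b)), sq_nonneg ((a - b) ^ 2)]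

/-- The mean of the tour length. -/
noncomputable def mn (n : ℕ) : ℝ := ∫ y, Ln y ∂(Measure.pi fun _ : Fin n => mu1)

theorem moment_four : ∃ B : ℝ, ∀ n, 2 ≤ n →
    ∫ y, (Ln y - mn n) ^ 4 ∂(Measure.pi fun _ : Fin n => mu1) ≤ B := by
  set B := 8 * (1024 * (C0 + 1)) ^ 2 + 8 * 4 ^ 4 with hB
  refine ⟨8 * B + 8 * (1 + B) ^ 4, fun n hn => ?_⟩
  have hR : 1 ≤ n.sqrt := Nat.sqrt_pos.2 (by omega)
  have hK0 : 0 < n.sqrt * n := Nat.mul_pos hR (by omega)
  have : Nonempty (Cell (n.sqrt * n)) := ⟨fun _ => ⟨0, hK0⟩⟩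
  obtain ⟨U, hU⟩ := exists_unif (Cell (n.sqrt * n))
  have h1 := Q_iid rfl hR (by omega) U hU (n := n) ((Nat.sqrt_le' n).trans (by omega)) (by
    have := Nat.lt_succ_sqrt' n
    simp only [Nat.succ_eq_add_one] at this
    nlinarith)
  generalize (U.Ex fun c : Fin n → Cell (n.sqrt * n) => Lc (univ.image c)) = a at h1
  have hr : Measurable fun (y : Fin n → Fin 2 → ℝ) k => rd hK0 (y k) :=
    measurable_pi_lambda _ fun k => (measurable_rd hK0).comp (measurable_pi_apply k)
  have h2 := integral_rd hK0 U hU n fun c => (((Lc (univ.image c) - a) ^ 4 : ℝ) : ℂ)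
  rw [integral_complex_ofReal, U.Ex_ofReal, Complex.ofReal_inj] at h2
  have h3 : Integrable (fun y : Fin n → Fin 2 → ℝ =>
      (Lc (univ.image fun k => rd hK0 (y k)) - a) ^ 4) (Measure.pi fun _ : Fin n => mu1) :=
    (integrable_map_measure (g := fun c : Fin n → Cell (n.sqrt * n) =>
      (Lc (univ.image c) - a) ^ 4) AEStronglyMeasurable.of_discrete hr.aemeasurable).1
      Integrable.of_finite
  have i1 : Integrable (fun y => (Ln y - a) ^ 4) (Measure.pi fun _ : Fin n => mu1) :=
    int_Ln n (φ := fun t => (t - a) ^ 4) (by fun_prop)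
  have h4 : ∫ y, (Ln y - a) ^ 4 ∂(Measure.pi fun _ : Fin n => mu1) ≤ B := by
    refine (integral_mono_ae i1 ((h3.const_mul 8).add (integrable_const (8 * 4 ^ 4))) ?_).trans ?_
    · filter_upwards [ae_square n] with y hy
      have a1 : |Ln y - Lc (univ.image fun k => rd hK0 (y k))| ≤
          2 * ((n : ℝ) * (2 / (n.sqrt * n : ℕ))) := by
        rw [Ln_eq (by omega), Lc, image_image]
        exact abs_L_sub_le _ _ fun j => dist_rd hK0 (hy j)
      have a2 : 2 * ((n : ℝ) * (2 / (n.sqrt * n : ℕ))) ≤ 4 := by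
        have b1 : (1 : ℝ) ≤ n.sqrt := by exact_mod_cast hR
        have b2 : (0 : ℝ) < n := by exact_mod_cast (by omega : 0 < n)
        push_cast
        field_simp
        linarith
      have a3 := pow_four_add_le (Lc (univ.image fun k => rd hK0 (y k)) - a)
        (Ln y - Lc (univ.image fun k => rd hK0 (y k)))
      have a4 := pow_le_pow_left₀ (abs_nonneg _) (a1.trans a2) 4
      rw [Even.pow_abs (by decide)] at a4
      rw [sub_add_sub_cancel'] at a3
      simp only [Pi.add_apply]
      linarith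
    · rw [integral_add' (h3.const_mul 8) (integrable_const _), integral_const_mul, h2]
      simp only [integral_const, probReal_univ, one_smul]
      unfold PW.Q at h1
      linarith
  have h5 : |a - mn n| ≤ 1 + B := by
    have e : mn n - a = ∫ y, (Ln y - a) ∂(Measure.pi fun _ : Fin n => mu1) := by
      rw [integral_sub (int_Ln n continuous_id') (integrable_const _)]
      simp [mn]
    rw [abs_sub_comm, e, ← Real.norm_eq_abs]
    refine (norm_integral_le_of_norm_le ((integrable_const 1).add i1)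
      (Filter.Eventually.of_forall fun y => ?_)).trans ?_
    · rw [Real.norm_eq_abs, Pi.add_apply, ← Even.pow_abs (by decide)]
      generalize |Ln y - a| = t
      nlinarith [sq_nonneg (t ^ 2 - 1 / 2), sq_nonneg (t - 1 / 2)]
    · rw [integral_add' (integrable_const _) i1]
      simp only [integral_const, probReal_univ, one_smul]
      linarith
  refine (integral_mono (int_Ln n (φ := fun t => (t - mn n) ^ 4) (by fun_prop))
    ((i1.const_mul 8).add (integrable_const (8 * (1 + B) ^ 4))) fun y => ?_).trans ?_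
  · have a3 := pow_four_add_le (Ln y - a) (a - mn n)
    have a4 := pow_le_pow_left₀ (abs_nonneg _) h5 4
    rw [Even.pow_abs (by decide)] at a4
    rw [sub_add_sub_cancel] at a3
    simp only [Pi.add_apply]
    linarith
  · rw [integral_add' (i1.const_mul 8) (integrable_const _), integral_const_mul]
    simp only [integral_const, probReal_univ, one_smul]
    linarith

end Pool.Agent.TSP72
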