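import Pool.Agent.Lib.MP_72f242_pr.CS_Lim
import Pool.Agent.Lib.MP_72f242_pr.CS_Mom

/-! The variance of the tour length converges, and the central limit theorem holds with the
mean as centering and a constant scaling. -/

set_option autoImplicit false

namespace Pool.Agent.TSP72

open Finset MeasureTheory Filter Topology

/-- The variance of the tour length. -/
noncomputable def vr (n : ℕ) : ℝ := ∫ y, (Ln y - mn n) ^ 2 ∂(Measure.pi fun _ : Fin n => mu1)

lemma ce_lower {y : ℝ} (h : |y| ≤ 1) : |y| / 2 ≤ ‖ce y - 1‖ := by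
  have h1 := Real.mul_abs_le_abs_sin (x := y) (by linarith [Real.one_le_pi_div_two])
  have h2 : (ce y - 1).im = Real.sin y := by
    rw [ce, mul_comm, Complex.sub_im, Complex.exp_ofReal_mul_I_im, Complex.one_im, sub_zero]
  have h3 : 1 / 2 ≤ 2 / Real.pi := by
    rw [div_le_div_iff₀ two_pos Real.pi_pos]; linarith [Real.pi_le_four]
  have h4 := Complex.abs_im_le_norm (ce y - 1)
  rw [h2] at h4
  nlinarith [abs_nonneg y]

lemma small_phase {d s κ : ℝ} (hs : 0 < s) (hκ : κ < 1 / 2)
    (h : ∀ x, |x| ≤ s → ‖ce (x * d) - 1‖ ≤ κ) : s * |d| ≤ 2 * κ := by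
  rcases le_or_gt (s * |d|) 1 with h1 | h1
  · have h2 := (ce_lower (y := s * d) (by rwa [abs_mul, abs_of_pos hs])).trans
      (h s (abs_of_pos hs).le)
    rw [abs_mul, abs_of_pos hs] at h2
    linarith
  · have h2 : 0 < |d| := (pos_iff_pos_of_mul_pos (one_pos.trans h1)).1 hs
    have h3 := h d⁻¹ (by rw [abs_inv, inv_le_iff_one_le_mul₀ h2]; exact h1.le)
    rw [inv_mul_cancel₀ (abs_pos.1 h2)] at h3
    have h4 := ce_lower (y := 1) abs_one.le
    rw [abs_one] at h4
    linarith

lemma taylor_ph {n : ℕ} {B : ℝ}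
    (hB : ∫ y, (Ln y - mn n) ^ 4 ∂(Measure.pi fun _ : Fin n => mu1) ≤ B) :
    0 ≤ B ∧ 0 ≤ vr n ∧ vr n ≤ 1 + B ∧ ∀ x δ : ℝ, 0 < δ →
      ‖ph n x (-(x * mn n)) - (1 - x ^ 2 * vr n / 2 : ℝ)‖ ≤
        δ * (x ^ 2 * (1 + B)) + (1 / δ + 4) * (x ^ 4 * B) := by
  have ik : ∀ k : ℕ, Integrable (fun y => (Ln y - mn n) ^ k) (Measure.pi fun _ : Fin n => mu1) :=
    fun k => int_Ln n (φ := fun t => (t - mn n) ^ k) (by fun_prop)
  have h2 : vr n ≤ 1 + B := by
    refine (integral_mono (ik 2) ((integrable_const 1).add (ik 4)) fun y => ?_).trans ?_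
    · simp only [Pi.add_apply]
      nlinarith [sq_nonneg ((Ln y - mn n) ^ 2 - 1), sq_nonneg (Ln y - mn n)]
    · rw [integral_add' (integrable_const _) (ik 4)]
      simp only [integral_const, probReal_univ, one_smul]
      linarith
  refine ⟨(integral_nonneg fun y => by positivity).trans hB, integral_nonneg fun y => sq_nonneg _,
    h2, fun x δ hδ => ?_⟩
  have hce : Continuous ce := by unfold ce; fun_prop
  have e0 : ∫ y, (Ln y - mn n) ∂(Measure.pi fun _ : Fin n => mu1) = 0 := by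
    rw [integral_sub (int_Ln n continuous_id') (integrable_const _)]
    simp [mn]
  have j1 : Integrable (fun y => Complex.I * ((x * (Ln y - mn n) : ℝ) : ℂ))
      (Measure.pi fun _ : Fin n => mu1) :=
    int_Ln n (φ := fun t => Complex.I * ((x * (t - mn n) : ℝ) : ℂ)) (by fun_prop)
  have j2 : Integrable (fun y => (((x * (Ln y - mn n)) ^ 2 / 2 : ℝ) : ℂ))
      (Measure.pi fun _ : Fin n => mu1) :=
    int_Ln n (φ := fun t => (((x * (t - mn n)) ^ 2 / 2 : ℝ) : ℂ)) (by fun_prop)
  have j3 : Integrable (fun y => 1 + Complex.I * ((x * (Ln y - mn n) : ℝ) : ℂ))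
      (Measure.pi fun _ : Fin n => mu1) := (integrable_const 1).add j1
  have e1 : ((1 - x ^ 2 * vr n / 2 : ℝ) : ℂ) = ∫ y, (1 + Complex.I * ((x * (Ln y - mn n) : ℝ) : ℂ) -
      (((x * (Ln y - mn n)) ^ 2 / 2 : ℝ) : ℂ)) ∂(Measure.pi fun _ : Fin n => mu1) := by
    rw [integral_sub j3 j2, integral_add (integrable_const _) j1, integral_const_mul,
      integral_complex_ofReal, integral_complex_ofReal, integral_const_mul, e0, integral_div]
    simp only [mul_pow]
    rw [integral_const_mul]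
    simp [vr]
  have e2 : ph n x (-(x * mn n)) =
      ∫ y, ce (x * (Ln y - mn n)) ∂(Measure.pi fun _ : Fin n => mu1) := by
    simp only [ph, mul_sub, sub_eq_add_neg (x * _)]
  rw [e1, e2, ← integral_sub (int_Ln n (φ := fun t => ce (x * (t - mn n))) (by fun_prop))
    (j3.sub' j2)]
  have j4 := ((ik 2).const_mul (x ^ 2)).const_mul δ
  have j5 := ((ik 4).const_mul (x ^ 4)).const_mul (1 / δ + 4)
  refine (norm_integral_le_of_norm_le (j4.add j5) (Eventually.of_forall fun y => ?_)).trans ?_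
  · simp only [Pi.add_apply, ← mul_pow]
    exact norm_ce_taylor _ hδ
  · rw [integral_add' j4 j5]
    simp only [integral_const_mul]
    gcongr
    exact h2

lemma norm_ph_le (n : ℕ) (x k : ℝ) : ‖ph n x k‖ ≤ 1 :=
  (norm_integral_le_of_norm_le_const (Eventually.of_forall fun _ => (norm_ce _).le)).trans
    (by simp)

theorem centred : ∃ v : ℝ, 0 < v ∧ Tendsto vr atTop (𝓝 v) ∧ ∀ x : ℝ,
    Tendsto (fun n => ph n x (-(x * mn n))) atTop (𝓝 (Real.exp (-(x ^ 2 * v) / 2) : ℝ)) := by
  obtain ⟨v, hv, h⟩ := sigma_limit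
  obtain ⟨B, hB⟩ := moment_four
  have B0 := (taylor_ph (hB 2 le_rfl)).1
  have e : ∀ n x α, ph n x (-(x * α)) = ph n x (-(x * mn n)) * ce (x * (mn n - α)) := by
    intro n x α
    rw [← ph_phase]; congr 1; ring
  have key : ∀ x : ℝ, Tendsto (fun n => ph n x (-(x * mn n))) atTop
      (𝓝 (Real.exp (-(x ^ 2 * v) / 2) : ℝ)) := by
    refine fun x => Metric.tendsto_nhds.2 fun ε hε => ?_
    set A := 3 + 7 * B + v with hA
    set η := min (ε / (2 * (|x| + 1))) (1 / 2) with hη
    have η0 : 0 < η := by positivity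
    have η1 : η * (2 * (|x| + 1)) ≤ ε := (le_div_iff₀ (by positivity)).1 (min_le_left _ _)
    have η2 : η ≤ 1 / 2 := min_le_right _ _
    have A1 : 1 ≤ A := by linarith
    set s := η / (2 * A) with hs
    have s0 : 0 < s := by positivity
    have s1 : s * A = η / 2 := by rw [hs]; field_simp
    have s2 : s ≤ 1 := by nlinarith
    filter_upwards [h (max |x| 1) (min (ε / 4) (s ^ 2)) (by positivity), eventually_ge_atTop 2]
      with n ⟨α, hα⟩ hn
    obtain ⟨-, v0, v1, ht⟩ := taylor_ph (hB n hn)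
    have hd := small_phase (d := mn n - α) (κ := s ^ 2 * A) s0 (by nlinarith) fun y hy => by
      have a1 := (hα y (hy.trans (s2.trans (le_max_right _ _)))).trans (min_le_right _ _)
      have a2 := ht y 1 one_pos
      have a3 : y ^ 2 ≤ s ^ 2 := by rw [← sq_abs y]; gcongr
      have a4 : y ^ 4 ≤ s ^ 2 := by
        have := mul_le_mul a3 (a3.trans (pow_le_one₀ s0.le s2)) (sq_nonneg y) (sq_nonneg s)
        linarith
      have a5 : ‖ce (y * (mn n - α)) - ph n y (-(y * α))‖ ≤
          ‖ph n y (-(y * mn n)) - (1 - y ^ 2 * vr n / 2 : ℝ)‖ + y ^ 2 * vr n / 2 := by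
        rw [e, ← one_sub_mul, norm_mul, norm_ce, mul_one, norm_sub_rev]
        refine (norm_sub_le_norm_sub_add_norm_sub _ _ _).trans (add_le_add le_rfl (le_of_eq ?_))
        rw [← Complex.ofReal_one, ← Complex.ofReal_sub, Complex.norm_real, Real.norm_eq_abs,
          sub_sub_cancel_left, abs_neg, abs_of_nonneg (by positivity)]
      have a6 : ‖((Real.exp (-(y ^ 2 * v) / 2) : ℝ) : ℂ) - 1‖ ≤ y ^ 2 * v / 2 := by
        have := abs_exp_neg_sub_le (u := y ^ 2 * v / 2) (w := 0) (by positivity) le_rfl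
        rw [neg_zero, Real.exp_zero, sub_zero, abs_of_nonneg (a := y ^ 2 * v / 2) (by positivity),
          ← neg_div] at this
        rwa [← Complex.ofReal_one, ← Complex.ofReal_sub, Complex.norm_real]
      have a7 : y ^ 2 * (1 + B) ≤ s ^ 2 * (1 + B) := by gcongr
      have a8 : y ^ 4 * B ≤ s ^ 2 * B := by gcongr
      have a9 : y ^ 2 * vr n ≤ s ^ 2 * (1 + B) := by gcongr
      have a10 : y ^ 2 * v ≤ s ^ 2 * v := by gcongr
      refine (norm_sub_le_norm_sub_add_norm_sub _ _ _).trans ((add_le_add a5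
        ((norm_sub_le_norm_sub_add_norm_sub _ _ _).trans (add_le_add a1 a6))).trans ?_)
      rw [hA]
      nlinarith [mul_nonneg (sq_nonneg s) B0, mul_nonneg (sq_nonneg s) hv.le, sq_nonneg s]
    have hd' : |mn n - α| ≤ η := le_of_mul_le_mul_left (by nlinarith) s0
    have a1 := (hα x (le_max_left _ _)).trans (min_le_left _ _)
    have a2 : ‖ph n x (-(x * mn n)) - ph n x (-(x * α))‖ ≤ |x| * η := by
      rw [e n x α, ← mul_one_sub, norm_mul, ← ce_zero]
      refine (mul_le_of_le_one_left (norm_nonneg _) (norm_ph_le _ _ _)).trans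
        ((norm_ce_sub_le _ _).trans ?_)
      rw [zero_sub, abs_neg, abs_mul]
      gcongr
    rw [dist_eq_norm]
    refine (norm_sub_le_norm_sub_add_norm_sub _ _ _).trans_lt ((add_le_add a2 a1).trans_lt ?_)
    linarith
  refine ⟨v, hv, Metric.tendsto_nhds.2 fun η hη => ?_, key⟩
  set δ := η / (8 * (1 + B)) with hδ
  have d0 : 0 < δ := by positivity
  have d1 : δ * (1 + B) = η / 8 := by rw [hδ]; field_simp
  set A := (1 / δ + 4) * B + v ^ 2 / 4 with hA
  have A0 : 0 < A := by positivity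
  set u := η / (8 * A) with hu
  have u0 : 0 < u := by positivity
  have u1 : u * A = η / 8 := by rw [hu]; field_simp
  filter_upwards [Metric.tendsto_nhds.1 (key √u) (u * (η / 8)) (by positivity),
    eventually_ge_atTop 2] with n a1 hn
  have a2 := (taylor_ph (hB n hn)).2.2.2 √u δ d0
  have a3 : √u ^ 4 = u ^ 2 := by rw [show 4 = 2 * 2 from rfl, pow_mul, Real.sq_sqrt u0.le]
  rw [dist_eq_norm, Real.sq_sqrt u0.le] at a1
  rw [a3, Real.sq_sqrt u0.le, norm_sub_rev] at a2
  have a4 := (norm_sub_le_norm_sub_add_norm_sub _ _ _).trans (add_le_add a2 a1.le)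
  rw [← Complex.ofReal_sub, Complex.norm_real, Real.norm_eq_abs, neg_div] at a4
  have a5 := exp_neg_sub_le (x := u * v / 2) (by positivity)
  have a6 := (abs_sub_le _ _ _).trans (add_le_add a4 a5)
  have a7 : 1 - u * vr n / 2 - (1 - u * v / 2) = -(u / 2 * (vr n - v)) := by ring
  rw [a7, abs_neg, abs_mul, abs_of_pos (half_pos u0)] at a6
  have a8 : δ * (u * (1 + B)) + (1 / δ + 4) * (u ^ 2 * B) + u * (η / 8) + (u * v / 2) ^ 2 =
      u * (δ * (1 + B) + u * A + η / 8) := by rw [hA]; ring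
  rw [a8, d1, u1] at a6
  rw [Real.dist_eq]
  refine lt_of_mul_lt_mul_left (a := u / 2) (a6.trans_lt ?_) (half_pos u0).le
  nlinarith [mul_pos u0 hη]

lemma clt_of_char {a b : ℕ → ℝ} (h : ∀ s : ℝ,
    Tendsto (fun n : ℕ => ∫ y, ce (s * ((Ln y - a n) / b n)) ∂(Measure.pi fun _ : Fin n => mu1))
      atTop (𝓝 (Real.exp (-s ^ 2 / 2) : ℝ))) (t : ℝ) :
    Tendsto (fun n : ℕ =>
      (Measure.pi (fun _ : Fin n => mu1) {x | (Ln x - a n) / b n ≤ t}).toReal) atTop
      (𝓝 ((ProbabilityTheory.gaussianReal 0 1 (Set.Iic t)).toReal)) := by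
  have hm : ∀ n, Measurable fun x : Fin n → Fin 2 → ℝ => (Ln x - a n) / b n := fun n =>
    ((measurable_Ln n).sub_const _).div_const _
  let ν : ℕ → ProbabilityMeasure ℝ := fun n =>
    ⟨(Measure.pi fun _ : Fin n => mu1).map fun x => (Ln x - a n) / b n,
      Measure.isProbabilityMeasure_map (hm n).aemeasurable⟩
  let γ : ProbabilityMeasure ℝ := ⟨ProbabilityTheory.gaussianReal 0 1, inferInstance⟩
  have hlim : Tendsto ν atTop (𝓝 γ) := by
    refine ProbabilityMeasure.tendsto_of_tendsto_charFun fun s => ?_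
    have e1 : charFun (γ : Measure ℝ) s = (Real.exp (-s ^ 2 / 2) : ℝ) := by
      simp only [γ, ProbabilityMeasure.coe_mk, ProbabilityTheory.charFun_gaussianReal]
      push_cast
      congr 1
      ring
    have e2 : ∀ n, charFun (ν n : Measure ℝ) s =
        ∫ y, ce (s * ((Ln y - a n) / b n)) ∂(Measure.pi fun _ : Fin n => mu1) := by
      intro n
      simp only [ν, ProbabilityMeasure.coe_mk, charFun_apply_real]
      rw [integral_map (hm n).aemeasurable (by fun_prop)]
      simp only [ce, Complex.ofReal_mul, mul_comm Complex.I]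
    simp only [e1, e2]
    exact h s
  have h1 := ProbabilityMeasure.tendsto_measure_of_null_frontier_of_tendsto' hlim
    (E := Set.Iic t) (by
      have := ProbabilityTheory.nullSingletonClass_gaussianReal (μ := 0) (v := 1) one_ne_zero
      simp [γ])
  have h2 := (ENNReal.tendsto_toReal (measure_ne_top _ _)).comp h1
  refine h2.congr fun n => ?_
  simp only [Function.comp, ν, ProbabilityMeasure.coe_mk]
  rw [Measure.map_apply (hm n) measurableSet_Iic]
  rfl

theorem tsp_clt_const : ∃ σ : ℝ, 0 < σ ∧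
    Tendsto (fun n : ℕ => ProbabilityTheory.variance Ln (Measure.pi fun _ : Fin n => mu1)) atTop
      (𝓝 (σ ^ 2)) ∧ ∀ t : ℝ, Tendsto (fun n : ℕ =>
      (Measure.pi (fun _ : Fin n => mu1) {x | (Ln x - mn n) / σ ≤ t}).toReal) atTop
      (𝓝 ((ProbabilityTheory.gaussianReal 0 1 (Set.Iic t)).toReal)) := by
  obtain ⟨v, hv, h1, h2⟩ := centred
  refine ⟨√v, Real.sqrt_pos.2 hv, ?_, clt_of_char (b := fun _ => √v) fun s => ?_⟩
  · rw [Real.sq_sqrt hv.le]
    exact h1.congr fun n =>
      (ProbabilityTheory.variance_eq_integral (measurable_Ln n).aemeasurable).symm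
  · have h3 := h2 (s / √v)
    rw [div_pow, Real.sq_sqrt hv.le, div_mul_cancel₀ _ hv.ne'] at h3
    refine h3.congr fun n => ?_
    unfold ph
    congr 1
    funext y
    congr 1
    ring

end Pool.Agent.TSP72
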