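import Pool.Agent.Lib.MP_72f242_pr.Karp
import Pool.Agent.Lib.MP_72f242_pr.AW

/-! The grid model: cells, nearest occupied cells and moment bounds. -/

set_option autoImplicit false

namespace Pool.Agent.TSP72

open Finset

/-- Cells of the `K × K` grid. -/
abbrev Cell (K : ℕ) : Type := Fin 2 → Fin K

/-- The lower left corner of a cell. -/
noncomputable def pt {K : ℕ} (c : Cell K) : ℂ := ⟨((c 0 : ℕ) : ℝ) / K, ((c 1 : ℕ) : ℝ) / K⟩

/-- The shortest tour through the corners of a set of cells. -/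
noncomputable def Lc {K : ℕ} (S : Finset (Cell K)) : ℝ := L (S.image pt)

/-- The occupied sites of a configuration. -/
def on {ι : Type} [Fintype ι] (ω : ι → Bool) : Finset ι := univ.filter fun i => ω i = true

/-- A square neighbourhood of a cell. -/
def nb {K : ℕ} (t : Cell K) (d : ℕ) : Finset (Cell K) :=
  Fintype.piFinset fun a => univ.filter fun y : Fin K => (y : ℕ) ≤ t a + d ∧ (t a : ℕ) ≤ y + d

/-- The number of scales at which the neighbourhood of `t` misses `S`. -/
def DD {K : ℕ} (R g : ℕ) (t : Cell K) (S : Finset (Cell K)) : ℕ :=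
  ((range (R + 1)).filter fun i => Disjoint S (nb t (i * g))).card

lemma dist_pt_le {K : ℕ} (c c' : Cell K) {d : ℝ}
    (h : ∀ a, |((c a : ℕ) : ℝ) - (c' a : ℕ)| ≤ d) : dist (pt c) (pt c') ≤ 2 * d / K := by
  refine (dist_le_abs_add _ _).trans ?_
  simp only [pt, ← sub_div, abs_div, Nat.abs_cast]
  rw [← add_div]
  gcongr
  linarith [h 0, h 1]

lemma le_dist_pt {K : ℕ} (c c' : Cell K) (a : Fin 2) :
    |((c a : ℕ) : ℝ) - (c' a : ℕ)| / K ≤ dist (pt c) (pt c') := by
  revert a
  rw [Fin.forall_fin_two]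
  constructor
  · simpa [pt, ← sub_div, abs_div] using abs_re_le_dist (pt c) (pt c')
  · simpa [pt, ← sub_div, abs_div] using abs_im_le_dist (pt c) (pt c')

lemma card_nb {K : ℕ} (t : Cell K) {d : ℕ} (hd : d ≤ K) : d ^ 2 ≤ (nb t d).card := by
  rw [nb, Fintype.card_piFinset]
  have : ∀ a, d ≤ (univ.filter fun y : Fin K => (y : ℕ) ≤ t a + d ∧ (t a : ℕ) ≤ y + d).card := by
    intro a
    have h1 := (t a).2
    rw [← card_image_of_injective _ Fin.val_injective]
    refine le_trans (le_of_eq ?_) (card_le_card (s := Ico (min (t a : ℕ) (K - d))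
      (min (t a : ℕ) (K - d) + d)) ?_)
    · simp
    · intro y hy
      rw [mem_Ico] at hy
      refine mem_image.2 ⟨⟨y, by omega⟩, mem_filter.2 ⟨mem_univ _, ?_⟩, rfl⟩
      simp only
      omega
  calc d ^ 2 = ∏ _a : Fin 2, d := by simp
    _ ≤ _ := prod_le_prod' fun a _ => this a

lemma exists_near {K R g : ℕ} (hK : K = R * g) (hR : 1 ≤ R) (hg : 1 ≤ g) (t : Cell K)
    {S S' : Finset (Cell K)} (hS : S ⊆ S') (hne : S'.Nonempty) :
    ∃ s ∈ S', dist (pt t) (pt s) ≤ 2 * (DD R g t S : ℝ) / R := by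
  have hR0 : (0 : ℝ) < R := by exact_mod_cast hR
  have hg0 : (0 : ℝ) < g := by exact_mod_cast hg
  have hKr : (K : ℝ) = R * g := by rw [hK]; push_cast; ring
  by_cases h : ∃ i, i ≤ R ∧ ¬ Disjoint S (nb t (i * g))
  · classical
    obtain ⟨h1, h2⟩ := Nat.find_spec h
    set i := Nat.find h
    have hi : i ≤ DD R g t S := by
      rw [DD, ← card_range i]
      refine card_le_card fun j hj => ?_
      rw [mem_range] at hj
      have := Nat.find_min h hj
      refine mem_filter.2 ⟨mem_range.2 (by omega), ?_⟩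
      by_contra e
      exact this ⟨by omega, e⟩
    obtain ⟨s, hs, hs'⟩ := not_disjoint_iff.1 h2
    refine ⟨s, hS hs, (dist_pt_le t s (d := i * g) fun a => ?_).trans ?_⟩
    · have := (mem_filter.1 (Fintype.mem_piFinset.1 hs' a)).2
      have a1 : ((s a : ℕ) : ℝ) ≤ (t a : ℕ) + i * g := by exact_mod_cast this.1
      have a2 : ((t a : ℕ) : ℝ) ≤ (s a : ℕ) + i * g := by exact_mod_cast this.2
      exact abs_le.2 ⟨by linarith, by linarith⟩
    · have : 2 * ((i : ℝ) * g) / K = 2 * i / R := by rw [hKr]; field_simp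
      rw [this]
      gcongr
  · push Not at h
    have hD : DD R g t S = R + 1 := by
      rw [DD, filter_true_of_mem fun i hi => h i (by rw [mem_range] at hi; omega), card_range]
    obtain ⟨s, hs⟩ := hne
    refine ⟨s, hs, (dist_pt_le t s (d := K) fun a => ?_).trans ?_⟩
    · have a1 : ((s a : ℕ) : ℝ) ≤ K := by exact_mod_cast (s a).2.le
      have a2 : ((t a : ℕ) : ℝ) ≤ K := by exact_mod_cast (t a).2.le
      have a3 : (0 : ℝ) ≤ (s a : ℕ) := Nat.cast_nonneg _
      have a4 : (0 : ℝ) ≤ (t a : ℕ) := Nat.cast_nonneg _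
      exact abs_le.2 ⟨by linarith, by linarith⟩
    · rw [hD, hKr, div_le_div_iff₀ (by positivity) hR0]
      push_cast
      nlinarith [mul_pos hR0 hg0]

lemma Lc_mono {K : ℕ} {S T : Finset (Cell K)} (h : S ⊆ T) : Lc S ≤ Lc T :=
  L_mono (image_subset_image h)

lemma Lc_insert_le {K R g : ℕ} (hK : K = R * g) (hR : 1 ≤ R) (hg : 1 ≤ g) (t : Cell K)
    {S S' : Finset (Cell K)} (hS : S ⊆ S') (hne : S'.Nonempty) :
    Lc (insert t S') ≤ Lc S' + 4 * (DD R g t S : ℝ) / R := by
  obtain ⟨s, hs, hd⟩ := exists_near hK hR hg t hS hne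
  have := L_insert_le (S := S'.image pt) (mem_image_of_mem pt hs) (pt t)
  rw [Lc, Lc, image_insert]
  have e : 4 * (DD R g t S : ℝ) / R = 2 * (2 * (DD R g t S : ℝ) / R) := by ring
  linarith

lemma Lc_union_le {K R g : ℕ} (hK : K = R * g) (hR : 1 ≤ R) (hg : 1 ≤ g)
    {S : Finset (Cell K)} (hne : S.Nonempty) (Z : Finset (Cell K)) :
    Lc (S ∪ Z) ≤ Lc S + ∑ t ∈ Z, 4 * (DD R g t S : ℝ) / R := by
  have := L_union_image_le (S.image pt) Z pt (fun t => 2 * (DD R g t S : ℝ) / R) fun t _ => by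
    obtain ⟨s, hs, hd⟩ := exists_near hK hR hg t subset_rfl hne
    exact ⟨pt s, mem_image_of_mem pt hs, hd⟩
  rw [Lc, Lc, image_union]
  refine this.trans (le_of_eq ?_)
  rw [mul_sum]
  congr 1
  exact sum_congr rfl fun t _ => by ring

/-- A bound for the fourth moment of `DD`. -/
noncomputable def C0 : ℝ := ∑' i : ℕ, ((i : ℝ) + 1) ^ 4 * Real.exp (1 - i / 2)

lemma summable_C0 : Summable fun i : ℕ => ((i : ℝ) + 1) ^ 4 * Real.exp (1 - i / 2) := by
  have h := (summable_nat_add_iff 1).2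
    (Real.summable_pow_mul_exp_neg_nat_mul 4 (r := 1 / 2) (by norm_num))
  refine (h.mul_left (Real.exp (3 / 2))).congr fun i => ?_
  push_cast
  rw [mul_left_comm, ← Real.exp_add]
  congr 2
  ring

lemma C0_nonneg : 0 ≤ C0 := tsum_nonneg fun _ => by positivity

lemma card_pow_le (T : Finset ℕ) : (T.card : ℝ) ^ 4 ≤ ∑ i ∈ T, ((i : ℝ) + 1) ^ 4 := by
  rcases T.eq_empty_or_nonempty with rfl | hne
  · simp
  have h1 : T.card ≤ T.max' hne + 1 := by
    rw [← card_range (T.max' hne + 1)]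
    exact card_le_card fun i hi => mem_range.2 (Nat.lt_succ_of_le (T.le_max' i hi))
  have h2 : (T.card : ℝ) ≤ (T.max' hne : ℕ) + 1 := by exact_mod_cast h1
  exact (pow_le_pow_left₀ (Nat.cast_nonneg _) h2 4).trans
    (single_le_sum (f := fun i : ℕ => ((i : ℝ) + 1) ^ 4) (fun _ _ => by positivity)
      (T.max'_mem hne))

lemma moment_DD {ι β : Type} [Fintype ι] [DecidableEq ι] [Fintype β] (P : PW β) {K : ℕ}
    (R g : ℕ) (t : Cell K) (φ : (ι → β) → Finset (Cell K))
    (h : ∀ i ≤ R, P.Ex (fun ω => if Disjoint (φ ω) (nb t (i * g)) then (1 : ℝ) else 0) ≤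
      Real.exp (1 - i / 2)) :
    P.Ex (fun ω => (DD R g t (φ ω) : ℝ) ^ 4) ≤ C0 := by
  calc _ ≤ P.Ex fun ω => ∑ i ∈ range (R + 1), ((i : ℝ) + 1) ^ 4 *
        (if Disjoint (φ ω) (nb t (i * g)) then (1 : ℝ) else 0) := by
        refine P.Ex_mono fun ω => (card_pow_le _).trans (le_of_eq ?_)
        rw [sum_filter]
        exact sum_congr rfl fun i _ => by split_ifs <;> simp
    _ ≤ ∑ i ∈ range (R + 1), ((i : ℝ) + 1) ^ 4 * Real.exp (1 - i / 2) := by
        rw [P.Ex_sum]
        refine sum_le_sum fun i hi => ?_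
        rw [P.Ex_const_mul]
        gcongr
        exact h i (by rw [mem_range] at hi; omega)
    _ ≤ C0 := summable_C0.sum_le_tsum _ fun _ _ => by positivity

lemma mean_DD {ι β : Type} [Fintype ι] [DecidableEq ι] [Fintype β] (P : PW β) {K : ℕ}
    (R g : ℕ) (t : Cell K) (φ : (ι → β) → Finset (Cell K))
    (h : ∀ i ≤ R, P.Ex (fun ω => if Disjoint (φ ω) (nb t (i * g)) then (1 : ℝ) else 0) ≤
      Real.exp (1 - i / 2)) :
    P.Ex (fun ω => (DD R g t (φ ω) : ℝ)) ≤ C0 := by
  refine le_trans (P.Ex_mono fun ω => ?_) (moment_DD P R g t φ h)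
  exact_mod_cast Nat.le_self_pow (by norm_num) _

section Bernoulli

variable {ι : Type} [Fintype ι] [DecidableEq ι] (P : PW Bool)

lemma PW.mu_false : P.μ false = 1 - P.μ true := by
  have := P.sum_one
  simp only [Fintype.sum_bool] at this
  linarith

lemma PW.mu_le_one : P.μ true ≤ 1 := by
  have := P.nonneg false
  rw [P.mu_false] at this
  linarith

lemma Ex_avoid (V : Finset ι) :
    P.Ex (fun ω : ι → Bool => if Disjoint (on ω) V then (1 : ℝ) else 0) =
      (1 - P.μ true) ^ V.card := by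
  have e : (fun ω : ι → Bool => if Disjoint (on ω) V then (1 : ℝ) else 0) =
      fun ω => ∏ i, (if i ∈ V ∧ ω i = true then (0 : ℝ) else 1) := by
    funext ω
    split_ifs with h
    · refine (prod_eq_one fun i _ => if_neg fun hi => ?_).symm
      exact disjoint_left.1 h (by simp [on, hi.2]) hi.1
    · obtain ⟨i, h1, h2⟩ := not_disjoint_iff.1 h
      symm
      refine prod_eq_zero (mem_univ i) (if_pos ?_)
      exact ⟨h2, by simpa [on] using h1⟩
  rw [e, P.Ex_prod_coord (fun i b => if i ∈ V ∧ b = true then (0 : ℝ) else 1)]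
  have e2 : ∀ i, ∑ b, P.μ b • (if i ∈ V ∧ b = true then (0 : ℝ) else 1) =
      if i ∈ V then 1 - P.μ true else 1 := by
    intro i
    by_cases h : i ∈ V <;> simp [h, P.mu_false]
  simp only [e2]
  rw [prod_ite_mem, univ_inter, prod_const]

lemma Ex_exp_card (B : Finset ι) :
    P.Ex (fun ω : ι → Bool => Real.exp ((on ω ∩ B).card)) ≤
      Real.exp (2 * P.μ true * B.card) := by
  have e : (fun ω : ι → Bool => Real.exp ((on ω ∩ B).card)) =
      fun ω => ∏ i, (if i ∈ B ∧ ω i = true then Real.exp 1 else 1) := by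
    funext ω
    rw [prod_ite, prod_const_one, mul_one, prod_const, ← Real.exp_nat_mul, mul_one]
    congr 3
    ext i
    simp [on, and_comm]
  rw [e, P.Ex_prod_coord (fun i b => if i ∈ B ∧ b = true then Real.exp 1 else 1)]
  have e2 : ∀ i, ∑ b, P.μ b • (if i ∈ B ∧ b = true then Real.exp 1 else 1) =
      if i ∈ B then P.μ true * Real.exp 1 + (1 - P.μ true) else 1 := by
    intro i
    by_cases h : i ∈ B <;> simp [h, P.mu_false]
  simp only [e2]
  rw [prod_ite_mem, univ_inter, prod_const, mul_comm _ (B.card : ℝ), Real.exp_nat_mul]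
  have h1 := P.nonneg true
  have h2 := P.mu_le_one
  have h3 := Real.exp_one_lt_d9
  have h4 := Real.add_one_le_exp (2 * P.μ true)
  have h5 := Real.exp_pos 1
  gcongr
  nlinarith

lemma Ex_card_four (B : Finset ι) (hB : P.μ true * B.card ≤ 4) :
    P.Ex (fun ω : ι → Bool => ((on ω ∩ B).card : ℝ) ^ 4) ≤ 24 * Real.exp 8 := by
  calc _ ≤ P.Ex (fun ω : ι → Bool => 24 * Real.exp ((on ω ∩ B).card)) := by
        refine P.Ex_mono fun ω => ?_
        have := Real.pow_div_factorial_le_exp _ (Nat.cast_nonneg (on ω ∩ B).card) 4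
        norm_num [Nat.factorial] at this
        linarith
    _ ≤ _ := by
        rw [P.Ex_const_mul]
        gcongr
        exact (Ex_exp_card P B).trans (Real.exp_le_exp.2 (by linarith))

end Bernoulli

lemma moment_DD_bern (P : PW Bool) {K R g : ℕ} (hK : K = R * g) (hp : 1 ≤ P.μ true * g ^ 2)
    (t : Cell K) (B : Finset (Cell K)) (hB : B.card ≤ g ^ 2) :
    P.Ex (fun ω : Cell K → Bool => (DD R g t (on ω \ B) : ℝ) ^ 4) ≤ C0 := by
  refine moment_DD P R g t (fun ω => on ω \ B) fun i hi => ?_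
  have e : ∀ ω : Cell K → Bool, Disjoint (on ω \ B) (nb t (i * g)) ↔
      Disjoint (on ω) (nb t (i * g) \ B) := by
    intro ω
    simp only [disjoint_left, mem_sdiff]
    tauto
  simp only [e]
  rw [Ex_avoid]
  have h1 := card_nb t (d := i * g) (by rw [hK]; gcongr)
  have h2 := le_card_sdiff B (nb t (i * g))
  have h3 : i * g ^ 2 ≤ (nb t (i * g) \ B).card + g ^ 2 := by
    have : i * g ^ 2 ≤ (i * g) ^ 2 := by
      rw [mul_pow]
      gcongr
      exact Nat.le_self_pow (by norm_num) _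
    omega
  have h4 : (i : ℝ) * g ^ 2 ≤ (nb t (i * g) \ B).card + g ^ 2 := by exact_mod_cast h3
  have h5 := P.nonneg true
  calc _ ≤ Real.exp (-P.μ true) ^ (nb t (i * g) \ B).card :=
        pow_le_pow_left₀ (by linarith [P.mu_le_one]) (Real.one_sub_le_exp_neg _) _
    _ ≤ _ := by
        rw [← Real.exp_nat_mul, Real.exp_le_exp]
        have h6 : (0 : ℝ) ≤ (nb t (i * g) \ B).card := Nat.cast_nonneg _
        rcases le_total (i : ℝ) 1 with h | h
        · nlinarith
        · have := mul_le_mul_of_nonneg_left h4 h5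
          nlinarith

end Pool.Agent.TSP72
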