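import Pool.Agent.Lib.MP_72f242_pr.Tour

/-! The boundary lemma of Karp: cutting a tour along the boundary of a square. -/

set_option autoImplicit false

namespace Pool.Agent.TSP72

open Finset

section General

variable {X : Type*} [PseudoMetricSpace X]

/-- A family of `k` walks with end points in `Bd` covering `U`, with total length at most `c`. -/
def Fam (Bd : Set X) (θ : X → ℝ) (a : ℝ) (U : Set X) (c : ℝ) (k : ℕ) : Prop :=
  ∃ m : Multiset (Set X × X × X × ℝ), m.card = k ∧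
    (∀ q ∈ m, Walk q.1 q.2.1 q.2.2.1 q.2.2.2 ∧ q.2.1 ∈ Bd ∧ q.2.2.1 ∈ Bd ∧ a ≤ θ q.2.1 ∧
      a ≤ θ q.2.2.1) ∧
    (∀ x ∈ U, ∃ q ∈ m, x ∈ q.1) ∧ (m.map fun q => q.2.2.2).sum ≤ c

lemma orient {Bd : Set X} (θ : X → ℝ) {S : Set X} {u v : X} {c : ℝ} (h : Walk S u v c)
    (hu : u ∈ Bd) (hv : v ∈ Bd) :
    ∃ u' v', Walk S u' v' c ∧ u' ∈ Bd ∧ v' ∈ Bd ∧ θ u' = min (θ u) (θ v) ∧ θ u' ≤ θ v' := by
  rcases le_total (θ u) (θ v) with h1 | h1
  · exact ⟨u, v, h, hu, hv, (min_eq_left h1).symm, h1⟩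
  · exact ⟨v, u, h.symm, hv, hu, (min_eq_right h1).symm, h1⟩

lemma Fam.tour {Bd : Set X} {θ : X → ℝ} {b : ℝ}
    (hθ : ∀ w ∈ Bd, ∀ w' ∈ Bd, dist w w' ≤ |θ w - θ w'|) (hb : ∀ w ∈ Bd, θ w ≤ b) (k : ℕ) :
    ∀ (a : ℝ) (U : Set X) (c : ℝ), a ≤ b → Fam Bd θ a U c k → Tour U (c + 2 * (b - a)) := by
  induction k using Nat.strong_induction_on with
  | _ k ih =>
  intro a U c hab ⟨m, hk, hv, hU, hc⟩
  rcases eq_or_ne m 0 with rfl | hm
  · refine ⟨by simp at hc; linarith, fun _ => 0, fun x hx => ?_⟩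
    simpa using hU x hx
  obtain ⟨q1, hq1, hmin1⟩ := Multiset.exists_min_image (fun q : Set X × X × X × ℝ =>
    min (θ q.2.1) (θ q.2.2.1)) hm
  obtain ⟨m', rfl⟩ := Multiset.exists_cons_of_mem hq1
  obtain ⟨w1, a1, a2, a3, a4⟩ := hv q1 hq1
  obtain ⟨u1, v1, w1, hu1, hv1, e1, l1⟩ := orient θ w1 a1 a2
  have ha1 : a ≤ θ u1 := by rw [e1]; exact le_min a3 a4
  rcases eq_or_ne m' 0 with rfl | hm'
  · refine (w1.trans (Walk.edge v1 u1)).tour.mono ?_ ?_
    · intro x hx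
      obtain ⟨q, hq, hx⟩ := hU x hx
      simp only [Multiset.cons_zero, Multiset.mem_singleton] at hq
      left; exact hq ▸ hx
    · have h1 := hθ v1 hv1 u1 hu1
      rw [abs_of_nonneg (by linarith)] at h1
      simp only [Multiset.cons_zero, Multiset.map_singleton, Multiset.sum_singleton] at hc
      linarith [hb v1 hv1]
  obtain ⟨q2, hq2, hmin2⟩ := Multiset.exists_min_image (fun q : Set X × X × X × ℝ =>
    min (θ q.2.1) (θ q.2.2.1)) hm'
  obtain ⟨m'', rfl⟩ := Multiset.exists_cons_of_mem hq2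
  obtain ⟨w2, b1, b2, -, -⟩ := hv q2 (Multiset.mem_cons_of_mem hq2)
  obtain ⟨u2, v2, w2, hu2, hv2, e2, l2⟩ := orient θ w2 b1 b2
  have h12 : θ u1 ≤ θ u2 := by rw [e1, e2]; exact hmin1 q2 (Multiset.mem_cons_of_mem hq2)
  obtain ⟨w, hw, hw1, hw2⟩ : ∃ w ∈ Bd, θ u2 ≤ θ w ∧ dist w v1 ≤ θ u2 - θ u1 := by
    rcases le_total (θ u2) (θ v1) with h | h
    · exact ⟨v1, hv1, h, by simp [h12]⟩
    · refine ⟨u2, hu2, le_rfl, ?_⟩
      have := hθ u2 hu2 v1 hv1
      rw [abs_of_nonneg (by linarith)] at this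
      linarith
  have hnew := (((Walk.edge w v1).trans w1.symm).trans (Walk.edge u1 u2)).trans w2
  have hd := hθ u1 hu1 u2 hu2
  rw [abs_of_nonpos (by linarith)] at hd
  refine (ih (k - 1) (by simp at hk; omega) (θ u2) U (c + 2 * (θ u2 - a)) (hb u2 hu2)
    ⟨({v1} ∪ q1.1 ∪ {u2} ∪ q2.1, w, v2, dist w v1 + q1.2.2.2 + dist u1 u2 + q2.2.2.2) ::ₘ m'',
      by simp at hk ⊢; omega, ?_, ?_, ?_⟩).mono subset_rfl (by linarith)
  · intro q hq
    rcases Multiset.mem_cons.1 hq with rfl | hq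
    · exact ⟨hnew, hw, hv2, hw1, l2⟩
    · obtain ⟨c1, c2, c3, -, -⟩ := hv q (Multiset.mem_cons_of_mem (Multiset.mem_cons_of_mem hq))
      have := hmin2 q (Multiset.mem_cons_of_mem hq)
      rw [← e2] at this
      exact ⟨c1, c2, c3, this.trans (min_le_left _ _), this.trans (min_le_right _ _)⟩
  · intro x hx
    obtain ⟨q, hq, hx⟩ := hU x hx
    rcases Multiset.mem_cons.1 hq with rfl | hq
    · exact ⟨_, Multiset.mem_cons_self _ _, Or.inl (Or.inl (Or.inr hx))⟩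
    rcases Multiset.mem_cons.1 hq with rfl | hq
    · exact ⟨_, Multiset.mem_cons_self _ _, Or.inr hx⟩
    · exact ⟨q, Multiset.mem_cons_of_mem hq, hx⟩
  · simp only [Multiset.map_cons, Multiset.sum_cons] at hc ⊢
    linarith

/-- A family of walks with end points in `Bd`. -/
def Fm (Bd : Set X) (θ : X → ℝ) (U : Set X) (c : ℝ) : Prop := ∃ k, Fam Bd θ 0 U c k

lemma Fm.empty (Bd : Set X) (θ : X → ℝ) : Fm Bd θ ∅ 0 :=
  ⟨0, 0, rfl, by simp, by simp, by simp⟩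

lemma Fm.cons {Bd : Set X} {θ : X → ℝ} (h0 : ∀ w ∈ Bd, 0 ≤ θ w) {U T : Set X} {c d : ℝ}
    (h : Fm Bd θ U c) {u v : X} (hw : Walk T u v d) (hu : u ∈ Bd) (hv : v ∈ Bd) :
    Fm Bd θ (U ∪ T) (c + d) := by
  obtain ⟨k, m, hk, h1, h2, h3⟩ := h
  refine ⟨k + 1, (T, u, v, d) ::ₘ m, by simp [hk], ?_, ?_, ?_⟩
  · intro q hq
    rcases Multiset.mem_cons.1 hq with rfl | hq
    · exact ⟨hw, hu, hv, h0 u hu, h0 v hv⟩
    · exact h1 q hq
  · rintro x (hx | hx)
    · obtain ⟨q, hq, hx⟩ := h2 x hx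
      exact ⟨q, Multiset.mem_cons_of_mem hq, hx⟩
    · exact ⟨_, Multiset.mem_cons_self _ _, hx⟩
  · simp only [Multiset.map_cons, Multiset.sum_cons]
    linarith

/-- The state of the cutting procedure. -/
def St (Bd : Set X) (θ : X → ℝ) (In : X → Prop) (S : Set X) (x : X) (t : ℝ) : Prop :=
  ∃ (Ui Uo T : Set X) (ci co c : ℝ), ∃ w ∈ Bd, Fm Bd θ Ui ci ∧ Fm Bd θ Uo co ∧ Walk T w x c ∧
    ci + co + c ≤ t ∧ (∀ y ∈ S, In y → y ∈ Ui ∨ (In x ∧ y ∈ T)) ∧
    (∀ y ∈ S, ¬ In y → y ∈ Uo ∨ (¬ In x ∧ y ∈ T))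

lemma St.step {Bd : Set X} {θ : X → ℝ} (h0 : ∀ w ∈ Bd, 0 ≤ θ w) {In : X → Prop} {S : Set X}
    {x y : X} {t t' : ℝ} (h : St Bd θ In S x t) (ht : t + dist x y ≤ t')
    (hc : (In x ↔ In y) ∨ ∃ w ∈ Bd, dist x w + dist w y ≤ dist x y) :
    St Bd θ In (insert y S) y t' := by
  obtain ⟨Ui, Uo, T, ci, co, c, w, hw, f1, f2, hW, hs, h1, h2⟩ := h
  by_cases hxy : In x ↔ In y
  · refine ⟨Ui, Uo, T ∪ {y}, ci, co, c + dist x y, w, hw, f1, f2, hW.trans (Walk.edge x y),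
      by linarith, ?_, ?_⟩
    · rintro z (rfl | hz) hI
      · right; exact ⟨hI, Or.inr rfl⟩
      · rcases h1 z hz hI with h | h
        · left; exact h
        · right; exact ⟨hxy.1 h.1, Or.inl h.2⟩
    · rintro z (rfl | hz) hI
      · right; exact ⟨hI, Or.inr rfl⟩
      · rcases h2 z hz hI with h | h
        · left; exact h
        · right; exact ⟨fun e => h.1 (hxy.2 e), Or.inl h.2⟩
  obtain ⟨w', hw', hd⟩ := hc.resolve_left hxy
  have hW' := hW.trans (Walk.edge x w')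
  by_cases hx : In x
  · have hy : ¬ In y := fun e => hxy ⟨fun _ => e, fun _ => hx⟩
    refine ⟨_, Uo, {y}, _, co, dist w' y, w', hw', f1.cons h0 hW' hw hw', f2, Walk.edge w' y,
      by linarith, ?_, ?_⟩
    · rintro z (rfl | hz) hI
      · exact absurd hI hy
      · rcases h1 z hz hI with h | h
        · left; left; exact h
        · left; right; left; exact h.2
    · rintro z (rfl | hz) hI
      · right; exact ⟨hI, rfl⟩
      · rcases h2 z hz hI with h | h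
        · left; exact h
        · exact absurd hx h.1
  · have hy : In y := by
      by_contra e
      exact hxy ⟨fun e' => absurd e' hx, fun e' => absurd e' e⟩
    refine ⟨Ui, _, {y}, ci, _, dist w' y, w', hw', f1, f2.cons h0 hW' hw hw', Walk.edge w' y,
      by linarith, ?_, ?_⟩
    · rintro z (rfl | hz) hI
      · right; exact ⟨hI, rfl⟩
      · rcases h1 z hz hI with h | h
        · left; exact h
        · exact absurd h.1 hx
    · rintro z (rfl | hz) hI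
      · exact absurd hy hI
      · rcases h2 z hz hI with h | h
        · left; left; exact h
        · left; right; left; exact h.2

theorem karp_abstract {Bd : Set X} {θ : X → ℝ} {b D : ℝ}
    (hθ : ∀ w ∈ Bd, ∀ w' ∈ Bd, dist w w' ≤ |θ w - θ w'|) (h0 : ∀ w ∈ Bd, 0 ≤ θ w)
    (hb : ∀ w ∈ Bd, θ w ≤ b) (In : X → Prop) (S : Finset X) {z w0 : X} (hz : z ∈ S) (hzI : In z)
    (hw0 : w0 ∈ Bd) (hD : dist z w0 ≤ D)
    (hcross : ∀ x ∈ S, ∀ y ∈ S, In x → ¬ In y → ∃ w ∈ Bd, dist x w + dist w y ≤ dist x y)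
    {c : ℝ} (hc : Tour (S : Set X) c) :
    ∃ c1 c2, Tour {x | x ∈ S ∧ In x} c1 ∧ Tour (insert z {x | x ∈ S ∧ ¬ In x}) c2 ∧
      c1 + c2 ≤ c + 4 * D + 4 * b := by
  classical
  have hb0 : 0 ≤ b := (h0 w0 hw0).trans (hb w0 hw0)
  have hcr : ∀ x ∈ S, ∀ y ∈ S,
      (In x ↔ In y) ∨ ∃ w ∈ Bd, dist x w + dist w y ≤ dist x y := by
    intro x hx y hy
    by_cases a : In x <;> by_cases a' : In y
    · left; simp [a, a']
    · right; exact hcross x hx y hy a a'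
    · right
      obtain ⟨w, hw, h⟩ := hcross y hy x hx a' a
      exact ⟨w, hw, by rw [dist_comm x w, dist_comm w y, dist_comm x y]; linarith⟩
    · left; simp [a, a']
  obtain ⟨c0, τ, h1, h2⟩ := hc.walk (mem_coe.2 hz)
  have key : ∀ T : Finset X, T ⊆ S → ∃ x ∈ S, ∃ t, St Bd θ In T x (D + t) ∧
      (∀ y ∈ S, (∀ y' ∈ T, τ y' ≤ τ y) → dist x y ≤ τ y - t) ∧ dist x z ≤ c - t := by
    intro T
    induction T using Finset.induction_on_max_value τ with
    | empty =>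
      intro _
      refine ⟨z, hz, 0, ⟨∅, ∅, {z}, 0, 0, dist w0 z, w0, hw0, Fm.empty _ _, Fm.empty _ _,
        Walk.edge w0 z, by rw [dist_comm]; linarith, by simp, by simp⟩, fun y hy _ => ?_, ?_⟩
      · simpa using (h1 y hy).1
      · simpa using c0
    | insert a T ha hmax ih =>
      intro hT
      obtain ⟨x, hx, t, hS, k1, k2⟩ := ih ((subset_insert _ _).trans hT)
      have haS : a ∈ S := hT (mem_insert_self _ _)
      refine ⟨a, haS, τ a, ?_, fun y hy hy' => ?_, (h1 a haS).2⟩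
      · rw [coe_insert]
        exact hS.step h0 (by linarith [k1 a haS hmax]) (hcr x hx a haS)
      · have := h2 a haS y hy
        rwa [abs_of_nonpos (by linarith [hy' a (mem_insert_self _ _)]), neg_sub] at this
  obtain ⟨x, hx, t, hS, -, k2⟩ := key S subset_rfl
  obtain ⟨Ui, Uo, T, ci, co, c', w, hw, f1, f2, hW, hs, g1, g2⟩ :=
    hS.step h0 (t' := D + c) (by linarith) (hcr x hx z hz)
  obtain ⟨k1, f1⟩ := f1.cons h0 (hW.trans (Walk.edge z w0)) hw hw0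
  obtain ⟨k2, f2⟩ := f2.cons h0 ((Walk.edge w0 z).trans (Walk.edge z w0)) hw0 hw0
  refine ⟨_, _, (Fam.tour hθ hb _ _ _ _ hb0 f1).mono ?_ le_rfl,
    (Fam.tour hθ hb _ _ _ _ hb0 f2).mono ?_ le_rfl, ?_⟩
  · rintro y ⟨hy, hI⟩
    rcases g1 y (Or.inr hy) hI with h | h
    · left; exact h
    · right; left; exact h.2
  · rintro y (rfl | ⟨hy, hI⟩)
    · right; left; rfl
    · rcases g2 y (Or.inr hy) hI with h | h
      · left; exact h
      · exact absurd hzI h.1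
  · rw [dist_comm w0 z]; linarith

end General

section Plane

lemma dist_le_abs_add (x y : ℂ) : dist x y ≤ |x.re - y.re| + |x.im - y.im| := by
  rw [Complex.dist_eq]
  simpa using Complex.norm_le_abs_re_add_abs_im (x - y)

lemma abs_re_le_dist (x y : ℂ) : |x.re - y.re| ≤ dist x y := by
  rw [Complex.dist_eq]
  simpa using Complex.abs_re_le_norm (x - y)

lemma abs_im_le_dist (x y : ℂ) : |x.im - y.im| ≤ dist x y := by
  rw [Complex.dist_eq]
  simpa using Complex.abs_im_le_norm (x - y)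

lemma walk_hor (x0 x1 y : ℝ) (h : x0 ≤ x1) :
    Walk {w : ℂ | w.im = y ∧ x0 ≤ w.re ∧ w.re ≤ x1} ⟨x0, y⟩ ⟨x1, y⟩ (x1 - x0) := by
  refine ⟨?_, fun w => w.re - x0, ?_, ?_⟩
  · refine (dist_le_abs_add _ _).trans ?_
    simp [abs_of_nonpos (sub_nonpos.2 h)]
  · rintro w ⟨a1, a2, a3⟩
    constructor <;> refine (dist_le_abs_add _ _).trans ?_
    · simp [a1, abs_of_nonpos (sub_nonpos.2 a2)]
    · simp [a1, abs_of_nonpos (sub_nonpos.2 a3)]
  · rintro w ⟨a1, -, -⟩ w' ⟨b1, -, -⟩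
    refine (dist_le_abs_add _ _).trans ?_
    simp [a1, b1]

lemma walk_ver (y0 y1 x : ℝ) (h : y0 ≤ y1) :
    Walk {w : ℂ | w.re = x ∧ y0 ≤ w.im ∧ w.im ≤ y1} ⟨x, y0⟩ ⟨x, y1⟩ (y1 - y0) := by
  refine ⟨?_, fun w => w.im - y0, ?_, ?_⟩
  · refine (dist_le_abs_add _ _).trans ?_
    simp [abs_of_nonpos (sub_nonpos.2 h)]
  · rintro w ⟨a1, a2, a3⟩
    constructor <;> refine (dist_le_abs_add _ _).trans ?_
    · simp [a1, abs_of_nonpos (sub_nonpos.2 a2)]
    · simp [a1, abs_of_nonpos (sub_nonpos.2 a3)]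
  · rintro w ⟨a1, -, -⟩ w' ⟨b1, -, -⟩
    refine (dist_le_abs_add _ _).trans ?_
    simp [a1, b1]

/-- The half open square with lower left corner `(x0, y0)` and side `s`. -/
def InBox (x0 y0 s : ℝ) (w : ℂ) : Prop :=
  x0 ≤ w.re ∧ w.re < x0 + s ∧ y0 ≤ w.im ∧ w.im < y0 + s

lemma InBox.dist_le {x0 y0 s : ℝ} {w w' : ℂ} (h : InBox x0 y0 s w) (h' : InBox x0 y0 s w') :
    dist w w' ≤ 2 * s := by
  obtain ⟨a1, a2, a3, a4⟩ := h
  obtain ⟨b1, b2, b3, b4⟩ := h'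
  refine (dist_le_abs_add _ _).trans ?_
  have e1 : |w.re - w'.re| ≤ s := abs_le.2 ⟨by linarith, by linarith⟩
  have e2 : |w.im - w'.im| ≤ s := abs_le.2 ⟨by linarith, by linarith⟩
  linarith

lemma crossing {x0 y0 s : ℝ} {x y : ℂ} (hx : InBox x0 y0 s x) (hy : ¬ InBox x0 y0 s y) :
    ∃ w : ℂ, (x0 ≤ w.re ∧ w.re ≤ x0 + s ∧ y0 ≤ w.im ∧ w.im ≤ y0 + s) ∧
      (w.re = x0 ∨ w.re = x0 + s ∨ w.im = y0 ∨ w.im = y0 + s) ∧
      dist x w + dist w y ≤ dist x y := by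
  let φ : ℂ → ℝ := fun w => min (min (w.re - x0) (x0 + s - w.re)) (min (w.im - y0) (y0 + s - w.im))
  have hφ : Continuous φ := by fun_prop
  have hc : Continuous fun t : ℝ => φ (AffineMap.lineMap x y t) :=
    hφ.comp AffineMap.lineMap_continuous
  have h0 : 0 ≤ φ (AffineMap.lineMap x y (0 : ℝ)) := by
    obtain ⟨a1, a2, a3, a4⟩ := hx
    simp only [AffineMap.lineMap_apply_zero, φ, le_min_iff]
    exact ⟨⟨by linarith, by linarith⟩, by linarith, by linarith⟩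
  have h1 : φ (AffineMap.lineMap x y (1 : ℝ)) ≤ 0 := by
    simp only [AffineMap.lineMap_apply_one, φ, min_le_iff]
    by_contra hcon
    push Not at hcon
    exact hy ⟨by linarith [hcon.1.1], by linarith [hcon.1.2], by linarith [hcon.2.1],
      by linarith [hcon.2.2]⟩
  obtain ⟨t, ht, hφt⟩ := intermediate_value_Icc' (zero_le_one' ℝ) hc.continuousOn ⟨h1, h0⟩
  refine ⟨AffineMap.lineMap x y t, ?_, ?_, ?_⟩
  · have := hφt.ge
    simp only [φ, le_min_iff] at this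
    exact ⟨by linarith [this.1.1], by linarith [this.1.2], by linarith [this.2.1],
      by linarith [this.2.2]⟩
  · simp only [φ] at hφt
    rcases min_eq_iff.1 hφt with ⟨h, -⟩ | ⟨h, -⟩ <;> rcases min_eq_iff.1 h with ⟨h, -⟩ | ⟨h, -⟩
    · left; linarith
    · right; left; linarith
    · right; right; left; linarith
    · right; right; right; linarith
  · rw [dist_left_lineMap, dist_lineMap_right, Real.norm_of_nonneg ht.1,
      Real.norm_of_nonneg (by linarith [ht.2])]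
    linarith

theorem karp {x0 y0 s : ℝ} (P Q : Finset ℂ) (hP : ∀ w ∈ P, InBox x0 y0 s w)
    (hQ : ∀ w ∈ Q, ¬ InBox x0 y0 s w) {z : ℂ} (hz : z ∈ P) :
    |L (P ∪ Q) - L P - L (insert z Q)| ≤ 24 * s := by
  have hs : 0 ≤ s := by
    obtain ⟨a1, a2, -, -⟩ := hP z hz
    linarith
  have hup : L (P ∪ Q) ≤ L P + L (insert z Q) :=
    (L_mono (union_subset_union_right (subset_insert _ _))).trans
      (L_union_le hz (mem_insert_self _ _))
  obtain ⟨-, θ, t1, t2⟩ := (((walk_hor x0 (x0 + s) y0 (by linarith)).trans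
    (walk_ver y0 (y0 + s) (x0 + s) (by linarith))).trans
    (walk_hor x0 (x0 + s) (y0 + s) (by linarith)).symm).trans
    (walk_ver y0 (y0 + s) x0 (by linarith)).symm
  have hlow : L P + L (insert z Q) - 24 * s ≤ L (P ∪ Q) := le_L fun c hc => by
    obtain ⟨c1, c2, k1, k2, k3⟩ := karp_abstract (b := 4 * s) (D := 2 * s) t2
      (fun w hw => dist_nonneg.trans (t1 w hw).1)
      (fun w hw => by linarith [(t1 w hw).2, dist_nonneg (x := w) (y := (⟨x0, y0⟩ : ℂ))])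
      (InBox x0 y0 s) (P ∪ Q) (mem_union_left _ hz) (hP z hz) (w0 := ⟨x0, y0⟩)
      (Or.inr ⟨rfl, le_rfl, by simpa using hs⟩)
      ((hP z hz).dist_le (by
        obtain ⟨a1, a2, -, -⟩ := hP z hz
        exact ⟨le_rfl, by simp; linarith, le_rfl, by simp; linarith⟩))
      (fun x _ y _ hx hy => by
        obtain ⟨w, ⟨a1, a2, a3, a4⟩, hw, hd⟩ := crossing hx hy
        refine ⟨w, ?_, hd⟩
        rcases hw with h | h | h | h
        · exact Or.inr ⟨h, a3, a4⟩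
        · exact Or.inl (Or.inl (Or.inr ⟨h, a3, a4⟩))
        · exact Or.inl (Or.inl (Or.inl ⟨h, a1, a2⟩))
        · exact Or.inl (Or.inr ⟨h, a1, a2⟩)) hc
    have e1 : L P ≤ c1 := L_le (k1.mono (fun w hw => ⟨mem_union_left _ hw, hP w hw⟩) le_rfl)
    have e2 : L (insert z Q) ≤ c2 := L_le (k2.mono (by
      rw [coe_insert]
      exact Set.insert_subset_insert fun w hw => ⟨mem_union_right _ hw, hQ w hw⟩) le_rfl)
    linarith
  exact abs_le.2 ⟨by linarith, by linarith⟩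

end Plane

end Pool.Agent.TSP72
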