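import Pool.Agent.Lib.MP_72f242_pr.DePois

/-! From uniform points in the unit square to uniform cells. -/

set_option autoImplicit false

namespace Pool.Agent.TSP72

open Finset MeasureTheory

/-- The uniform law on the unit square. -/
noncomputable abbrev mu1 : Measure (Fin 2 → ℝ) :=
  (volume : Measure (Fin 2 → ℝ)).restrict (Set.Icc (0 : Fin 2 → ℝ) 1)

instance : IsProbabilityMeasure mu1 := ⟨by simp [mu1, Real.volume_Icc_pi]⟩

/-- The length of a shortest closed tour through `n` labelled points. -/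
noncomputable def Ln {n : ℕ} (x : Fin n → Fin 2 → ℝ) : ℝ :=
  ⨅ σ : Equiv.Perm (Fin n), ∑ i : Fin n,
    Real.sqrt ((x (σ i) 0 - x (σ (finRotate n i)) 0) ^ 2
      + (x (σ i) 1 - x (σ (finRotate n i)) 1) ^ 2)

lemma measurable_Ln (n : ℕ) : Measurable (Ln (n := n)) := by
  unfold Ln
  refine Measurable.iInf fun σ => ?_
  fun_prop

/-- A point of the plane as a complex number. -/
def toC (y : Fin 2 → ℝ) : ℂ := ⟨y 0, y 1⟩

lemma Ln_eq {n : ℕ} (hn : 1 ≤ n) (x : Fin n → Fin 2 → ℝ) :
    Ln x = L (univ.image fun k => toC (x k)) := by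
  obtain ⟨m, rfl⟩ : ∃ m, n = m + 1 := ⟨n - 1, by omega⟩
  rw [← L_eq_iInf]
  simp only [Ln, Complex.dist_eq_re_im, toC]

/-- The cell that contains a point. -/
noncomputable def rd {K : ℕ} (hK : 0 < K) (y : Fin 2 → ℝ) : Cell K :=
  fun a => ⟨min ⌊K * y a⌋₊ (K - 1), by omega⟩

lemma measurable_rd {K : ℕ} (hK : 0 < K) : Measurable (rd hK) := by
  refine measurable_pi_lambda _ fun a => ?_
  have h1 : Measurable fun k : ℕ => (⟨min k (K - 1), by omega⟩ : Fin K) := measurable_from_nat
  exact h1.comp (Nat.measurable_floor.comp (by fun_prop))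

lemma dist_rd {K : ℕ} (hK : 0 < K) {y : Fin 2 → ℝ} (hy : y ∈ Set.Icc (0 : Fin 2 → ℝ) 1) :
    dist (toC y) (pt (rd hK y)) ≤ 2 / K := by
  have hK0 : (0 : ℝ) < K := by exact_mod_cast hK
  have key : ∀ a, |y a - ((rd hK y a : ℕ) : ℝ) / K| ≤ 1 / K := by
    intro a
    have h0 : 0 ≤ y a := hy.1 a
    have h1 : y a ≤ 1 := hy.2 a
    have e : y a - ((rd hK y a : ℕ) : ℝ) / K = (K * y a - (rd hK y a : ℕ)) / K := by field_simp
    rw [e, abs_div, abs_of_pos hK0]
    gcongr
    have a1 := Nat.floor_le (mul_nonneg hK0.le h0)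
    have a2 := Nat.lt_floor_add_one (K * y a)
    have a3 : K * y a ≤ K := mul_le_of_le_one_right hK0.le h1
    simp only [rd]
    rcases le_total ⌊K * y a⌋₊ (K - 1) with h | h
    · rw [min_eq_left h]
      exact abs_le.2 ⟨by linarith, by linarith⟩
    · rw [min_eq_right h]
      have a4 : ((K - 1 : ℕ) : ℝ) ≤ ⌊K * y a⌋₊ := by exact_mod_cast h
      have a5 : ((K - 1 : ℕ) : ℝ) = K - 1 := by rw [Nat.cast_sub hK]; simp
      exact abs_le.2 ⟨by linarith, by linarith⟩
  refine (dist_le_abs_add _ _).trans ?_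
  have e : (2 : ℝ) / K = 1 / K + 1 / K := by ring
  rw [e]
  exact add_le_add (key 0) (key 1)

lemma abs_L_sub_le {n : ℕ} (x y : Fin n → ℂ) {d : ℝ} (h : ∀ k, dist (x k) (y k) ≤ d) :
    |L (univ.image x) - L (univ.image y)| ≤ 2 * (n * d) := by
  have h1 := L_union_image_le (univ.image x) univ y (fun _ => d) fun k _ =>
    ⟨x k, mem_image_of_mem _ (mem_univ k), by rw [dist_comm]; exact h k⟩
  have h2 := L_union_image_le (univ.image y) univ x (fun _ => d) fun k _ =>
    ⟨y k, mem_image_of_mem _ (mem_univ k), h k⟩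
  have h3 := L_mono (subset_union_right (s₁ := univ.image x) (s₂ := univ.image y))
  have h4 := L_mono (subset_union_right (s₁ := univ.image y) (s₂ := univ.image x))
  simp only [sum_const, card_univ, Fintype.card_fin, nsmul_eq_mul] at h1 h2
  exact abs_le.2 ⟨by linarith, by linarith⟩

lemma integral_rd {K : ℕ} (hK : 0 < K) (U : PW (Cell K))
    (hU : ∀ b, U.μ b = 1 / Fintype.card (Cell K)) (n : ℕ) (φ : (Fin n → Cell K) → ℂ) :
    ∫ x, φ (fun k => rd hK (x k)) ∂(Measure.pi fun _ : Fin n => mu1) = U.Ex φ := by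
  have hK0 : (0 : ℝ) < K := by exact_mod_cast hK
  set μ := Measure.pi fun _ : Fin n => mu1
  let r : (Fin n → Fin 2 → ℝ) → Fin n → Cell K := fun x k => rd hK (x k)
  have hr : Measurable r :=
    measurable_pi_lambda _ fun k => (measurable_rd hK).comp (measurable_pi_apply k)
  have : IsProbabilityMeasure (μ.map r) := Measure.isProbabilityMeasure_map hr.aemeasurable
  have hlow : ∀ c, U.W c ≤ (μ.map r).real {c} := by
    intro c
    rw [map_measureReal_apply hr (measurableSet_singleton c)]
    let box : Fin n → Set (Fin 2 → ℝ) := fun k => Set.pi Set.univ fun a =>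
      Set.Ico (((c k a : ℕ) : ℝ) / K) ((((c k a : ℕ) : ℝ) + 1) / K)
    have hsub : Set.pi Set.univ box ⊆ r ⁻¹' {c} := by
      intro x hx
      rw [Set.mem_preimage, Set.mem_singleton_iff]
      funext k a
      obtain ⟨h1, h2⟩ := hx k trivial a trivial
      rw [div_le_iff₀' hK0] at h1
      rw [lt_div_iff₀' hK0] at h2
      have : ⌊K * x k a⌋₊ = c k a := (Nat.floor_eq_iff ((Nat.cast_nonneg _).trans h1)).2 ⟨h1, h2⟩
      have h3 := (c k a).2
      apply Fin.ext
      simp only [r, rd, this]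
      omega
    refine le_trans (le_of_eq ?_) (measureReal_mono hsub)
    have hb : ∀ k, mu1 (box k) = ENNReal.ofReal (1 / K) ^ 2 := by
      intro k
      have : box k ⊆ Set.Icc 0 1 := by
        intro y hy
        refine ⟨fun a => le_trans (by positivity) (hy a trivial).1,
          fun a => (hy a trivial).2.le.trans ?_⟩
        rw [Pi.one_apply, div_le_one hK0]
        exact_mod_cast (c k a).2
      rw [Measure.restrict_eq_self _ this, Real.volume_pi_Ico]
      simp [← sub_div]
    rw [Measure.real, Measure.pi_pi]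
    simp only [hb, PW.W, hU]
    simp
  have hsum : ∑ c : Fin n → Cell K, U.W c = ∑ c, (μ.map r).real {c} := by
    rw [U.sum_W, sum_measureReal_singleton]
    simp
  have heq := (sum_eq_sum_iff_of_le fun c _ => hlow c).1 hsum
  have := integral_map (μ := μ) hr.aemeasurable (f := φ) AEStronglyMeasurable.of_discrete
  rw [← this, integral_fintype Integrable.of_finite]
  exact sum_congr rfl fun c _ => by rw [heq c (mem_univ c)]

lemma link {K : ℕ} (hK : 0 < K) (U : PW (Cell K))
    (hU : ∀ b, U.μ b = 1 / Fintype.card (Cell K)) {n : ℕ} (hn : 1 ≤ n) (x k : ℝ) :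
    ‖∫ y, ce (x * Ln y + k) ∂(Measure.pi fun _ : Fin n => mu1) -
      iid U n (fun S => ce (x * Lc S + k))‖ ≤ |x| * (4 * n / K) := by
  have hce : Continuous ce := by unfold ce; fun_prop
  have hint : ∀ f : (Fin n → Fin 2 → ℝ) → ℝ, Measurable f →
      Integrable (fun y => ce (f y)) (Measure.pi fun _ : Fin n => mu1) := fun f hf =>
    Integrable.of_bound (hce.measurable.comp hf).aestronglyMeasurable 1
      (Filter.Eventually.of_forall fun y => (norm_ce _).le)
  have hr : Measurable fun (y : Fin n → Fin 2 → ℝ) k => rd hK (y k) :=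
    measurable_pi_lambda _ fun k => (measurable_rd hK).comp (measurable_pi_apply k)
  rw [iid, ← integral_rd hK U hU, ← integral_sub
    (hint _ (((measurable_Ln n).const_mul x).add_const k))
    (hint (fun y => x * Lc (univ.image fun j => rd hK (y j)) + k)
      ((Measurable.of_discrete (f := fun c : Fin n → Cell K =>
      x * Lc (univ.image c) + k)).comp hr))]
  have hae : ∀ᵐ y ∂(Measure.pi fun _ : Fin n => mu1), ∀ j, y j ∈ Set.Icc (0 : Fin 2 → ℝ) 1 :=
    ae_all_iff.2 fun j => (measurePreserving_eval (fun _ : Fin n => mu1) j).quasiMeasurePreserving.ae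
      (ae_restrict_mem measurableSet_Icc)
  refine (norm_integral_le_of_norm_le_const (C := |x| * (4 * n / K)) ?_).trans (by simp)
  filter_upwards [hae] with y hy
  refine (norm_ce_sub_le _ _).trans ?_
  rw [add_sub_add_right_eq_sub, ← mul_sub, abs_mul, Ln_eq hn, Lc, image_image]
  gcongr
  refine (abs_L_sub_le _ _ fun j => dist_rd hK (hy j)).trans (le_of_eq ?_)
  ring

end Pool.Agent.TSP72
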