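import Mathlib

/-! Finite product probability spaces, averaging operators and inequalities of Efron and Stein. -/

set_option autoImplicit false

namespace Pool.Agent.TSP72

open Finset

/-- Probability weights on a finite type. -/
structure PW (β : Type) [Fintype β] where
  μ : β → ℝ
  nonneg : ∀ b, 0 ≤ μ b
  sum_one : ∑ b, μ b = 1

variable {ι β : Type} [Fintype ι] [DecidableEq ι] [Fintype β]

/-- `f` does not depend on the coordinates in `S`. -/
def Ind {A : Type*} (S : Finset ι) (f : (ι → β) → A) : Prop :=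
  ∀ η ω, f (S.piecewise η ω) = f ω

omit [Fintype ι] [Fintype β] in
lemma Ind.mono {A : Type*} {S T : Finset ι} {f : (ι → β) → A} (h : Ind T f) (hS : S ⊆ T) :
    Ind S f := by
  intro η ω
  have : S.piecewise η ω = T.piecewise (S.piecewise η ω) ω := by
    funext i
    by_cases a : i ∈ S
    · simp [piecewise, a, hS a]
    · by_cases b : i ∈ T <;> simp [piecewise, a, b]
  rw [this, h]

omit [Fintype ι] [Fintype β] in
lemma Ind.comp {A A' : Type*} {S : Finset ι} {f : (ι → β) → A} (h : Ind S f) (φ : A → A') :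
    Ind S fun ω => φ (f ω) := fun η ω => by simp only [h η ω]

omit [Fintype ι] [Fintype β] in
lemma Ind.comp₂ {A A' A'' : Type*} {S : Finset ι} {f : (ι → β) → A} {g : (ι → β) → A'}
    (h : Ind S f) (h' : Ind S g) (φ : A → A' → A'') :
    Ind S fun ω => φ (f ω) (g ω) := fun η ω => by simp only [h η ω, h' η ω]

omit [Fintype ι] [Fintype β] in
lemma Ind.sub {S : Finset ι} {f g : (ι → β) → ℝ} (h : Ind S f) (h' : Ind S g) :
    Ind S (f - g) := h.comp₂ h' fun a b => a - b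

omit [Fintype ι] [Fintype β] in
lemma Ind.sum {κ : Type*} {S : Finset ι} {s : Finset κ} {f : κ → (ι → β) → ℝ}
    (h : ∀ k ∈ s, Ind S (f k)) : Ind S (∑ k ∈ s, f k) := fun η ω => by
  simp only [Finset.sum_apply]
  exact sum_congr rfl fun k hk => h k hk η ω

namespace PW

variable (P : PW β)

/-- The product weight. -/
def W (ω : ι → β) : ℝ := ∏ i, P.μ (ω i)

omit [DecidableEq ι] in
lemma W_nonneg (ω : ι → β) : 0 ≤ P.W ω := prod_nonneg fun _ _ => P.nonneg _

lemma sum_W : ∑ ω : ι → β, P.W ω = 1 := by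
  have := prod_univ_sum (fun _ : ι => (univ : Finset β)) (fun _ b => P.μ b)
  simp only [P.sum_one, prod_const_one, Fintype.piFinset_univ] at this
  exact this.symm

section Mod

variable {A : Type*} [AddCommGroup A] [Module ℝ A]

/-- Expectation. -/
def Ex (f : (ι → β) → A) : A := ∑ ω, P.W ω • f ω

/-- Averaging over the coordinates in `S`. -/
def E (S : Finset ι) (f : (ι → β) → A) : (ι → β) → A :=
  fun ω => P.Ex fun η => f (S.piecewise η ω)

lemma Ex_const (a : A) : P.Ex (fun _ : ι → β => a) = a := by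
  simp [Ex, ← sum_smul, sum_W]

lemma Ex_add (f g : (ι → β) → A) : P.Ex (fun ω => f ω + g ω) = P.Ex f + P.Ex g := by
  simp [Ex, sum_add_distrib]

lemma Ex_sub (f g : (ι → β) → A) : P.Ex (fun ω => f ω - g ω) = P.Ex f - P.Ex g := by
  simp [Ex, smul_sub, sum_sub_distrib]

lemma Ex_sum {κ : Type*} (s : Finset κ) (f : κ → (ι → β) → A) :
    P.Ex (fun ω => ∑ k ∈ s, f k ω) = ∑ k ∈ s, P.Ex (f k) := by
  simp only [Ex, smul_sum]
  exact sum_comm

lemma Ex_swap (S : Finset ι) (F : (ι → β) → (ι → β) → A) :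
    P.Ex (fun ω => P.Ex fun η => F ω η) =
      P.Ex (fun ω => P.Ex fun η => F (S.piecewise η ω) (S.piecewise ω η)) := by
  simp only [Ex, smul_sum, smul_smul]
  rw [← Fintype.sum_prod_type', ← Fintype.sum_prod_type']
  let σ : (ι → β) × (ι → β) → (ι → β) × (ι → β) :=
    fun q => (S.piecewise q.2 q.1, S.piecewise q.1 q.2)
  have hσ : Function.Involutive σ := by
    rintro ⟨a, b⟩
    ext i <;> by_cases h : i ∈ S <;> simp [σ, piecewise, h]
  refine (Fintype.sum_bijective σ hσ.bijective _ _ fun q => ?_).symm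
  congr 1
  simp only [W, ← prod_mul_distrib, σ]
  refine prod_congr rfl fun i _ => ?_
  by_cases h : i ∈ S <;> simp [piecewise, h, mul_comm]

lemma Ex_E (S : Finset ι) (f : (ι → β) → A) : P.Ex (P.E S f) = P.Ex f := by
  have := P.Ex_swap S (fun ω _ => f ω)
  simp only [Ex_const] at this
  exact this.symm

lemma E_E (S T : Finset ι) (f : (ι → β) → A) : P.E S (P.E T f) = P.E (S ∪ T) f := by
  funext ω
  have := P.Ex_E T (fun η => f ((S ∪ T).piecewise η ω))
  rw [E, E, ← this]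
  congr 1
  funext η
  simp only [E]
  congr 1
  funext ξ
  congr 1
  funext i
  by_cases a : i ∈ S <;> by_cases b : i ∈ T <;> simp [piecewise, a, b]

lemma E_comm (S T : Finset ι) (f : (ι → β) → A) : P.E S (P.E T f) = P.E T (P.E S f) := by
  rw [E_E, E_E, union_comm]

lemma E_of_ind {S : Finset ι} {f : (ι → β) → A} (h : Ind S f) : P.E S f = f := by
  funext ω
  simp only [E, h _ ω, Ex_const]

lemma ind_E_self (S : Finset ι) (f : (ι → β) → A) : Ind S (P.E S f) := by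
  intro η ω
  simp only [E]
  congr 1
  funext ξ
  congr 1
  funext i
  by_cases a : i ∈ S <;> simp [piecewise, a]

lemma ind_E_of_subset {S T : Finset ι} (h : S ⊆ T) (f : (ι → β) → A) : Ind S (P.E T f) :=
  (P.ind_E_self T f).mono h

lemma ind_E {S : Finset ι} {f : (ι → β) → A} (h : Ind S f) (T : Finset ι) :
    Ind S (P.E T f) := by
  rw [← P.E_of_ind h, E_comm]
  exact P.ind_E_self _ _

lemma E_univ (f : (ι → β) → A) : P.E univ f = fun _ => P.Ex f := by
  funext ω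
  simp [E]

lemma E_empty (f : (ι → β) → A) : P.E ∅ f = f := by
  funext ω
  simp [E, Ex_const]

lemma E_add (S : Finset ι) (f g : (ι → β) → A) : P.E S (f + g) = P.E S f + P.E S g := by
  funext ω
  exact P.Ex_add _ _

lemma E_sub (S : Finset ι) (f g : (ι → β) → A) : P.E S (f - g) = P.E S f - P.E S g := by
  funext ω
  exact P.Ex_sub _ _

lemma E_sum {κ : Type*} (S : Finset ι) (s : Finset κ) (f : κ → (ι → β) → A) :
    P.E S (∑ k ∈ s, f k) = ∑ k ∈ s, P.E S (f k) := by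
  funext ω
  simp only [E, Finset.sum_apply]
  exact P.Ex_sum _ _

lemma E_of_dep {B : Finset ι} {f : (ι → β) → A} (h : Ind Bᶜ f) : P.E B f = fun _ => P.Ex f := by
  rw [← P.E_univ, ← union_compl B, ← E_E, P.E_of_ind h]

end Mod

section Alg

variable {A : Type*} [CommRing A] [Algebra ℝ A]

lemma Ex_const_mul (c : A) (f : (ι → β) → A) : P.Ex (fun ω => c * f ω) = c * P.Ex f := by
  simp [Ex, mul_sum]

lemma Ex_mul_const (c : A) (f : (ι → β) → A) : P.Ex (fun ω => f ω * c) = P.Ex f * c := by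
  simp [Ex, sum_mul]

lemma E_mul {S : Finset ι} {f : (ι → β) → A} (h : Ind S f) (g : (ι → β) → A) :
    P.E S (fun ω => f ω * g ω) = fun ω => f ω * P.E S g ω := by
  funext ω
  simp only [E, h _ ω, Ex_const_mul]

lemma Ex_mul_indep {B : Finset ι} {f g : (ι → β) → A} (hf : Ind Bᶜ f) (hg : Ind B g) :
    P.Ex (fun ω => f ω * g ω) = P.Ex f * P.Ex g := by
  have e : (fun ω => f ω * g ω) = fun ω => g ω * f ω := by funext ω; ring
  rw [e, ← P.Ex_E B, P.E_mul hg, P.E_of_dep hf, Ex_mul_const, mul_comm]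

lemma Ex_prod_indep {κ : Type*} (s : Finset κ) (B : κ → Finset ι)
    (hB : (s : Set κ).PairwiseDisjoint B) (f : κ → (ι → β) → A)
    (hf : ∀ k ∈ s, Ind (B k)ᶜ (f k)) :
    P.Ex (fun ω => ∏ k ∈ s, f k ω) = ∏ k ∈ s, P.Ex (f k) := by
  classical
  induction s using Finset.induction_on with
  | empty => simp [Ex_const]
  | insert k s hk ih =>
    simp only [prod_insert hk]
    rw [P.Ex_mul_indep (hf k (mem_insert_self _ _)), ih (hB.subset (by simp))
      fun j hj => hf j (mem_insert_of_mem hj)]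
    intro η ω
    refine prod_congr rfl fun j hj => ?_
    refine (hf j (mem_insert_of_mem hj)).mono ?_ η ω
    have := hB (mem_coe.2 (mem_insert_self k s)) (mem_coe.2 (mem_insert_of_mem hj))
      (fun e => hk (e ▸ hj))
    exact subset_compl_iff_disjoint_right.2 this

lemma Ex_prod_coord (φ : ι → β → A) :
    P.Ex (fun ω => ∏ i, φ i (ω i)) = ∏ i, ∑ b, P.μ b • φ i b := by
  rw [prod_univ_sum, Fintype.piFinset_univ]
  refine sum_congr rfl fun ω _ => ?_
  simp only [W, Algebra.smul_def, prod_mul_distrib, map_prod]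

end Alg

lemma norm_Ex_le {A : Type*} [NormedAddCommGroup A] [NormedSpace ℝ A] (f : (ι → β) → A) :
    ‖P.Ex f‖ ≤ P.Ex fun ω => ‖f ω‖ := by
  refine (norm_sum_le _ _).trans (le_of_eq (sum_congr rfl fun ω _ => ?_))
  rw [norm_smul, Real.norm_of_nonneg (P.W_nonneg ω), smul_eq_mul]

lemma Ex_ofReal (f : (ι → β) → ℝ) : P.Ex (fun ω => (f ω : ℂ)) = (P.Ex f : ℝ) := by
  simp [Ex]

lemma Ex_mono {f g : (ι → β) → ℝ} (h : ∀ ω, f ω ≤ g ω) : P.Ex f ≤ P.Ex g :=
  sum_le_sum fun ω _ => smul_le_smul_of_nonneg_left (h ω) (P.W_nonneg ω)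

lemma Ex_nonneg {f : (ι → β) → ℝ} (h : ∀ ω, 0 ≤ f ω) : 0 ≤ P.Ex f := by
  simpa [Ex_const] using P.Ex_mono (f := fun _ => 0) h

lemma Ex_le_const {f : (ι → β) → ℝ} {c : ℝ} (h : ∀ ω, f ω ≤ c) : P.Ex f ≤ c := by
  simpa [Ex_const] using P.Ex_mono (g := fun _ => c) h

lemma norm_Ex_le_const {A : Type*} [NormedAddCommGroup A] [NormedSpace ℝ A] {f : (ι → β) → A}
    {c : ℝ} (h : ∀ ω, ‖f ω‖ ≤ c) : ‖P.Ex f‖ ≤ c :=
  (P.norm_Ex_le f).trans (P.Ex_le_const h)

lemma abs_E_le {S : Finset ι} {f : (ι → β) → ℝ} {c : ℝ} (h : ∀ ω, |f ω| ≤ c) (ω : ι → β) :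
    |P.E S f ω| ≤ c :=
  P.norm_Ex_le_const (A := ℝ) fun _ => h _

lemma Ex_cs (f g : (ι → β) → ℝ) :
    (P.Ex fun ω => f ω * g ω) ^ 2 ≤ (P.Ex fun ω => f ω ^ 2) * P.Ex fun ω => g ω ^ 2 := by
  refine sum_sq_le_sum_mul_sum_of_sq_le_mul _ (fun ω _ => ?_) (fun ω _ => ?_) (fun ω _ => le_of_eq ?_)
  · exact smul_nonneg (P.W_nonneg ω) (sq_nonneg _)
  · exact smul_nonneg (P.W_nonneg ω) (sq_nonneg _)
  · simp only [smul_eq_mul]; ring

lemma Ex_sq_le (f : (ι → β) → ℝ) : (P.Ex f) ^ 2 ≤ P.Ex fun ω => f ω ^ 2 := by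
  simpa [Ex_const] using P.Ex_cs f (fun _ => 1)

lemma Ex_four_le (f : (ι → β) → ℝ) : (P.Ex f) ^ 4 ≤ P.Ex fun ω => f ω ^ 4 := by
  have h1 := P.Ex_sq_le f
  have h2 := P.Ex_sq_le (fun ω => f ω ^ 2)
  have e : (fun ω => (f ω ^ 2) ^ 2) = fun ω => f ω ^ 4 := by funext ω; ring
  rw [e] at h2
  calc (P.Ex f) ^ 4 = ((P.Ex f) ^ 2) ^ 2 := by ring
    _ ≤ (P.Ex fun ω => f ω ^ 2) ^ 2 := pow_le_pow_left₀ (sq_nonneg _) h1 2
    _ ≤ _ := h2

/-- Second moment. -/
def N (f : (ι → β) → ℝ) : ℝ := P.Ex fun ω => f ω ^ 2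

/-- Fourth moment. -/
def Q (f : (ι → β) → ℝ) : ℝ := P.Ex fun ω => f ω ^ 4

lemma N_nonneg (f : (ι → β) → ℝ) : 0 ≤ P.N f := P.Ex_nonneg fun _ => sq_nonneg _

lemma Q_nonneg (f : (ι → β) → ℝ) : 0 ≤ P.Q f := P.Ex_nonneg fun _ => by positivity

lemma N_sq_le_Q (f : (ι → β) → ℝ) : P.N f ^ 2 ≤ P.Q f := by
  have h2 := P.Ex_sq_le (fun ω => f ω ^ 2)
  have e : (fun ω => (f ω ^ 2) ^ 2) = fun ω => f ω ^ 4 := by funext ω; ring
  rwa [e] at h2

lemma N_le_of_Q {f : (ι → β) → ℝ} {a : ℝ} (ha : 0 ≤ a) (h : P.Q f ≤ a ^ 2) : P.N f ≤ a :=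
  (pow_le_pow_iff_left₀ (P.N_nonneg f) ha two_ne_zero).1 ((P.N_sq_le_Q f).trans h)

lemma N_E_le (S : Finset ι) (f : (ι → β) → ℝ) : P.N (P.E S f) ≤ P.N f := by
  rw [N, N, ← P.Ex_E S (fun ω => f ω ^ 2)]
  exact P.Ex_mono fun ω => P.Ex_sq_le _

lemma Q_E_le (S : Finset ι) (f : (ι → β) → ℝ) : P.Q (P.E S f) ≤ P.Q f := by
  rw [Q, Q, ← P.Ex_E S (fun ω => f ω ^ 4)]
  exact P.Ex_mono fun ω => P.Ex_four_le _

lemma Ex_orth {S : Finset ι} {x d : (ι → β) → ℝ} (hx : Ind S x) (hd : P.E S d = 0) :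
    P.Ex (fun ω => x ω * d ω) = 0 := by
  rw [← P.Ex_E S, P.E_mul hx, hd]
  simp [Ex_const]

lemma N_add_orth {S : Finset ι} {x d : (ι → β) → ℝ} (hx : Ind S x) (hd : P.E S d = 0) :
    P.N (x + d) = P.N x + P.N d := by
  have e : (fun ω => (x + d) ω ^ 2) = fun ω => x ω ^ 2 + d ω ^ 2 + 2 * (x ω * d ω) := by
    funext ω; simp only [Pi.add_apply]; ring
  rw [N, e, Ex_add, Ex_add, Ex_const_mul, P.Ex_orth hx hd]
  simp [N]

lemma E_sub_E (S : Finset ι) (f : (ι → β) → ℝ) : P.E S (f - P.E S f) = 0 := by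
  rw [E_sub, E_E, union_self, sub_self]

lemma N_pyth (S : Finset ι) (f : (ι → β) → ℝ) :
    P.N f = P.N (P.E S f) + P.N (f - P.E S f) := by
  rw [← P.N_add_orth (P.ind_E_self S f) (P.E_sub_E S f)]
  simp

lemma Q_add_le {S : Finset ι} {x d : (ι → β) → ℝ} (hx : Ind S x) (hd : P.E S d = 0) {a b : ℝ}
    (ha : 0 ≤ a) (hb : 0 ≤ b) (h1 : P.Q x ≤ a ^ 2) (h2 : P.Q d ≤ b ^ 2) :
    P.Q (x + d) ≤ (a + 4 * b) ^ 2 := by
  have e1 : P.Q (x + d) ≤ P.Ex fun ω =>
      x ω ^ 4 + 4 * (x ω ^ 3 * d ω) + 8 * (x ω ^ 2 * d ω ^ 2) + 3 * d ω ^ 4 := by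
    refine P.Ex_mono fun ω => ?_
    simp only [Pi.add_apply]
    nlinarith [sq_nonneg (d ω * (x ω - d ω))]
  rw [Ex_add, Ex_add, Ex_add, Ex_const_mul, Ex_const_mul, Ex_const_mul,
    P.Ex_orth (hx.comp fun t => t ^ 3) hd] at e1
  have e2 := P.Ex_cs (fun ω => x ω ^ 2) (fun ω => d ω ^ 2)
  have e3 : (fun ω => (x ω ^ 2) ^ 2) = fun ω => x ω ^ 4 := by funext ω; ring
  have e4 : (fun ω => (d ω ^ 2) ^ 2) = fun ω => d ω ^ 4 := by funext ω; ring
  rw [e3, e4] at e2
  have e5 : (P.Ex fun ω => x ω ^ 2 * d ω ^ 2) ≤ a * b := by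
    refine (pow_le_pow_iff_left₀ (P.Ex_nonneg fun ω => by positivity) (mul_nonneg ha hb)
      two_ne_zero).1 (e2.trans ?_)
    rw [mul_pow]
    exact mul_le_mul h1 h2 (P.Q_nonneg d) (sq_nonneg _)
  unfold Q at h1 h2
  nlinarith [sq_nonneg b]

section Blocks

variable {κ : Type*} [DecidableEq κ]

/-- The inequality of Efron and Stein. -/
lemma N_ES (s : Finset κ) (B : κ → Finset ι) (f : (ι → β) → ℝ) :
    P.N (f - P.E (s.biUnion B) f) ≤ ∑ k ∈ s, P.N (f - P.E (B k) f) := by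
  induction s using Finset.induction_on generalizing f with
  | empty => simp [E_empty, N, Ex_const]
  | insert k s hk ih =>
    have e : f - P.E ((insert k s).biUnion B) f =
        (P.E (B k) f - P.E (s.biUnion B) (P.E (B k) f)) + (f - P.E (B k) f) := by
      rw [E_E, biUnion_insert, union_comm]; ring
    rw [e, P.N_add_orth ((P.ind_E_self _ _).sub (P.ind_E (P.ind_E_self _ _) _)) (P.E_sub_E _ _),
      sum_insert hk, add_comm]
    gcongr
    refine (ih _).trans (sum_le_sum fun j _ => ?_)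
    rw [P.E_comm, ← E_sub]
    exact P.N_E_le _ _

/-- The fourth moment version. -/
lemma Q_ES (s : Finset κ) (B : κ → Finset ι) (f : (ι → β) → ℝ) {b : ℝ} (hb : 0 ≤ b)
    (h : ∀ k ∈ s, P.Q (f - P.E (B k) f) ≤ b ^ 2) :
    P.Q (f - P.E (s.biUnion B) f) ≤ (4 * s.card * b) ^ 2 := by
  induction s using Finset.induction_on generalizing f with
  | empty => simp [E_empty, Q, Ex_const]
  | insert k s hk ih =>
    have e : f - P.E ((insert k s).biUnion B) f =
        (P.E (B k) f - P.E (s.biUnion B) (P.E (B k) f)) + (f - P.E (B k) f) := by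
      rw [E_E, biUnion_insert, union_comm]; ring
    rw [e]
    refine (P.Q_add_le ((P.ind_E_self _ _).sub (P.ind_E (P.ind_E_self _ _) _)) (P.E_sub_E _ _)
      (by positivity) hb (ih _ fun j hj => ?_) (h k (mem_insert_self _ _))).trans (le_of_eq ?_)
    · rw [P.E_comm, ← E_sub]
      exact (P.Q_E_le _ _).trans (h j (mem_insert_of_mem hj))
    · rw [card_insert_of_notMem hk]; push_cast; ring

/-- The part of `f` that depends on the block `B` alone, inside the region `U`. -/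
def Y (U B : Finset ι) (f : (ι → β) → ℝ) : (ι → β) → ℝ := P.E (U \ B) f - P.E U f

/-- The part of `f` of order at least two in the blocks. -/
def H (s : Finset κ) (B : κ → Finset ι) (f : (ι → β) → ℝ) : (ι → β) → ℝ :=
  f - P.E (s.biUnion B) f - ∑ k ∈ s, P.Y (s.biUnion B) (B k) f

lemma H_insert {s : Finset κ} {k : κ} (hk : k ∉ s) {B : κ → Finset ι}
    (hB : ((insert k s : Finset κ) : Set κ).PairwiseDisjoint B) (f : (ι → β) → ℝ) :
    P.Y ((insert k s).biUnion B) (B k) f = P.E (s.biUnion B) (f - P.E (B k) f) ∧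
    (∀ j ∈ s, P.Y ((insert k s).biUnion B) (B j) f = P.Y (s.biUnion B) (B j) (P.E (B k) f)) ∧
    P.N (P.H (insert k s) B f) = P.N (P.H s B (P.E (B k) f)) +
      P.N ((f - P.E (B k) f) - P.E (s.biUnion B) (f - P.E (B k) f)) := by
  have hd : ∀ j ∈ s, Disjoint (B k) (B j) := fun j hj =>
    hB (mem_coe.2 (mem_insert_self k s)) (mem_coe.2 (mem_insert_of_mem hj)) (fun e => hk (e ▸ hj))
  have e1 : P.Y ((insert k s).biUnion B) (B k) f = P.E (s.biUnion B) (f - P.E (B k) f) := by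
    have : (insert k s).biUnion B \ B k = s.biUnion B := by
      rw [biUnion_insert, union_sdiff_cancel_left ((disjoint_biUnion_right _ _ _).2 hd)]
    rw [Y, this, E_sub, E_E, biUnion_insert, union_comm]
  have e2 : ∀ j ∈ s, P.Y ((insert k s).biUnion B) (B j) f =
      P.Y (s.biUnion B) (B j) (P.E (B k) f) := by
    intro j hj
    have : (insert k s).biUnion B \ B j = (s.biUnion B \ B j) ∪ B k := by
      rw [biUnion_insert, union_sdiff_distrib, (hd j hj).sdiff_eq_left, union_comm]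
    rw [Y, Y, this, E_E, E_E, biUnion_insert, union_comm (B k)]
  refine ⟨e1, e2, ?_⟩
  have e3 : P.H (insert k s) B f = P.H s B (P.E (B k) f) +
      ((f - P.E (B k) f) - P.E (s.biUnion B) (f - P.E (B k) f)) := by
    rw [H, H, sum_insert hk, e1, sum_congr rfl e2, E_E, biUnion_insert, union_comm (B k)]
    ring
  rw [e3, P.N_add_orth (S := B k)]
  · have h0 := P.ind_E_self (B k) f
    exact (h0.sub (P.ind_E h0 _)).sub
      (Ind.sum fun j _ => (P.ind_E h0 _).sub (P.ind_E h0 _))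
  · rw [E_sub, P.E_comm, E_sub_E]
    funext ω
    simp [E, Ex_const]

lemma N_H_eq (s : Finset κ) (B : κ → Finset ι) (hB : (s : Set κ).PairwiseDisjoint B)
    (f : (ι → β) → ℝ) :
    P.N (P.H s B f) = P.N (f - P.E (s.biUnion B) f) - ∑ k ∈ s, P.N (P.Y (s.biUnion B) (B k) f) := by
  induction s using Finset.induction_on generalizing f with
  | empty => simp [H]
  | insert k s hk ih =>
    obtain ⟨e1, e2, e3⟩ := P.H_insert hk hB f
    have e : f - P.E ((insert k s).biUnion B) f =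
        (P.E (B k) f - P.E (s.biUnion B) (P.E (B k) f)) + (f - P.E (B k) f) := by
      rw [E_E, biUnion_insert, union_comm]; ring
    rw [e3, ih (hB.subset (by simp)), sum_insert hk, e1, e,
      P.N_add_orth ((P.ind_E_self _ _).sub (P.ind_E (P.ind_E_self _ _) _)) (P.E_sub_E _ _),
      sum_congr rfl fun j hj => congrArg P.N (e2 j hj),
      P.N_pyth (s.biUnion B) (f - P.E (B k) f)]
    ring

lemma N_H_le (s : Finset κ) (B : κ → Finset ι) (hB : (s : Set κ).PairwiseDisjoint B)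
    (f : (ι → β) → ℝ) :
    P.N (P.H s B f) ≤ ∑ k ∈ s, P.N (f - P.E (B k) f) - P.N (f - P.E (s.biUnion B) f) := by
  induction s using Finset.induction_on generalizing f with
  | empty => simp [H, E_empty, N, Ex_const]
  | insert k s hk ih =>
    obtain ⟨-, -, e3⟩ := P.H_insert hk hB f
    have e : f - P.E ((insert k s).biUnion B) f =
        (P.E (B k) f - P.E (s.biUnion B) (P.E (B k) f)) + (f - P.E (B k) f) := by
      rw [E_E, biUnion_insert, union_comm]; ring
    rw [e3, sum_insert hk, e,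
      P.N_add_orth ((P.ind_E_self _ _).sub (P.ind_E (P.ind_E_self _ _) _)) (P.E_sub_E _ _)]
    have h1 := ih (hB.subset (by simp)) (P.E (B k) f)
    have h2 := P.N_ES s B (f - P.E (B k) f)
    have h3 : ∑ j ∈ s, P.N (f - P.E (B j) f) =
        ∑ j ∈ s, P.N (P.E (B k) f - P.E (B j) (P.E (B k) f)) +
        ∑ j ∈ s, P.N (f - P.E (B k) f - P.E (B j) (f - P.E (B k) f)) := by
      rw [← sum_add_distrib]
      refine sum_congr rfl fun j _ => ?_
      rw [P.N_pyth (B k) (f - P.E (B j) f), E_sub, E_sub, P.E_comm (B k) (B j)]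
      congr 2
      ring
    linarith

end Blocks

end PW

end Pool.Agent.TSP72
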