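import Mathlib

/-! Tours of finite sets in a metric space, described by arc length parametrisations. -/

set_option autoImplicit false

namespace Pool.Agent.TSP72

open Finset

section General

variable {X : Type*} [PseudoMetricSpace X]

/-- There is a walk from `u` to `v` of length at most `c` that visits every point of `S`. -/
def Walk (S : Set X) (u v : X) (c : ℝ) : Prop :=
  dist u v ≤ c ∧ ∃ τ : X → ℝ, (∀ x ∈ S, dist u x ≤ τ x ∧ dist x v ≤ c - τ x) ∧
    ∀ x ∈ S, ∀ y ∈ S, dist x y ≤ |τ x - τ y|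

/-- There is a closed tour of length at most `c` that visits every point of `S`. -/
def Tour (S : Set X) (c : ℝ) : Prop :=
  0 ≤ c ∧ ∃ τ : X → ℝ, ∀ x ∈ S, ∀ y ∈ S, dist x y ≤ |τ x - τ y| ∧ dist x y ≤ c - |τ x - τ y|

lemma Walk.mono {S T : Set X} {u v : X} {c d : ℝ} (h : Walk S u v c) (hT : T ⊆ S)
    (hc : c ≤ d) : Walk T u v d := by
  obtain ⟨h0, τ, h1, h2⟩ := h
  refine ⟨h0.trans hc, τ, fun x hx => ⟨(h1 x (hT hx)).1, ?_⟩, fun x hx y hy => h2 x (hT hx) y (hT hy)⟩
  linarith [(h1 x (hT hx)).2]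

lemma Walk.symm {S : Set X} {u v : X} {c : ℝ} (h : Walk S u v c) : Walk S v u c := by
  obtain ⟨h0, τ, h1, h2⟩ := h
  refine ⟨by rwa [dist_comm], fun x => c - τ x, fun x hx => ⟨?_, ?_⟩, fun x hx y hy => ?_⟩
  · rw [dist_comm]; exact (h1 x hx).2
  · rw [dist_comm]; linarith [(h1 x hx).1]
  · have : c - τ x - (c - τ y) = -(τ x - τ y) := by ring
    rw [this, abs_neg]; exact h2 x hx y hy

lemma Walk.edge (u v : X) : Walk {v} u v (dist u v) := by
  refine ⟨le_rfl, fun _ => dist u v, fun x hx => ?_, fun x hx y hy => ?_⟩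
  · rw [Set.mem_singleton_iff.1 hx]; simp
  · rw [Set.mem_singleton_iff.1 hx, Set.mem_singleton_iff.1 hy]; simp

lemma Walk.trans {S T : Set X} {u v w : X} {c d : ℝ} (h : Walk S u v c) (h' : Walk T v w d) :
    Walk (S ∪ T) u w (c + d) := by
  classical
  obtain ⟨h0, τ, h1, h2⟩ := h
  obtain ⟨k0, ρ, k1, k2⟩ := h'
  have cross : ∀ x ∈ S, ∀ y ∈ T, dist x y ≤ |τ x - (c + ρ y)| := by
    intro x hx y hy
    have := dist_triangle x v y
    have h3 := neg_le_abs (τ x - (c + ρ y))
    linarith [(h1 x hx).2, (k1 y hy).1]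
  refine ⟨by linarith [dist_triangle u v w], fun x => if x ∈ S then τ x else c + ρ x,
    fun x hx => ?_, fun x hx y hy => ?_⟩
  · by_cases hS : x ∈ S
    · simp only [hS, if_true]
      exact ⟨(h1 x hS).1, by linarith [dist_triangle x v w, (h1 x hS).2]⟩
    · have hT : x ∈ T := hx.resolve_left hS
      simp only [hS, if_false]
      exact ⟨by linarith [dist_triangle u v x, (k1 x hT).1], by linarith [(k1 x hT).2]⟩
  · by_cases hS : x ∈ S <;> by_cases hS' : y ∈ S <;> simp only [hS, hS', if_true, if_false]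
    · exact h2 x hS y hS'
    · exact cross x hS y (hy.resolve_left hS')
    · rw [dist_comm, abs_sub_comm]; exact cross y hS' x (hx.resolve_left hS)
    · have : c + ρ x - (c + ρ y) = ρ x - ρ y := by ring
      rw [this]; exact k2 x (hx.resolve_left hS) y (hy.resolve_left hS')

lemma Walk.tour {S : Set X} {u : X} {c : ℝ} (h : Walk S u u c) : Tour S c := by
  obtain ⟨h0, τ, h1, h2⟩ := h
  refine ⟨by simpa using h0, τ, fun x hx y hy => ⟨h2 x hx y hy, ?_⟩⟩
  have a1 := dist_triangle x u y
  have a2 := dist_triangle y u x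
  rw [dist_comm y x] at a2
  rcases abs_cases (τ x - τ y) with ⟨h, _⟩ | ⟨h, _⟩ <;> rw [h]
  · linarith [(h1 x hx).2, (h1 y hy).1]
  · linarith [(h1 y hy).2, (h1 x hx).1]

lemma Tour.walk {S : Set X} {c : ℝ} (h : Tour S c) {p : X} (hp : p ∈ S) : Walk S p p c := by
  obtain ⟨h0, τ, h1⟩ := h
  have cross : ∀ x ∈ S, ∀ y ∈ S, τ p ≤ τ x → ¬ τ p ≤ τ y →
      dist x y ≤ |τ x - τ p - (c + τ y - τ p)| := by
    intro x hx y hy a b
    have h2 := (h1 x hx y hy).2
    rw [abs_of_nonneg (by linarith)] at h2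
    have h3 := neg_le_abs (τ x - τ p - (c + τ y - τ p))
    linarith
  refine ⟨by simpa using h0, fun x => if τ p ≤ τ x then τ x - τ p else c + τ x - τ p,
    fun x hx => ?_, fun x hx y hy => ?_⟩
  · have h2 := h1 x hx p hp
    by_cases a : τ p ≤ τ x
    · simp only [a, if_true]
      rw [abs_of_nonneg (by linarith)] at h2
      exact ⟨by rw [dist_comm]; exact h2.1, h2.2⟩
    · simp only [a, if_false]
      rw [abs_of_nonpos (by linarith)] at h2
      exact ⟨by rw [dist_comm]; linarith [h2.2], by linarith [h2.1]⟩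
  · by_cases a : τ p ≤ τ x <;> by_cases b : τ p ≤ τ y <;> simp only [a, b, if_true, if_false]
    · have : τ x - τ p - (τ y - τ p) = τ x - τ y := by ring
      rw [this]; exact (h1 x hx y hy).1
    · exact cross x hx y hy a b
    · rw [dist_comm, abs_sub_comm]; exact cross y hy x hx b a
    · have : c + τ x - τ p - (c + τ y - τ p) = τ x - τ y := by ring
      rw [this]; exact (h1 x hx y hy).1

lemma Tour.mono {S T : Set X} {c d : ℝ} (h : Tour S c) (hT : T ⊆ S) (hc : c ≤ d) :
    Tour T d := by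
  obtain ⟨h0, τ, h1⟩ := h
  refine ⟨h0.trans hc, τ, fun x hx y hy => ⟨(h1 x (hT hx) y (hT hy)).1, ?_⟩⟩
  linarith [(h1 x (hT hx) y (hT hy)).2]

lemma Tour.single (z : X) : Tour {z} 0 := by
  simpa using (Walk.edge z z).tour

lemma Tour.union {S T : Set X} {c d : ℝ} (h : Tour S c) (h' : Tour T d) {z : X} (hS : z ∈ S)
    (hT : z ∈ T) : Tour (S ∪ T) (c + d) :=
  ((h.walk hS).trans (h'.walk hT)).tour

lemma Tour.insert {S : Set X} {c : ℝ} (h : Tour S c) {p : X} (hp : p ∈ S) (z : X) :
    Tour (insert z S) (c + 2 * dist z p) := by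
  refine (((h.walk hp).trans (Walk.edge p z)).trans (Walk.edge z p)).tour.mono ?_ ?_
  · intro x hx
    rcases hx with rfl | hx
    · simp
    · simp [hx]
  · rw [dist_comm p z]; linarith

lemma exists_tour (S : Finset X) : ∃ c, Tour (S : Set X) c := by
  classical
  induction S using Finset.induction_on with
  | empty => exact ⟨0, le_rfl, fun _ => 0, by simp⟩
  | insert z S _ ih =>
    obtain ⟨c, hc⟩ := ih
    rcases S.eq_empty_or_nonempty with rfl | ⟨p, hp⟩
    · exact ⟨0, by simpa using Tour.single z⟩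
    · exact ⟨_, by rw [coe_insert]; exact hc.insert (mem_coe.2 hp) z⟩

/-- The length of a shortest closed tour through a finite set. -/
noncomputable def L (S : Finset X) : ℝ := sInf {c | Tour (S : Set X) c}

lemma L_le {S : Finset X} {c : ℝ} (h : Tour (S : Set X) c) : L S ≤ c :=
  csInf_le ⟨0, fun _ hd => hd.1⟩ h

lemma le_L {S : Finset X} {a : ℝ} (h : ∀ c, Tour (S : Set X) c → a ≤ c) : a ≤ L S :=
  le_csInf (exists_tour S) h

lemma L_nonneg (S : Finset X) : 0 ≤ L S := le_L fun _ h => h.1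

lemma L_mono {S T : Finset X} (h : S ⊆ T) : L S ≤ L T :=
  le_L fun _ hc => L_le (hc.mono (coe_subset.2 h) le_rfl)

lemma L_singleton (z : X) : L {z} = 0 :=
  le_antisymm (L_le (by simpa using Tour.single z)) (L_nonneg _)

variable [DecidableEq X]

lemma L_insert_le {S : Finset X} {p : X} (hp : p ∈ S) (z : X) :
    L (insert z S) ≤ L S + 2 * dist z p := by
  have : L (insert z S) - 2 * dist z p ≤ L S := le_L fun c hc => by
    have := L_le (S := insert z S) (by rw [coe_insert]; exact hc.insert (mem_coe.2 hp) z)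
    linarith
  linarith

lemma L_union_le {S T : Finset X} {z : X} (hS : z ∈ S) (hT : z ∈ T) :
    L (S ∪ T) ≤ L S + L T := by
  have : L (S ∪ T) - L T ≤ L S := le_L fun c hc => by
    have : L (S ∪ T) - c ≤ L T := le_L fun d hd => by
      have := L_le (S := S ∪ T) (by rw [coe_union]; exact hc.union hd (mem_coe.2 hS) (mem_coe.2 hT))
      linarith
    linarith
  linarith

lemma L_union_image_le {κ : Type*} (S : Finset X) (s : Finset κ) (φ : κ → X) (d : κ → ℝ)
    (h : ∀ k ∈ s, ∃ p ∈ S, dist (φ k) p ≤ d k) :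
    L (S ∪ s.image φ) ≤ L S + 2 * ∑ k ∈ s, d k := by
  classical
  induction s using Finset.induction_on with
  | empty => simp
  | insert k s hk ih =>
    obtain ⟨p, hp, hd⟩ := h k (mem_insert_self _ _)
    rw [image_insert, union_insert, sum_insert hk]
    have h1 := L_insert_le (S := S ∪ s.image φ) (mem_union_left _ hp) (φ k)
    have h2 := ih fun k' hk' => h k' (mem_insert_of_mem hk')
    linarith

omit [DecidableEq X] in
lemma L_ge_of_sep (S : Finset X) (hS : S.Nonempty) {δ : ℝ}
    (h : ∀ x ∈ S, ∀ y ∈ S, x ≠ y → δ ≤ dist x y) : ((S.card : ℝ) - 1) * δ ≤ L S := by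
  classical
  refine le_L fun c hc => ?_
  obtain ⟨h0, τ, h1⟩ := hc
  have key : ∀ T : Finset X, T ⊆ S → T.Nonempty →
      ∃ x ∈ T, ∃ y ∈ T, ((T.card : ℝ) - 1) * δ ≤ τ x - τ y := by
    intro T
    induction T using Finset.induction_on_max_value τ with
    | empty => intro _ h; simp at h
    | insert a T ha hmax ih =>
      intro hT _
      rcases T.eq_empty_or_nonempty with rfl | hne
      · exact ⟨a, by simp, a, by simp, by simp⟩
      · obtain ⟨x, hx, y, hy, hxy⟩ := ih ((subset_insert _ _).trans hT) hne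
        have haS : a ∈ S := hT (mem_insert_self _ _)
        have hxS : x ∈ S := hT (mem_insert_of_mem hx)
        have h2 := h a haS x hxS (fun e => ha (e ▸ hx))
        have h3 := (h1 a haS x hxS).1
        rw [abs_of_nonneg (by linarith [hmax x hx])] at h3
        refine ⟨a, mem_insert_self _ _, y, mem_insert_of_mem hy, ?_⟩
        rw [card_insert_of_notMem ha]
        push_cast
        linarith
  obtain ⟨x, hx, y, hy, hxy⟩ := key S subset_rfl hS
  have h2 := (h1 x hx y hy).2
  linarith [le_abs_self (τ x - τ y), dist_nonneg (x := x) (y := y)]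

omit [DecidableEq X] in
lemma walk_range (n : ℕ) (x : Fin (n + 1) → X) :
    Walk (Set.range x) (x 0) (x (Fin.last n)) (∑ i : Fin n, dist (x i.castSucc) (x i.succ)) := by
  induction n with
  | zero =>
    have := Walk.edge (x 0) (x 0)
    refine this.mono ?_ (by simp)
    rintro _ ⟨i, rfl⟩
    have : i = 0 := Fin.fin_one_eq_zero i
    simp [this]
  | succ n ih =>
    have h := (ih (fun i => x i.castSucc)).trans
      (Walk.edge (x (Fin.last n).castSucc) (x (Fin.last (n + 1))))
    refine h.mono ?_ ?_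
    · rintro _ ⟨i, rfl⟩
      induction i using Fin.lastCases with
      | last => right; rfl
      | cast i => left; exact ⟨i, rfl⟩
    · rw [Fin.sum_univ_castSucc]
      simp

omit [DecidableEq X] in
lemma sum_rotate (n : ℕ) (x : Fin (n + 1) → X) :
    ∑ i, dist (x i) (x (finRotate (n + 1) i)) =
      ∑ i : Fin n, dist (x i.castSucc) (x i.succ) + dist (x (Fin.last n)) (x 0) := by
  rw [Fin.sum_univ_castSucc]
  simp

lemma L_eq_iInf (n : ℕ) (x : Fin (n + 1) → X) :
    (⨅ σ : Equiv.Perm (Fin (n + 1)), ∑ i, dist (x (σ i)) (x (σ (finRotate (n + 1) i)))) =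
      L (univ.image x) := by
  apply le_antisymm
  · refine le_L fun c hc => ?_
    obtain ⟨h0, τ, h1⟩ := hc
    refine ciInf_le_of_le (Set.finite_range _).bddBelow (Tuple.sort (τ ∘ x)) ?_
    set σ := Tuple.sort (τ ∘ x)
    have hm : Monotone ((τ ∘ x) ∘ σ) := Tuple.monotone_sort _
    have hmem : ∀ i, x i ∈ ((univ.image x : Finset X) : Set X) := fun i => by simp
    rw [sum_rotate n (fun i => x (σ i))]
    have e1 : ∑ i : Fin n, dist (x (σ i.castSucc)) (x (σ i.succ)) ≤
        ∑ i : Fin n, (τ (x (σ i.succ)) - τ (x (σ i.castSucc))) := by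
      refine sum_le_sum fun i _ => ?_
      have h2 := (h1 _ (hmem (σ i.castSucc)) _ (hmem (σ i.succ))).1
      have h3 : τ (x (σ i.castSucc)) ≤ τ (x (σ i.succ)) := hm (Fin.castSucc_lt_succ (i := i)).le
      rw [abs_of_nonpos (by linarith)] at h2
      linarith
    have e2 := Fin.sum_univ_castSucc (fun i => τ (x (σ i)))
    have e3 := Fin.sum_univ_succ (fun i => τ (x (σ i)))
    rw [sum_sub_distrib] at e1
    have e4 := (h1 _ (hmem (σ (Fin.last n))) _ (hmem (σ 0))).2
    linarith [le_abs_self (τ (x (σ (Fin.last n))) - τ (x (σ 0)))]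
  · refine le_ciInf fun σ => L_le ?_
    rw [sum_rotate n (fun i => x (σ i))]
    refine ((walk_range n (fun i => x (σ i))).trans (Walk.edge _ _)).tour.mono ?_ le_rfl
    intro y hy
    simp only [coe_image, coe_univ, Set.image_univ] at hy
    obtain ⟨i, rfl⟩ := hy
    left
    exact ⟨σ.symm i, by simp⟩

end General

end Pool.Agent.TSP72
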