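import Pool.Agent.Lib.MP_72f242_pr.GridCLT

/-! The lower bound for the variance of the tour length given the number of points. -/

set_option autoImplicit false

namespace Pool.Agent.TSP72

open Finset

lemma Ex_pattern {ι : Type} [Fintype ι] [DecidableEq ι] (P : PW Bool) {B S : Finset ι}
    (hS : S ⊆ B) : P.μ true ^ S.card * (1 - P.μ true) ^ B.card ≤
      P.Ex (fun ω : ι → Bool => if on ω ∩ B = S then (1 : ℝ) else 0) := by
  have e : (fun ω : ι → Bool => if on ω ∩ B = S then (1 : ℝ) else 0) =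
      fun ω => ∏ i, (if i ∈ B ∧ ¬ (ω i = true ↔ i ∈ S) then (0 : ℝ) else 1) := by
    funext ω
    split_ifs with h
    · refine (prod_eq_one fun i _ => if_neg fun hi => hi.2 ?_).symm
      rw [← h]
      simp [on, hi.1]
    · symm
      by_contra hc
      refine h (Finset.ext fun i => ?_)
      have := prod_ne_zero_iff.1 hc i (mem_univ i)
      by_cases hi : i ∈ B
      · simp only [hi, true_and, ne_eq, ite_eq_left_iff, not_not, one_ne_zero, imp_false] at this
        simp [on, hi, this]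
      · have : i ∉ S := fun h => hi (hS h)
        simp [hi, this]
  rw [e, P.Ex_prod_coord (fun i b => if i ∈ B ∧ ¬ (b = true ↔ i ∈ S) then (0 : ℝ) else 1)]
  have h1 := P.nonneg true
  have h2 := P.mu_le_one
  have e1 : P.μ true ^ S.card = ∏ i, if i ∈ S then P.μ true else 1 := by
    rw [prod_ite_mem, univ_inter, prod_const]
  have e2 : (1 - P.μ true) ^ B.card = ∏ i, if i ∈ B then 1 - P.μ true else 1 := by
    rw [prod_ite_mem, univ_inter, prod_const]
  rw [e1, e2, ← prod_mul_distrib]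
  refine prod_le_prod (fun i _ => ?_) fun i _ => ?_
  · split_ifs <;> nlinarith
  · by_cases a : i ∈ S
    · simp [a, hS a]
      nlinarith
    · by_cases b : i ∈ B <;> simp [a, b, P.mu_false]

lemma N_ge_patterns {ι : Type} [Fintype ι] [DecidableEq ι] (P : PW Bool) (B : Finset ι)
    (T : Finset (Finset ι)) (k : ℕ) (hT : ∀ S ∈ T, S ⊆ B ∧ S.card = k) (Yv : Finset ι → ℝ)
    {γ : ℝ} (hγ : 0 ≤ γ) (h : ∀ S ∈ T, γ ≤ |Yv S|) :
    T.card * (P.μ true ^ k * (1 - P.μ true) ^ B.card) * γ ^ 2 ≤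
      P.N fun ω => Yv (on ω ∩ B) := by
  calc _ ≤ ∑ S ∈ T, P.Ex (fun ω : ι → Bool => if on ω ∩ B = S then (1 : ℝ) else 0) * γ ^ 2 := by
        rw [← sum_mul, ← nsmul_eq_mul, ← sum_const]
        gcongr with S hS
        rw [← (hT S hS).2]
        exact Ex_pattern P (hT S hS).1
    _ = P.Ex fun ω => ∑ S ∈ T, (if on ω ∩ B = S then (1 : ℝ) else 0) * γ ^ 2 := by
        rw [P.Ex_sum]
        simp only [P.Ex_mul_const]
    _ ≤ _ := by
        refine P.Ex_mono fun ω => ?_
        simp only [ite_mul, one_mul, zero_mul, sum_ite_eq]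
        split_ifs with hm
        · rw [← sq_abs (Yv _)]
          exact pow_le_pow_left₀ hγ (h _ hm) 2
        · positivity

lemma ulab_eq_lab {K R g : ℕ} (hK : K = R * g) (hR : 1 ≤ R) (c : Cell K) :
    ulab g c = lab R c := by
  funext a
  simp only [ulab, lab]
  generalize (c a : ℕ) = w
  rw [hK, mul_comm R g, Nat.mul_div_mul_right _ _ hR]

lemma karp_gap {K R g : ℕ} (hK : K = R * g) (hR : 1 ≤ R) (hg : 1 ≤ g) {u : Fin 2 → ℕ}
    {S S' T : Finset (Cell K)} (hS : ∀ c ∈ S, ulab g c = u) (hS' : ∀ c ∈ S', ulab g c = u)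
    (hT : ∀ c ∈ T, ulab g c ≠ u) (hne : S.Nonempty) (hne' : S'.Nonempty) :
    Lc S - Lc S' - 52 / R ≤ Lc (S ∪ T) - Lc (S' ∪ T) := by
  obtain ⟨z, hz⟩ := hne
  obtain ⟨z', hz'⟩ := hne'
  have key : ∀ A : Finset (Cell K), (∀ c ∈ A, ulab g c = u) → ∀ w ∈ A,
      |Lc (A ∪ T) - Lc A - L (insert (pt w) (T.image pt))| ≤ 24 * (1 / R) := by
    intro A hA w hw
    rw [Lc, Lc, image_union]
    refine karp (x0 := u 0 / R) (y0 := u 1 / R) _ _ ?_ ?_ (mem_image_of_mem _ hw)
    · intro v hv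
      obtain ⟨c, hc, rfl⟩ := mem_image.1 hv
      rw [inBox_iff hR, ← ulab_eq_lab hK hR]
      exact hA c hc
    · intro v hv
      obtain ⟨c, hc, rfl⟩ := mem_image.1 hv
      rw [inBox_iff hR, ← ulab_eq_lab hK hR]
      exact hT c hc
  have h1 := abs_le.1 (key S hS z hz)
  have h2 := abs_le.1 (key S' hS' z' hz')
  have h3 := L_insert_le (S := insert (pt z) (T.image pt)) (mem_insert_self _ _) (pt z')
  have h4 : L (insert (pt z') (T.image pt)) ≤ L (insert (pt z') (insert (pt z) (T.image pt))) :=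
    L_mono (insert_subset_insert _ (subset_insert _ _))
  have h5 := dist_unit hK hg ((hS' z' hz').trans (hS z hz).symm)
  have e1 : (52 : ℝ) / R = 52 * (1 / R) := by ring
  have e2 : (2 : ℝ) / R = 2 * (1 / R) := by ring
  linarith [h1.1, h2.2]

/-- A cell in a sub box of a unit box. -/
def cq {K : ℕ} (hK : 0 < K) (g q : ℕ) (u : Fin 2 → ℕ) {r h : ℕ} (i : Fin 2 → Fin r)
    (x : Fin 2 → Fin h) : Cell K :=
  fun a => ⟨(u a * g + (i a * (q * h) + x a)) % K, Nat.mod_lt _ hK⟩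

/-- The patterns with one point in each sub box. -/
def pat {K : ℕ} (hK : 0 < K) (g q : ℕ) (u : Fin 2 → ℕ) (r h : ℕ) : Finset (Finset (Cell K)) :=
  univ.image fun x : (Fin 2 → Fin r) → Fin 2 → Fin h => univ.image fun i => cq hK g q u i (x i)

section Pat

variable {K R g q r h : ℕ} (hK0 : 0 < K) (hK : K = R * g) {u : Fin 2 → ℕ} (hu : ∀ a, u a < R)
  (hq : 1 ≤ q) (hg : r * (q * h) ≤ g)

omit hK0 hK hu in
include hq hg in
lemma off_lt (i : Fin r) (x : Fin h) : i * (q * h) + x < g := by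
  have h1 : (x : ℕ) < q * h := x.2.trans_le (Nat.le_mul_of_pos_left _ hq)
  have h2 : (i + 1) * (q * h) ≤ r * (q * h) := Nat.mul_le_mul_right _ i.2
  rw [add_mul] at h2
  omega

include hK hu hq hg

lemma cq_val (i : Fin 2 → Fin r) (x : Fin 2 → Fin h) (a : Fin 2) :
    (cq hK0 g q u i x a : ℕ) = u a * g + (i a * (q * h) + x a) := by
  refine Nat.mod_eq_of_lt ?_
  have h1 := off_lt hq hg (i a) (x a)
  have h2 : (u a + 1) * g ≤ R * g := Nat.mul_le_mul_right _ (hu a)
  rw [add_mul] at h2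
  omega

lemma ulab_cq (i : Fin 2 → Fin r) (x : Fin 2 → Fin h) : ulab g (cq hK0 g q u i x) = u := by
  funext a
  have h1 := off_lt hq hg (i a) (x a)
  rw [ulab, cq_val hK0 hK hu hq hg]
  exact Nat.div_eq_of_lt_le (by omega) (by rw [add_mul]; omega)

lemma cq_inj {i i' : Fin 2 → Fin r} {x x' : Fin 2 → Fin h}
    (e : cq hK0 g q u i x = cq hK0 g q u i' x') : i = i' ∧ x = x' := by
  have key : ∀ a, i a = i' a ∧ x a = x' a := by
    intro a
    have h1 := congrArg (fun c : Cell K => (c a : ℕ)) e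
    simp only [cq_val hK0 hK hu hq hg] at h1
    have h2 : (x a : ℕ) < q * h := (x a).2.trans_le (Nat.le_mul_of_pos_left _ hq)
    have h3 : (x' a : ℕ) < q * h := (x' a).2.trans_le (Nat.le_mul_of_pos_left _ hq)
    have h4 : (i a : ℕ) = i' a := by
      have a1 : (i a * (q * h) + x a) / (q * h) = i a :=
        Nat.div_eq_of_lt_le (by omega) (by rw [add_mul]; omega)
      have a2 : (i' a * (q * h) + x' a) / (q * h) = i' a :=
        Nat.div_eq_of_lt_le (by omega) (by rw [add_mul]; omega)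
      rw [← a1, ← a2]
      congr 1
      omega
    rw [h4] at h1
    exact ⟨Fin.ext h4, Fin.ext (by omega)⟩
  exact ⟨funext fun a => (key a).1, funext fun a => (key a).2⟩

lemma card_pat : (pat hK0 g q u r h).card = (h ^ 2) ^ (r ^ 2) := by
  rw [pat, card_image_of_injective]
  · simp
  · intro x x' e
    funext i
    have : cq hK0 g q u i (x i) ∈ univ.image fun i => cq hK0 g q u i (x' i) := by
      simp only at e
      rw [← e]
      exact mem_image_of_mem (fun i => cq hK0 g q u i (x i)) (mem_univ i)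
    obtain ⟨i', -, h⟩ := mem_image.1 this
    obtain ⟨rfl, h2⟩ := cq_inj hK0 hK hu hq hg h
    exact h2.symm

lemma mem_pat {S : Finset (Cell K)} (hS : S ∈ pat hK0 g q u r h) :
    S ⊆ blk (ulab g) u ∧ S.card = r ^ 2 := by
  obtain ⟨x, -, rfl⟩ := mem_image.1 hS
  constructor
  · intro c hc
    obtain ⟨i, -, rfl⟩ := mem_image.1 hc
    exact mem_filter.2 ⟨mem_univ _, ulab_cq hK0 hK hu hq hg _ _⟩
  · rw [card_image_of_injective]
    · simp
    · exact fun i i' e => (cq_inj hK0 hK hu hq hg e).1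

lemma Lc_pat_ge (hr : 1 ≤ r) {S : Finset (Cell K)} (hS : S ∈ pat hK0 g q u r h) :
    ((r : ℝ) ^ 2 - 1) * ((q - 1) * h / K) ≤ Lc S := by
  have hc := (mem_pat hK0 hK hu hq hg hS).2
  obtain ⟨x, -, rfl⟩ := mem_image.1 hS
  have hK1 : (0 : ℝ) < K := by exact_mod_cast hK0
  have hinj : Function.Injective (pt (K := K)) := by
    intro c c' e
    funext a
    have := le_dist_pt c c' a
    rw [e, dist_self, div_le_iff₀ hK1, zero_mul, abs_nonpos_iff, sub_eq_zero] at this
    exact Fin.ext (by exact_mod_cast this)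
  have := L_ge_of_sep ((univ.image fun i => cq hK0 g q u i (x i)).image pt)
    (δ := (q - 1) * h / K) ⟨_, mem_image_of_mem _ (mem_image_of_mem _ (mem_univ fun _ => ⟨0, hr⟩))⟩
    (by
      intro v hv w hw hvw
      obtain ⟨c, hc, rfl⟩ := mem_image.1 hv
      obtain ⟨c', hc', rfl⟩ := mem_image.1 hw
      obtain ⟨i, -, rfl⟩ := mem_image.1 hc
      obtain ⟨i', -, rfl⟩ := mem_image.1 hc'
      have hi : i ≠ i' := fun e => hvw (by rw [e])
      obtain ⟨a, ha⟩ := Function.ne_iff.1 hi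
      refine le_trans ?_ (le_dist_pt _ _ a)
      gcongr
      rw [cq_val hK0 hK hu hq hg, cq_val hK0 hK hu hq hg]
      push_cast
      have b1 : ((x i a : ℕ) : ℝ) ≤ h := by exact_mod_cast (x i a).2.le
      have b2 : ((x i' a : ℕ) : ℝ) ≤ h := by exact_mod_cast (x i' a).2.le
      have b3 : (0 : ℝ) ≤ (x i a : ℕ) := Nat.cast_nonneg _
      have b4 : (0 : ℝ) ≤ (x i' a : ℕ) := Nat.cast_nonneg _
      have b5 : (0 : ℝ) ≤ q * h := by positivity
      rcases lt_or_gt_of_ne (Fin.val_ne_of_ne ha) with h | h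
      · have : ((i a : ℕ) : ℝ) + 1 ≤ (i' a : ℕ) := by exact_mod_cast h
        refine le_trans ?_ (neg_le_abs _)
        nlinarith
      · have : ((i' a : ℕ) : ℝ) + 1 ≤ (i a : ℕ) := by exact_mod_cast h
        refine le_trans ?_ (le_abs_self _)
        nlinarith)
  rw [card_image_of_injective _ hinj, hc] at this
  push_cast at this
  exact this

lemma Lc_pat_le (hr : 1 ≤ r) {S : Finset (Cell K)} (hS : S ∈ pat hK0 g q u r h) :
    Lc S ≤ 4 * (r : ℝ) ^ 2 * (r * (q * h) / K) := by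
  obtain ⟨x, -, rfl⟩ := mem_image.1 hS
  let i0 : Fin 2 → Fin r := fun _ => ⟨0, hr⟩
  have := L_union_image_le {pt (cq hK0 g q u i0 (x i0))} univ
    (fun i => pt (cq hK0 g q u i (x i))) (fun _ => 2 * (r * (q * h) : ℝ) / K) fun i _ => by
      refine ⟨_, mem_singleton_self _, dist_pt_le _ _ fun a => ?_⟩
      rw [cq_val hK0 hK hu hq hg, cq_val hK0 hK hu hq hg]
      have b1 : ((i a * (q * h) + x i a : ℕ) : ℝ) ≤ (r * (q * h) : ℕ) := by
        exact_mod_cast (off_lt hq le_rfl (i a) (x i a)).le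
      have b2 : ((i0 a * (q * h) + x i0 a : ℕ) : ℝ) ≤ (r * (q * h) : ℕ) := by
        exact_mod_cast (off_lt hq le_rfl (i0 a) (x i0 a)).le
      have b3 : (0 : ℝ) ≤ (i a * (q * h) + x i a : ℕ) := Nat.cast_nonneg _
      have b4 : (0 : ℝ) ≤ (i0 a * (q * h) + x i0 a : ℕ) := Nat.cast_nonneg _
      push_cast at b1 b2 b3 b4 ⊢
      exact abs_le.2 ⟨by linarith, by linarith⟩
  rw [L_singleton, sum_const, nsmul_eq_mul] at this
  rw [Lc, image_image]
  refine (L_mono subset_union_right).trans (this.trans (le_of_eq ?_))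
  simp
  ring

end Pat

lemma var_unit {P : PW Bool} {K R g r h : ℕ} (hG : Good P K R g) (hr : 200 ≤ r)
    (hg : g = r * (8 * r * h)) (hp : P.μ true ≤ 1 / 2) {Z : Finset (Cell K)} {u : Fin 2 → ℕ}
    (hu : ∀ a, u a < R) (hZ : ∀ z ∈ Z, ulab g z ≠ u) (y : ℝ) :
    (1 / (8 * r ^ 2) ^ 2) ^ (r ^ 2) * Real.exp (-8) / (4 * R ^ 2) ≤
      P.N (P.Y univ (blk (ulab g) u) (FF Z 1 y)) := by
  set B := blk (ulab (K := K) g) u with hB
  have hmem : ∀ c, c ∈ B ↔ ulab g c = u := fun c => by simp [hB, blk]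
  have hR0 : (0 : ℝ) < R := by exact_mod_cast hG.hR
  have hK0 : 0 < K := by rw [hG.hK]; exact Nat.mul_pos hG.hR hG.hg
  have hh : 1 ≤ h := by
    rcases Nat.eq_zero_or_pos h with rfl | h0
    · have := hG.hg; omega
    · exact h0
  have hh0 : (0 : ℝ) < h := by exact_mod_cast hh
  have hr0 : (200 : ℝ) ≤ r := by exact_mod_cast hr
  have hgr : (g : ℝ) = r * (8 * r * h) := by rw [hg]; push_cast; ring
  have hKr : (K : ℝ) = R * (r * (8 * r * h)) := by rw [hG.hK, ← hgr]; push_cast; ring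
  let Yv : Finset (Cell K) → ℝ := fun S => P.Ex (fun η : Cell K → Bool =>
    Lc (S ∪ (on η \ B ∪ Z)) + y * ((on η \ B).card + S.card)) - P.Ex (FF Z 1 y)
  have hY : P.Y univ B (FF Z 1 y) = fun ω => Yv (on ω ∩ B) := by
    funext ω
    simp only [PW.Y, P.E_univ, Pi.sub_apply, Yv, PW.E, ← compl_eq_univ_sdiff]
    congr 2
    funext η
    have e1 : on (Bᶜ.piecewise η ω) = on η \ B ∪ on ω ∩ B := by
      rw [on_piecewise]
      ext c
      simp
    rw [FF, e1, card_union_of_disjoint (disjoint_sdiff_self_left.mono_right inter_subset_right), one_mul]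
    push_cast
    congr 2
    ext c
    simp only [mem_union]
    tauto
  have hq1 : r * (1 * h) ≤ g := by
    rw [hg]; gcongr; omega
  have hq8 : r * (8 * r * h) ≤ g := hg.ge
  have hgap : ∀ S ∈ pat hK0 g (8 * r) u r h, ∀ S' ∈ pat hK0 g 1 u r h,
      1 / R ≤ Yv S - Yv S' := by
    intro S hS S' hS'
    obtain ⟨a1, a2⟩ := mem_pat hK0 hG.hK hu (by omega) hq8 hS
    obtain ⟨b1, b2⟩ := mem_pat hK0 hG.hK hu le_rfl hq1 hS'
    have c1 := Lc_pat_ge hK0 hG.hK hu (by omega) hq8 (by omega) hS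
    have c2 := Lc_pat_le hK0 hG.hK hu le_rfl hq1 (by omega) hS'
    have c3 : 7 * r / 8 / R ≤ Lc S := by
      refine le_trans ?_ c1
      rw [hKr, ← mul_div_assoc, div_le_div_iff₀ hR0 (by positivity)]
      push_cast
      have : (0 : ℝ) ≤ r ^ 3 - r ^ 2 - 8 * r + 1 := by nlinarith
      nlinarith [mul_nonneg (mul_pos hR0 hh0).le this]
    have c4 : Lc S' ≤ r / 2 / R := by
      refine c2.trans (le_of_eq ?_)
      rw [hKr]; push_cast; field_simp; ring
    simp only [Yv, sub_sub_sub_cancel_right]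
    rw [← P.Ex_sub, ← P.Ex_const (ι := Cell K) (1 / (R : ℝ))]
    refine P.Ex_mono fun η => ?_
    have := karp_gap hG.hK hG.hR hG.hg (T := on η \ B ∪ Z) (fun c hc => (hmem c).1 (a1 hc))
      (fun c hc => (hmem c).1 (b1 hc)) (fun c hc => by
        rcases mem_union.1 hc with hc | hc
        · exact fun e => (mem_sdiff.1 hc).2 ((hmem c).2 e)
        · exact hZ c hc)
      (card_pos.1 (by rw [a2]; positivity)) (card_pos.1 (by rw [b2]; positivity))
    rw [a2, b2]
    have d1 : 1 / (R : ℝ) ≤ 7 * r / 8 / R - r / 2 / R - 52 / R := by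
      rw [← sub_div, ← sub_div]
      gcongr
      linarith
    linarith
  have hfin : ∀ q, 1 ≤ q → r * (q * h) ≤ g → (∀ S ∈ pat hK0 g q u r h, 1 / (2 * R) ≤ |Yv S|) →
      (1 / (8 * r ^ 2) ^ 2) ^ (r ^ 2) * Real.exp (-8) / (4 * R ^ 2) ≤
        P.N fun ω => Yv (on ω ∩ B) := by
    intro q hq hqg H
    refine le_trans ?_ (N_ge_patterns P B _ (r ^ 2)
      (fun S hS => mem_pat hK0 hG.hK hu hq hqg hS) Yv (by positivity) H)
    rw [card_pat hK0 hG.hK hu hq hqg, ← mul_assoc]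
    have h0 := P.nonneg true
    have e1 : (1 / (8 * r ^ 2) ^ 2 : ℝ) ^ (r ^ 2) ≤
        (((h ^ 2) ^ (r ^ 2) : ℕ) : ℝ) * P.μ true ^ (r ^ 2) := by
      push_cast
      rw [← mul_pow]
      gcongr
      have := hG.p1
      rw [hgr] at this
      rw [div_le_iff₀ (by positivity)]
      nlinarith
    have e2 : Real.exp (-8) ≤ (1 - P.μ true) ^ B.card := by
      have a1 : Real.exp (-(2 * P.μ true)) ≤ 1 - P.μ true := by
        rw [Real.exp_neg, inv_le_iff_one_le_mul₀ (Real.exp_pos _)]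
        have := Real.add_one_le_exp (2 * P.μ true)
        nlinarith
      refine le_trans ?_ (pow_le_pow_left₀ (Real.exp_pos _).le a1 _)
      rw [← Real.exp_nat_mul, Real.exp_le_exp]
      have a2 : (B.card : ℝ) ≤ g ^ 2 := by exact_mod_cast card_unit hG.hg u
      nlinarith [hG.p4]
    calc _ = (1 / (8 * r ^ 2) ^ 2) ^ (r ^ 2) * Real.exp (-8) * (1 / (2 * R)) ^ 2 := by
          field_simp; ring
      _ ≤ _ := by gcongr
  rw [hY]
  by_cases H : ∀ S ∈ pat hK0 g (8 * r) u r h, 1 / (2 * R) ≤ |Yv S|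
  · exact hfin _ (by omega) hq8 H
  · push Not at H
    obtain ⟨S, hS, H⟩ := H
    refine hfin 1 le_rfl hq1 fun S' hS' => le_trans ?_ (neg_le_abs _)
    have := hgap S hS S' hS'
    have e : (1 : ℝ) / R = 2 * (1 / (2 * R)) := by field_simp
    linarith [le_abs_self (Yv S)]

theorem var_lower : ∃ c : ℝ, 0 < c ∧ ∃ D : ℕ, 1 ≤ D ∧ ∀ (P : PW Bool) (K R g h : ℕ)
    (Z : Finset (Cell K)), Good P K R g → g = D * h → P.μ true ≤ 1 / 2 → 2 * Z.card ≤ R ^ 2 →
    ∀ y : ℝ, c ≤ P.N fun ω => FF Z 1 y ω - P.Ex (FF Z 1 y) := by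
  obtain ⟨r, hr⟩ : ∃ r : ℕ, 200 ≤ r := ⟨200, le_rfl⟩
  have hr0 : (0 : ℝ) < r := by exact_mod_cast (by omega : 0 < r)
  set c := (1 / (8 * (r : ℝ) ^ 2) ^ 2) ^ (r ^ 2) * Real.exp (-8) with hc
  have hc0 : 0 < c := by positivity
  refine ⟨c / 8, by positivity, r * (8 * r), Nat.mul_pos (by omega) (by omega), ?_⟩
  intro P K R g h Z hG hg hp hZ y
  have hR0 : (0 : ℝ) < R := by exact_mod_cast hG.hR
  set s := Fintype.piFinset fun _ : Fin 2 => range R with hs
  have hU : s.biUnion (blk (ulab (K := K) g)) = univ := by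
    ext c
    simp only [mem_biUnion, blk, mem_filter, mem_univ, true_and, iff_true]
    refine ⟨_, ?_, rfl⟩
    rw [Fintype.mem_piFinset]
    intro a
    rw [mem_range, ulab, Nat.div_lt_iff_lt_mul hG.hg, ← hG.hK]
    exact (c a).2
  have h1 := P.N_H_eq s (blk (ulab g)) (blk_disj _ _) (FF Z 1 y)
  have h2 := P.N_nonneg (P.H s (blk (ulab g)) (FF Z 1 y))
  rw [hU, P.E_univ] at h1
  have h3 : ∑ u ∈ s \ Z.image (ulab g), c / (4 * R ^ 2) ≤
      ∑ u ∈ s, P.N (P.Y univ (blk (ulab g) u) (FF Z 1 y)) := by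
    refine le_trans (sum_le_sum fun u hu => ?_)
      (sum_le_sum_of_subset_of_nonneg sdiff_subset fun _ _ _ => P.N_nonneg _)
    obtain ⟨a1, a2⟩ := mem_sdiff.1 hu
    exact var_unit (h := h) hG hr (by rw [hg]; ring) hp
      (fun a => mem_range.1 (Fintype.mem_piFinset.1 a1 a))
      (fun z hz e => a2 (mem_image.2 ⟨z, hz, e⟩)) y
  have h4 : R ^ 2 ≤ 2 * (s \ Z.image (ulab g)).card := by
    have a1 := le_card_sdiff (Z.image (ulab g)) s
    have a2 : s.card = R ^ 2 := by simp [hs]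
    have a3 : (Z.image (ulab g)).card ≤ Z.card := card_image_le
    omega
  have h5 : (R : ℝ) ^ 2 ≤ 2 * (s \ Z.image (ulab g)).card := by exact_mod_cast h4
  rw [sum_const, nsmul_eq_mul] at h3
  have h6 : c / 8 ≤ (s \ Z.image (ulab g)).card * (c / (4 * R ^ 2)) := by
    rw [← mul_div_assoc, div_le_div_iff₀ (by norm_num) (by positivity)]
    nlinarith
  have e : (FF Z 1 y - fun _ => P.Ex (FF Z 1 y)) = fun ω => FF Z 1 y ω - P.Ex (FF Z 1 y) := rfl
  rw [e] at h1
  linarith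

end Pool.Agent.TSP72
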